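import Pool.Agent.Work.MP_403fb3_lin.Interface2

/-!
# Block ABS: soluble groups where every abelian normal subgroup is a small Klein four-group
-/

set_option autoImplicit false

namespace Pool.Agent.Work.MP_403fb3_lin

open Matrix Subgroup
open scoped commutatorElement

namespace ABS

variable {G : Type} [Group G]

/-- the derived series as subgroups of the whole group -/
def ds (K : Subgroup G) : ℕ → Subgroup G
  | 0 => K
  | m + 1 => ⁅ds K m, ds K m⁆

theorem map_ds (K : Subgroup G) (m : ℕ) : (derivedSeries K m).map K.subtype = ds K m := by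
  induction m with
  | zero =>
    rw [derivedSeries_zero, ← MonoidHom.range_eq_map, Subgroup.range_subtype]
    rfl
  | succ m ih =>
    rw [derivedSeries_succ, map_commutator, ih]
    rfl

theorem ds_bot_iff (K : Subgroup G) (m : ℕ) : derivedSeries K m = ⊥ ↔ ds K m = ⊥ := by
  rw [← map_ds, Subgroup.map_eq_bot_iff_of_injective _ K.subtype_injective]

theorem HL_iff (K : Subgroup G) (d : ℕ) : HL K d ↔ ds K d = ⊥ ∧ ∀ m < d, ds K m ≠ ⊥ := by
  unfold HL
  simp only [ds_bot_iff, ne_eq]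

theorem ds_mono {K K' : Subgroup G} (h : K ≤ K') (m : ℕ) : ds K m ≤ ds K' m := by
  induction m with
  | zero => exact h
  | succ m ih => exact commutator_mono ih ih

theorem ds_le (K : Subgroup G) (m : ℕ) : ds K (m + 1) ≤ ds K m := by
  show ⁅ds K m, ds K m⁆ ≤ ds K m
  rw [commutator_le]
  intro a ha b hb
  rw [commutatorElement_def]
  exact Subgroup.mul_mem _ (Subgroup.mul_mem _ (Subgroup.mul_mem _ ha hb) (Subgroup.inv_mem _ ha))
    (Subgroup.inv_mem _ hb)

theorem ds_anti (K : Subgroup G) {m m' : ℕ} (h : m ≤ m') : ds K m' ≤ ds K m :=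
  antitone_nat_of_succ_le (ds_le K) h

theorem ds_map_conj (K : Subgroup G) {g : G} (hg : g ∈ K) (m : ℕ) :
    (ds K m).map (MulAut.conj g).toMonoidHom ≤ ds K m := by
  induction m with
  | zero =>
    rintro _ ⟨x, hx, rfl⟩
    exact K.mul_mem (K.mul_mem hg hx) (K.inv_mem hg)
  | succ m ih =>
    show (⁅ds K m, ds K m⁆ : Subgroup G).map _ ≤ ⁅ds K m, ds K m⁆
    rw [map_commutator]
    exact commutator_mono ih ih

theorem ds_conj (K : Subgroup G) (m : ℕ) {g x : G} (hg : g ∈ K) (hx : x ∈ ds K m) :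
    g * x * g⁻¹ ∈ ds K m :=
  ds_map_conj K hg m ⟨x, hx, rfl⟩

theorem conc {S : Subgroup G} {d : ℕ} {x y : G} (hx : x ∈ S) (hy : y ∈ S)
    (h0 : ds S (d + 1) = ⊥) (h : ds (closure ({x, y} : Set G)) d ≠ ⊥) :
    HL (closure ({x, y} : Set G)) (d + 1) := by
  have hle : closure ({x, y} : Set G) ≤ S := by
    rw [closure_le]
    rintro z (rfl | rfl)
    · exact hx
    · exact hy
  rw [HL_iff]
  exact ⟨eq_bot_iff.2 ((ds_mono hle _).trans h0.le), fun m hm hb =>
    h (eq_bot_iff.2 ((ds_anti _ (by omega : m ≤ d)).trans hb.le))⟩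

/-! ## The symmetric group of three letters -/

abbrev P3 := Equiv.Perm (Fin 3)

set_option maxRecDepth 100000

theorem f0 : ∀ a b : P3, (a * b * a⁻¹ * b⁻¹) * (a * b * a⁻¹ * b⁻¹) * (a * b * a⁻¹ * b⁻¹) = 1 := by
  decide

theorem f1 : ∀ a b : P3, a * a * a = 1 → b * b * b = 1 → a * b * a⁻¹ * b⁻¹ = 1 := by
  decide

theorem f2 : ∀ a : P3, a * a * a ≠ 1 → a * a = 1 := by
  decide

theorem f3 : ∀ a : P3, a * a * a = 1 → a ≠ 1 → ∀ x, a x ≠ x := by
  decide

theorem f4' : ∀ a b : P3, (a * a * a = 1 ∧ a ≠ 1) ∧ b * b * b ≠ 1 → a * b * a⁻¹ * b⁻¹ ≠ 1 := by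
  decide

theorem f4 (a b : P3) (h1 : a * a * a = 1) (h2 : a ≠ 1) (h3 : b * b * b ≠ 1) :
    a * b * a⁻¹ * b⁻¹ ≠ 1 := f4' a b ⟨⟨h1, h2⟩, h3⟩

theorem f5 : ∀ a b : P3, a * a * a = 1 → b * b * b = 1 → (a * b) * (a * b) * (a * b) = 1 := by
  decide

theorem f6 : ∀ a : P3, a * a * a = 1 → a⁻¹ * a⁻¹ * a⁻¹ = 1 := by
  decide

/-- the subgroup of order three -/
def A3 : Subgroup P3 where
  carrier := {a | a * a * a = 1}
  mul_mem' := fun ha hb => f5 _ _ ha hb
  one_mem' := by simp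
  inv_mem' := fun ha => f6 _ ha

/-- the action on the three non-trivial elements of a Klein four-group -/
theorem exists_rho {S A : Subgroup G} (hA : ∀ g ∈ S, ∀ x ∈ A, g * x * g⁻¹ ∈ A) {e f : G}
    (he : e ≠ 1) (hf : f ≠ 1) (hef : e ≠ f) (hff : f * f = 1)
    (hm : ∀ g, g ∈ A ↔ g = 1 ∨ g = e ∨ g = f ∨ g = e * f) :
    ∃ (ρ : S →* P3) (φ : Fin 3 → G), (∀ i, φ i ∈ A ∧ φ i ≠ 1) ∧
      (∀ x ∈ A, x ≠ 1 → ∃ i, φ i = x) ∧ Function.Injective φ ∧
      ∀ (g : S) (i : Fin 3), φ (ρ g i) = g * φ i * (g : G)⁻¹ := by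
  classical
  have hef1 : e * f ≠ 1 := by
    intro h
    apply hef
    rw [eq_inv_of_mul_eq_one_left h, inv_eq_of_mul_eq_one_left hff]
  let X := {x : G // x ∈ A ∧ x ≠ 1}
  let act : MulAction S X :=
    { smul := fun g x => ⟨g * x.1 * (g : G)⁻¹, hA g g.2 _ x.2.1, fun h => x.2.2 (by
        have := congrArg (fun t => (g : G)⁻¹ * t * g) h
        simpa [mul_assoc] using this)⟩
      one_smul := fun x => Subtype.ext (show ((1 : S) : G) * x.1 * ((1 : S) : G)⁻¹ = x.1 by simp)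
      mul_smul := fun g h x => Subtype.ext (show ((g * h : S) : G) * x.1 * ((g * h : S) : G)⁻¹ =
        g * (h * x.1 * (h : G)⁻¹) * (g : G)⁻¹ by simp [mul_assoc]) }
  let ψ : Fin 3 → X := ![⟨e, (hm e).2 (by simp), he⟩, ⟨f, (hm f).2 (by simp), hf⟩,
    ⟨e * f, (hm _).2 (by simp), hef1⟩]
  have h0 : (ψ 0).1 = e := rfl
  have h1 : (ψ 1).1 = f := rfl
  have h2 : (ψ 2).1 = e * f := rfl
  have e02 : e ≠ e * f := fun h => hf (by
    have := mul_left_cancel (a := e) (b := 1) (c := f) (by rw [mul_one]; exact h)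
    exact this.symm)
  have e12 : f ≠ e * f := fun h => he (by
    have := mul_right_cancel (a := 1) (b := f) (c := e) (by rw [one_mul]; exact h)
    exact this.symm)
  have hinj : Function.Injective ψ := by
    intro i j hij
    have hij' : (ψ i).1 = (ψ j).1 := congrArg Subtype.val hij
    fin_cases i <;> fin_cases j <;> first
      | rfl
      | exact absurd hij' hef
      | exact absurd hij' hef.symm
      | exact absurd hij' e02
      | exact absurd hij' e02.symm
      | exact absurd hij' e12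
      | exact absurd hij' e12.symm
  have hsurj : Function.Surjective ψ := by
    rintro ⟨x, hx, hx1⟩
    rcases (hm x).1 hx with h | h | h | h
    · exact absurd h hx1
    · exact ⟨0, Subtype.ext h.symm⟩
    · exact ⟨1, Subtype.ext h.symm⟩
    · exact ⟨2, Subtype.ext h.symm⟩
  let E : Fin 3 ≃ X := Equiv.ofBijective ψ ⟨hinj, hsurj⟩
  let ρ : S →* P3 :=
    { toFun := fun g => (E.trans (MulAction.toPerm g)).trans E.symm
      map_one' := by
        ext i
        simp
      map_mul' := by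
        intro g h
        ext i
        simp [mul_smul] }
  refine ⟨ρ, fun i => (ψ i).1, fun i => (ψ i).2, ?_, ?_, ?_⟩
  · intro x hx hx1
    obtain ⟨i, hi⟩ := hsurj ⟨x, hx, hx1⟩
    exact ⟨i, congrArg Subtype.val hi⟩
  · intro i j hij
    exact hinj (Subtype.ext hij)
  · intro g i
    have : E (ρ g i) = g • E i := by
      show E (E.symm (g • E i)) = g • E i
      rw [Equiv.apply_symm_apply]
    exact congrArg Subtype.val this

/-- the main case -/
theorem main {S A : Subgroup G} (hAS : A ≤ S) (hA : ∀ g ∈ S, ∀ x ∈ A, g * x * g⁻¹ ∈ A)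
    (hV : V4case S A) (h2 : ds S 2 ≠ ⊥) :
    ds S 3 = ⊥ ∧ ∃ x ∈ S, ∃ y ∈ S, ds (closure ({x, y} : Set G)) 2 ≠ ⊥ := by
  classical
  obtain ⟨e, f, he, hf, hef, hee, hff, hcomm, hm, hcent⟩ := hV
  obtain ⟨ρ, φ, hφ, hφs, hφi, hρ⟩ := exists_rho hA he hf hef hff hm
  have heA : e ∈ A := (hm e).2 (by simp)
  have hfA : f ∈ A := (hm f).2 (by simp)
  -- `A` is abelian of exponent two
  have hab : ∀ x ∈ A, ∀ y ∈ A, x * y = y * x := by
    have hce : ∀ x ∈ A, x * e = e * x := by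
      intro x hx
      rcases (hm x).1 hx with h | h | h | h <;> subst h
      · simp
      · rfl
      · exact hcomm.symm
      · rw [mul_assoc, ← hcomm]
    have hcf : ∀ x ∈ A, x * f = f * x := by
      intro x hx
      rcases (hm x).1 hx with h | h | h | h <;> subst h
      · simp
      · exact hcomm
      · rfl
      · rw [← mul_assoc, ← hcomm]
    intro x hx y hy
    rcases (hm y).1 hy with h | h | h | h
    · subst h
      simp
    · rw [h]
      exact hce x hx
    · rw [h]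
      exact hcf x hx
    · rw [h, ← mul_assoc, hce x hx, mul_assoc, hcf x hx, mul_assoc]
  have hexp : ∀ x ∈ A, x * x = 1 := by
    intro x hx
    rcases (hm x).1 hx with h | h | h | h <;> subst h
    · simp
    · exact hee
    · exact hff
    · calc e * f * (e * f) = e * (f * e) * f := by simp only [mul_assoc]
        _ = (e * e) * (f * f) := by rw [← hcomm]; simp only [mul_assoc]
        _ = 1 := by rw [hee, hff, one_mul]
  have k1 : ∀ g : S, ρ g = 1 → (g : G) ∈ A := by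
    intro g hg
    have hfix : ∀ x ∈ A, (g : G) * x = x * g := by
      intro x hx
      by_cases hx1 : x = 1
      · rw [hx1]
        simp
      · obtain ⟨i, rfl⟩ := hφs x hx hx1
        have := hρ g i
        rw [hg] at this
        exact (eq_mul_inv_iff_mul_eq.1 this).symm
    exact hcent g g.2 (hfix e heA) (hfix f hfA)
  have k2 : ∀ g : S, (g : G) ∈ A → ρ g = 1 := by
    intro g hg
    ext i
    have h1 : φ (ρ g i) = φ i := by
      rw [hρ, hab _ hg _ (hφ i).1, mul_inv_cancel_right]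
    rw [hφi h1]
    rfl
  have k3 : ∀ g : S, ρ g * ρ g * ρ g = 1 → ρ g ≠ 1 → ∀ x ∈ A, x ≠ 1 → (g : G) * x * (g : G)⁻¹ ≠ x := by
    intro g h1 h2 x hx hx1 h
    obtain ⟨i, rfl⟩ := hφs x hx hx1
    rw [← hρ] at h
    exact f3 _ h1 h2 i (hφi h)
  have k4 : ∀ g : S, ρ g ≠ 1 → ∃ c ∈ A, (g : G) * c * (g : G)⁻¹ ≠ c := by
    intro g hg
    by_contra hcon
    push Not at hcon
    apply hg
    ext i
    have h1 : φ (ρ g i) = φ i := by rw [hρ, hcon _ (hφ i).1]
    rw [hφi h1]
    rfl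
  -- the derived series
  have hB : ds S 1 ≤ (A3.comap ρ).map S.subtype := by
    show ⁅S, S⁆ ≤ _
    rw [commutator_le]
    intro g hg h hh
    refine ⟨⁅(⟨g, hg⟩ : S), (⟨h, hh⟩ : S)⁆, ?_, rfl⟩
    show ρ ⁅(⟨g, hg⟩ : S), (⟨h, hh⟩ : S)⁆ * ρ ⁅(⟨g, hg⟩ : S), (⟨h, hh⟩ : S)⁆ *
      ρ ⁅(⟨g, hg⟩ : S), (⟨h, hh⟩ : S)⁆ = 1
    rw [map_commutatorElement, commutatorElement_def]
    exact f0 _ _
  have h2A : ds S 2 ≤ A := by
    show ⁅ds S 1, ds S 1⁆ ≤ _
    rw [commutator_le]
    intro g hg h hh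
    obtain ⟨g', hg', rfl⟩ := hB hg
    obtain ⟨h', hh', rfl⟩ := hB hh
    refine k1 ⁅g', h'⁆ ?_
    rw [map_commutatorElement, commutatorElement_def]
    exact f1 _ _ hg' hh'
  have h3 : ds S 3 = ⊥ := by
    rw [eq_bot_iff]
    show ⁅ds S 2, ds S 2⁆ ≤ ⊥
    rw [commutator_le]
    intro g hg h hh
    rw [mem_bot, commutatorElement_eq_one_iff_mul_comm]
    exact hab g (h2A hg) h (h2A hh)
  refine ⟨h3, ?_⟩
  -- two elements whose images do not commute
  obtain ⟨g, h, hgh⟩ : ∃ g h : S, ρ ⁅g, h⁆ ≠ 1 := by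
    by_contra hcon
    push Not at hcon
    apply h2
    have h1A : ds S 1 ≤ A := by
      show ⁅S, S⁆ ≤ _
      rw [commutator_le]
      intro g hg h hh
      exact k1 ⁅(⟨g, hg⟩ : S), (⟨h, hh⟩ : S)⁆ (hcon _ _)
    rw [eq_bot_iff]
    show ⁅ds S 1, ds S 1⁆ ≤ ⊥
    rw [commutator_le]
    intro g hg h hh
    rw [mem_bot, commutatorElement_eq_one_iff_mul_comm]
    exact hab g (h1A hg) h (h1A hh)
  have ht3 : ρ ⁅g, h⁆ * ρ ⁅g, h⁆ * ρ ⁅g, h⁆ = 1 := by
    rw [map_commutatorElement, commutatorElement_def]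
    exact f0 _ _
  -- an element acting as a transposition
  obtain ⟨s, hs⟩ : ∃ s : S, ρ s * ρ s * ρ s ≠ 1 := by
    by_contra hcon
    push Not at hcon
    apply hgh
    rw [map_commutatorElement, commutatorElement_def]
    exact f1 _ _ (hcon g) (hcon h)
  obtain ⟨y, hy3, hyy⟩ : ∃ y : S, ρ y * ρ y * ρ y ≠ 1 ∧ (y : G) * y ≠ 1 := by
    by_cases hss : (s : G) * s = 1
    · obtain ⟨c, hc, hcs⟩ := k4 s (by
        intro h1
        apply hs
        rw [h1]
        simp)
      refine ⟨s * ⟨c, hAS hc⟩, ?_, ?_⟩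
      · rw [map_mul, k2 ⟨c, hAS hc⟩ hc, mul_one]
        exact hs
      · intro h1
        apply hcs
        have h1' : (s : G) * c * (s * c) = 1 := h1
        have h2' : (s : G)⁻¹ = s := inv_eq_of_mul_eq_one_left hss
        have h3' : c⁻¹ = c := inv_eq_of_mul_eq_one_left (hexp c hc)
        rw [h2']
        rw [← mul_assoc] at h1'
        rw [eq_inv_of_mul_eq_one_left h1', h3']
    · exact ⟨s, hs, hss⟩
  have hyA : (y : G) * y ∈ A := by
    have := k1 (y * y) (by
      rw [map_mul]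
      exact f2 _ hy3)
    exact this
  refine ⟨(⁅g, h⁆ : S), SetLike.coe_mem _, y, y.2, ?_⟩
  set t : S := ⁅g, h⁆ with ht
  set K := closure ({(t : G), (y : G)} : Set G) with hK
  have htK : (t : G) ∈ K := subset_closure (by simp)
  have hyK : (y : G) ∈ K := subset_closure (by simp)
  have hτ1 : ρ ⁅t, y⁆ ≠ 1 := by
    rw [map_commutatorElement, commutatorElement_def]
    exact f4 _ _ ht3 hgh hy3
  have hτ3 : ρ ⁅t, y⁆ * ρ ⁅t, y⁆ * ρ ⁅t, y⁆ = 1 := by
    rw [map_commutatorElement, commutatorElement_def]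
    exact f0 _ _
  have hτK : ((⁅t, y⁆ : S) : G) ∈ ds K 1 := commutator_mem_commutator htK hyK
  set τ : G := ((⁅t, y⁆ : S) : G) with hτ
  set z : G := (y : G) * y with hz
  have hzK : z ∈ K := K.mul_mem hyK hyK
  have hhK : ⁅τ, z⁆ ∈ ds K 1 := commutator_mem_commutator (ds_le K 0 hτK) hzK
  have hτS : τ ∈ S := SetLike.coe_mem _
  have hhA : ⁅τ, z⁆ ∈ A := by
    rw [commutatorElement_def]
    exact A.mul_mem (hA τ hτS z hyA) (A.inv_mem hyA)
  have hh1 : ⁅τ, z⁆ ≠ 1 := by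
    intro h1
    rw [commutatorElement_def] at h1
    refine k3 ⁅t, y⁆ hτ3 hτ1 z hyA hyy ?_
    exact mul_inv_eq_one.1 h1
  have hfin : ⁅τ, ⁅τ, z⁆⁆ ∈ ds K 2 := commutator_mem_commutator hτK hhK
  intro hbot
  rw [hbot, mem_bot, commutatorElement_def] at hfin
  refine k3 ⁅t, y⁆ hτ3 hτ1 ⁅τ, z⁆ hhA hh1 ?_
  exact mul_inv_eq_one.1 hfin

end ABS

open ABS in
/-- **Block ABS.** -/
theorem p_ABS : S_ABS := by
  intro G _ S d hd hV
  rw [HL_iff] at hd
  obtain ⟨h0, h1⟩ := hd
  rcases d with _ | _ | _ | d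
  · refine ⟨1, S.one_mem, 1, S.one_mem, ?_⟩
    rw [HL_iff]
    refine ⟨?_, fun m hm => absurd hm (by omega)⟩
    rw [eq_bot_iff]
    refine le_trans (ds_mono ?_ 0) h0.le
    rw [closure_le]
    rintro z (rfl | rfl) <;> exact S.one_mem
  · obtain ⟨x, hx, hx1⟩ : ∃ x ∈ S, x ≠ 1 := by
      by_contra hcon
      push Not at hcon
      exact h1 0 (by omega) (eq_bot_iff.2 fun x hx => mem_bot.2 (hcon x hx))
    refine ⟨x, hx, x, hx, conc hx hx h0 ?_⟩
    intro hb
    have : x ∈ closure ({x, x} : Set G) := subset_closure (by simp)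
    exact hx1 (mem_bot.1 (hb ▸ this))
  · obtain ⟨x, hx, y, hy, hxy⟩ : ∃ x ∈ S, ∃ y ∈ S, ⁅x, y⁆ ≠ 1 := by
      by_contra hcon
      push Not at hcon
      refine h1 1 (by omega) (eq_bot_iff.2 ?_)
      show ⁅S, S⁆ ≤ ⊥
      rw [commutator_le]
      intro x hx y hy
      exact mem_bot.2 (hcon x hx y hy)
    refine ⟨x, hx, y, hy, conc hx hy h0 ?_⟩
    intro hb
    have : ⁅x, y⁆ ∈ ds (closure ({x, y} : Set G)) 1 :=
      commutator_mem_commutator (subset_closure (by simp)) (subset_closure (by simp))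
    exact hxy (mem_bot.1 (hb ▸ this))
  · have h2 : ds S 2 ≠ ⊥ := h1 2 (by omega)
    have hAS : ds S (d + 2) ≤ S := ds_anti S (Nat.zero_le _)
    have hAn : ∀ g ∈ S, ∀ x ∈ ds S (d + 2), g * x * g⁻¹ ∈ ds S (d + 2) :=
      fun g hg x hx => ds_conj S _ hg hx
    have hV4 := hV (ds S (d + 2)) hAS (h1 (d + 2) (by omega)) (by
      intro x hx y hy
      have : ⁅x, y⁆ ∈ ds S (d + 3) := commutator_mem_commutator hx hy
      have h0' : ds S (d + 3) = ⊥ := h0
      rw [h0', mem_bot] at this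
      exact commutatorElement_eq_one_iff_mul_comm.1 this) hAn
    rcases hV4 with h | h
    · exact absurd ((ds_bot_iff S 2).1 h) h2
    · obtain ⟨h3, x, hx, y, hy, hxy⟩ := main hAS hAn h h2
      have hd0 : d = 0 := by
        by_contra hne
        exact h1 3 (by omega) h3
      subst hd0
      exact ⟨x, hx, y, hy, conc hx hy h0 hxy⟩

end Pool.Agent.Work.MP_403fb3_lin
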