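import Pool.Agent.Work.MP_403fb3_lin.B8Def2

/-!
# Block B8F (helper45): the base pair in dimension eight
-/

set_option autoImplicit false

namespace Pool.Agent.Work.MP_403fb3_lin

open Matrix Subgroup
open scoped commutatorElement
open Pool.Agent.Work.MP_403fb3_al_helper9

namespace B8F

/-- units which commute or anticommute with every `Y p` -/
def Kg {R : Type} [Ring R] (Y : ℕ → R) : Subgroup Rˣ where
  carrier := {g | ∀ p < 128, (g : R) * Y p = Y p * g ∨ (g : R) * Y p = -(Y p * g)}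
  one_mem' := fun p _ => Or.inl (by simp)
  mul_mem' := by
    rintro g h h1 h2 p hp
    rcases h1 p hp with a | a <;> rcases h2 p hp with b | b
    · left
      rw [Units.val_mul, mul_assoc, b, ← mul_assoc, a, mul_assoc]
    · right
      rw [Units.val_mul, mul_assoc, b, mul_neg, ← mul_assoc, a, mul_assoc]
    · right
      rw [Units.val_mul, mul_assoc, b, ← mul_assoc, a, neg_mul, mul_assoc]
    · left
      rw [Units.val_mul, mul_assoc, b, mul_neg, ← mul_assoc, a, neg_mul, neg_neg, mul_assoc]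
  inv_mem' := by
    rintro g h1 p hp
    rcases h1 p hp with a | a
    · left
      calc (↑g⁻¹ : R) * Y p = ↑g⁻¹ * (Y p * g) * ↑g⁻¹ := by simp [mul_assoc]
        _ = ↑g⁻¹ * (g * Y p) * ↑g⁻¹ := by rw [a]
        _ = Y p * ↑g⁻¹ := by simp
    · right
      calc (↑g⁻¹ : R) * Y p = -(↑g⁻¹ * (-(Y p * g)) * ↑g⁻¹) := by simp [mul_assoc]
        _ = -(↑g⁻¹ * (g * Y p) * ↑g⁻¹) := by rw [a]
        _ = -(Y p * ↑g⁻¹) := by simp

/-- the group `{1, -1}` -/
def Zg (R : Type) [Ring R] : Subgroup Rˣ where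
  carrier := {g | g = 1 ∨ g = -1}
  one_mem' := Or.inl rfl
  mul_mem' := by
    rintro g h (rfl | rfl) (rfl | rfl)
    · left; simp
    · right; simp
    · right; simp
    · left; simp
  inv_mem' := by
    rintro g (rfl | rfl)
    · left; simp
    · right; simp

theorem Zg_comm {R : Type} [Ring R] {g h : Rˣ} (hg : g ∈ Zg R) (hh : h ∈ Zg R) : g * h = h * g := by
  rcases hg with rfl | rfl <;> rcases hh with rfl | rfl <;> simp

theorem comm_pos {R : Type} [Ring R] {a b : Rˣ} {y : R} (ha : (a : R) * y = y * a)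
    (hb : (b : R) * y = y * b) : ((a * b⁻¹ : Rˣ) : R) * y = y * ((a * b⁻¹ : Rˣ) : R) := by
  have h1 : (↑b⁻¹ : R) * y = y * ↑b⁻¹ := by
    calc (↑b⁻¹ : R) * y = ↑b⁻¹ * (y * b) * ↑b⁻¹ := by simp [mul_assoc]
      _ = ↑b⁻¹ * (b * y) * ↑b⁻¹ := by rw [hb]
      _ = y * ↑b⁻¹ := by simp
  rw [Units.val_mul, mul_assoc, h1, ← mul_assoc, ha, mul_assoc]

theorem comm_neg {R : Type} [Ring R] {a b : Rˣ} {y : R} (ha : (a : R) * y = -(y * a))
    (hb : (b : R) * y = -(y * b)) : ((a * b⁻¹ : Rˣ) : R) * y = y * ((a * b⁻¹ : Rˣ) : R) := by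
  have h1 : (↑b⁻¹ : R) * y = -(y * ↑b⁻¹) := by
    calc (↑b⁻¹ : R) * y = -(↑b⁻¹ * (-(y * b)) * ↑b⁻¹) := by simp [mul_assoc]
      _ = -(↑b⁻¹ * (b * y) * ↑b⁻¹) := by rw [hb]
      _ = -(y * ↑b⁻¹) := by simp
  rw [Units.val_mul, mul_assoc, h1, mul_neg, ← mul_assoc, ha, neg_mul, neg_neg, mul_assoc]

theorem grp {G : Type} [Group G] {g h c : G} (hc : c = g * h * g⁻¹ * h⁻¹) (hz : ∀ z : G, c * z = z * c)
    (hh : ∀ z : G, (h * h) * z = z * (h * h)) : c * c = 1 := by
  have e1 : g * h = c * (h * g) := by rw [hc]; group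
  have e2 : g * (h * h) = c * c * ((h * h) * g) := by
    calc g * (h * h) = (g * h) * h := by rw [mul_assoc]
      _ = c * (h * g) * h := by rw [e1]
      _ = c * h * (g * h) := by simp only [mul_assoc]
      _ = c * h * (c * (h * g)) := by rw [e1]
      _ = c * (h * c) * (h * g) := by simp only [mul_assoc]
      _ = c * (c * h) * (h * g) := by rw [hz h]
      _ = c * c * ((h * h) * g) := by simp only [mul_assoc]
  rw [← hh g] at e2
  have e3 : 1 * (h * h * g) = c * c * (h * h * g) := by rw [one_mul]; exact e2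
  exact (mul_right_cancel e3).symm

variable {F : Type} [Field F]

theorem key (Y : ℕ → Matrix (Fin 8) (Fin 8) F)
    (hC : ∀ M : Matrix (Fin 8) (Fin 8) F, (∀ p < 128, M * Y p = Y p * M) →
      ∃ c : F, M = scalar (Fin 8) c)
    {g h : (Matrix (Fin 8) (Fin 8) F)ˣ} (hg : g ∈ Kg Y) (hh : h ∈ Kg Y) :
    ⁅g, h⁆ ∈ Zg (Matrix (Fin 8) (Fin 8) F) := by
  have hsc : ∀ u : (Matrix (Fin 8) (Fin 8) F)ˣ, (∃ c : F, (u : Matrix (Fin 8) (Fin 8) F) = scalar (Fin 8) c) →
      ∀ z : (Matrix (Fin 8) (Fin 8) F)ˣ, u * z = z * u := by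
    rintro u ⟨c, hc⟩ z
    apply Units.ext
    rw [Units.val_mul, Units.val_mul, hc]
    exact scalar_commute c (fun r => mul_comm c r) _
  have e0 : ⁅g, h⁆ = (g * h) * (h * g)⁻¹ := by
    rw [commutatorElement_def]
    group
  have e1 : ∃ c : F, ((⁅g, h⁆ : (Matrix (Fin 8) (Fin 8) F)ˣ) : Matrix (Fin 8) (Fin 8) F) =
      scalar (Fin 8) c := by
    apply hC
    intro p hp
    rw [e0]
    have hgh : ∀ a b : (Matrix (Fin 8) (Fin 8) F)ˣ, (a : Matrix (Fin 8) (Fin 8) F) * Y p = Y p * a →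
        (b : Matrix (Fin 8) (Fin 8) F) * Y p = Y p * b →
        ((a * b : (Matrix (Fin 8) (Fin 8) F)ˣ) : Matrix (Fin 8) (Fin 8) F) * Y p =
          Y p * ((a * b : (Matrix (Fin 8) (Fin 8) F)ˣ) : Matrix (Fin 8) (Fin 8) F) := by
      intro a b ha hb
      rw [Units.val_mul, mul_assoc, hb, ← mul_assoc, ha, mul_assoc]
    have hgn : ∀ a b : (Matrix (Fin 8) (Fin 8) F)ˣ, (a : Matrix (Fin 8) (Fin 8) F) * Y p = -(Y p * a) →
        (b : Matrix (Fin 8) (Fin 8) F) * Y p = -(Y p * b) →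
        ((a * b : (Matrix (Fin 8) (Fin 8) F)ˣ) : Matrix (Fin 8) (Fin 8) F) * Y p =
          Y p * ((a * b : (Matrix (Fin 8) (Fin 8) F)ˣ) : Matrix (Fin 8) (Fin 8) F) := by
      intro a b ha hb
      rw [Units.val_mul, mul_assoc, hb, mul_neg, ← mul_assoc, ha, neg_mul, neg_neg, mul_assoc]
    have hgp : ∀ a b : (Matrix (Fin 8) (Fin 8) F)ˣ, (a : Matrix (Fin 8) (Fin 8) F) * Y p = Y p * a →
        (b : Matrix (Fin 8) (Fin 8) F) * Y p = -(Y p * b) →
        ((a * b : (Matrix (Fin 8) (Fin 8) F)ˣ) : Matrix (Fin 8) (Fin 8) F) * Y p =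
          -(Y p * ((a * b : (Matrix (Fin 8) (Fin 8) F)ˣ) : Matrix (Fin 8) (Fin 8) F)) := by
      intro a b ha hb
      rw [Units.val_mul, mul_assoc, hb, mul_neg, ← mul_assoc, ha, mul_assoc]
    have hgq : ∀ a b : (Matrix (Fin 8) (Fin 8) F)ˣ, (a : Matrix (Fin 8) (Fin 8) F) * Y p = -(Y p * a) →
        (b : Matrix (Fin 8) (Fin 8) F) * Y p = Y p * b →
        ((a * b : (Matrix (Fin 8) (Fin 8) F)ˣ) : Matrix (Fin 8) (Fin 8) F) * Y p =
          -(Y p * ((a * b : (Matrix (Fin 8) (Fin 8) F)ˣ) : Matrix (Fin 8) (Fin 8) F)) := by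
      intro a b ha hb
      rw [Units.val_mul, mul_assoc, hb, ← mul_assoc, ha, neg_mul, mul_assoc]
    rcases hg p hp with a | a <;> rcases hh p hp with b | b
    · exact comm_pos (hgh g h a b) (hgh h g b a)
    · exact comm_neg (hgp g h a b) (hgq h g b a)
    · exact comm_neg (hgq g h a b) (hgp h g b a)
    · exact comm_pos (hgn g h a b) (hgn h g b a)
  have e2 : ∃ c : F, ((h * h : (Matrix (Fin 8) (Fin 8) F)ˣ) : Matrix (Fin 8) (Fin 8) F) =
      scalar (Fin 8) c := by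
    apply hC
    intro p hp
    rcases hh p hp with b | b
    · rw [Units.val_mul, mul_assoc, b, ← mul_assoc, b, mul_assoc]
    · rw [Units.val_mul, mul_assoc, b, mul_neg, ← mul_assoc, b, neg_mul, neg_neg, mul_assoc]
  have e3 : ⁅g, h⁆ * ⁅g, h⁆ = 1 :=
    grp (commutatorElement_def g h) (hsc _ e1) (hsc _ e2)
  obtain ⟨c, hc⟩ := e1
  have e4 := congrArg Units.val e3
  rw [Units.val_mul, hc, ← map_mul, Units.val_one] at e4
  have e5 : c * c = 1 := by
    have e6 := congrFun (congrFun e4 0) 0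
    simpa [scalar_apply] using e6
  rcases mul_self_eq_one_iff.1 e5 with h1 | h1
  · left
    apply Units.ext
    rw [hc, h1, map_one, Units.val_one]
  · right
    apply Units.ext
    rw [hc, h1, map_neg, map_one, Units.val_neg, Units.val_one]

end B8F

open B8F in
theorem p_B8F (hM : S_B8M) (hX : S_B8X) (hU : S_B8U) (hW : S_B8W) : S_B8F := by
  intro F _ _ h2
  obtain ⟨Y, hY, hC⟩ := hM F h2
  have h2R : IsUnit (2 : Matrix (Fin 8) (Fin 8) F) := by
    have h := (IsUnit.mk0 (2 : F) h2).map (scalar (Fin 8))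
    rwa [map_ofNat] at h
  obtain ⟨x, y, hx, hy⟩ := hX _ Y h2R hY
  have hpm : ∀ p < 128, Y (p ^^^ 1) = -Y p := by
    intro p hp
    have e : B8.pm 1 p = p ^^^ 1 := by
      have h3 : ∀ p < 128, B8.pm 1 p = p ^^^ 1 := by decide +kernel
      exact h3 p hp
    have h3 := hY.1 1 (by norm_num) p hp
    rw [hY.2.2, e] at h3
    rw [← h3, neg_one_mul]
  have hD6 : ∀ w ∈ derivedSeries F2 6, ev2 x y w ∈ Kg Y := by
    intro w hw p hp
    rcases hU _ Y x y hY hx hy w hw p hp with h | h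
    · exact Or.inl h
    · right
      rw [h, hpm p hp, neg_mul]
  have hD7 : ∀ w ∈ derivedSeries F2 7, ev2 x y w ∈ Zg (Matrix (Fin 8) (Fin 8) F) := by
    intro w hw
    have h5 : ev2 x y w ∈ (⁅derivedSeries F2 6, derivedSeries F2 6⁆).map (ev2 x y) :=
      Subgroup.mem_map_of_mem _ hw
    rw [Subgroup.map_commutator] at h5
    have h4 : (derivedSeries F2 6).map (ev2 x y) ≤ Kg Y := by
      rintro _ ⟨w', hw', rfl⟩
      exact hD6 w' hw'
    exact (Subgroup.commutator_le.2 fun g hg h hh => key Y hC hg hh)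
      (Subgroup.commutator_mono h4 h4 h5)
  have hD8 : ∀ w ∈ derivedSeries F2 8, ev2 x y w = 1 := by
    intro w hw
    have h5 : ev2 x y w ∈ (⁅derivedSeries F2 7, derivedSeries F2 7⁆).map (ev2 x y) :=
      Subgroup.mem_map_of_mem _ hw
    rw [Subgroup.map_commutator] at h5
    have h4 : (derivedSeries F2 7).map (ev2 x y) ≤ Zg (Matrix (Fin 8) (Fin 8) F) := by
      rintro _ ⟨w', hw', rfl⟩
      exact hD7 w' hw'
    have h6 : ⁅Zg (Matrix (Fin 8) (Fin 8) F), Zg (Matrix (Fin 8) (Fin 8) F)⁆ ≤ ⊥ :=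
      Subgroup.commutator_le.2 fun g hg h hh => by
        rw [Subgroup.mem_bot, commutatorElement_eq_one_iff_mul_comm]
        exact Zg_comm hg hh
    exact Subgroup.mem_bot.1 (h6 (Subgroup.commutator_mono h4 h4 h5))
  obtain ⟨w, hw, w', hw', hA, hB⟩ := hW _ Y x y hx hy
  have hmem : ⁅w, w'⁆ ∈ derivedSeries F2 7 := Subgroup.commutator_mem_commutator hw hw'
  have hYY : Y 52 * Y 52 = 1 ∨ Y 52 * Y 52 = -1 := by
    have h3 := hY.1 52 (by norm_num) 52 (by norm_num)
    have h4 : B8.pm 52 52 = 0 ∨ B8.pm 52 52 = 1 := by decide +kernel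
    rcases h4 with h4 | h4
    · left
      rw [h3, h4, hY.2.1]
    · right
      rw [h3, h4, hY.2.2]
  have hne : ev2 x y ⁅w, w'⁆ ≠ 1 := by
    rw [map_commutatorElement, Ne, commutatorElement_eq_one_iff_mul_comm]
    intro h4
    -- `ev w * Y 52` is scalar
    obtain ⟨a, ha⟩ := hC ((ev2 x y w : Matrix (Fin 8) (Fin 8) F) * Y 52) (by
      intro p hp
      have hc := hA p hp
      have e1 := hY.1 52 (by norm_num) p hp
      have e2 := hY.1 p hp 52 (by norm_num)
      by_cases h5 : B8.pm 52 p = B8.pm p 52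
      · have e3 := hc.1 h5
        have e4 : Y 52 * Y p = Y p * Y 52 := by rw [e1, e2, h5]
        rw [mul_assoc, e4, ← mul_assoc, e3, mul_assoc]
      · have e3 := hc.2 h5
        have h6 : B8.pm 52 p = B8.pm p 52 ^^^ 1 ∧ B8.pm p 52 < 128 := by
          have h7 : ∀ p < 128, B8.pm 52 p ≠ B8.pm p 52 →
            B8.pm 52 p = B8.pm p 52 ^^^ 1 ∧ B8.pm p 52 < 128 := by decide +kernel
          exact h7 p hp h5
        have e4 : Y 52 * Y p = -(Y p * Y 52) := by rw [e1, e2, h6.1, hpm _ h6.2]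
        rw [hpm p hp, neg_mul] at e3
        rw [mul_assoc, e4, mul_neg, ← mul_assoc, e3, neg_mul, neg_neg, mul_assoc])
    have h5 : (ev2 x y w' : Matrix (Fin 8) (Fin 8) F) * Y 52 = -(Y 52 * ev2 x y w') := by
      have e3 := (hB 52 (by norm_num)).2 (by decide +kernel)
      rw [e3, hpm 52 (by norm_num), neg_mul]
    have h6 : (ev2 x y w' : Matrix (Fin 8) (Fin 8) F) * ((ev2 x y w : Matrix (Fin 8) (Fin 8) F) * Y 52) =
        ((ev2 x y w : Matrix (Fin 8) (Fin 8) F) * Y 52) * ev2 x y w' := by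
      rw [ha]
      exact (scalar_commute a (fun r => mul_comm a r) _).symm
    have h7 := congrArg Units.val h4
    rw [Units.val_mul, Units.val_mul] at h7
    have h8 : (ev2 x y w : Matrix (Fin 8) (Fin 8) F) * (Y 52 * ev2 x y w') =
        -((ev2 x y w : Matrix (Fin 8) (Fin 8) F) * (Y 52 * ev2 x y w')) := by
      calc (ev2 x y w : Matrix (Fin 8) (Fin 8) F) * (Y 52 * ev2 x y w')
          = ((ev2 x y w : Matrix (Fin 8) (Fin 8) F) * Y 52) * ev2 x y w' := by rw [mul_assoc]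
        _ = (ev2 x y w' : Matrix (Fin 8) (Fin 8) F) * ((ev2 x y w : Matrix (Fin 8) (Fin 8) F) * Y 52) :=
          h6.symm
        _ = ((ev2 x y w' : Matrix (Fin 8) (Fin 8) F) * (ev2 x y w : Matrix (Fin 8) (Fin 8) F)) * Y 52 := by
          rw [mul_assoc]
        _ = ((ev2 x y w : Matrix (Fin 8) (Fin 8) F) * (ev2 x y w' : Matrix (Fin 8) (Fin 8) F)) * Y 52 := by
          rw [h7]
        _ = (ev2 x y w : Matrix (Fin 8) (Fin 8) F) * ((ev2 x y w' : Matrix (Fin 8) (Fin 8) F) * Y 52) := by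
          rw [mul_assoc]
        _ = _ := by rw [h5, mul_neg]
    have h9 : (ev2 x y w : Matrix (Fin 8) (Fin 8) F) * (Y 52 * ev2 x y w') = 0 := by
      have h10 : (2 : Matrix (Fin 8) (Fin 8) F) * ((ev2 x y w : Matrix (Fin 8) (Fin 8) F) *
          (Y 52 * ev2 x y w')) = 0 := by
        rw [two_mul]
        nth_rewrite 1 [h8]
        rw [neg_add_cancel]
      exact (h2R.mul_right_eq_zero).1 h10
    have h11 : Y 52 * (ev2 x y w' : Matrix (Fin 8) (Fin 8) F) = 0 :=
      ((ev2 x y w).isUnit.mul_right_eq_zero).1 h9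
    have h12 : Y 52 = 0 := ((ev2 x y w').isUnit.mul_left_eq_zero).1 h11
    rcases hYY with h13 | h13
    · rw [h12, mul_zero] at h13
      exact zero_ne_one h13
    · rw [h12, mul_zero] at h13
      have h14 : (1 : Matrix (Fin 8) (Fin 8) F) = 0 := by
        rw [← neg_neg (1 : Matrix (Fin 8) (Fin 8) F), ← h13, neg_zero]
      exact one_ne_zero h14
  refine ⟨x, y, ⟨hD8, ⁅w, w'⁆, hmem, hne⟩, ?_, ?_⟩
  · intro u hu
    rcases hD7 u hu with h | h
    · rw [h, one_pow]
    · rw [h, neg_sq, one_pow]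
  · intro v hv
    have h3 := hv _ hmem
    rcases hD7 _ hmem with h | h
    · exact absurd h hne
    · rw [h, Units.val_neg, Units.val_one, neg_mulVec, one_mulVec] at h3
      funext i
      have h4 := congrFun h3 i
      have h5 : (2 : F) * v i = 0 := by
        rw [Pi.neg_apply] at h4
        linear_combination -h4
      exact (mul_eq_zero.1 h5).resolve_left h2

end Pool.Agent.Work.MP_403fb3_lin
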