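import Pool.Agent.Work.MP_403fb3_lin.Interface

/-!
# A soluble group of derived length 4 with two generators in dimension 2, odd characteristic
-/

set_option autoImplicit false

namespace Pool.Agent.Work.MP_403fb3_lin
namespace QU

open Matrix Subgroup
open scoped commutatorElement
open Pool.Agent.Work.MP_403fb3_al_helper9

variable {F : Type} [Field F]

/-- the quaternion units `x, y, xy, -x, -y, -xy` -/
def Y (u v : F) : Fin 6 → Matrix (Fin 2) (Fin 2) F :=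
  ![!![0, -1; 1, 0], !![u, v; v, -u], !![-v, u; u, v],
    !![0, 1; -1, 0], !![-u, -v; -v, u], !![v, -u; -u, -v]]

/-- the axes -/
def ax : Fin 6 → Fin 3 := ![0, 1, 2, 0, 1, 2]

/-- rotation of order three -/
def r1 : Equiv.Perm (Fin 6) := ⟨![1, 2, 0, 4, 5, 3], ![2, 0, 1, 5, 3, 4], by decide, by decide⟩
/-- rotation of order four -/
def r2 : Equiv.Perm (Fin 6) := ⟨![0, 2, 4, 3, 5, 1], ![0, 5, 1, 3, 2, 4], by decide, by decide⟩
/-- the first on the axes -/
def q1 : Equiv.Perm (Fin 3) := ⟨![1, 2, 0], ![2, 0, 1], by decide, by decide⟩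
/-- the second on the axes -/
def q2 : Equiv.Perm (Fin 3) := ⟨![0, 2, 1], ![0, 2, 1], by decide, by decide⟩

theorem inv_swap {R : Type} [Monoid R] (g : Rˣ) {A B : R} (h : (g : R) * A = B * g) :
    (↑g⁻¹ : R) * B = A * ↑g⁻¹ := by
  calc (↑g⁻¹ : R) * B = ↑g⁻¹ * (B * g) * ↑g⁻¹ := by simp [mul_assoc]
    _ = ↑g⁻¹ * (g * A) * ↑g⁻¹ := by rw [h]
    _ = A * ↑g⁻¹ := by simp

/-- the triples (matrix, signed permutation, permutation of the axes) -/
def H (u v : F) : Subgroup (GL (Fin 2) F × Equiv.Perm (Fin 6) × Equiv.Perm (Fin 3)) where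
  carrier := {t | (∀ j, (t.1 : Matrix (Fin 2) (Fin 2) F) * Y u v j = Y u v (t.2.1 j) * t.1) ∧
    ∀ j, ax (t.2.1 j) = t.2.2 (ax j)}
  one_mem' := by
    refine ⟨fun j => ?_, fun j => ?_⟩ <;> simp
  mul_mem' := by
    rintro ⟨g, σ, π⟩ ⟨h, τ, ρ⟩ ⟨h1, h2⟩ ⟨h3, h4⟩
    refine ⟨fun j => ?_, fun j => ?_⟩
    · have e1 := h3 j
      have e2 := h1 (τ j)
      simp only [Prod.mk_mul_mk, Units.val_mul, Equiv.Perm.coe_mul, Function.comp_apply] at *
      rw [Matrix.mul_assoc, e1, ← Matrix.mul_assoc, e2, Matrix.mul_assoc]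
    · have e1 := h4 j
      have e2 := h2 (τ j)
      simp only [Prod.mk_mul_mk, Equiv.Perm.coe_mul, Function.comp_apply] at *
      rw [e2, e1]
  inv_mem' := by
    rintro ⟨g, σ, π⟩ ⟨h1, h2⟩
    refine ⟨fun j => ?_, fun j => ?_⟩
    · have e1 := h1 (σ⁻¹ j)
      have e0 : σ (σ⁻¹ j) = j := σ.apply_symm_apply j
      simp only [Prod.inv_mk] at *
      rw [e0] at e1
      exact inv_swap g e1
    · have e1 := h2 (σ⁻¹ j)
      have e0 : σ (σ⁻¹ j) = j := σ.apply_symm_apply j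
      simp only [Prod.inv_mk] at *
      rw [e0] at e1
      rw [e1]
      exact (π.symm_apply_apply _).symm

/-- matrices which commute with all the units up to scalars -/
def K (u v : F) : Subgroup (GL (Fin 2) F) where
  carrier := {g | ∀ j, ∃ c : F, c ≠ 0 ∧
    (g : Matrix (Fin 2) (Fin 2) F) * Y u v j = c • (Y u v j * g)}
  one_mem' := fun j => ⟨1, one_ne_zero, by simp⟩
  mul_mem' := by
    rintro g h h1 h2 j
    obtain ⟨c, hc, e1⟩ := h1 j
    obtain ⟨d, hd, e2⟩ := h2 j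
    refine ⟨c * d, mul_ne_zero hc hd, ?_⟩
    rw [Units.val_mul, Matrix.mul_assoc, e2, Matrix.mul_smul, ← Matrix.mul_assoc, e1,
      Matrix.smul_mul, smul_smul, Matrix.mul_assoc, mul_comm d c]
  inv_mem' := by
    rintro g h1 j
    obtain ⟨c, hc, e1⟩ := h1 j
    refine ⟨c⁻¹, inv_ne_zero hc, ?_⟩
    rw [← Matrix.smul_mul] at e1
    have e2 := inv_swap g e1
    rw [Matrix.mul_smul] at e2
    rw [← e2, smul_smul, inv_mul_cancel₀ hc, one_smul]

/-- matrices which commute with all the units -/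
def C (u v : F) : Subgroup (GL (Fin 2) F) where
  carrier := {g | ∀ j, (g : Matrix (Fin 2) (Fin 2) F) * Y u v j = Y u v j * g}
  one_mem' := fun j => by simp
  mul_mem' := by
    rintro g h h1 h2 j
    have e1 := h1 j
    have e2 := h2 j
    rw [Units.val_mul, Matrix.mul_assoc, e2, ← Matrix.mul_assoc, e1, Matrix.mul_assoc]
  inv_mem' := by
    rintro g h1 j
    exact inv_swap g (h1 j)

theorem K_comm (u v : F) : ⁅K u v, K u v⁆ ≤ C u v := by
  rw [Subgroup.commutator_le]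
  intro g hg h hh j
  obtain ⟨c, hc, e1⟩ := hg j
  obtain ⟨d, hd, e2⟩ := hh j
  have a1 : ((g * h : GL (Fin 2) F) : Matrix (Fin 2) (Fin 2) F) * Y u v j =
      (c * d) • (Y u v j * (g * h : GL (Fin 2) F)) := by
    rw [Units.val_mul, Matrix.mul_assoc, e2, Matrix.mul_smul, ← Matrix.mul_assoc, e1,
      Matrix.smul_mul, smul_smul, Matrix.mul_assoc, mul_comm d c]
  have a2 : ((h * g : GL (Fin 2) F) : Matrix (Fin 2) (Fin 2) F) * Y u v j =
      ((c * d) • Y u v j) * (h * g : GL (Fin 2) F) := by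
    rw [Units.val_mul, Matrix.mul_assoc, e1, Matrix.mul_smul, ← Matrix.mul_assoc, e2,
      Matrix.smul_mul, smul_smul, Matrix.mul_assoc, Matrix.smul_mul]
  have hcd : c * d ≠ 0 := mul_ne_zero hc hd
  have a3 := inv_swap (h * g) a2
  rw [Matrix.mul_smul] at a3
  have a4 : ⁅g, h⁆ = (g * h) * (h * g)⁻¹ := by
    rw [commutatorElement_def]
    group
  have a5 : ((((h * g)⁻¹ : GL (Fin 2) F)) : Matrix (Fin 2) (Fin 2) F) * Y u v j =
      (c * d)⁻¹ • (Y u v j * ((h * g)⁻¹ : GL (Fin 2) F)) := by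
    rw [← a3, smul_smul, inv_mul_cancel₀ hcd, one_smul]
  rw [a4, Units.val_mul, Matrix.mul_assoc, a5, Matrix.mul_smul, ← Matrix.mul_assoc, a1,
    Matrix.smul_mul, smul_smul, inv_mul_cancel₀ hcd, one_smul, Matrix.mul_assoc]

/-- the centralizer consists of scalars -/
theorem scal {u v : F} (h2 : (2 : F) ≠ 0) (huv : u ^ 2 + v ^ 2 = -1)
    (g : Matrix (Fin 2) (Fin 2) F) (h0 : g * Y u v 0 = Y u v 0 * g)
    (h1 : g * Y u v 1 = Y u v 1 * g) : g 0 1 = 0 ∧ g 1 0 = 0 ∧ g 1 1 = g 0 0 := by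
  have e1 := congrFun (congrFun h0 0) 0
  have e2 := congrFun (congrFun h0 0) 1
  have e3 := congrFun (congrFun h1 0) 0
  have e4 := congrFun (congrFun h1 0) 1
  simp [Y, Matrix.mul_apply, Fin.sum_univ_two] at e1 e2 e3 e4
  have e5 : 2 * (g 1 0 * v) = 0 := by
    linear_combination (-1 : F) * e3 + (v : F) * e1
  have e6 : 2 * (g 1 0 * u) = 0 := by
    linear_combination e4 + 2 * u * e1 - v * e2
  have e7 : g 1 0 * v = 0 := (mul_eq_zero.1 e5).resolve_left h2
  have e8 : g 1 0 * u = 0 := (mul_eq_zero.1 e6).resolve_left h2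
  have e9 : g 1 0 = 0 := by
    linear_combination (g 1 0) * huv - u * e8 - v * e7
  refine ⟨?_, e9, ?_⟩
  · linear_combination e1 - e9
  · linear_combination (-1 : F) * e2

theorem C_comm {u v : F} (h2 : (2 : F) ≠ 0) (huv : u ^ 2 + v ^ 2 = -1) {g h : GL (Fin 2) F}
    (hg : g ∈ C u v) (hh : h ∈ C u v) : g * h = h * g := by
  obtain ⟨a1, a2, a3⟩ := scal h2 huv _ (hg 0) (hg 1)
  obtain ⟨b1, b2, b3⟩ := scal h2 huv _ (hh 0) (hh 1)
  apply Units.ext
  rw [Units.val_mul, Units.val_mul]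
  ext i j
  fin_cases i <;> fin_cases j <;>
    simp [Matrix.mul_apply, Fin.sum_univ_two, a1, a2, a3, b1, b2, b3, mul_comm]

theorem perm3_two {σ : Equiv.Perm (Fin 3)} (h : σ ∈ derivedSeries (Equiv.Perm (Fin 3)) 2) :
    σ = 1 := by
  have h0 : derivedSeries (Equiv.Perm (Fin 3)) 2 = ⊥ := by
    have : derivedSeries (Equiv.Perm (Fin 3)) 2 =
      ⁅derivedSeries (Equiv.Perm (Fin 3)) 1, derivedSeries (Equiv.Perm (Fin 3)) 1⁆ := rfl
    rw [this, Subgroup.commutator_eq_bot_iff_le_centralizer]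
    intro x hx
    rw [Subgroup.mem_centralizer_iff]
    intro y hy
    have key : ∀ σ τ : Equiv.Perm (Fin 3), Equiv.Perm.sign σ = 1 → Equiv.Perm.sign τ = 1 →
        τ * σ = σ * τ := by decide +kernel
    exact key x y (perm4_one hx) (perm4_one hy)
  rw [h0, Subgroup.mem_bot] at h
  exact h

theorem ax_eq : ∀ i j : Fin 6, ax i = ax j → i = j ∨ i = j + 3 := by decide

theorem Y_neg (u v : F) (j : Fin 6) : Y u v (j + 3) = (-1 : F) • Y u v j := by
  fin_cases j <;> ext a b <;> fin_cases a <;> fin_cases b <;> simp [Y]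

/-- first word -/
def w1 : F2 := ⁅⁅x1, x2⁆, ⁅x2, x1⁻¹⁆⁆
/-- second word -/
def w2 : F2 := ⁅⁅x1, x2⁆, ⁅x1, x2⁻¹⁆⁆

theorem w1_mem : w1 ∈ derivedSeries F2 2 := by
  unfold w1
  repeat' first | exact mem_derived_zero _ | apply comm_mem_derived

theorem w2_mem : w2 ∈ derivedSeries F2 2 := by
  unfold w2
  repeat' first | exact mem_derived_zero _ | apply comm_mem_derived

theorem w1_ev : ev2 r1 r2 w1 = ⁅⁅r1, r2⁆, ⁅r2, r1⁻¹⁆⁆ := by
  simp only [w1, map_commutatorElement, map_inv, ev2_zero, ev2_one]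

theorem w2_ev : ev2 r1 r2 w2 = ⁅⁅r1, r2⁆, ⁅r1, r2⁻¹⁆⁆ := by
  simp only [w2, map_commutatorElement, map_inv, ev2_zero, ev2_one]

theorem w1_val : ev2 r1 r2 w1 0 = 0 ∧ ev2 r1 r2 w1 1 = 4 := by
  rw [w1_ev]
  decide

theorem w2_val : ev2 r1 r2 w2 0 = 3 ∧ ev2 r1 r2 w2 1 = 1 := by
  rw [w2_ev]
  decide

/-- the action of a word -/
theorem act {u v : F} {a b : GL (Fin 2) F} (ha : (a, r1, q1) ∈ H u v) (hb : (b, r2, q2) ∈ H u v)
    (w : F2) : (∀ j, (ev2 a b w : Matrix (Fin 2) (Fin 2) F) * Y u v j =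
      Y u v (ev2 r1 r2 w j) * (ev2 a b w : GL (Fin 2) F)) ∧
      ∀ j, ax (ev2 r1 r2 w j) = ev2 q1 q2 w (ax j) := by
  have h1 : ev2 (a, r1, q1) (b, r2, q2) w ∈ H u v := by
    have h2 : (ev2 (a, r1, q1) (b, r2, q2)).range ≤ H u v := by
      rw [MonoidHom.range_eq_map, ← FreeGroup.closure_range_of, MonoidHom.map_closure,
        Subgroup.closure_le]
      rintro _ ⟨_, ⟨i, rfl⟩, rfl⟩
      fin_cases i
      · simpa using ha
      · simpa using hb
    exact h2 ⟨w, rfl⟩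
  have p1 := ev2_comp (MonoidHom.fst (GL (Fin 2) F) (Equiv.Perm (Fin 6) × Equiv.Perm (Fin 3)))
    (a, r1, q1) (b, r2, q2) w
  have p2 := ev2_comp ((MonoidHom.fst (Equiv.Perm (Fin 6)) (Equiv.Perm (Fin 3))).comp
    (MonoidHom.snd (GL (Fin 2) F) (Equiv.Perm (Fin 6) × Equiv.Perm (Fin 3))))
    (a, r1, q1) (b, r2, q2) w
  have p3 := ev2_comp ((MonoidHom.snd (Equiv.Perm (Fin 6)) (Equiv.Perm (Fin 3))).comp
    (MonoidHom.snd (GL (Fin 2) F) (Equiv.Perm (Fin 6) × Equiv.Perm (Fin 3))))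
    (a, r1, q1) (b, r2, q2) w
  simp only [MonoidHom.coe_fst, MonoidHom.coe_snd, MonoidHom.comp_apply] at p1 p2 p3
  obtain ⟨h3, h4⟩ := h1
  rw [p1, p2] at h3
  rw [p2, p3] at h4
  exact ⟨h3, h4⟩

theorem final {u v : F} (h2 : (2 : F) ≠ 0) (huv : u ^ 2 + v ^ 2 = -1)
    (A B : Matrix (Fin 2) (Fin 2) F) (g1 : A * Y u v 0 = Y u v 0 * A)
    (g2 : A * Y u v 1 = Y u v 4 * A) (g3 : B * Y u v 0 = Y u v 3 * B) (hA : A.det ≠ 0)
    (hB : B.det ≠ 0) (hAB : A * B = B * A) : False := by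
  have e1 := congrFun (congrFun g1 0) 0
  have e2 := congrFun (congrFun g1 0) 1
  have e3 := congrFun (congrFun g2 0) 0
  have e4 := congrFun (congrFun g2 0) 1
  have e5 := congrFun (congrFun g3 0) 0
  have e6 := congrFun (congrFun g3 0) 1
  have e7 := congrFun (congrFun hAB 0) 0
  have e8 := congrFun (congrFun hAB 0) 1
  simp [Y, Matrix.mul_apply, Fin.sum_univ_two] at e1 e2 e3 e4 e5 e6 e7 e8
  rw [Matrix.det_fin_two] at hA hB
  have c1 : 2 * (A 0 0 * u) = 0 := by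
    linear_combination e3 - v * e1
  have c2 : 2 * (A 0 0 * v) = 0 := by
    linear_combination e4 + v * e2
  have c3 : A 0 0 * u = 0 := (mul_eq_zero.1 c1).resolve_left h2
  have c4 : A 0 0 * v = 0 := (mul_eq_zero.1 c2).resolve_left h2
  have c5 : A 0 0 = 0 := by
    linear_combination (A 0 0) * huv - u * c3 - v * c4
  have c6 : A 1 0 ≠ 0 := by
    intro h
    apply hA
    rw [h, c5]
    ring
  have c7 : 2 * (A 1 0 * B 1 0) = 0 := by
    linear_combination (-1 : F) * e7 + B 1 0 * e1 - A 1 0 * e5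
  have c8 : 2 * (A 1 0 * B 0 0) = 0 := by
    linear_combination e8 + (B 0 0 - B 1 1) * e1 - A 1 0 * e6 + B 0 1 * e2 * (-1)
  have c9 : B 1 0 = 0 :=
    (mul_eq_zero.1 ((mul_eq_zero.1 c7).resolve_left h2)).resolve_left c6
  have c10 : B 0 0 = 0 :=
    (mul_eq_zero.1 ((mul_eq_zero.1 c8).resolve_left h2)).resolve_left c6
  apply hB
  rw [c9, c10]
  ring

/-- The core statement for `x² = y² = -1`, `xy = -yx`. -/
theorem core {u v : F} (h2 : (2 : F) ≠ 0) (huv : u ^ 2 + v ^ 2 = -1) {a b : GL (Fin 2) F}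
    (ha : (a, r1, q1) ∈ H u v) (hb : (b, r2, q2) ∈ H u v) : GG a b 3 := by
  have hD2 : ∀ w ∈ derivedSeries F2 2, ev2 a b w ∈ K u v := by
    intro w hw j
    obtain ⟨h3, h4⟩ := act ha hb w
    have h5 : ev2 q1 q2 w = 1 :=
      perm3_two (map_derivedSeries_le_derivedSeries (ev2 q1 q2) 2 (Subgroup.mem_map_of_mem _ hw))
    have h6 := h4 j
    rw [h5, Equiv.Perm.one_apply] at h6
    rcases ax_eq _ _ h6 with h7 | h7
    · refine ⟨1, one_ne_zero, ?_⟩
      rw [h3 j, h7, one_smul]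
    · refine ⟨-1, neg_ne_zero.2 one_ne_zero, ?_⟩
      rw [h3 j, h7, Y_neg, Matrix.smul_mul]
  have hD3 : ∀ w ∈ derivedSeries F2 3, ev2 a b w ∈ C u v := by
    intro w hw
    have h3 : derivedSeries F2 3 = ⁅derivedSeries F2 2, derivedSeries F2 2⁆ := rfl
    have h4 : (derivedSeries F2 2).map (ev2 a b) ≤ K u v := by
      rintro _ ⟨w', hw', rfl⟩
      exact hD2 w' hw'
    have h5 : ev2 a b w ∈ (⁅derivedSeries F2 2, derivedSeries F2 2⁆).map (ev2 a b) :=
      Subgroup.mem_map_of_mem _ (h3 ▸ hw)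
    rw [Subgroup.map_commutator] at h5
    exact K_comm u v (Subgroup.commutator_mono h4 h4 h5)
  refine ⟨fun w hw => ?_, ⁅w1, w2⁆, comm_mem_derived w1_mem w2_mem, ?_⟩
  · have h4 : (derivedSeries F2 3).map (ev2 a b) ≤ C u v := by
      rintro _ ⟨w', hw', rfl⟩
      exact hD3 w' hw'
    have h5 : ev2 a b w ∈ (⁅derivedSeries F2 3, derivedSeries F2 3⁆).map (ev2 a b) :=
      Subgroup.mem_map_of_mem _ hw
    rw [Subgroup.map_commutator] at h5
    have h6 : ⁅C u v, C u v⁆ = ⊥ := by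
      rw [Subgroup.commutator_eq_bot_iff_le_centralizer]
      intro x hx
      rw [Subgroup.mem_centralizer_iff]
      intro y hy
      exact C_comm h2 huv hy hx
    have h7 := Subgroup.commutator_mono h4 h4 h5
    rw [h6, Subgroup.mem_bot] at h7
    exact h7
  · rw [map_commutatorElement, Ne, commutatorElement_eq_one_iff_mul_comm]
    intro h3
    obtain ⟨h4, -⟩ := act ha hb w1
    obtain ⟨h5, -⟩ := act ha hb w2
    have g1 := h4 0
    have g2 := h4 1
    have g3 := h5 0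
    have g4 := h5 1
    rw [w1_val.1] at g1
    rw [w1_val.2] at g2
    rw [w2_val.1] at g3
    rw [w2_val.2] at g4
    have hA : (ev2 a b w1 : Matrix (Fin 2) (Fin 2) F).det ≠ 0 :=
      ((Matrix.isUnit_iff_isUnit_det _).1 (ev2 a b w1).isUnit).ne_zero
    have hB : (ev2 a b w2 : Matrix (Fin 2) (Fin 2) F).det ≠ 0 :=
      ((Matrix.isUnit_iff_isUnit_det _).1 (ev2 a b w2).isUnit).ne_zero
    have hAB : (ev2 a b w1 : Matrix (Fin 2) (Fin 2) F) * (ev2 a b w2 : GL (Fin 2) F) =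
        (ev2 a b w2 : Matrix (Fin 2) (Fin 2) F) * (ev2 a b w1 : GL (Fin 2) F) := by
      rw [← Units.val_mul, ← Units.val_mul, h3]
    generalize (ev2 a b w1 : Matrix (Fin 2) (Fin 2) F) = A at *
    generalize (ev2 a b w2 : Matrix (Fin 2) (Fin 2) F) = B at *
    exact final h2 huv A B g1 g2 g3 hA hB hAB

theorem ax1 : ∀ j : Fin 6, ax (r1 j) = q1 (ax j) := by decide

theorem ax2 : ∀ j : Fin 6, ax (r2 j) = q2 (ax j) := by decide

theorem mem_a {u v : F} (huv : u ^ 2 + v ^ 2 = -1) {a : GL (Fin 2) F}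
    (ha : (a : Matrix (Fin 2) (Fin 2) F) = !![1 + u - v, -1 + v + u; 1 + v + u, 1 - u + v]) :
    (a, r1, q1) ∈ H u v := by
  refine ⟨fun j => ?_, ax1⟩
  show (a : Matrix (Fin 2) (Fin 2) F) * Y u v j = Y u v (r1 j) * a
  rw [ha]
  ext i k
  fin_cases j <;> fin_cases i <;> fin_cases k <;>
    simp [Y, r1, Matrix.mul_apply, Fin.sum_univ_two] <;>
    first
      | ring1
      | linear_combination huv
      | linear_combination (-1 : F) * huv
      | linear_combination (2 : F) * huv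
      | linear_combination (-2 : F) * huv

theorem mem_b {u v : F} {b : GL (Fin 2) F}
    (hb : (b : Matrix (Fin 2) (Fin 2) F) = !![1, -1; 1, 1]) :
    (b, r2, q2) ∈ H u v := by
  refine ⟨fun j => ?_, ax2⟩
  show (b : Matrix (Fin 2) (Fin 2) F) * Y u v j = Y u v (r2 j) * b
  rw [hb]
  ext i k
  fin_cases j <;> fin_cases i <;> fin_cases k <;>
    simp [Y, r2, Matrix.mul_apply, Fin.sum_univ_two] <;> ring1

theorem exists_uv (F : Type) [Field F] [Finite F] : ∃ u v : F, u ^ 2 + v ^ 2 = -1 := by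
  obtain ⟨p, hp⟩ := CharP.exists F
  haveI : Fact p.Prime := ⟨CharP.char_is_prime F p⟩
  obtain ⟨a, b, h⟩ := ZMod.sq_add_sq p (-1)
  refine ⟨ZMod.castHom (dvd_refl p) F a, ZMod.castHom (dvd_refl p) F b, ?_⟩
  rw [← map_pow, ← map_pow, ← map_add, h, map_neg, map_one]

end QU

/-- Block QU. -/
theorem p_QU : S_QU := by
  intro F _ _ h2
  obtain ⟨u, v, huv⟩ := QU.exists_uv F
  have hda : (!![1 + u - v, -1 + v + u; 1 + v + u, 1 - u + v] : Matrix (Fin 2) (Fin 2) F).det ≠ 0 := by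
    rw [Matrix.det_fin_two_of]
    have h4 : (1 + u - v) * (1 - u + v) - (-1 + v + u) * (1 + v + u) = 2 * 2 := by
      linear_combination (-2 : F) * huv
    rw [h4]
    exact mul_ne_zero h2 h2
  have hdb : (!![1, -1; 1, 1] : Matrix (Fin 2) (Fin 2) F).det ≠ 0 := by
    rw [Matrix.det_fin_two_of]
    have h4 : (1 : F) * 1 - (-1) * 1 = 2 := by ring
    rw [h4]
    exact h2
  exact ⟨Matrix.GeneralLinearGroup.mkOfDetNeZero _ hda, Matrix.GeneralLinearGroup.mkOfDetNeZero _ hdb,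
    QU.core h2 huv (QU.mem_a huv rfl) (QU.mem_b rfl)⟩

end Pool.Agent.Work.MP_403fb3_lin
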