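import Pool.Agent.Work.MP_403fb3_lin.B8Def
import Pool.Agent.Work.MP_403fb3_lin.QU

/-!
# Block B8M: the representation in dimension eight
-/

set_option autoImplicit false

namespace Pool.Agent.Work.MP_403fb3_lin

open Matrix Kronecker

namespace B8Mh

variable {F : Type} [Field F]

/-- the sign of a bit -/
def sg (b : Bool) : F := if b then -1 else 1

/-- `I^a J^b` -/
def A (u v : F) (a b : Bool) : Matrix (Fin 2) (Fin 2) F :=
  match a, b with
  | false, false => 1
  | true, false => !![0, -1; 1, 0]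
  | false, true => !![u, v; v, -u]
  | true, true => !![-v, u; u, v]

/-- `X^a Z^b` -/
def B (a b : Bool) : Matrix (Fin 2) (Fin 2) F :=
  match a, b with
  | false, false => 1
  | true, false => !![0, 1; 1, 0]
  | false, true => !![1, 0; 0, -1]
  | true, true => !![0, -1; 1, 0]

theorem sg_xor (a b : Bool) : (sg (a ^^ b) : F) = sg a * sg b := by
  cases a <;> cases b <;> simp [sg]

theorem A_mul {u v : F} (huv : u ^ 2 + v ^ 2 = -1) (a b c d : Bool) :
    A u v a b * A u v c d =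
      (sg ((b && c) ^^ (a && c) ^^ (b && d)) : F) • A u v (a ^^ c) (b ^^ d) := by
  have h2 : v ^ 2 = -1 - u ^ 2 := by linear_combination huv
  cases a <;> cases b <;> cases c <;> cases d <;> ext i j <;> fin_cases i <;> fin_cases j <;>
    simp [A, sg, Matrix.mul_apply, Fin.sum_univ_two, Matrix.one_apply] <;>
    first
      | ring1
      | linear_combination huv
      | linear_combination (-1 : F) * huv

theorem B_mul (a b c d : Bool) :
    (B a b : Matrix (Fin 2) (Fin 2) F) * B c d = (sg (b && c) : F) • B (a ^^ c) (b ^^ d) := by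
  cases a <;> cases b <;> cases c <;> cases d <;> ext i j <;> fin_cases i <;> fin_cases j <;>
    simp [B, sg, Matrix.mul_apply, Fin.sum_univ_two, Matrix.one_apply]

/-- the matrices in product form -/
def Y1 (u v : F) (p : ℕ) : Matrix (Fin 2 × (Fin 2 × Fin 2)) (Fin 2 × (Fin 2 × Fin 2)) F :=
  (sg (p.testBit 0) : F) • (A u v (p.testBit 1) (p.testBit 2) ⊗ₖ
    (B (p.testBit 3) (p.testBit 4) ⊗ₖ B (p.testBit 5) (p.testBit 6)))

theorem pm_bit (p q i : ℕ) : (B8.pm p q).testBit (i + 1) =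
    (p.testBit (i + 1) ^^ q.testBit (i + 1)) := by
  unfold B8.pm
  rw [Nat.testBit_xor, Nat.testBit_xor, Nat.testBit_and]
  have h1 : Nat.testBit 1 (i + 1) = false := by
    simp [Nat.testBit_succ]
  rw [h1, Bool.and_false, Bool.xor_false]

theorem pm_bit0 (p q : ℕ) : (B8.pm p q).testBit 0 =
    (p.testBit 0 ^^ q.testBit 0 ^^ ((p.testBit 2 && q.testBit 1) ^^ (p.testBit 1 && q.testBit 1) ^^
      (p.testBit 2 && q.testBit 2) ^^ (p.testBit 4 && q.testBit 3) ^^
      (p.testBit 6 && q.testBit 5))) := by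
  unfold B8.pm
  simp only [Nat.testBit_xor, Nat.testBit_and, Nat.testBit_shiftRight]
  have h1 : Nat.testBit 1 0 = true := by decide
  rw [h1, Bool.and_true]

theorem Y1_mul {u v : F} (huv : u ^ 2 + v ^ 2 = -1) (p q : ℕ) :
    Y1 u v p * Y1 u v q = Y1 u v (B8.pm p q) := by
  unfold Y1
  rw [pm_bit0, pm_bit p q 0, pm_bit p q 1, pm_bit p q 2, pm_bit p q 3, pm_bit p q 4,
    pm_bit p q 5]
  rw [Matrix.smul_mul, Matrix.mul_smul, ← Matrix.mul_kronecker_mul, ← Matrix.mul_kronecker_mul,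
    A_mul huv, B_mul, B_mul, Matrix.smul_kronecker, Matrix.smul_kronecker, Matrix.kronecker_smul,
    Matrix.kronecker_smul, Matrix.kronecker_smul]
  simp only [smul_smul]
  congr 1
  simp only [sg_xor]
  ring

theorem Y1_zero {u v : F} : Y1 u v 0 = 1 := by
  unfold Y1
  simp [sg, A, B]

theorem Y1_one {u v : F} : Y1 u v 1 = -1 := by
  unfold Y1
  have h0 : Nat.testBit 1 0 = true := by decide
  have h1 : Nat.testBit 1 1 = false := by decide
  have h2 : Nat.testBit 1 2 = false := by decide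
  have h3 : Nat.testBit 1 3 = false := by decide
  have h4 : Nat.testBit 1 4 = false := by decide
  have h5 : Nat.testBit 1 5 = false := by decide
  have h6 : Nat.testBit 1 6 = false := by decide
  rw [h0, h1, h2, h3, h4, h5, h6]
  simp [sg, A, B]

theorem comm_fst {n : Type} [Fintype n] [DecidableEq n] (M : Matrix (Fin 2 × n) (Fin 2 × n) F)
    (P : Matrix (Fin 2) (Fin 2) F) (h : M * (P ⊗ₖ (1 : Matrix n n F)) = (P ⊗ₖ 1) * M) (j j' : n) :
    (Matrix.of fun i i' => M (i, j) (i', j')) * P = P * Matrix.of fun i i' => M (i, j) (i', j') := by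
  ext i i'
  have h1 := congrFun (congrFun h (i, j)) (i', j')
  rw [Matrix.mul_apply, Matrix.mul_apply, Fintype.sum_prod_type, Fintype.sum_prod_type] at h1
  simp only [Matrix.kroneckerMap_apply, Matrix.one_apply, mul_ite, mul_one, mul_zero,
    Finset.sum_ite_eq, Finset.sum_ite_eq', Finset.mem_univ, if_true, ite_mul, zero_mul] at h1
  rw [Matrix.mul_apply, Matrix.mul_apply]
  simpa using h1

theorem split {n : Type} [Fintype n] [DecidableEq n] (M : Matrix (Fin 2 × n) (Fin 2 × n) F)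
    (P Q : Matrix (Fin 2) (Fin 2) F)
    (hPQ : ∀ m : Matrix (Fin 2) (Fin 2) F, m * P = P * m → m * Q = Q * m →
      m 0 1 = 0 ∧ m 1 0 = 0 ∧ m 1 1 = m 0 0)
    (h1 : M * (P ⊗ₖ (1 : Matrix n n F)) = (P ⊗ₖ 1) * M)
    (h2 : M * (Q ⊗ₖ (1 : Matrix n n F)) = (Q ⊗ₖ 1) * M) :
    ∃ m : Matrix n n F, M = (1 : Matrix (Fin 2) (Fin 2) F) ⊗ₖ m := by
  refine ⟨Matrix.of fun j j' => M (0, j) (0, j'), ?_⟩
  ext ⟨i, j⟩ ⟨i', j'⟩
  obtain ⟨e1, e2, e3⟩ := hPQ _ (comm_fst M P h1 j j') (comm_fst M Q h2 j j')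
  simp only [Matrix.of_apply] at e1 e2 e3
  rw [Matrix.kroneckerMap_apply, Matrix.of_apply]
  fin_cases i <;> fin_cases i' <;> simp [e1, e2, e3]

theorem comm_snd {n : Type} [Fintype n] [DecidableEq n] (m Q : Matrix n n F)
    (h : ((1 : Matrix (Fin 2) (Fin 2) F) ⊗ₖ m) * ((1 : Matrix (Fin 2) (Fin 2) F) ⊗ₖ Q) =
      ((1 : Matrix (Fin 2) (Fin 2) F) ⊗ₖ Q) * ((1 : Matrix (Fin 2) (Fin 2) F) ⊗ₖ m)) :
    m * Q = Q * m := by
  rw [← Matrix.mul_kronecker_mul, ← Matrix.mul_kronecker_mul] at h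
  ext j j'
  have h1 := congrFun (congrFun h (0, j)) (0, j')
  simpa using h1

theorem xz (h2 : (2 : F) ≠ 0) (m : Matrix (Fin 2) (Fin 2) F)
    (h0 : m * !![0, 1; 1, 0] = !![0, 1; 1, 0] * m) (h1 : m * !![1, 0; 0, -1] = !![1, 0; 0, -1] * m) :
    m 0 1 = 0 ∧ m 1 0 = 0 ∧ m 1 1 = m 0 0 := by
  have e1 := congrFun (congrFun h0 0) 1
  have e2 := congrFun (congrFun h1 0) 1
  have e3 := congrFun (congrFun h1 1) 0
  simp [Matrix.mul_apply, Fin.sum_univ_two] at e1 e2 e3
  have e4 : 2 * m 0 1 = 0 := by linear_combination (-1 : F) * e2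
  have e5 : 2 * m 1 0 = 0 := by linear_combination e3
  exact ⟨(mul_eq_zero.1 e4).resolve_left h2, (mul_eq_zero.1 e5).resolve_left h2, e1.symm⟩

theorem scal1 {u v : F} (h2 : (2 : F) ≠ 0) (huv : u ^ 2 + v ^ 2 = -1)
    (M : Matrix (Fin 2 × (Fin 2 × Fin 2)) (Fin 2 × (Fin 2 × Fin 2)) F)
    (hM : ∀ p < 128, M * Y1 u v p = Y1 u v p * M) : ∃ c : F, M = scalar _ c := by
  have y2 : Y1 u v 2 = (!![0, -1; 1, 0] : Matrix (Fin 2) (Fin 2) F) ⊗ₖ 1 := by
    unfold Y1
    have h0 : Nat.testBit 2 0 = false := by decide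
    have h1 : Nat.testBit 2 1 = true := by decide
    have h2 : Nat.testBit 2 2 = false := by decide
    have h3 : Nat.testBit 2 3 = false := by decide
    have h4 : Nat.testBit 2 4 = false := by decide
    have h5 : Nat.testBit 2 5 = false := by decide
    have h6 : Nat.testBit 2 6 = false := by decide
    rw [h0, h1, h2, h3, h4, h5, h6]
    simp [sg, A, B]
  have y4 : Y1 u v 4 = (!![u, v; v, -u] : Matrix (Fin 2) (Fin 2) F) ⊗ₖ 1 := by
    unfold Y1
    have h0 : Nat.testBit 4 0 = false := by decide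
    have h1 : Nat.testBit 4 1 = false := by decide
    have h2 : Nat.testBit 4 2 = true := by decide
    have h3 : Nat.testBit 4 3 = false := by decide
    have h4 : Nat.testBit 4 4 = false := by decide
    have h5 : Nat.testBit 4 5 = false := by decide
    have h6 : Nat.testBit 4 6 = false := by decide
    rw [h0, h1, h2, h3, h4, h5, h6]
    simp [sg, A, B]
  have y8 : Y1 u v 8 = (1 : Matrix (Fin 2) (Fin 2) F) ⊗ₖ
      ((!![0, 1; 1, 0] : Matrix (Fin 2) (Fin 2) F) ⊗ₖ (1 : Matrix (Fin 2) (Fin 2) F)) := by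
    unfold Y1
    have h0 : Nat.testBit 8 0 = false := by decide
    have h1 : Nat.testBit 8 1 = false := by decide
    have h2 : Nat.testBit 8 2 = false := by decide
    have h3 : Nat.testBit 8 3 = true := by decide
    have h4 : Nat.testBit 8 4 = false := by decide
    have h5 : Nat.testBit 8 5 = false := by decide
    have h6 : Nat.testBit 8 6 = false := by decide
    rw [h0, h1, h2, h3, h4, h5, h6]
    simp [sg, A, B]
  have y16 : Y1 u v 16 = (1 : Matrix (Fin 2) (Fin 2) F) ⊗ₖ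
      ((!![1, 0; 0, -1] : Matrix (Fin 2) (Fin 2) F) ⊗ₖ (1 : Matrix (Fin 2) (Fin 2) F)) := by
    unfold Y1
    have h0 : Nat.testBit 16 0 = false := by decide
    have h1 : Nat.testBit 16 1 = false := by decide
    have h2 : Nat.testBit 16 2 = false := by decide
    have h3 : Nat.testBit 16 3 = false := by decide
    have h4 : Nat.testBit 16 4 = true := by decide
    have h5 : Nat.testBit 16 5 = false := by decide
    have h6 : Nat.testBit 16 6 = false := by decide
    rw [h0, h1, h2, h3, h4, h5, h6]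
    simp [sg, A, B]
  have y32 : Y1 u v 32 = (1 : Matrix (Fin 2) (Fin 2) F) ⊗ₖ
      ((1 : Matrix (Fin 2) (Fin 2) F) ⊗ₖ (!![0, 1; 1, 0] : Matrix (Fin 2) (Fin 2) F)) := by
    unfold Y1
    have h0 : Nat.testBit 32 0 = false := by decide
    have h1 : Nat.testBit 32 1 = false := by decide
    have h2 : Nat.testBit 32 2 = false := by decide
    have h3 : Nat.testBit 32 3 = false := by decide
    have h4 : Nat.testBit 32 4 = false := by decide
    have h5 : Nat.testBit 32 5 = true := by decide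
    have h6 : Nat.testBit 32 6 = false := by decide
    rw [h0, h1, h2, h3, h4, h5, h6]
    simp [sg, A, B]
  have y64 : Y1 u v 64 = (1 : Matrix (Fin 2) (Fin 2) F) ⊗ₖ
      ((1 : Matrix (Fin 2) (Fin 2) F) ⊗ₖ (!![1, 0; 0, -1] : Matrix (Fin 2) (Fin 2) F)) := by
    unfold Y1
    have h0 : Nat.testBit 64 0 = false := by decide
    have h1 : Nat.testBit 64 1 = false := by decide
    have h2 : Nat.testBit 64 2 = false := by decide
    have h3 : Nat.testBit 64 3 = false := by decide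
    have h4 : Nat.testBit 64 4 = false := by decide
    have h5 : Nat.testBit 64 5 = false := by decide
    have h6 : Nat.testBit 64 6 = true := by decide
    rw [h0, h1, h2, h3, h4, h5, h6]
    simp [sg, A, B]
  have e2 := hM 2 (by norm_num)
  have e4 := hM 4 (by norm_num)
  have e8 := hM 8 (by norm_num)
  have e16 := hM 16 (by norm_num)
  have e32 := hM 32 (by norm_num)
  have e64 := hM 64 (by norm_num)
  rw [y2] at e2
  rw [y4] at e4
  rw [y8] at e8
  rw [y16] at e16
  rw [y32] at e32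
  rw [y64] at e64
  obtain ⟨m, hm⟩ := split M _ _ (fun m a b => QU.scal h2 huv m (by simpa [QU.Y] using a)
    (by simpa [QU.Y] using b)) e2 e4
  rw [hm] at e8 e16 e32 e64
  have f8 := comm_snd _ _ e8
  have f16 := comm_snd _ _ e16
  have f32 := comm_snd _ _ e32
  have f64 := comm_snd _ _ e64
  obtain ⟨m', hm'⟩ := split m _ _ (fun m a b => xz h2 m a b) f8 f16
  rw [hm'] at f32 f64
  obtain ⟨g1, g2, g3⟩ := xz h2 m' (comm_snd _ _ f32) (comm_snd _ _ f64)
  refine ⟨m' 0 0, ?_⟩
  have hm2 : m' = scalar (Fin 2) (m' 0 0) := by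
    ext i j
    fin_cases i <;> fin_cases j <;> simp [g1, g2, g3]
  rw [hm, hm']
  ext ⟨i, j, l⟩ ⟨i', j', l'⟩
  rw [Matrix.kroneckerMap_apply, Matrix.kroneckerMap_apply, hm2]
  fin_cases i <;> fin_cases j <;> fin_cases l <;> fin_cases i' <;> fin_cases j' <;>
    fin_cases l' <;> simp

end B8Mh

/-- Block B8M. -/
theorem p_B8M : S_B8M := by
  intro F _ _ h2
  obtain ⟨u, v, huv⟩ := QU.exists_uv F
  let e : Fin 2 × (Fin 2 × Fin 2) ≃ Fin 8 := Fintype.equivFinOfCardEq (by simp)
  let φ := Matrix.reindexAlgEquiv F F e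
  refine ⟨fun p => φ (B8Mh.Y1 u v p), ⟨fun p _ q _ => ?_, ?_, ?_⟩, fun M hM => ?_⟩
  · rw [← map_mul, B8Mh.Y1_mul huv]
  · show φ (B8Mh.Y1 u v 0) = 1
    rw [B8Mh.Y1_zero, map_one]
  · show φ (B8Mh.Y1 u v 1) = -1
    rw [B8Mh.Y1_one, map_neg, map_one]
  · obtain ⟨c, hc⟩ := B8Mh.scal1 h2 huv (φ.symm M) (by
      intro p hp
      apply φ.injective
      rw [map_mul, map_mul, AlgEquiv.apply_symm_apply]
      exact hM p hp)
    refine ⟨c, ?_⟩
    have h3 : M = φ (scalar _ c) := by rw [← hc, AlgEquiv.apply_symm_apply]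
    rw [h3]
    have h4 : (scalar (Fin 2 × (Fin 2 × Fin 2)) c : Matrix _ _ F) = algebraMap F _ c := by
      rw [Matrix.algebraMap_eq_diagonal]
      rfl
    rw [h4, AlgEquiv.commutes, Matrix.algebraMap_eq_diagonal]
    rfl

end Pool.Agent.Work.MP_403fb3_lin
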