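import Pool.Agent.Work.MP_403fb3_lin.B8Def
import Pool.Agent.Work.MP_403fb3_lin.QU

/-! Block B8U: the base group in dimension eight, derived subgroup number six. -/

set_option autoImplicit false

namespace Pool.Agent.Work.MP_403fb3_lin
namespace B8U

open Subgroup B8
open scoped commutatorElement
open Pool.Agent.Work.MP_403fb3_al_helper9

/-- unsigned table -/
def uf (T : ℕ) (j : Fin 64) : Fin 64 :=
  ⟨lk T (2 * j.val) / 2, by have := lk_lt T (2 * j.val); omega⟩

/-- unsigned permutation of the first generator -/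
def sx : Equiv.Perm (Fin 64) := ⟨uf Tx, uf Ux, by unfold Function.LeftInverse; decide +kernel,
  by unfold Function.RightInverse Function.LeftInverse; decide +kernel⟩
/-- unsigned permutation of the second generator -/
def sy : Equiv.Perm (Fin 64) := ⟨uf Ty, uf Uy, by unfold Function.LeftInverse; decide +kernel,
  by unfold Function.RightInverse Function.LeftInverse; decide +kernel⟩

/-- planes -/
def pcl : List (Option (Fin 4 × Fin 3)) :=
  [none, some (0, 0), some (0, 0), some (0, 0), none, some (3, 1), some (1, 0), some (2, 1), none, some (1, 2), some (2, 2), some (3, 2), some (0, 1), none, none, none, none, some (3, 2), some (1, 2), some (2, 2), none, some (3, 0), some (1, 1), some (2, 0), none, some (2, 2), some (3, 2), some (1, 2), some (0, 2), none, none, none, none, some (1, 0), some (2, 1), some (3, 1), none, some (2, 1), some (3, 1), some (1, 0), none, some (1, 1), some (2, 0), some (3, 0), some (0, 2), none, none, none, some (0, 2), none, none,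 none, some (0, 1), none, none, none, some (0, 1), none, none, none, none, some (2, 0), some (3, 0), some (1, 1)]
/-- plane of a label -/
def pc (p : Fin 64) : Option (Fin 4 × Fin 3) := pcl.getD p.val none

/-- action on the planes -/
def aw (w : Wr (Fin 4) (Equiv.Perm (Fin 3))) (t : Fin 4 × Fin 3) : Fin 4 × Fin 3 :=
  (w.s t.1, w.f t.1 t.2)

/-- wreath elements -/
def wx : Wr (Fin 4) (Equiv.Perm (Fin 3)) where
  s := ⟨![3, 2, 0, 1], ![2, 3, 1, 0], by decide, by decide⟩
  f := ![⟨![2, 1, 0], ![2, 1, 0], by decide, by decide⟩, ⟨![0, 2, 1], ![0, 2, 1], by decide, by decide⟩,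
    ⟨![0, 2, 1], ![0, 2, 1], by decide, by decide⟩, ⟨![2, 0, 1], ![1, 2, 0], by decide, by decide⟩]
/-- wreath elements -/
def wy : Wr (Fin 4) (Equiv.Perm (Fin 3)) where
  s := ⟨![3, 1, 0, 2], ![2, 1, 3, 0], by decide, by decide⟩
  f := ![⟨![0, 2, 1], ![0, 2, 1], by decide, by decide⟩, 1, 1, ⟨![0, 2, 1], ![0, 2, 1], by decide, by decide⟩]

variable {R : Type} [Ring R]

/-- the triples -/
def H (Y : ℕ → R) : Subgroup (Rˣ × Equiv.Perm (Fin 64) × Wr (Fin 4) (Equiv.Perm (Fin 3))) where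
  carrier := {t | (∀ j : Fin 64, (t.1 : R) * Y (2 * j.val) = Y (2 * (t.2.1 j).val) * t.1 ∨
      (t.1 : R) * Y (2 * j.val) = -(Y (2 * (t.2.1 j).val) * t.1)) ∧
    (∀ a b : Fin 64, t.2.1 (a ^^^ b) = t.2.1 a ^^^ t.2.1 b) ∧
    ∀ p : Fin 64, pc (t.2.1 p) = (pc p).map (aw t.2.2)}
  one_mem' := by
    refine ⟨fun j => Or.inl (by simp), fun a b => by simp, fun p => ?_⟩
    have : aw (1 : Wr (Fin 4) (Equiv.Perm (Fin 3))) = id := by
      funext t
      simp [aw]
    simp [this]
  mul_mem' := by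
    rintro ⟨g, σ, π⟩ ⟨h, τ, ρ⟩ ⟨h1, h2, h3⟩ ⟨k1, k2, k3⟩
    refine ⟨fun j => ?_, fun a b => ?_, fun p => ?_⟩
    · have e1 := k1 j
      have e2 := h1 (τ j)
      simp only [Prod.mk_mul_mk, Units.val_mul, Equiv.Perm.coe_mul, Function.comp_apply] at *
      rcases e1 with e1 | e1 <;> rcases e2 with e2 | e2
      · left; rw [mul_assoc, e1, ← mul_assoc, e2, mul_assoc]
      · right; rw [mul_assoc, e1, ← mul_assoc, e2, neg_mul, mul_assoc]
      · right; rw [mul_assoc, e1, mul_neg, ← mul_assoc, e2, mul_assoc]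
      · left; rw [mul_assoc, e1, mul_neg, ← mul_assoc, e2, neg_mul, neg_neg, mul_assoc]
    · have e1 := k2 a b
      have e2 := h2 (τ a) (τ b)
      simp only [Prod.mk_mul_mk, Equiv.Perm.coe_mul, Function.comp_apply] at *
      rw [e1, e2]
    · have e1 := k3 p
      have e2 := h3 (τ p)
      simp only [Prod.mk_mul_mk, Equiv.Perm.coe_mul, Function.comp_apply] at *
      rw [e2, e1, Option.map_map]
      rfl
  inv_mem' := by
    rintro ⟨g, σ, π⟩ ⟨h1, h2, h3⟩
    refine ⟨fun j => ?_, fun a b => ?_, fun p => ?_⟩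
    · have e1 := h1 (σ⁻¹ j)
      have e0 : σ (σ⁻¹ j) = j := σ.apply_symm_apply j
      simp only [Prod.inv_mk] at *
      rw [e0] at e1
      rcases e1 with e1 | e1
      · left
        exact QU.inv_swap g e1
      · right
        have e2 : (g : R) * (-Y (2 * (σ⁻¹ j).val)) = Y (2 * j.val) * g := by
          rw [mul_neg, e1, neg_neg]
        rw [QU.inv_swap g e2, neg_mul]
    · simp only [Prod.inv_mk] at *
      apply σ.injective
      rw [h2]
      have e0 : ∀ j, σ (σ⁻¹ j) = j := fun j => σ.apply_symm_apply j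
      rw [e0, e0, e0]
    · have e1 := h3 (σ⁻¹ p)
      have e0 : σ (σ⁻¹ p) = p := σ.apply_symm_apply p
      simp only [Prod.inv_mk] at *
      rw [e0] at e1
      rw [e1, Option.map_map]
      have : aw π⁻¹ ∘ aw π = id := by
        funext t
        simp [aw]
      rw [this, Option.map_id]
      rfl

theorem lin_x : ∀ a b : Fin 64, sx (a ^^^ b) = sx a ^^^ sx b := by decide +kernel
theorem lin_y : ∀ a b : Fin 64, sy (a ^^^ b) = sy a ^^^ sy b := by decide +kernel
theorem pc_x : ∀ p : Fin 64, pc (sx p) = (pc p).map (aw wx) := by decide +kernel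
theorem pc_y : ∀ p : Fin 64, pc (sy p) = (pc p).map (aw wy) := by decide +kernel

/-- coordinates -/
def co (p : Fin 64) : ℕ :=
  (34388648056894910118494321690048586402839504980448524162464555877905463780206558328946407090450115923319807143583808 >>> (6 * p.val)) &&& 63

/-- linear extension -/
def ex (a b c d e f : Fin 64) (m : ℕ) : Fin 64 :=
  (bif m.testBit 0 then a else 0) ^^^ (bif m.testBit 1 then b else 0) ^^^ (bif m.testBit 2 then c else 0) ^^^
  (bif m.testBit 3 then d else 0) ^^^ (bif m.testBit 4 then e else 0) ^^^ (bif m.testBit 5 then f else 0)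

theorem ex_id : ∀ p : Fin 64, ex 1 2 12 52 28 44 (co p) = p := by decide +kernel

theorem ex_lin (σ : Equiv.Perm (Fin 64)) (h : ∀ a b : Fin 64, σ (a ^^^ b) = σ a ^^^ σ b)
    (a b c d e f : Fin 64) (m : ℕ) : σ (ex a b c d e f m) = ex (σ a) (σ b) (σ c) (σ d) (σ e) (σ f) m := by
  have h0 : σ 0 = 0 := by
    have h1 := h 0 0
    have h2 : ∀ a : Fin 64, a ^^^ a = 0 := by decide +kernel
    rw [h2] at h1
    rw [h1, h2]
  have hb : ∀ (t : Bool) (z : Fin 64), σ (bif t then z else 0) = bif t then σ z else 0 := by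
    intro t z
    cases t
    · exact h0
    · rfl
  unfold ex
  simp only [h, hb]

/-- check -/
def ck (a b c d e f : Fin 64) : Bool :=
  (List.finRange 64).all fun p => (pc p).isNone || (pc (ex a b c d e f (co p)) == pc p)

/-- lists -/
def L0 : List (Fin 64) := [1, 2, 3]
/-- lists -/
def L1 : List (Fin 64) := [12, 52, 56]
/-- lists -/
def L2 : List (Fin 64) := [28, 44, 48]

/-- conclusion of the check -/
def cc (a b c d e f : Fin 64) : Bool :=
  (a == 1 && b == 2 && c == 12 && d == 52 && e == 28 && f == 44) ||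
  ((a == 2 && b == 3 && c == 52 && d == 56 && e == 44 && f == 48) ||
  (a == 3 && b == 1 && c == 56 && d == 12 && e == 48 && f == 28))

theorem enumB : (L0.all fun a => L0.all fun b => L1.all fun c => L1.all fun d => L2.all fun e =>
    L2.all fun f => (!ck a b c d e f || cc a b c d e f)) = true := by decide +kernel

theorem enum (a : Fin 64) (ha : a ∈ L0) (b : Fin 64) (hb : b ∈ L0) (c : Fin 64) (hc : c ∈ L1)
    (d : Fin 64) (hd : d ∈ L1) (e : Fin 64) (he : e ∈ L2) (f : Fin 64) (hf : f ∈ L2)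
    (h : ck a b c d e f = true) : cc a b c d e f = true := by
  have h0 := enumB
  simp only [List.all_eq_true] at h0
  have h1 := h0 a ha b hb c hc d hd e he f hf
  rw [h] at h1
  simpa using h1

/-- the three maps -/
def E (k : Fin 3) (p : Fin 64) : Fin 64 :=
  match k with
  | 0 => ex 1 2 12 52 28 44 (co p)
  | 1 => ex 2 3 52 56 44 48 (co p)
  | 2 => ex 3 1 56 12 48 28 (co p)

theorem E_comm : ∀ k l : Fin 3, ∀ p : Fin 64, E k (E l p) = E l (E k p) := by decide +kernel

theorem in0 : ∀ p : Fin 64, pc p = some (0, 0) → p ∈ L0 := by decide +kernel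
theorem in1 : ∀ p : Fin 64, pc p = some (0, 1) → p ∈ L1 := by decide +kernel
theorem in2 : ∀ p : Fin 64, pc p = some (0, 2) → p ∈ L2 := by decide +kernel

theorem rot (σ : Equiv.Perm (Fin 64)) (h : ∀ a b : Fin 64, σ (a ^^^ b) = σ a ^^^ σ b)
    (h2 : ∀ p, pc (σ p) = pc p) : ∃ k : Fin 3, ∀ p, σ p = E k p := by
  have key : ∀ p, σ p = ex (σ 1) (σ 2) (σ 12) (σ 52) (σ 28) (σ 44) (co p) := by
    intro p
    conv_lhs => rw [← ex_id p]
    exact ex_lin σ h _ _ _ _ _ _ _
  have a1 := in0 _ ((h2 1).trans (by decide +kernel))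
  have a2 := in0 _ ((h2 2).trans (by decide +kernel))
  have a3 := in1 _ ((h2 12).trans (by decide +kernel))
  have a4 := in1 _ ((h2 52).trans (by decide +kernel))
  have a5 := in2 _ ((h2 28).trans (by decide +kernel))
  have a6 := in2 _ ((h2 44).trans (by decide +kernel))
  have hck : ck (σ 1) (σ 2) (σ 12) (σ 52) (σ 28) (σ 44) = true := by
    unfold ck
    rw [List.all_eq_true]
    intro p _
    rw [← key p, h2 p]
    simp
  have hm := enum _ a1 _ a2 _ a3 _ a4 _ a5 _ a6 hck
  simp only [cc, Bool.or_eq_true, Bool.and_eq_true, beq_iff_eq, and_assoc] at hm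
  rcases hm with ⟨b1, b2, b3, b4, b5, b6⟩ | ⟨b1, b2, b3, b4, b5, b6⟩ | ⟨b1, b2, b3, b4, b5, b6⟩
  · refine ⟨0, fun p => ?_⟩
    rw [key p, b1, b2, b3, b4, b5, b6]
    rfl
  · refine ⟨1, fun p => ?_⟩
    rw [key p, b1, b2, b3, b4, b5, b6]
    rfl
  · refine ⟨2, fun p => ?_⟩
    rw [key p, b1, b2, b3, b4, b5, b6]
    rfl

theorem Y_odd {Y : ℕ → R} (hY : Rules Y) (j : Fin 64) : Y (2 * j.val + 1) = -Y (2 * j.val) := by
  have h1 := hY.1 1 (by norm_num) (2 * j.val) (by omega)
  have h2 : ∀ j : Fin 64, pm 1 (2 * j.val) = 2 * j.val + 1 := by decide +kernel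
  rw [h2 j, hY.2.2] at h1
  rw [← h1, neg_mul, one_mul]

theorem gen {Y : ℕ → R} (hY : Rules Y) {g : Rˣ} {T U : ℕ} (h : Rel Y g T U) (j : Fin 64) :
    (g : R) * Y (2 * j.val) = Y (2 * (uf T j).val) * g ∨
      (g : R) * Y (2 * j.val) = -(Y (2 * (uf T j).val) * g) := by
  have h1 := h.1 (2 * j.val) (by omega)
  have h2 : lk T (2 * j.val) = 2 * (uf T j).val ∨ lk T (2 * j.val) = 2 * (uf T j).val + 1 := by
    show lk T (2 * j.val) = 2 * (lk T (2 * j.val) / 2) ∨ lk T (2 * j.val) = 2 * (lk T (2 * j.val) / 2) + 1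
    omega
  rcases h2 with h2 | h2
  · left
    rw [h1, h2]
  · right
    rw [h1, h2, Y_odd hY, neg_mul]

theorem act {Y : ℕ → R} {x y : Rˣ} (hx : (x, sx, wx) ∈ H Y) (hy : (y, sy, wy) ∈ H Y) (w : F2) :
    (ev2 x y w, ev2 sx sy w, ev2 wx wy w) ∈ H Y := by
  have h1 : ev2 (x, sx, wx) (y, sy, wy) w ∈ H Y := by
    have h2 : (ev2 (x, sx, wx) (y, sy, wy)).range ≤ H Y := by
      rw [MonoidHom.range_eq_map, ← FreeGroup.closure_range_of, MonoidHom.map_closure,
        Subgroup.closure_le]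
      rintro _ ⟨_, ⟨i, rfl⟩, rfl⟩
      fin_cases i
      · simpa using hx
      · simpa using hy
    exact h2 ⟨w, rfl⟩
  have p1 := ev2_comp (MonoidHom.fst Rˣ (Equiv.Perm (Fin 64) × Wr (Fin 4) (Equiv.Perm (Fin 3))))
    (x, sx, wx) (y, sy, wy) w
  have p2 := ev2_comp ((MonoidHom.fst (Equiv.Perm (Fin 64)) (Wr (Fin 4) (Equiv.Perm (Fin 3)))).comp
    (MonoidHom.snd Rˣ (Equiv.Perm (Fin 64) × Wr (Fin 4) (Equiv.Perm (Fin 3)))))
    (x, sx, wx) (y, sy, wy) w
  have p3 := ev2_comp ((MonoidHom.snd (Equiv.Perm (Fin 64)) (Wr (Fin 4) (Equiv.Perm (Fin 3)))).comp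
    (MonoidHom.snd Rˣ (Equiv.Perm (Fin 64) × Wr (Fin 4) (Equiv.Perm (Fin 3)))))
    (x, sx, wx) (y, sy, wy) w
  simp only [MonoidHom.coe_fst, MonoidHom.coe_snd, MonoidHom.comp_apply] at p1 p2 p3
  have h4 : (ev2 x y w, ev2 sx sy w, ev2 wx wy w) = ev2 (x, sx, wx) (y, sy, wy) w := by
    apply Prod.ext
    · exact p1.symm
    · apply Prod.ext
      · exact p2.symm
      · exact p3.symm
  rw [h4]
  exact h1

end B8U

open B8 B8U Subgroup Pool.Agent.Work.MP_403fb3_al_helper9 in
open scoped commutatorElement in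
/-- Block B8U. -/
theorem p_B8U : S_B8U := by
  intro R _ Y x y hY hrx hry w hw
  have hx : (x, sx, wx) ∈ H Y := ⟨fun j => gen hY hrx j, lin_x, pc_x⟩
  have hy : (y, sy, wy) ∈ H Y := ⟨fun j => gen hY hry j, lin_y, pc_y⟩
  have h5 : ∀ w ∈ derivedSeries F2 5, ev2 wx wy w = 1 := by
    have h3 : ∀ w ∈ derivedSeries F2 3, (ev2 wx wy w).s = 1 := by
      intro w hw
      have h31 := map_derivedSeries_le_derivedSeries
        (Wr.toPerm.comp (ev2 wx wy) : F2 →* Equiv.Perm (Fin 4)) 3 (Subgroup.mem_map_of_mem _ hw)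
      rw [perm4_three, Subgroup.mem_bot] at h31
      exact h31
    have hn : derivedSeries (Equiv.Perm (Fin 3)) 2 = ⊥ := by
      rw [eq_bot_iff]
      intro σ hσ
      exact QU.perm3_two hσ
    exact top_solv (ev2 wx wy) 3 h3 hn
  have hrot : ∀ w ∈ derivedSeries F2 5, ∃ k : Fin 3, ∀ p, ev2 sx sy w p = E k p := by
    intro w hw
    obtain ⟨-, h2, h3⟩ := act hx hy w
    apply rot _ h2
    intro p
    have h6 := h3 p
    simp only [h5 w hw] at h6
    have : aw (1 : Wr (Fin 4) (Equiv.Perm (Fin 3))) = id := by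
      funext t
      simp [aw]
    rw [this, Option.map_id] at h6
    exact h6
  have h6 : derivedSeries F2 6 ≤ (ev2 sx sy).ker := by
    have h61 : derivedSeries F2 6 = ⁅derivedSeries F2 5, derivedSeries F2 5⁆ := rfl
    rw [h61, Subgroup.commutator_le]
    intro g hg h hh
    obtain ⟨k, hk⟩ := hrot g hg
    obtain ⟨l, hl⟩ := hrot h hh
    rw [MonoidHom.mem_ker, map_commutatorElement, commutatorElement_eq_one_iff_mul_comm]
    ext p : 1
    rw [Equiv.Perm.mul_apply, Equiv.Perm.mul_apply, hl p, hk p, hk, hl, E_comm]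
  have h7 : ev2 sx sy w = 1 := h6 hw
  obtain ⟨h1, -, -⟩ := act hx hy w
  simp only [h7, Equiv.Perm.one_apply] at h1
  intro p hp
  have hc : (∃ j : Fin 64, p = 2 * j.val) ∨ ∃ j : Fin 64, p = 2 * j.val + 1 := by
    rcases Nat.even_or_odd' p with ⟨k, hk | hk⟩
    · exact Or.inl ⟨⟨k, by omega⟩, hk⟩
    · exact Or.inr ⟨⟨k, by omega⟩, hk⟩
  have x1 : ∀ j : Fin 64, (2 * j.val) ^^^ 1 = 2 * j.val + 1 := by decide +kernel
  have x2 : ∀ j : Fin 64, (2 * j.val + 1) ^^^ 1 = 2 * j.val := by decide +kernel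
  rcases hc with ⟨j, rfl⟩ | ⟨j, rfl⟩
  · rcases h1 j with h | h
    · exact Or.inl h
    · right
      rw [x1, Y_odd hY, neg_mul]
      exact h
  · rcases h1 j with h | h
    · left
      rw [Y_odd hY, mul_neg, neg_mul]
      exact congrArg Neg.neg h
    · right
      rw [x2, Y_odd hY, mul_neg]
      rw [h, neg_neg]

end Pool.Agent.Work.MP_403fb3_lin
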