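import Pool.Agent.Work.MP_403fb3_lin.B8Def

/-!
# B8X: the two generators
-/

set_option autoImplicit false

namespace Pool.Agent.Work.MP_403fb3_lin

open B8

namespace B8X

/-- conjugation by `g` permutes the elements `Y p` by the function `f` -/
def RelF {R : Type} [Ring R] (Y : ℕ → R) (g : R) (f : ℕ → ℕ) : Prop :=
  ∀ p < 128, g * Y p = Y (f p) * g

theorem relF_mul {R : Type} [Ring R] {Y : ℕ → R} {g h : R} {f f₁ : ℕ → ℕ} (hg : RelF Y g f)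
    (hh : RelF Y h f₁) (h1 : ∀ p < 128, f₁ p < 128) : RelF Y (g * h) (fun p => f (f₁ p)) := by
  intro p hp
  rw [mul_assoc, hh p hp, ← mul_assoc, hg _ (h1 p hp), mul_assoc]

theorem refl {R : Type} [Ring R] {Y : ℕ → R} (h2 : IsUnit (2 : R)) (hY : Rules Y) (v : ℕ)
    (hv : v < 128) (hvv : pm v v = 1) (T : ℕ)
    (h1 : ∀ p < 128, (lk T p = p ∧ pm v p = pm p v) ∨
      (lk T p = pm v p ∧ pm (pm v p) v = p ∧ pm v p < 128)) :
    ∃ g : Rˣ, RelF Y (g : R) (lk T) := by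
  obtain ⟨hm, h0, h11⟩ := hY
  have hsq : Y v * Y v = -1 := by rw [hm v hv v hv, hvv, h11]
  have hab : (1 + Y v) * (1 - Y v) = 2 := by
    have : (1 + Y v) * (1 - Y v) = 1 - Y v * Y v := by noncomm_ring
    rw [this, hsq]
    norm_num
  have hba : (1 - Y v) * (1 + Y v) = 2 := by
    have : (1 - Y v) * (1 + Y v) = 1 - Y v * Y v := by noncomm_ring
    rw [this, hsq]
    norm_num
  have hc : Commute (1 + Y v) (1 - Y v) := by
    show (1 + Y v) * (1 - Y v) = (1 - Y v) * (1 + Y v)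
    rw [hab, hba]
  have hu : IsUnit (1 + Y v) := by
    have : IsUnit ((1 + Y v) * (1 - Y v)) := by rw [hab]; exact h2
    exact (hc.isUnit_mul_iff.1 this).1
  refine ⟨hu.unit, ?_⟩
  intro p hp
  rw [IsUnit.unit_spec, add_mul, one_mul, hm v hv p hp, mul_add, mul_one]
  rcases h1 p hp with ⟨h3, h4⟩ | ⟨h3, h4, h5⟩
  · rw [h3, hm p hp v hv, h4]
  · rw [h3, hm _ h5 v hv, h4, add_comm]

theorem e0 {R : Type} [Ring R] {Y : ℕ → R} (hY : Rules Y) :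
    ∃ g : Rˣ, RelF Y (g : R) (lk Te0) := by
  obtain ⟨hm, h0, h11⟩ := hY
  have hsq : Y 2 * Y 2 = -1 := by
    rw [hm 2 (by norm_num) 2 (by norm_num), show pm 2 2 = 1 by decide +kernel, h11]
  refine ⟨⟨Y 2, -Y 2, by rw [mul_neg, hsq, neg_neg], by rw [neg_mul, hsq, neg_neg]⟩, ?_⟩
  intro p hp
  show Y 2 * Y p = Y (lk Te0 p) * Y 2
  have h : ∀ p < 128, pm 2 p = pm (lk Te0 p) 2 := by decide +kernel
  rw [hm 2 (by norm_num) p hp, hm _ (lk_lt _ _) 2 (by norm_num), h p hp]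

theorem c0 : ∀ p < 128, (lk Tr0 p = p ∧ pm 20 p = pm p 20) ∨
    (lk Tr0 p = pm 20 p ∧ pm (pm 20 p) 20 = p ∧ pm 20 p < 128) := by decide +kernel

theorem c1 : ∀ p < 128, (lk Tr1 p = p ∧ pm 74 p = pm p 74) ∨
    (lk Tr1 p = pm 74 p ∧ pm (pm 74 p) 74 = p ∧ pm 74 p < 128) := by decide +kernel

theorem c2 : ∀ p < 128, (lk Tr2 p = p ∧ pm 122 p = pm p 122) ∨
    (lk Tr2 p = pm 122 p ∧ pm (pm 122 p) 122 = p ∧ pm 122 p < 128) := by decide +kernel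

theorem c3 : ∀ p < 128, (lk Tr3 p = p ∧ pm 96 p = pm p 96) ∨
    (lk Tr3 p = pm 96 p ∧ pm (pm 96 p) 96 = p ∧ pm 96 p < 128) := by decide +kernel

theorem c4 : ∀ p < 128, (lk Tr4 p = p ∧ pm 56 p = pm p 56) ∨
    (lk Tr4 p = pm 56 p ∧ pm (pm 56 p) 56 = p ∧ pm 56 p < 128) := by decide +kernel

theorem c5 : ∀ p < 128, (lk Tr5 p = p ∧ pm 44 p = pm p 44) ∨
    (lk Tr5 p = pm 44 p ∧ pm (pm 44 p) 44 = p ∧ pm 44 p < 128) := by decide +kernel

theorem c6 : ∀ p < 128, (lk Tr6 p = p ∧ pm 126 p = pm p 126) ∨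
    (lk Tr6 p = pm 126 p ∧ pm (pm 126 p) 126 = p ∧ pm 126 p < 128) := by decide +kernel

theorem tx : ∀ p < 128, lk Te0 (lk Tr0 (lk Tr1 (lk Tr2 (lk Tr3 (lk Tr4 p))))) = lk Tx p := by
  decide +kernel

theorem ty : ∀ p < 128, lk Tr5 (lk Tr6 p) = lk Ty p := by
  decide +kernel

theorem ux : ∀ p < 128, lk Tx (lk Ux p) = p := by
  decide +kernel

theorem uy : ∀ p < 128, lk Ty (lk Uy p) = p := by
  decide +kernel

end B8X

theorem p_B8X : S_B8X := by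
  intro R _ Y h2 hY
  obtain ⟨g, hg⟩ := B8X.e0 hY
  obtain ⟨g0, h0⟩ := B8X.refl h2 hY 20 (by norm_num) (by decide +kernel) Tr0 B8X.c0
  obtain ⟨g1, h1⟩ := B8X.refl h2 hY 74 (by norm_num) (by decide +kernel) Tr1 B8X.c1
  obtain ⟨g2, h2'⟩ := B8X.refl h2 hY 122 (by norm_num) (by decide +kernel) Tr2 B8X.c2
  obtain ⟨g3, h3⟩ := B8X.refl h2 hY 96 (by norm_num) (by decide +kernel) Tr3 B8X.c3
  obtain ⟨g4, h4⟩ := B8X.refl h2 hY 56 (by norm_num) (by decide +kernel) Tr4 B8X.c4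
  obtain ⟨g5, h5⟩ := B8X.refl h2 hY 44 (by norm_num) (by decide +kernel) Tr5 B8X.c5
  obtain ⟨g6, h6⟩ := B8X.refl h2 hY 126 (by norm_num) (by decide +kernel) Tr6 B8X.c6
  have k3 := B8X.relF_mul h3 h4 (fun p _ => lk_lt _ _)
  have k2 := B8X.relF_mul h2' k3 (fun p _ => lk_lt _ _)
  have k1 := B8X.relF_mul h1 k2 (fun p _ => lk_lt _ _)
  have k0 := B8X.relF_mul h0 k1 (fun p _ => lk_lt _ _)
  have kx := B8X.relF_mul hg k0 (fun p _ => lk_lt _ _)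
  have ky := B8X.relF_mul h5 h6 (fun p _ => lk_lt _ _)
  refine ⟨g * (g0 * (g1 * (g2 * (g3 * g4)))), g5 * g6, ⟨fun p hp => ?_, B8X.ux⟩,
    ⟨fun p hp => ?_, B8X.uy⟩⟩
  · have := kx p hp
    beta_reduce at this
    rw [B8X.tx p hp] at this
    simpa only [Units.val_mul] using this
  · have := ky p hp
    beta_reduce at this
    rw [B8X.ty p hp] at this
    simpa only [Units.val_mul] using this

end Pool.Agent.Work.MP_403fb3_lin
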