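import Pool.Agent.Work.MP_403fb3_lin.Interface8

/-! Block UIS (helper57). -/

set_option autoImplicit false

namespace Pool.Agent.Work.MP_403fb3_lin

open Matrix Subgroup
open Pool.Agent.Work.MP_403fb3_al_helper9

theorem p_UIS (hNIX : S_NIX) : S_UIS := by
  intro F _ _ _ n k d x y N ht hn hk hkF hd h1 h2 h3 hU hN
  obtain ⟨t, ht⟩ := ht
  obtain ⟨δ, β, hδ, hβ, r, hr, s, hs, hne⟩ := hNIX F n k d x y N hn hk hkF hd h1 h2 h3
  have hinv : ∀ g : F2, (ev2 x y g : Matrix (Fin n) (Fin n) F) =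
      N g • star ((ev2 x y g⁻¹ : GL (Fin n) F) : Matrix (Fin n) (Fin n) F) := by
    intro g
    have e1 : ((ev2 x y g⁻¹ : GL (Fin n) F) : Matrix (Fin n) (Fin n) F) *
        (ev2 x y g : Matrix (Fin n) (Fin n) F) = 1 := by
      rw [map_inv, ← Units.val_mul, inv_mul_cancel, Units.val_one]
    have e2 : star (ev2 x y g : Matrix (Fin n) (Fin n) F) *
        star ((ev2 x y g⁻¹ : GL (Fin n) F) : Matrix (Fin n) (Fin n) F) = 1 := by
      rw [← star_mul, e1, star_one]
    calc (ev2 x y g : Matrix (Fin n) (Fin n) F)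
        = (ev2 x y g : Matrix (Fin n) (Fin n) F) * (star (ev2 x y g : Matrix (Fin n) (Fin n) F) *
          star ((ev2 x y g⁻¹ : GL (Fin n) F) : Matrix (Fin n) (Fin n) F)) := by rw [e2, mul_one]
      _ = N g • star ((ev2 x y g⁻¹ : GL (Fin n) F) : Matrix (Fin n) (Fin n) F) := by
          rw [← mul_assoc, hU g, smul_mul_assoc, one_mul]
  have hδ2 : ∀ g h : F2, star (β (g * h)) = star (β g) +
      (ev2 x y g : Matrix (Fin n) (Fin n) F) *ᵥ star (β h) := by
    intro g h
    rw [hβ g h, star_add, star_smul, hN g, star_vecMul]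
    congr 1
    conv_rhs => rw [hinv g]
    rw [Matrix.smul_mulVec]
    rfl
  by_contra hcon
  push Not at hcon
  have key : ∀ c : F, star (star (β r) + c • δ r) ⬝ᵥ (star (β s) + c • δ s) =
      star (star (β s) + c • δ s) ⬝ᵥ (star (β r) + c • δ r) := by
    intro c
    refine hcon (fun g => star (β g) + c • δ g) ?_ r hr s hs
    intro g h
    rw [hδ2 g h, hδ g h, smul_add, Matrix.mulVec_add, Matrix.mulVec_smul]
    abel
  have k0 := key 0
  simp only [zero_smul, add_zero, star_star] at k0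
  have kδ : star (δ r) ⬝ᵥ δ s = star (δ s) ⬝ᵥ δ r := hcon δ hδ r hr s hs
  have hexp : ∀ c : F, ∀ a b a' b' : Fin n → F,
      star (star a + c • b) ⬝ᵥ (star a' + c • b') =
        a ⬝ᵥ star a' + c * (a ⬝ᵥ b') + star c * (star b ⬝ᵥ star a') +
          star c * c * (star b ⬝ᵥ b') := by
    intro c a b a' b'
    rw [star_add, star_star, star_smul, add_dotProduct, dotProduct_add, dotProduct_add,
      dotProduct_smul, smul_dotProduct, smul_dotProduct, dotProduct_smul]
    simp only [smul_eq_mul]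
    ring
  have hstar : ∀ a b : Fin n → F, star b ⬝ᵥ star a = star (a ⬝ᵥ b) := by
    intro a b
    rw [Matrix.star_dotProduct_star]
  set P := β r ⬝ᵥ δ s with hP
  set Q := β s ⬝ᵥ δ r with hQ
  have hc : ∀ c : F, c * (P - Q) - star c * star (P - Q) = 0 := by
    intro c
    have h := key c
    rw [hexp, hexp, k0, kδ] at h
    have e1 : star (δ r) ⬝ᵥ star (β s) = star Q := hstar _ _
    have e2 : star (δ s) ⬝ᵥ star (β r) = star P := hstar _ _
    rw [e1, e2] at h
    rw [star_sub]
    linear_combination h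
  have c1 := hc 1
  rw [star_one, one_mul, one_mul] at c1
  have c2 := hc t
  have e3 : star (P - Q) = P - Q := (sub_eq_zero.mp c1).symm
  rw [e3, ← sub_mul] at c2
  rcases mul_eq_zero.mp c2 with h | h
  · exact ht (sub_eq_zero.mp h).symm
  · exact hne (sub_eq_zero.mp h)

end Pool.Agent.Work.MP_403fb3_lin
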