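import Pool.Agent.Work.MP_403fb3_lin.Interface6

/-!
# A derivation which vanishes on the next derived subgroup is inner (block CNT)
-/

set_option autoImplicit false

namespace Pool.Agent.Work.MP_403fb3_lin

open Matrix Subgroup
open Pool.Agent.Work.MP_403fb3_al_helper9
open scoped commutatorElement

theorem p_CNT : S_CNT := by
  classical
  intro F S _ _ _ _ ρ k d hk hk0 hrep δ hδ hvan
  obtain ⟨h1, h2, h3⟩ := hrep
  have hcomm : ∀ a ∈ derivedSeries F2 d, ∀ b ∈ derivedSeries F2 d,
      ρ a (δ b) + δ a = ρ b (δ a) + δ b := by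
    intro a ha b hb
    have h4 : ⁅a, b⁆ ∈ derivedSeries F2 (d + 1) := by
      rw [derivedSeries_succ]
      exact commutator_mem_commutator ha hb
    have h5 : a * b = ⁅a, b⁆ * (b * a) := by
      rw [commutatorElement_def]; group
    have h6 : δ (a * b) = δ (b * a) := by
      rw [h5, hδ, hvan _ h4, h1 _ h4, zero_add]
      rfl
    rw [hδ, hδ] at h6
    rw [add_comm (ρ a (δ b)), h6, add_comm]
  have hfin : Finite (Module.End F S) :=
    Finite.of_injective (fun f : Module.End F S => (f : S → S)) DFunLike.coe_injective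
  have hfinu : Finite (Module.End F S)ˣ := inferInstance
  let E : Subgroup (Module.End F S)ˣ := (derivedSeries F2 d).map ρ.toHomUnits
  letI : Fintype E := Fintype.ofFinite _
  have hEp : IsPGroup k E := by
    rintro ⟨g, hg⟩
    obtain ⟨w, hw, rfl⟩ := hg
    refine ⟨1, Subtype.ext (Units.ext ?_)⟩
    have := h2 w hw
    simpa using this
  have : Fact k.Prime := ⟨hk⟩
  have hcard : ((Fintype.card E : ℕ) : F) ≠ 0 := by
    obtain ⟨j, hj⟩ := IsPGroup.iff_card.1 hEp
    rw [Nat.card_eq_fintype_card] at hj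
    rw [hj]
    push_cast
    exact pow_ne_zero _ hk0
  have hch : ∀ g : E, ∃ w ∈ derivedSeries F2 d, ρ w = ((g : (Module.End F S)ˣ) : Module.End F S) := by
    rintro ⟨g, w, hw, rfl⟩
    exact ⟨w, hw, rfl⟩
  choose ww hww hwe using hch
  let T : Module.End F S := ∑ g : E, ((g : (Module.End F S)ˣ) : Module.End F S)
  let C : S := ∑ g : E, δ (ww g)
  have hT : ∀ w ∈ derivedSeries F2 d, ρ w * T = T := by
    intro w hw
    simp only [T]
    rw [Finset.mul_sum]
    let g0 : E := ⟨ρ.toHomUnits w, w, hw, rfl⟩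
    refine Fintype.sum_equiv (Equiv.mulLeft g0) _ _ fun g => ?_
    simp only [Equiv.coe_mulLeft, Subgroup.coe_mul, Units.val_mul]
    rfl
  have hTz : ∀ v : S, T v = 0 := by
    intro v
    refine h3 _ fun w hw => ?_
    have := congrArg (fun f : Module.End F S => f v) (hT w hw)
    exact this
  have hC : ∀ w ∈ derivedSeries F2 d, ((Fintype.card E : ℕ) : F) • δ w = C - ρ w C := by
    intro w hw
    have h4 : ∑ g : E, (ρ w (δ (ww g)) + δ w) =
        ∑ g : E, (((g : (Module.End F S)ˣ) : Module.End F S) (δ w) + δ (ww g)) := by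
      refine Finset.sum_congr rfl fun g _ => ?_
      rw [hcomm w hw (ww g) (hww g), hwe]
    rw [Finset.sum_add_distrib, Finset.sum_add_distrib, ← map_sum, ← LinearMap.sum_apply] at h4
    have h5 : (∑ g : E, ((g : (Module.End F S)ˣ) : Module.End F S)) (δ w) = 0 := hTz (δ w)
    rw [h5, zero_add, Finset.sum_const, Finset.card_univ, ← Nat.cast_smul_eq_nsmul F] at h4
    exact eq_sub_of_add_eq' h4
  let c : S := ((Fintype.card E : ℕ) : F)⁻¹ • C
  have hc : ∀ w ∈ derivedSeries F2 d, δ w = c - ρ w c := by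
    intro w hw
    have h4 := hC w hw
    have h5 : δ w = ((Fintype.card E : ℕ) : F)⁻¹ • (C - ρ w C) := by
      rw [← h4, smul_smul, inv_mul_cancel₀ hcard, one_smul]
    rw [h5, smul_sub, ← map_smul]
  refine ⟨c, fun g => ?_⟩
  have hu : δ g + ρ g c - c = 0 := by
    refine h3 _ fun w' hw' => ?_
    have hw : g⁻¹ * w' * g ∈ derivedSeries F2 d := by
      have := (derivedSeries_normal F2 d).conj_mem w' hw' g⁻¹
      simpa using this
    have e1 : δ (w' * g) = δ (g * (g⁻¹ * w' * g)) := by
      congr 1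
      group
    rw [hδ, hδ, hc _ hw, hc _ hw', map_sub] at e1
    have e3 : ρ g (ρ (g⁻¹ * w' * g) c) = ρ w' (ρ g c) := by
      have : ρ g * ρ (g⁻¹ * w' * g) = ρ w' * ρ g := by
        rw [← map_mul, ← map_mul]
        congr 1
        group
      exact congrArg (fun f : Module.End F S => f c) this
    rw [e3] at e1
    rw [map_sub, map_add]
    have e2 := sub_eq_zero.2 e1
    rw [← sub_eq_zero, ← e2]
    abel
  exact eq_sub_of_add_eq (sub_eq_zero.1 hu)

end Pool.Agent.Work.MP_403fb3_lin
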