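import Pool.Agent.Work.MP_403fb3_lin.Interface6

/-!
# Block DEX: derivations exist and are determined by the values at the generators
-/

set_option autoImplicit false

namespace Pool.Agent.Work.MP_403fb3_lin

open Matrix Subgroup
open Pool.Agent.Work.MP_403fb3_al_helper9

namespace DEX

variable {F S : Type} [Field F] [AddCommGroup S] [Module F S]

theorem inv_self (ρ : F2 →* Module.End F S) (g : F2) (s : S) : ρ g⁻¹ (ρ g s) = s := by
  rw [← Module.End.mul_apply, ← map_mul, inv_mul_cancel, map_one, Module.End.one_apply]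

theorem self_inv (ρ : F2 →* Module.End F S) (g : F2) (s : S) : ρ g (ρ g⁻¹ s) = s := by
  rw [← Module.End.mul_apply, ← map_mul, mul_inv_cancel, map_one, Module.End.one_apply]

/-- the affine permutations -/
def pp (ρ : F2 →* Module.End F S) (v : Fin 2 → S) (i : Fin 2) : Equiv.Perm S where
  toFun s := ρ (FreeGroup.of i) s + v i
  invFun s := ρ (FreeGroup.of i)⁻¹ (s - v i)
  left_inv s := by
    show ρ (FreeGroup.of i)⁻¹ (ρ (FreeGroup.of i) s + v i - v i) = s
    rw [add_sub_cancel_right, inv_self]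
  right_inv s := by
    show ρ (FreeGroup.of i) (ρ (FreeGroup.of i)⁻¹ (s - v i)) + v i = s
    rw [self_inv, sub_add_cancel]

/-- the affine action -/
def LL (ρ : F2 →* Module.End F S) (v : Fin 2 → S) : F2 →* Equiv.Perm S :=
  FreeGroup.lift (pp ρ v)

theorem LL_of (ρ : F2 →* Module.End F S) (v : Fin 2 → S) (i : Fin 2) (s : S) :
    LL ρ v (FreeGroup.of i) s = ρ (FreeGroup.of i) s + v i := by
  unfold LL
  rw [FreeGroup.lift_apply_of]
  rfl

theorem LL_inv (ρ : F2 →* Module.End F S) (v : Fin 2 → S) (i : Fin 2) (s : S) :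
    LL ρ v (FreeGroup.of i)⁻¹ s = ρ (FreeGroup.of i)⁻¹ (s - v i) := by
  unfold LL
  rw [map_inv, FreeGroup.lift_apply_of]
  rfl

theorem LL_aff (ρ : F2 →* Module.End F S) (v : Fin 2 → S) (g : F2) :
    ∀ s : S, LL ρ v g s = ρ g s + LL ρ v g 0 := by
  refine FreeGroup.induction_on g ?_ ?_ ?_ ?_
  · intro s
    rw [map_one, map_one]
    simp
  · intro i s
    show LL ρ v (FreeGroup.of i) s = ρ (FreeGroup.of i) s + LL ρ v (FreeGroup.of i) 0
    rw [LL_of, LL_of, map_zero, zero_add]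
  · intro i _ s
    show LL ρ v (FreeGroup.of i)⁻¹ s = ρ (FreeGroup.of i)⁻¹ s + LL ρ v (FreeGroup.of i)⁻¹ 0
    rw [LL_inv, LL_inv, map_sub, zero_sub, map_neg, sub_eq_add_neg]
  · intro x y hx hy s
    rw [map_mul, map_mul, Equiv.Perm.mul_apply, Equiv.Perm.mul_apply, hy s, hx (ρ y s + LL ρ v y 0),
      hx (LL ρ v y 0), map_add, Module.End.mul_apply, add_assoc]

theorem der (ρ : F2 →* Module.End F S) (v : Fin 2 → S) : IsDer ρ fun g => LL ρ v g 0 := by
  intro g h
  show LL ρ v (g * h) 0 = LL ρ v g 0 + ρ g (LL ρ v h 0)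
  rw [map_mul, Equiv.Perm.mul_apply, LL_aff ρ v g (LL ρ v h 0), add_comm]

theorem der_one {ρ : F2 →* Module.End F S} {δ : F2 → S} (h : IsDer ρ δ) : δ 1 = 0 := by
  have h1 := h 1 1
  rw [mul_one, map_one, Module.End.one_apply] at h1
  exact (add_eq_left.mp h1.symm)

theorem der_inv {ρ : F2 →* Module.End F S} {δ : F2 → S} (h : IsDer ρ δ) (g : F2) :
    δ g⁻¹ = - ρ g⁻¹ (δ g) := by
  have h1 := h g⁻¹ g
  rw [inv_mul_cancel, der_one h] at h1
  exact eq_neg_of_add_eq_zero_left h1.symm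

theorem uniq {ρ : F2 →* Module.End F S} {δ δ' : F2 → S} (h : IsDer ρ δ) (h' : IsDer ρ δ')
    (h0 : ∀ i : Fin 2, δ (FreeGroup.of i) = δ' (FreeGroup.of i)) (g : F2) : δ g = δ' g := by
  refine FreeGroup.induction_on g ?_ ?_ ?_ ?_
  · rw [der_one h, der_one h']
  · intro i
    exact h0 i
  · intro i _
    show δ (FreeGroup.of i)⁻¹ = δ' (FreeGroup.of i)⁻¹
    rw [der_inv h, der_inv h', h0 i]
  · intro x y hx hy
    rw [h, h', hx, hy]

end DEX

theorem p_DEX : S_DEX := by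
  intro F S _ _ _ ρ
  refine ⟨fun v1 v2 => ⟨fun g => DEX.LL ρ ![v1, v2] g 0, DEX.der ρ ![v1, v2], ?_, ?_⟩, ?_⟩
  · show DEX.LL ρ ![v1, v2] (FreeGroup.of 0) 0 = v1
    rw [DEX.LL_of, map_zero, zero_add]
    rfl
  · show DEX.LL ρ ![v1, v2] (FreeGroup.of 1) 0 = v2
    rw [DEX.LL_of, map_zero, zero_add]
    rfl
  · intro δ δ' h h' h0 h1
    funext g
    refine DEX.uniq h h' ?_ g
    intro i
    fin_cases i
    · exact h0
    · exact h1

end Pool.Agent.Work.MP_403fb3_lin
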