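import Pool.Agent.Work.MP_403fb3_lin.Interface6

/-!
# Block DUA: the dual representation satisfies the same hypotheses
-/

set_option autoImplicit false

namespace Pool.Agent.Work.MP_403fb3_lin

open Matrix Subgroup
open Pool.Agent.Work.MP_403fb3_al_helper9

namespace DUA

theorem char_one {F : Type} [Field F] (χ : F2 →* F) {d : ℕ} (hd : 1 ≤ d) {w : F2}
    (hw : w ∈ derivedSeries F2 d) : χ w = 1 := by
  have h1 : w ∈ derivedSeries F2 1 := derivedSeries_antitone F2 hd hw
  rw [derivedSeries_one] at h1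
  have h2 := Abelianization.commutator_subset_ker χ.toHomUnits h1
  rw [MonoidHom.mem_ker] at h2
  have h3 := congrArg Units.val h2
  rwa [MonoidHom.coe_toHomUnits, Units.val_one] at h3

/-- invariant functionals vanish -/
theorem functional {F S : Type} [Field F] [AddCommGroup S] [Module F S] [Finite S]
    (ρ : F2 →* Module.End F S) (k d : ℕ) (hk : k.Prime) (hkF : (k : F) ≠ 0)
    (h2 : ∀ w ∈ derivedSeries F2 d, ρ w ^ k = 1)
    (h3 : ∀ v : S, (∀ w ∈ derivedSeries F2 d, ρ w v = v) → v = 0)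
    (f : Module.Dual F S) (hf : ∀ w ∈ derivedSeries F2 d, ∀ v, f (ρ w v) = f v) : f = 0 := by
  classical
  have _ : Fact k.Prime := ⟨hk⟩
  have _ : Finite (Module.End F S) := DFunLike.finite (S →ₗ[F] S)
  let E : Subgroup (Module.End F S)ˣ := Subgroup.map ρ.toHomUnits (derivedSeries F2 d)
  have _ : Finite (Module.End F S)ˣ := inferInstance
  have _ : Finite E := inferInstance
  haveI : Fintype E := Fintype.ofFinite E
  have hE : ∀ e : E, ∃ w ∈ derivedSeries F2 d, ((e : (Module.End F S)ˣ) : Module.End F S) = ρ w := by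
    rintro ⟨e, he⟩
    obtain ⟨w, hw, rfl⟩ := he
    exact ⟨w, hw, MonoidHom.coe_toHomUnits _ _⟩
  have hpg : IsPGroup k E := by
    intro e
    refine ⟨1, ?_⟩
    rw [pow_one]
    obtain ⟨w, hw, hew⟩ := hE e
    apply Subtype.ext
    apply Units.ext
    rw [Subgroup.coe_pow, Units.val_pow_eq_pow_val, hew, h2 w hw]
    rfl
  obtain ⟨m, hm⟩ := IsPGroup.iff_card.1 hpg
  have hcard : ((Fintype.card E : ℕ) : F) ≠ 0 := by
    rw [← Nat.card_eq_fintype_card, hm]
    push_cast
    exact pow_ne_zero _ hkF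
  apply LinearMap.ext
  intro v
  have hN : ∑ e : E, (((e : (Module.End F S)ˣ) : Module.End F S)) v = 0 := by
    apply h3
    intro w hw
    have hmem : ρ.toHomUnits w ∈ E := Subgroup.mem_map_of_mem _ hw
    rw [map_sum]
    refine Fintype.sum_equiv (Equiv.mulLeft (⟨ρ.toHomUnits w, hmem⟩ : E)) _ _ ?_
    intro e
    rw [Equiv.coe_mulLeft, Subgroup.coe_mul, Units.val_mul, Module.End.mul_apply]
    rfl
  have hsum : f (∑ e : E, (((e : (Module.End F S)ˣ) : Module.End F S)) v)
      = (Fintype.card E : F) * f v := by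
    rw [map_sum]
    have : ∀ e : E, f ((((e : (Module.End F S)ˣ) : Module.End F S)) v) = f v := by
      intro e
      obtain ⟨w, hw, hew⟩ := hE e
      rw [hew, hf w hw]
    rw [Finset.sum_congr rfl (fun e _ => this e), Finset.sum_const, Finset.card_univ,
      nsmul_eq_mul]
  rw [hN, map_zero] at hsum
  rcases mul_eq_zero.1 hsum.symm with h | h
  · exact absurd h hcard
  · exact h

end DUA

theorem p_DUA : S_DUA := by
  intro F S _ _ _ _ ρ χ ρ' k d hk hkF hd hρ hdual
  obtain ⟨h1, h2, h3⟩ := hρ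
  refine ⟨?_, ?_, ?_⟩
  · intro w hw
    apply LinearMap.ext
    intro f
    apply LinearMap.ext
    intro v
    rw [hdual w f v, DUA.char_one χ (by omega) hw, one_mul, h1 w⁻¹ (inv_mem hw)]
    rfl
  · intro w hw
    rw [← map_pow]
    apply LinearMap.ext
    intro f
    apply LinearMap.ext
    intro v
    rw [hdual (w ^ k) f v, map_pow, DUA.char_one χ hd hw, one_pow, one_mul, ← inv_pow, map_pow,
      h2 w⁻¹ (inv_mem hw)]
    rfl
  · intro f hf
    refine DUA.functional ρ k d hk hkF h2 h3 f ?_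
    intro w hw v
    have h := hf w⁻¹ (inv_mem hw)
    have h' : ρ' w⁻¹ f v = f v := by rw [h]
    rw [hdual w⁻¹ f v, DUA.char_one χ hd (inv_mem hw), one_mul, inv_inv] at h'
    exact h'

end Pool.Agent.Work.MP_403fb3_lin
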