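import Pool.Agent.Work.MP_403fb3_lin.Interface6

/-!
# Block EXN: there is a derivation which does not vanish on the derived subgroup
-/

set_option autoImplicit false

namespace Pool.Agent.Work.MP_403fb3_lin

open Matrix Subgroup

/-- `EXN` -/
theorem p_EXN (hDEX : S_DEX) (hCNT : S_CNT) : S_EXN := by
  intro F S _ _ _ _ _ ρ k d hk hkF hρ
  by_contra hcon
  push Not at hcon
  have hsurj : Function.Surjective (fun c : S =>
      ((c - ρ (FreeGroup.of 0) c, c - ρ (FreeGroup.of 1) c) : S × S)) := by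
    rintro ⟨v1, v2⟩
    obtain ⟨δ, hδ, h1, h2⟩ := (hDEX F S ρ).1 v1 v2
    obtain ⟨c, hc⟩ := hCNT F S ρ k d hk hkF hρ δ hδ (hcon δ hδ)
    refine ⟨c, ?_⟩
    show (c - ρ (FreeGroup.of 0) c, c - ρ (FreeGroup.of 1) c) = (v1, v2)
    rw [← hc, ← hc, h1, h2]
  have hle : Nat.card (S × S) ≤ Nat.card S := Nat.card_le_card_of_surjective _ hsurj
  rw [Nat.card_prod] at hle
  have h1 : 1 < Nat.card S := Finite.one_lt_card
  nlinarith

end Pool.Agent.Work.MP_403fb3_lin
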