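import Pool.Agent.Work.MP_403fb3_lin.Interface2

/-!
# Abelian normal subgroups of subgroups of `PSL(2, F)` (block GEO)
-/

set_option autoImplicit false

namespace Pool.Agent.Work.MP_403fb3_lin

open Matrix Subgroup

namespace GEO

variable {F : Type} [Field F]

/-- the centralizer of a non-scalar matrix -/
theorem cent (a c : Matrix (Fin 2) (Fin 2) F) (ha : ∀ x : F, a ≠ x • 1) (h : c * a = a * c) :
    ∃ x y : F, c = x • 1 + y • a := by
  have h00 := congrFun (congrFun h 0) 0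
  have h01 := congrFun (congrFun h 0) 1
  have h10 := congrFun (congrFun h 1) 0
  simp only [Matrix.mul_apply, Fin.sum_univ_two] at h00 h01 h10
  by_cases b1 : a 0 1 = 0
  · by_cases b2 : a 1 0 = 0
    · have b3 : a 0 0 - a 1 1 ≠ 0 := by
        intro h1
        apply ha (a 0 0)
        ext i j
        fin_cases i <;> fin_cases j
        · simp
        · simpa using b1
        · simpa using b2
        · simp
          linear_combination -h1
      have c01 : c 0 1 = 0 := by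
        rw [b1] at h01
        have : c 0 1 * (a 0 0 - a 1 1) = 0 := by linear_combination -h01
        exact (mul_eq_zero.1 this).resolve_right b3
      have c10 : c 1 0 = 0 := by
        rw [b2] at h10
        have : c 1 0 * (a 0 0 - a 1 1) = 0 := by linear_combination h10
        exact (mul_eq_zero.1 this).resolve_right b3
      refine ⟨c 0 0 - (c 0 0 - c 1 1) / (a 0 0 - a 1 1) * a 0 0, (c 0 0 - c 1 1) / (a 0 0 - a 1 1), ?_⟩
      ext i j
      fin_cases i <;> fin_cases j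
      · simp
      · simp [b1, c01]
      · simp [b2, c10]
      · simp
        field_simp
        ring
    · refine ⟨c 0 0 - c 1 0 / a 1 0 * a 0 0, c 1 0 / a 1 0, ?_⟩
      have c01 : c 0 1 = 0 := by
        rw [b1] at h00
        have : c 0 1 * a 1 0 = 0 := by linear_combination h00
        exact (mul_eq_zero.1 this).resolve_right b2
      ext i j
      fin_cases i <;> fin_cases j
      · simp
      · simp [b1, c01]
      · simp [b2]
      · simp
        field_simp
        linear_combination h10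
  · refine ⟨c 0 0 - c 0 1 / a 0 1 * a 0 0, c 0 1 / a 0 1, ?_⟩
    ext i j
    fin_cases i <;> fin_cases j
    · simp
    · simp [b1]
    · simp
      field_simp
      linear_combination -h00
    · simp
      field_simp
      linear_combination -h01

theorem alg (t x y x' y' : F) (h1 : 2 * x + y * t = t) (h2 : x ^ 2 + x * y * t + y ^ 2 = 1)
    (h1' : 2 * x' + y' * t = t) (h2' : x' ^ 2 + x' * y' * t + y' ^ 2 = 1) :
    x' * (1 - y) = x * (1 - y') := by
  by_cases h : (2 : F) = 0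
  · by_cases ht : t = 0
    · subst ht
      have e1 : (x + y - 1) ^ 2 = 0 := by
        linear_combination h2 + (x * y - x - y + 1) * h
      have e2 : (x' + y' - 1) ^ 2 = 0 := by
        linear_combination h2' + (x' * y' - x' - y' + 1) * h
      have e3 : x + y - 1 = 0 := by simpa using e1
      have e4 : x' + y' - 1 = 0 := by simpa using e2
      linear_combination (1 - y) * e4 - (1 - y') * e3
    · have e1 : (1 - y) * t = 0 := by linear_combination -h1 + x * h
      have e2 : (1 - y') * t = 0 := by linear_combination -h1' + x' * h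
      have e3 : 1 - y = 0 := (mul_eq_zero.1 e1).resolve_right ht
      have e4 : 1 - y' = 0 := (mul_eq_zero.1 e2).resolve_right ht
      rw [e3, e4, mul_zero, mul_zero]
  · have e1 : 2 * (x' * (1 - y) - x * (1 - y')) = 0 := by
      linear_combination (1 - y) * h1' - (1 - y') * h1
    exact sub_eq_zero.1 ((mul_eq_zero.1 e1).resolve_left h)

/-- the projection -/
def pr (F : Type) [Field F] : Matrix.SpecialLinearGroup (Fin 2) F →*
    Matrix.ProjectiveSpecialLinearGroup (Fin 2) F :=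
  QuotientGroup.mk' _

theorem pr_surj : Function.Surjective (pr F) := QuotientGroup.mk'_surjective _

theorem pr_eq_one (a : (Matrix.SpecialLinearGroup (Fin 2) F)) : pr F a = 1 ↔ a ∈ Subgroup.center (Matrix.SpecialLinearGroup (Fin 2) F) := by
  have h : (pr F).ker = Subgroup.center (Matrix.SpecialLinearGroup (Fin 2) F) := QuotientGroup.ker_mk' _
  have h2 : a ∈ (pr F).ker ↔ pr F a = 1 := MonoidHom.mem_ker
  have h3 : a ∈ (pr F).ker ↔ a ∈ Subgroup.center (Matrix.SpecialLinearGroup (Fin 2) F) := by rw [h]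
  exact h2.symm.trans h3

theorem pr_scalar (a : (Matrix.SpecialLinearGroup (Fin 2) F)) (x : F) (h : (a : (Matrix (Fin 2) (Fin 2) F)) = x • 1) : pr F a = 1 := by
  rw [pr_eq_one, Subgroup.mem_center_iff]
  intro g
  apply Subtype.ext
  change (g : (Matrix (Fin 2) (Fin 2) F)) * (a : (Matrix (Fin 2) (Fin 2) F)) = (a : (Matrix (Fin 2) (Fin 2) F)) * (g : (Matrix (Fin 2) (Fin 2) F))
  rw [h]
  simp

theorem comm_sign (u v : (Matrix.SpecialLinearGroup (Fin 2) F)) (h : pr F u * pr F v = pr F v * pr F u) :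
    (u : (Matrix (Fin 2) (Fin 2) F)) * (v : (Matrix (Fin 2) (Fin 2) F)) = (v : (Matrix (Fin 2) (Fin 2) F)) * (u : (Matrix (Fin 2) (Fin 2) F)) ∨ (u : (Matrix (Fin 2) (Fin 2) F)) * (v : (Matrix (Fin 2) (Fin 2) F)) = -((v : (Matrix (Fin 2) (Fin 2) F)) * (u : (Matrix (Fin 2) (Fin 2) F))) := by
  have h1 : pr F (u * v * (v * u)⁻¹) = 1 := by
    rw [map_mul, map_inv, map_mul, map_mul, h, mul_inv_cancel]
  rw [pr_eq_one, Matrix.SpecialLinearGroup.mem_center_iff] at h1
  obtain ⟨r, hr, h2⟩ := h1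
  rw [Fintype.card_fin] at hr
  have h3 : (u : (Matrix (Fin 2) (Fin 2) F)) * (v : (Matrix (Fin 2) (Fin 2) F)) = r • ((v : (Matrix (Fin 2) (Fin 2) F)) * (u : (Matrix (Fin 2) (Fin 2) F))) := by
    have h4 : u * v = (u * v * (v * u)⁻¹) * (v * u) := by group
    have h5 : ((u * v : (Matrix.SpecialLinearGroup (Fin 2) F)) : (Matrix (Fin 2) (Fin 2) F)) = ((u * v * (v * u)⁻¹ * (v * u) : (Matrix.SpecialLinearGroup (Fin 2) F)) : (Matrix (Fin 2) (Fin 2) F)) :=
      congrArg (fun z : (Matrix.SpecialLinearGroup (Fin 2) F) => (z : (Matrix (Fin 2) (Fin 2) F))) h4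
    rw [Matrix.SpecialLinearGroup.coe_mul, Matrix.SpecialLinearGroup.coe_mul (u * v * (v * u)⁻¹),
      ← h2, Matrix.SpecialLinearGroup.coe_mul v u] at h5
    rw [h5, Matrix.scalar_apply, ← Matrix.smul_one_eq_diagonal, smul_mul_assoc, one_mul]
  have h4 : (r - 1) * (r + 1) = 0 := by linear_combination hr
  rcases mul_eq_zero.1 h4 with h5 | h5
  · left
    rw [h3, sub_eq_zero.1 h5, one_smul]
  · right
    rw [h3, eq_neg_of_add_eq_zero_left h5, neg_smul, one_smul]

theorem nonscalar (a b : (Matrix.SpecialLinearGroup (Fin 2) F)) (h : (a : (Matrix (Fin 2) (Fin 2) F)) * (b : (Matrix (Fin 2) (Fin 2) F)) ≠ (b : (Matrix (Fin 2) (Fin 2) F)) * (a : (Matrix (Fin 2) (Fin 2) F))) :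
    ∀ x : F, (a : (Matrix (Fin 2) (Fin 2) F)) ≠ x • 1 := by
  intro x hx
  apply h
  rw [hx]
  simp

/-- what commutes with `a` and `b` is scalar -/
theorem two_comm (a b d : (Matrix.SpecialLinearGroup (Fin 2) F)) (h : (a : (Matrix (Fin 2) (Fin 2) F)) * (b : (Matrix (Fin 2) (Fin 2) F)) ≠ (b : (Matrix (Fin 2) (Fin 2) F)) * (a : (Matrix (Fin 2) (Fin 2) F)))
    (h1 : (d : (Matrix (Fin 2) (Fin 2) F)) * (a : (Matrix (Fin 2) (Fin 2) F)) = (a : (Matrix (Fin 2) (Fin 2) F)) * (d : (Matrix (Fin 2) (Fin 2) F))) (h2 : (d : (Matrix (Fin 2) (Fin 2) F)) * (b : (Matrix (Fin 2) (Fin 2) F)) = (b : (Matrix (Fin 2) (Fin 2) F)) * (d : (Matrix (Fin 2) (Fin 2) F))) :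
    pr F d = 1 := by
  obtain ⟨x, y, hd⟩ := cent (a : (Matrix (Fin 2) (Fin 2) F)) (d : (Matrix (Fin 2) (Fin 2) F)) (nonscalar a b h) h1
  have h3 : y • ((a : (Matrix (Fin 2) (Fin 2) F)) * (b : (Matrix (Fin 2) (Fin 2) F)) - (b : (Matrix (Fin 2) (Fin 2) F)) * (a : (Matrix (Fin 2) (Fin 2) F))) = 0 := by
    rw [hd] at h2
    rw [add_mul, mul_add, smul_mul_assoc, smul_mul_assoc, mul_smul_comm, mul_smul_comm, one_mul,
      mul_one] at h2
    rw [smul_sub, sub_eq_zero]
    exact add_left_cancel h2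
  have h4 : y = 0 := (smul_eq_zero.1 h3).resolve_right (sub_ne_zero.2 h)
  rw [h4, zero_smul, add_zero] at hd
  exact pr_scalar d x hd

/-- the square of `a` when `a b = - b a` -/
theorem sq_one (a b : (Matrix.SpecialLinearGroup (Fin 2) F)) (h2 : (2 : F) ≠ 0) (h : (a : (Matrix (Fin 2) (Fin 2) F)) * (b : (Matrix (Fin 2) (Fin 2) F)) = -((b : (Matrix (Fin 2) (Fin 2) F)) * (a : (Matrix (Fin 2) (Fin 2) F)))) :
    pr F a * pr F a = 1 := by
  have ht : (a : (Matrix (Fin 2) (Fin 2) F)).trace = 0 := by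
    have h3 : (a : (Matrix (Fin 2) (Fin 2) F)) = -((b : (Matrix (Fin 2) (Fin 2) F)) * (a : (Matrix (Fin 2) (Fin 2) F)) * ((b⁻¹ : (Matrix.SpecialLinearGroup (Fin 2) F)) : (Matrix (Fin 2) (Fin 2) F))) := by
      have h4 : (b : (Matrix (Fin 2) (Fin 2) F)) * ((b⁻¹ : (Matrix.SpecialLinearGroup (Fin 2) F)) : (Matrix (Fin 2) (Fin 2) F)) = 1 := by
        rw [← Matrix.SpecialLinearGroup.coe_mul, mul_inv_cancel, Matrix.SpecialLinearGroup.coe_one]
      have h5 : (a : (Matrix (Fin 2) (Fin 2) F)) = (a : (Matrix (Fin 2) (Fin 2) F)) * (b : (Matrix (Fin 2) (Fin 2) F)) * ((b⁻¹ : (Matrix.SpecialLinearGroup (Fin 2) F)) : (Matrix (Fin 2) (Fin 2) F)) := by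
        rw [mul_assoc, h4, mul_one]
      rw [h] at h5
      rw [← neg_mul]
      exact h5
    have h4 : ((b⁻¹ : (Matrix.SpecialLinearGroup (Fin 2) F)) : (Matrix (Fin 2) (Fin 2) F)) * (b : (Matrix (Fin 2) (Fin 2) F)) = 1 := by
      rw [← Matrix.SpecialLinearGroup.coe_mul, inv_mul_cancel, Matrix.SpecialLinearGroup.coe_one]
    have h5 : (a : (Matrix (Fin 2) (Fin 2) F)).trace = -(a : (Matrix (Fin 2) (Fin 2) F)).trace := by
      conv_lhs => rw [h3]
      rw [Matrix.trace_neg, Matrix.trace_mul_comm, ← mul_assoc, h4, one_mul]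
    have h6 : 2 * (a : (Matrix (Fin 2) (Fin 2) F)).trace = 0 := by linear_combination h5
    exact (mul_eq_zero.1 h6).resolve_left h2
  rw [← map_mul]
  apply pr_scalar _ (-1)
  have hdet : (a : (Matrix (Fin 2) (Fin 2) F)).det = 1 := a.2
  rw [Matrix.det_fin_two] at hdet
  rw [Matrix.trace_fin_two] at ht
  rw [Matrix.SpecialLinearGroup.coe_mul]
  ext i j
  fin_cases i <;> fin_cases j
  · simp [Matrix.mul_apply, Fin.sum_univ_two]
    linear_combination (a : (Matrix (Fin 2) (Fin 2) F)) 0 0 * ht - hdet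
  · simp [Matrix.mul_apply, Fin.sum_univ_two]
    linear_combination (a : (Matrix (Fin 2) (Fin 2) F)) 0 1 * ht
  · simp [Matrix.mul_apply, Fin.sum_univ_two]
    linear_combination (a : (Matrix (Fin 2) (Fin 2) F)) 1 0 * ht
  · simp [Matrix.mul_apply, Fin.sum_univ_two]
    linear_combination (a : (Matrix (Fin 2) (Fin 2) F)) 1 1 * ht - hdet

/-- the case of two elements which commute only up to sign -/
theorem four (a b c : (Matrix.SpecialLinearGroup (Fin 2) F)) (h : (a : (Matrix (Fin 2) (Fin 2) F)) * (b : (Matrix (Fin 2) (Fin 2) F)) ≠ (b : (Matrix (Fin 2) (Fin 2) F)) * (a : (Matrix (Fin 2) (Fin 2) F)))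
    (hab : (a : (Matrix (Fin 2) (Fin 2) F)) * (b : (Matrix (Fin 2) (Fin 2) F)) = -((b : (Matrix (Fin 2) (Fin 2) F)) * (a : (Matrix (Fin 2) (Fin 2) F))))
    (ee : pr F a * pr F a = 1) (ff : pr F b * pr F b = 1) (ef : pr F a * pr F b = pr F b * pr F a)
    (h1 : pr F c * pr F a = pr F a * pr F c) (h2 : pr F c * pr F b = pr F b * pr F c) :
    pr F c = 1 ∨ pr F c = pr F a ∨ pr F c = pr F b ∨ pr F c = pr F a * pr F b := by
  have hba : (b : (Matrix (Fin 2) (Fin 2) F)) * (a : (Matrix (Fin 2) (Fin 2) F)) = -((a : (Matrix (Fin 2) (Fin 2) F)) * (b : (Matrix (Fin 2) (Fin 2) F))) := by rw [hab, neg_neg]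
  rcases comm_sign c a h1 with k1 | k1 <;> rcases comm_sign c b h2 with k2 | k2
  · left
    exact two_comm a b c h k1 k2
  · right; left
    have h3 : pr F (c * a) = 1 := by
      apply two_comm a b _ h
      · rw [Matrix.SpecialLinearGroup.coe_mul, k1, mul_assoc, k1]
      · rw [Matrix.SpecialLinearGroup.coe_mul, mul_assoc, hab, mul_neg, ← mul_assoc, k2, neg_mul,
          neg_neg, mul_assoc]
    rw [map_mul] at h3
    calc pr F c = pr F c * (pr F a * pr F a) := by rw [ee, mul_one]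
      _ = (pr F c * pr F a) * pr F a := by rw [mul_assoc]
      _ = pr F a := by rw [h3, one_mul]
  · right; right; left
    have h3 : pr F (c * b) = 1 := by
      apply two_comm a b _ h
      · rw [Matrix.SpecialLinearGroup.coe_mul, mul_assoc, hba, mul_neg, ← mul_assoc, k1, neg_mul,
          neg_neg, mul_assoc]
      · rw [Matrix.SpecialLinearGroup.coe_mul, k2, mul_assoc, k2]
    rw [map_mul] at h3
    calc pr F c = pr F c * (pr F b * pr F b) := by rw [ff, mul_one]
      _ = (pr F c * pr F b) * pr F b := by rw [mul_assoc]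
      _ = pr F b := by rw [h3, one_mul]
  · right; right; right
    have h3 : pr F (c * a * b) = 1 := by
      apply two_comm a b _ h
      · rw [Matrix.SpecialLinearGroup.coe_mul, Matrix.SpecialLinearGroup.coe_mul]
        calc (c : (Matrix (Fin 2) (Fin 2) F)) * (a : (Matrix (Fin 2) (Fin 2) F)) * (b : (Matrix (Fin 2) (Fin 2) F)) * (a : (Matrix (Fin 2) (Fin 2) F))
            = ((c : (Matrix (Fin 2) (Fin 2) F)) * (a : (Matrix (Fin 2) (Fin 2) F))) * ((b : (Matrix (Fin 2) (Fin 2) F)) * (a : (Matrix (Fin 2) (Fin 2) F))) := by rw [mul_assoc]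
          _ = (-((a : (Matrix (Fin 2) (Fin 2) F)) * (c : (Matrix (Fin 2) (Fin 2) F)))) * (-((a : (Matrix (Fin 2) (Fin 2) F)) * (b : (Matrix (Fin 2) (Fin 2) F)))) := by rw [k1, hba]
          _ = (a : (Matrix (Fin 2) (Fin 2) F)) * ((c : (Matrix (Fin 2) (Fin 2) F)) * (a : (Matrix (Fin 2) (Fin 2) F)) * (b : (Matrix (Fin 2) (Fin 2) F))) := by
            rw [neg_mul_neg, mul_assoc, mul_assoc]
      · rw [Matrix.SpecialLinearGroup.coe_mul, Matrix.SpecialLinearGroup.coe_mul]
        calc (c : (Matrix (Fin 2) (Fin 2) F)) * (a : (Matrix (Fin 2) (Fin 2) F)) * (b : (Matrix (Fin 2) (Fin 2) F)) * (b : (Matrix (Fin 2) (Fin 2) F))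
            = (c : (Matrix (Fin 2) (Fin 2) F)) * ((a : (Matrix (Fin 2) (Fin 2) F)) * (b : (Matrix (Fin 2) (Fin 2) F))) * (b : (Matrix (Fin 2) (Fin 2) F)) := by rw [mul_assoc (c : (Matrix (Fin 2) (Fin 2) F))]
          _ = (c : (Matrix (Fin 2) (Fin 2) F)) * (-((b : (Matrix (Fin 2) (Fin 2) F)) * (a : (Matrix (Fin 2) (Fin 2) F)))) * (b : (Matrix (Fin 2) (Fin 2) F)) := by rw [hab]
          _ = (-((c : (Matrix (Fin 2) (Fin 2) F)) * (b : (Matrix (Fin 2) (Fin 2) F)))) * (a : (Matrix (Fin 2) (Fin 2) F)) * (b : (Matrix (Fin 2) (Fin 2) F)) := by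
            simp only [mul_neg, neg_mul, mul_assoc]
          _ = (b : (Matrix (Fin 2) (Fin 2) F)) * ((c : (Matrix (Fin 2) (Fin 2) F)) * (a : (Matrix (Fin 2) (Fin 2) F)) * (b : (Matrix (Fin 2) (Fin 2) F))) := by
            rw [k2, neg_neg, mul_assoc, mul_assoc, mul_assoc]
    rw [map_mul, map_mul] at h3
    have h4 : pr F c * (pr F a * pr F b) = 1 := by rw [← mul_assoc]; exact h3
    have h5 : (pr F a * pr F b) * (pr F a * pr F b) = 1 := by
      calc (pr F a * pr F b) * (pr F a * pr F b)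
          = pr F a * (pr F b * pr F a) * pr F b := by simp only [mul_assoc]
        _ = pr F a * (pr F a * pr F b) * pr F b := by rw [ef]
        _ = (pr F a * pr F a) * (pr F b * pr F b) := by simp only [mul_assoc]
        _ = 1 := by rw [ee, ff, mul_one]
    calc pr F c = pr F c * ((pr F a * pr F b) * (pr F a * pr F b)) := by rw [h5, mul_one]
      _ = (pr F c * (pr F a * pr F b)) * (pr F a * pr F b) := by simp only [mul_assoc]
      _ = pr F a * pr F b := by rw [h4, one_mul]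

/-- conjugates of `a` in the algebra generated by `a` -/
theorem conj_eq (a u : (Matrix.SpecialLinearGroup (Fin 2) F)) (ha : ∀ x : F, (a : (Matrix (Fin 2) (Fin 2) F)) ≠ x • 1)
    (h : ((u * a * u⁻¹ : (Matrix.SpecialLinearGroup (Fin 2) F)) : (Matrix (Fin 2) (Fin 2) F)) * (a : (Matrix (Fin 2) (Fin 2) F)) = (a : (Matrix (Fin 2) (Fin 2) F)) * ((u * a * u⁻¹ : (Matrix.SpecialLinearGroup (Fin 2) F)) : (Matrix (Fin 2) (Fin 2) F))) :
    ∃ x y : F, (u : (Matrix (Fin 2) (Fin 2) F)) * (a : (Matrix (Fin 2) (Fin 2) F)) = (x • 1 + y • (a : (Matrix (Fin 2) (Fin 2) F))) * (u : (Matrix (Fin 2) (Fin 2) F)) ∧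
      2 * x + y * (a : (Matrix (Fin 2) (Fin 2) F)).trace = (a : (Matrix (Fin 2) (Fin 2) F)).trace ∧
      x ^ 2 + x * y * (a : (Matrix (Fin 2) (Fin 2) F)).trace + y ^ 2 = 1 := by
  obtain ⟨x, y, hxy⟩ := cent (a : (Matrix (Fin 2) (Fin 2) F)) _ ha h
  refine ⟨x, y, ?_, ?_, ?_⟩
  · rw [← hxy, ← Matrix.SpecialLinearGroup.coe_mul, ← Matrix.SpecialLinearGroup.coe_mul,
      inv_mul_cancel_right]
  · have h1 : ((u * a * u⁻¹ : (Matrix.SpecialLinearGroup (Fin 2) F)) : (Matrix (Fin 2) (Fin 2) F)).trace = (a : (Matrix (Fin 2) (Fin 2) F)).trace := by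
      rw [Matrix.SpecialLinearGroup.coe_mul, Matrix.trace_mul_comm,
        ← Matrix.SpecialLinearGroup.coe_mul, inv_mul_cancel_left]
    rw [hxy, Matrix.trace_add, Matrix.trace_smul, Matrix.trace_smul, Matrix.trace_one,
      Fintype.card_fin] at h1
    rw [smul_eq_mul, smul_eq_mul] at h1
    push_cast at h1
    linear_combination h1
  · have h1 : ((u * a * u⁻¹ : (Matrix.SpecialLinearGroup (Fin 2) F)) : (Matrix (Fin 2) (Fin 2) F)).det = 1 := (u * a * u⁻¹ : (Matrix.SpecialLinearGroup (Fin 2) F)).2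
    have h2 : (a : (Matrix (Fin 2) (Fin 2) F)).det = 1 := a.2
    rw [hxy, Matrix.det_fin_two] at h1
    rw [Matrix.det_fin_two] at h2
    rw [Matrix.trace_fin_two]
    simp at h1
    linear_combination h1 - y ^ 2 * h2

theorem comm_cent (a u v : (Matrix.SpecialLinearGroup (Fin 2) F)) (ha : ∀ x : F, (a : (Matrix (Fin 2) (Fin 2) F)) ≠ x • 1)
    (hu : ((u * a * u⁻¹ : (Matrix.SpecialLinearGroup (Fin 2) F)) : (Matrix (Fin 2) (Fin 2) F)) * (a : (Matrix (Fin 2) (Fin 2) F)) = (a : (Matrix (Fin 2) (Fin 2) F)) * ((u * a * u⁻¹ : (Matrix.SpecialLinearGroup (Fin 2) F)) : (Matrix (Fin 2) (Fin 2) F)))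
    (hv : ((v * a * v⁻¹ : (Matrix.SpecialLinearGroup (Fin 2) F)) : (Matrix (Fin 2) (Fin 2) F)) * (a : (Matrix (Fin 2) (Fin 2) F)) = (a : (Matrix (Fin 2) (Fin 2) F)) * ((v * a * v⁻¹ : (Matrix.SpecialLinearGroup (Fin 2) F)) : (Matrix (Fin 2) (Fin 2) F))) :
    ((v * u)⁻¹ * (u * v)) * a = a * ((v * u)⁻¹ * (u * v)) := by
  obtain ⟨x, y, h1, h2, h3⟩ := conj_eq a u ha hu
  obtain ⟨x', y', h1', h2', h3'⟩ := conj_eq a v ha hv
  have h4 := alg (a : (Matrix (Fin 2) (Fin 2) F)).trace x y x' y' h2 h3 h2' h3'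
  have e1 : (u : (Matrix (Fin 2) (Fin 2) F)) * (v : (Matrix (Fin 2) (Fin 2) F)) * (a : (Matrix (Fin 2) (Fin 2) F))
      = ((x' + y' * x) • 1 + (y * y') • (a : (Matrix (Fin 2) (Fin 2) F))) * ((u : (Matrix (Fin 2) (Fin 2) F)) * (v : (Matrix (Fin 2) (Fin 2) F))) := by
    calc (u : (Matrix (Fin 2) (Fin 2) F)) * (v : (Matrix (Fin 2) (Fin 2) F)) * (a : (Matrix (Fin 2) (Fin 2) F)) = (u : (Matrix (Fin 2) (Fin 2) F)) * ((v : (Matrix (Fin 2) (Fin 2) F)) * (a : (Matrix (Fin 2) (Fin 2) F))) := by rw [mul_assoc]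
      _ = (u : (Matrix (Fin 2) (Fin 2) F)) * ((x' • 1 + y' • (a : (Matrix (Fin 2) (Fin 2) F))) * (v : (Matrix (Fin 2) (Fin 2) F))) := by rw [h1']
      _ = (x' • (u : (Matrix (Fin 2) (Fin 2) F)) + y' • ((u : (Matrix (Fin 2) (Fin 2) F)) * (a : (Matrix (Fin 2) (Fin 2) F)))) * (v : (Matrix (Fin 2) (Fin 2) F)) := by
        rw [← mul_assoc, mul_add, mul_smul_comm, mul_smul_comm, mul_one]
      _ = (x' • (u : (Matrix (Fin 2) (Fin 2) F)) + y' • ((x • 1 + y • (a : (Matrix (Fin 2) (Fin 2) F))) * (u : (Matrix (Fin 2) (Fin 2) F)))) * (v : (Matrix (Fin 2) (Fin 2) F)) := by rw [h1]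
      _ = ((x' + y' * x) • 1 + (y * y') • (a : (Matrix (Fin 2) (Fin 2) F))) * ((u : (Matrix (Fin 2) (Fin 2) F)) * (v : (Matrix (Fin 2) (Fin 2) F))) := by
        simp only [add_mul, smul_mul_assoc, one_mul, smul_add, smul_smul, add_smul, mul_assoc]
        rw [mul_comm y' y]
        abel
  have e2 : (v : (Matrix (Fin 2) (Fin 2) F)) * (u : (Matrix (Fin 2) (Fin 2) F)) * (a : (Matrix (Fin 2) (Fin 2) F))
      = ((x' + y' * x) • 1 + (y * y') • (a : (Matrix (Fin 2) (Fin 2) F))) * ((v : (Matrix (Fin 2) (Fin 2) F)) * (u : (Matrix (Fin 2) (Fin 2) F))) := by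
    calc (v : (Matrix (Fin 2) (Fin 2) F)) * (u : (Matrix (Fin 2) (Fin 2) F)) * (a : (Matrix (Fin 2) (Fin 2) F)) = (v : (Matrix (Fin 2) (Fin 2) F)) * ((u : (Matrix (Fin 2) (Fin 2) F)) * (a : (Matrix (Fin 2) (Fin 2) F))) := by rw [mul_assoc]
      _ = (v : (Matrix (Fin 2) (Fin 2) F)) * ((x • 1 + y • (a : (Matrix (Fin 2) (Fin 2) F))) * (u : (Matrix (Fin 2) (Fin 2) F))) := by rw [h1]
      _ = (x • (v : (Matrix (Fin 2) (Fin 2) F)) + y • ((v : (Matrix (Fin 2) (Fin 2) F)) * (a : (Matrix (Fin 2) (Fin 2) F)))) * (u : (Matrix (Fin 2) (Fin 2) F)) := by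
        rw [← mul_assoc, mul_add, mul_smul_comm, mul_smul_comm, mul_one]
      _ = (x • (v : (Matrix (Fin 2) (Fin 2) F)) + y • ((x' • 1 + y' • (a : (Matrix (Fin 2) (Fin 2) F))) * (v : (Matrix (Fin 2) (Fin 2) F)))) * (u : (Matrix (Fin 2) (Fin 2) F)) := by rw [h1']
      _ = ((x + y * x') • 1 + (y * y') • (a : (Matrix (Fin 2) (Fin 2) F))) * ((v : (Matrix (Fin 2) (Fin 2) F)) * (u : (Matrix (Fin 2) (Fin 2) F))) := by
        simp only [add_mul, smul_mul_assoc, one_mul, smul_add, smul_smul, add_smul, mul_assoc]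
        abel
      _ = ((x' + y' * x) • 1 + (y * y') • (a : (Matrix (Fin 2) (Fin 2) F))) * ((v : (Matrix (Fin 2) (Fin 2) F)) * (u : (Matrix (Fin 2) (Fin 2) F))) := by
        have : x + y * x' = x' + y' * x := by linear_combination -h4
        rw [this]
  have e3 : (v * u) * (((v * u)⁻¹ * (u * v)) * a) = (v * u) * (a * ((v * u)⁻¹ * (u * v))) := by
    have l1 : (v * u) * (((v * u)⁻¹ * (u * v)) * a) = (u * v) * a := by group
    have l2 : (v * u) * (a * ((v * u)⁻¹ * (u * v))) = ((v * u) * a) * ((v * u)⁻¹ * (u * v)) := by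
      rw [← mul_assoc]
    rw [l1, l2]
    apply Subtype.ext
    change ((u * v * a : (Matrix.SpecialLinearGroup (Fin 2) F)) : (Matrix (Fin 2) (Fin 2) F)) = (((v * u * a) * ((v * u)⁻¹ * (u * v)) : (Matrix.SpecialLinearGroup (Fin 2) F)) : (Matrix (Fin 2) (Fin 2) F))
    rw [Matrix.SpecialLinearGroup.coe_mul (v * u * a), Matrix.SpecialLinearGroup.coe_mul (v * u) a,
      Matrix.SpecialLinearGroup.coe_mul v u, e2, mul_assoc _ ((v : (Matrix (Fin 2) (Fin 2) F)) * (u : (Matrix (Fin 2) (Fin 2) F))),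
      ← Matrix.SpecialLinearGroup.coe_mul v u, ← Matrix.SpecialLinearGroup.coe_mul (v * u),
      mul_inv_cancel_left, Matrix.SpecialLinearGroup.coe_mul (u * v),
      Matrix.SpecialLinearGroup.coe_mul u v, e1]
  exact mul_left_cancel e3

theorem cent_comm (a c d : (Matrix.SpecialLinearGroup (Fin 2) F)) (ha : ∀ x : F, (a : (Matrix (Fin 2) (Fin 2) F)) ≠ x • 1) (h1 : c * a = a * c)
    (h2 : d * a = a * d) : c * d = d * c := by
  have k1 : (c : (Matrix (Fin 2) (Fin 2) F)) * (a : (Matrix (Fin 2) (Fin 2) F)) = (a : (Matrix (Fin 2) (Fin 2) F)) * (c : (Matrix (Fin 2) (Fin 2) F)) := by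
    rw [← Matrix.SpecialLinearGroup.coe_mul, h1, Matrix.SpecialLinearGroup.coe_mul]
  have k2 : (d : (Matrix (Fin 2) (Fin 2) F)) * (a : (Matrix (Fin 2) (Fin 2) F)) = (a : (Matrix (Fin 2) (Fin 2) F)) * (d : (Matrix (Fin 2) (Fin 2) F)) := by
    rw [← Matrix.SpecialLinearGroup.coe_mul, h2, Matrix.SpecialLinearGroup.coe_mul]
  obtain ⟨x, y, hc⟩ := cent (a : (Matrix (Fin 2) (Fin 2) F)) (c : (Matrix (Fin 2) (Fin 2) F)) ha k1
  apply Subtype.ext
  change ((c * d : (Matrix.SpecialLinearGroup (Fin 2) F)) : (Matrix (Fin 2) (Fin 2) F)) = ((d * c : (Matrix.SpecialLinearGroup (Fin 2) F)) : (Matrix (Fin 2) (Fin 2) F))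
  rw [Matrix.SpecialLinearGroup.coe_mul, Matrix.SpecialLinearGroup.coe_mul, hc, add_mul, mul_add,
    smul_mul_assoc, smul_mul_assoc, mul_smul_comm, mul_smul_comm, one_mul, mul_one, k2]

end GEO

theorem p_GEO : S_GEO := by
  intro F _ S A hAS hA hcomm hnorm
  by_cases hall : ∀ a b : Matrix.SpecialLinearGroup (Fin 2) F, GEO.pr F a ∈ A → GEO.pr F b ∈ A →
      (a : Matrix (Fin 2) (Fin 2) F) * (b : Matrix (Fin 2) (Fin 2) F)
        = (b : Matrix (Fin 2) (Fin 2) F) * (a : Matrix (Fin 2) (Fin 2) F)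
  · left
    obtain ⟨α, hα, hα1⟩ := (Subgroup.bot_or_exists_ne_one A).resolve_left hA
    obtain ⟨a, rfl⟩ := GEO.pr_surj α
    have ha : ∀ x : F, (a : Matrix (Fin 2) (Fin 2) F) ≠ x • 1 :=
      fun x hx => hα1 (GEO.pr_scalar a x hx)
    have hconj : ∀ u : Matrix.SpecialLinearGroup (Fin 2) F, GEO.pr F u ∈ S →
        ((u * a * u⁻¹ : Matrix.SpecialLinearGroup (Fin 2) F) : Matrix (Fin 2) (Fin 2) F) *
          (a : Matrix (Fin 2) (Fin 2) F) = (a : Matrix (Fin 2) (Fin 2) F) *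
          ((u * a * u⁻¹ : Matrix.SpecialLinearGroup (Fin 2) F) : Matrix (Fin 2) (Fin 2) F) := by
      intro u hu
      apply hall _ _ _ hα
      rw [map_mul, map_mul, map_inv]
      exact hnorm _ hu _ hα
    have hle : ⁅(⊤ : Subgroup S), (⊤ : Subgroup S)⁆ ≤
        ((Subgroup.centralizer {a}).map (GEO.pr F)).comap S.subtype := by
      rw [Subgroup.commutator_le]
      intro g _ h _
      obtain ⟨u, hu⟩ := GEO.pr_surj (g : ProjectiveSpecialLinearGroup (Fin 2) F)
      obtain ⟨v, hv⟩ := GEO.pr_surj (h : ProjectiveSpecialLinearGroup (Fin 2) F)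
      rw [Subgroup.mem_comap, Subgroup.mem_map]
      refine ⟨u * v * u⁻¹ * v⁻¹, ?_, ?_⟩
      · rw [Subgroup.mem_centralizer_singleton_iff]
        have k1 : GEO.pr F u⁻¹ ∈ S := by
          rw [map_inv, hu]
          exact S.inv_mem g.2
        have k2 : GEO.pr F v⁻¹ ∈ S := by
          rw [map_inv, hv]
          exact S.inv_mem h.2
        have k3 := GEO.comm_cent a u⁻¹ v⁻¹ ha (hconj _ k1) (hconj _ k2)
        have k4 : (v⁻¹ * u⁻¹)⁻¹ * (u⁻¹ * v⁻¹) = u * v * u⁻¹ * v⁻¹ := by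
          rw [_root_.mul_inv_rev, inv_inv, inv_inv, mul_assoc, mul_assoc, mul_assoc]
        rw [k4] at k3
        first | exact k3 | exact k3.symm
      · rw [map_mul, map_mul, map_mul, map_inv, map_inv, hu, hv]
        rfl
    rw [derivedSeries_succ, derivedSeries_succ, derivedSeries_zero,
      Subgroup.commutator_eq_bot_iff_le_centralizer]
    intro g hg
    rw [Subgroup.mem_centralizer_iff]
    intro h hh
    obtain ⟨c, hc, hcg⟩ := Subgroup.mem_map.1 (Subgroup.mem_comap.1 (hle hg))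
    obtain ⟨d, hd, hdh⟩ := Subgroup.mem_map.1 (Subgroup.mem_comap.1 (hle hh))
    rw [Subgroup.mem_centralizer_singleton_iff] at hc hd
    have hcd : d * c = c * d := by
      first
        | exact GEO.cent_comm a d c ha hd hc
        | exact GEO.cent_comm a d c ha hd.symm hc.symm
    apply Subtype.ext
    change (h : ProjectiveSpecialLinearGroup (Fin 2) F) * g = g * h
    have hcg' : GEO.pr F c = (g : ProjectiveSpecialLinearGroup (Fin 2) F) := hcg
    have hdh' : GEO.pr F d = (h : ProjectiveSpecialLinearGroup (Fin 2) F) := hdh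
    rw [← hcg', ← hdh', ← map_mul, ← map_mul, hcd]
  · right
    push Not at hall
    obtain ⟨a, b, haA, hbA, hne⟩ := hall
    have hab := (GEO.comm_sign a b (hcomm _ haA _ hbA)).resolve_left hne
    have hba : (b : Matrix (Fin 2) (Fin 2) F) * (a : Matrix (Fin 2) (Fin 2) F)
        = -((a : Matrix (Fin 2) (Fin 2) F) * (b : Matrix (Fin 2) (Fin 2) F)) := by
      rw [hab, neg_neg]
    have h2 : (2 : F) ≠ 0 := by
      intro h
      apply hne
      rw [hab]
      have h1 : (-1 : F) = 1 := by linear_combination -h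
      calc -((b : Matrix (Fin 2) (Fin 2) F) * (a : Matrix (Fin 2) (Fin 2) F))
          = (-1 : F) • ((b : Matrix (Fin 2) (Fin 2) F) * (a : Matrix (Fin 2) (Fin 2) F)) := by
            rw [neg_smul, one_smul]
        _ = _ := by rw [h1, one_smul]
    have ee := GEO.sq_one a b h2 hab
    have ff := GEO.sq_one b a h2 hba
    have ef := hcomm _ haA _ hbA
    have hcen : ∀ g : ProjectiveSpecialLinearGroup (Fin 2) F, g * GEO.pr F a = GEO.pr F a * g →
        g * GEO.pr F b = GEO.pr F b * g →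
        g = 1 ∨ g = GEO.pr F a ∨ g = GEO.pr F b ∨ g = GEO.pr F a * GEO.pr F b := by
      intro g h3 h4
      obtain ⟨c, rfl⟩ := GEO.pr_surj g
      exact GEO.four a b c hne hab ee ff ef h3 h4
    have hin : ∀ g : ProjectiveSpecialLinearGroup (Fin 2) F,
        (g = 1 ∨ g = GEO.pr F a ∨ g = GEO.pr F b ∨ g = GEO.pr F a * GEO.pr F b) → g ∈ A := by
      rintro g (rfl | rfl | rfl | rfl)
      · exact A.one_mem
      · exact haA
      · exact hbA
      · exact A.mul_mem haA hbA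
    refine ⟨GEO.pr F a, GEO.pr F b, ?_, ?_, ?_, ee, ff, ef, ?_, ?_⟩
    · intro h
      rw [GEO.pr_eq_one, Subgroup.mem_center_iff] at h
      apply hne
      have h3 := h b
      rw [← Matrix.SpecialLinearGroup.coe_mul, ← Matrix.SpecialLinearGroup.coe_mul, h3]
    · intro h
      rw [GEO.pr_eq_one, Subgroup.mem_center_iff] at h
      apply hne
      have h3 := h a
      rw [← Matrix.SpecialLinearGroup.coe_mul, ← Matrix.SpecialLinearGroup.coe_mul, h3]
    · intro h
      have h3 : GEO.pr F (a * b⁻¹) = 1 := by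
        rw [map_mul, map_inv, h, mul_inv_cancel]
      rw [GEO.pr_eq_one, Subgroup.mem_center_iff] at h3
      apply hne
      have h4 := h3 b
      have h5 : a = a * b⁻¹ * b := by group
      have h6 : b * a = a * b := by
        calc b * a = b * (a * b⁻¹) * b := by rw [mul_assoc b, ← h5]
          _ = (a * b⁻¹) * b * b := by rw [h4]
          _ = a * b := by rw [← h5]
      rw [← Matrix.SpecialLinearGroup.coe_mul, ← Matrix.SpecialLinearGroup.coe_mul, h6]
    · intro g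
      refine ⟨fun hg => hcen g (hcomm _ hg _ haA) (hcomm _ hg _ hbA), hin g⟩
    · intro g _ h3 h4
      exact hin g (hcen g h3 h4)

end Pool.Agent.Work.MP_403fb3_lin
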