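import Pool.Agent.Work.MP_403fb3_lin.Interface5

/-!
# The normalizer of the Heisenberg group in dimension three
-/

set_option autoImplicit false

namespace Pool.Agent.Work.MP_403fb3_lin
namespace HBP

open Matrix Subgroup
open scoped commutatorElement
open Pool.Agent.Work.MP_403fb3_al_helper9

variable {F : Type} [Field F]

/-- the unit with index `j`: `X, Z, XZ, XZ²` and their inverses up to a scalar, `s = ω²` -/
def Yv (w s : F) : Fin 8 → Matrix (Fin 3) (Fin 3) F :=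
  ![!![0, 0, 1; 1, 0, 0; 0, 1, 0], !![1, 0, 0; 0, w, 0; 0, 0, s],
    !![0, 0, s; 1, 0, 0; 0, w, 0], !![0, 0, w; 1, 0, 0; 0, s, 0],
    !![0, 1, 0; 0, 0, 1; 1, 0, 0], !![1, 0, 0; 0, s, 0; 0, 0, w],
    !![0, s, 0; 0, 0, w; 1, 0, 0], !![0, w, 0; 0, 0, s; 1, 0, 0]]

/-- powers of `ω` -/
def pw (w s : F) : Fin 3 → F := ![1, w, s]

/-- the units with scalars -/
def Y (w s : F) (e : Fin 3 × Fin 8) : Matrix (Fin 3) (Fin 3) F := pw w s e.1 • Yv w s e.2

/-- the axis -/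
def ln : Fin 8 → Fin 4 := ![0, 1, 2, 3, 0, 1, 2, 3]

def ta : Equiv.Perm (Fin 8) := ⟨![1, 4, 7, 2, 5, 0, 3, 6], ![5, 0, 3, 6, 1, 4, 7, 2],
  by decide, by decide⟩
def tb : Equiv.Perm (Fin 8) := ⟨![2, 1, 3, 0, 6, 5, 7, 4], ![3, 1, 0, 2, 7, 5, 4, 6],
  by decide, by decide⟩
def la : Equiv.Perm (Fin 4) := ⟨![1, 0, 3, 2], ![1, 0, 3, 2], by decide, by decide⟩
def lb : Equiv.Perm (Fin 4) := ⟨![2, 1, 3, 0], ![3, 1, 0, 2], by decide, by decide⟩
/-- the phases -/
def ka : Fin 8 → Fin 3 := ![0, 0, 2, 1, 0, 0, 2, 1]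
def kb : Fin 8 → Fin 3 := ![0, 0, 0, 0, 1, 0, 1, 1]

def sa : Equiv.Perm (Fin 3 × Fin 8) :=
  ⟨fun e => (e.1 + ka e.2, ta e.2), fun e => (e.1 - ka (ta.symm e.2), ta.symm e.2),
    fun e => by simp, fun e => by simp⟩
def sb : Equiv.Perm (Fin 3 × Fin 8) :=
  ⟨fun e => (e.1 + kb e.2, tb e.2), fun e => (e.1 - kb (tb.symm e.2), tb.symm e.2),
    fun e => by simp, fun e => by simp⟩

theorem inv_swap {R : Type} [Monoid R] (g : Rˣ) {A B : R} (h : (g : R) * A = B * g) :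
    (↑g⁻¹ : R) * B = A * ↑g⁻¹ := by
  calc (↑g⁻¹ : R) * B = ↑g⁻¹ * (B * g) * ↑g⁻¹ := by simp [mul_assoc]
    _ = ↑g⁻¹ * (g * A) * ↑g⁻¹ := by rw [h]
    _ = A * ↑g⁻¹ := by simp

/-- matrix, permutation of the units, of the vectors, of the lines -/
abbrev PT (F : Type) [Field F] : Type :=
  GL (Fin 3) F × Equiv.Perm (Fin 3 × Fin 8) × Equiv.Perm (Fin 8) × Equiv.Perm (Fin 4)

def H (w s : F) : Subgroup (PT F) where
  carrier := {t | (∀ e, (t.1 : Matrix (Fin 3) (Fin 3) F) * Y w s e = Y w s (t.2.1 e) * t.1) ∧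
    (∀ e, (t.2.1 e).2 = t.2.2.1 e.2) ∧ ∀ j, ln (t.2.2.1 j) = t.2.2.2 (ln j)}
  one_mem' := by
    refine ⟨fun j => ?_, fun j => ?_, fun j => ?_⟩ <;> simp
  mul_mem' := by
    rintro ⟨g, σ, π, κ⟩ ⟨h, τ, ρ, μ⟩ ⟨h1, h2, h5⟩ ⟨h3, h4, h6⟩
    refine ⟨fun j => ?_, fun j => ?_, fun j => ?_⟩
    · have e1 := h3 j
      have e2 := h1 (τ j)
      simp only [Prod.mk_mul_mk, Units.val_mul, Equiv.Perm.coe_mul, Function.comp_apply] at *
      rw [Matrix.mul_assoc, e1, ← Matrix.mul_assoc, e2, Matrix.mul_assoc]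
    · have e1 := h4 j
      have e2 := h2 (τ j)
      simp only [Prod.mk_mul_mk, Equiv.Perm.coe_mul, Function.comp_apply] at *
      rw [e2, e1]
    · have e1 := h6 j
      have e2 := h5 (ρ j)
      simp only [Prod.mk_mul_mk, Equiv.Perm.coe_mul, Function.comp_apply] at *
      rw [e2, e1]
  inv_mem' := by
    rintro ⟨g, σ, π, κ⟩ ⟨h1, h2, h5⟩
    refine ⟨fun j => ?_, fun j => ?_, fun j => ?_⟩
    · have e1 := h1 (σ⁻¹ j)
      have e0 : σ (σ⁻¹ j) = j := σ.apply_symm_apply j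
      simp only [Prod.inv_mk] at *
      rw [e0] at e1
      exact inv_swap g e1
    · have e1 := h2 (σ⁻¹ j)
      have e0 : σ (σ⁻¹ j) = j := σ.apply_symm_apply j
      simp only [Prod.inv_mk] at *
      rw [e0] at e1
      rw [e1]
      exact (π.symm_apply_apply _).symm
    · have e1 := h5 (π⁻¹ j)
      have e0 : π (π⁻¹ j) = j := π.apply_symm_apply j
      simp only [Prod.inv_mk] at *
      rw [e0] at e1
      rw [e1]
      exact (κ.symm_apply_apply _).symm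

/-- matrices which commute with all the units up to scalars -/
def K (w s : F) : Subgroup (GL (Fin 3) F) where
  carrier := {g | ∀ j, ∃ c : F, c ≠ 0 ∧
    (g : Matrix (Fin 3) (Fin 3) F) * Yv w s j = c • (Yv w s j * g)}
  one_mem' := fun j => ⟨1, one_ne_zero, by simp⟩
  mul_mem' := by
    rintro g h h1 h2 j
    obtain ⟨c, hc, e1⟩ := h1 j
    obtain ⟨d, hd, e2⟩ := h2 j
    refine ⟨c * d, mul_ne_zero hc hd, ?_⟩
    rw [Units.val_mul, Matrix.mul_assoc, e2, Matrix.mul_smul, ← Matrix.mul_assoc, e1,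
      Matrix.smul_mul, smul_smul, Matrix.mul_assoc, mul_comm d c]
  inv_mem' := by
    rintro g h1 j
    obtain ⟨c, hc, e1⟩ := h1 j
    refine ⟨c⁻¹, inv_ne_zero hc, ?_⟩
    rw [← Matrix.smul_mul] at e1
    have e2 := inv_swap g e1
    rw [Matrix.mul_smul] at e2
    rw [← e2, smul_smul, inv_mul_cancel₀ hc, one_smul]

/-- matrices which commute with all the units -/
def C (w s : F) : Subgroup (GL (Fin 3) F) where
  carrier := {g | ∀ j, (g : Matrix (Fin 3) (Fin 3) F) * Yv w s j = Yv w s j * g}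
  one_mem' := fun j => by simp
  mul_mem' := by
    rintro g h h1 h2 j
    have e1 := h1 j
    have e2 := h2 j
    rw [Units.val_mul, Matrix.mul_assoc, e2, ← Matrix.mul_assoc, e1, Matrix.mul_assoc]
  inv_mem' := by
    rintro g h1 j
    exact inv_swap g (h1 j)

theorem K_comm (w s : F) : ⁅K w s, K w s⁆ ≤ C w s := by
  rw [Subgroup.commutator_le]
  intro g hg h hh j
  obtain ⟨c, hc, e1⟩ := hg j
  obtain ⟨d, hd, e2⟩ := hh j
  have a1 : ((g * h : GL (Fin 3) F) : Matrix (Fin 3) (Fin 3) F) * Yv w s j =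
      (c * d) • (Yv w s j * (g * h : GL (Fin 3) F)) := by
    rw [Units.val_mul, Matrix.mul_assoc, e2, Matrix.mul_smul, ← Matrix.mul_assoc, e1,
      Matrix.smul_mul, smul_smul, Matrix.mul_assoc, mul_comm d c]
  have a2 : ((h * g : GL (Fin 3) F) : Matrix (Fin 3) (Fin 3) F) * Yv w s j =
      ((c * d) • Yv w s j) * (h * g : GL (Fin 3) F) := by
    rw [Units.val_mul, Matrix.mul_assoc, e1, Matrix.mul_smul, ← Matrix.mul_assoc, e2,
      Matrix.smul_mul, smul_smul, Matrix.mul_assoc, Matrix.smul_mul]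
  have hcd : c * d ≠ 0 := mul_ne_zero hc hd
  have a3 := inv_swap (h * g) a2
  rw [Matrix.mul_smul] at a3
  have a4 : ⁅g, h⁆ = (g * h) * (h * g)⁻¹ := by
    rw [commutatorElement_def]
    group
  have a5 : ((((h * g)⁻¹ : GL (Fin 3) F)) : Matrix (Fin 3) (Fin 3) F) * Yv w s j =
      (c * d)⁻¹ • (Yv w s j * ((h * g)⁻¹ : GL (Fin 3) F)) := by
    rw [← a3, smul_smul, inv_mul_cancel₀ hcd, one_smul]
  rw [a4, Units.val_mul, Matrix.mul_assoc, a5, Matrix.mul_smul, ← Matrix.mul_assoc, a1,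
    Matrix.smul_mul, smul_smul, inv_mul_cancel₀ hcd, one_smul, Matrix.mul_assoc]

/-- matrices which commute with `Z` are diagonal -/
theorem diag_of {w s : F} (h1 : w ≠ 1) (h2 : s ≠ 1) (h3 : w ≠ s)
    (g : Matrix (Fin 3) (Fin 3) F) (h : g * Yv w s 1 = Yv w s 1 * g) :
    g 0 1 = 0 ∧ g 0 2 = 0 ∧ g 1 0 = 0 ∧ g 1 2 = 0 ∧ g 2 0 = 0 ∧ g 2 1 = 0 := by
  have e01 := congrFun (congrFun h 0) 1
  have e02 := congrFun (congrFun h 0) 2
  have e10 := congrFun (congrFun h 1) 0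
  have e12 := congrFun (congrFun h 1) 2
  have e20 := congrFun (congrFun h 2) 0
  have e21 := congrFun (congrFun h 2) 1
  simp [Yv, Matrix.mul_apply, Fin.sum_univ_three] at e01 e02 e10 e12 e20 e21
  have key : ∀ x a b : F, a ≠ b → x * a = b * x → x = 0 := by
    intro x a b hab hx
    have : (a - b) * x = 0 := by linear_combination hx
    exact (mul_eq_zero.1 this).resolve_left (sub_ne_zero.2 hab)
  refine ⟨?_, ?_, ?_, ?_, ?_, ?_⟩
  · exact key _ w 1 h1 (by linear_combination e01)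
  · exact key _ s 1 h2 (by linear_combination e02)
  · exact key _ 1 w (Ne.symm h1) (by linear_combination e10)
  · exact key _ s w (Ne.symm h3) (by linear_combination e12)
  · exact key _ 1 s (Ne.symm h2) (by linear_combination e20)
  · exact key _ w s h3 (by linear_combination e21)

/-- the centralizer consists of scalars -/
theorem scal {w s : F} (h1 : w ≠ 1) (h2 : s ≠ 1) (h3 : w ≠ s)
    (g : Matrix (Fin 3) (Fin 3) F) (h0 : g * Yv w s 0 = Yv w s 0 * g)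
    (hz : g * Yv w s 1 = Yv w s 1 * g) : g = g 0 0 • (1 : Matrix (Fin 3) (Fin 3) F) := by
  obtain ⟨a01, a02, a10, a12, a20, a21⟩ := diag_of h1 h2 h3 g hz
  have e1 := congrFun (congrFun h0 1) 0
  have e2 := congrFun (congrFun h0 2) 1
  simp [Yv, Matrix.mul_apply, Fin.sum_univ_three] at e1 e2
  ext i j
  fin_cases i <;> fin_cases j <;> simp [a01, a02, a10, a12, a20, a21, e1, e2]


theorem C_comm {w s : F} (h1 : w ≠ 1) (h2 : s ≠ 1) (h3 : w ≠ s) {g h : GL (Fin 3) F}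
    (hg : g ∈ C w s) (hh : h ∈ C w s) : g * h = h * g := by
  have e1 := scal h1 h2 h3 _ (hg 0) (hg 1)
  have e2 := scal h1 h2 h3 _ (hh 0) (hh 1)
  apply Units.ext
  rw [Units.val_mul, Units.val_mul, e1, e2, Matrix.smul_mul, Matrix.mul_smul, Matrix.smul_mul,
    Matrix.mul_smul, Matrix.mul_one, smul_comm]

theorem sign_l (g : F2) : Equiv.Perm.sign (ev2 la lb g) = 1 := by
  have h : Equiv.Perm.sign.comp (ev2 la lb) = (1 : F2 →* ℤˣ) := by
    apply FreeGroup.ext_hom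
    intro i
    fin_cases i
    · show Equiv.Perm.sign (ev2 la lb (FreeGroup.of 0)) = 1
      rw [ev2_zero]
      decide +kernel
    · show Equiv.Perm.sign (ev2 la lb (FreeGroup.of 1)) = 1
      rw [ev2_one]
      decide +kernel
  exact DFunLike.congr_fun h g

theorem lines {u : F2} (hu : u ∈ derivedSeries F2 2) : ev2 la lb u = 1 :=
  even4 (ev2 la lb) sign_l hu

theorem ln_eq : ∀ i j : Fin 8, ln i = ln j → i = j ∨ i = j + 4 := by decide

theorem pm_comm {τ τ' : Equiv.Perm (Fin 8)} (h : ∀ j, τ j = j ∨ τ j = j + 4)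
    (h' : ∀ j, τ' j = j ∨ τ' j = j + 4) : τ * τ' = τ' * τ := by
  have hne : ∀ j : Fin 8, j + 4 ≠ j := by decide
  have h44 : ∀ j : Fin 8, j + 4 + 4 = j := by decide
  ext1 j
  rw [Equiv.Perm.mul_apply, Equiv.Perm.mul_apply]
  rcases h j with a | a <;> rcases h' j with b | b
  · rw [a, b, a]
  · rw [a, b]
    rcases h (j + 4) with c | c
    · exact c
    · exfalso
      rw [h44] at c
      exact hne j (τ.injective (c.trans a.symm))
  · rw [a, b, a]
    rcases h' (j + 4) with c | c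
    · exact c.symm
    · exfalso
      rw [h44] at c
      exact hne j (τ'.injective (c.trans b.symm))
  · rw [a, b]
    rcases h (j + 4) with c | c
    · exact absurd (τ.injective (c.trans a.symm)) (hne j)
    · rcases h' (j + 4) with d | d
      · exact absurd (τ'.injective (d.trans b.symm)) (hne j)
      · rw [c, d]

/-- first word -/
def w1 : F2 := ⁅⁅⁅x2 * x1, x1⁆, ⁅x1 * x2, x2⁻¹⁆⁆, ⁅⁅x2⁻¹, x1⁻¹⁆, ⁅x1⁻¹, x2⁆⁆⁆
/-- second word -/
def w2 : F2 := ⁅⁅⁅x2, x1⁻¹ * x2⁻¹⁆, ⁅x2⁻¹, x1⁻¹⁆⁆, ⁅⁅x2⁻¹, x1 * x1⁆, ⁅x1⁻¹, x2⁻¹⁆⁆⁆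

theorem w1_mem : w1 ∈ derivedSeries F2 3 := by
  unfold w1
  repeat' first | exact mem_derived_zero _ | apply comm_mem_derived

theorem w2_mem : w2 ∈ derivedSeries F2 3 := by
  unfold w2
  repeat' first | exact mem_derived_zero _ | apply comm_mem_derived

theorem w1_ev : ev2 sa sb w1 =
    ⁅⁅⁅sb * sa, sa⁆, ⁅sa * sb, sb⁻¹⁆⁆, ⁅⁅sb⁻¹, sa⁻¹⁆, ⁅sa⁻¹, sb⁆⁆⁆ := by
  simp only [w1, map_commutatorElement, map_mul, map_inv, ev2_zero, ev2_one]

theorem w2_ev : ev2 sa sb w2 =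
    ⁅⁅⁅sb, sa⁻¹ * sb⁻¹⁆, ⁅sb⁻¹, sa⁻¹⁆⁆, ⁅⁅sb⁻¹, sa * sa⁆, ⁅sa⁻¹, sb⁻¹⁆⁆⁆ := by
  simp only [w2, map_commutatorElement, map_mul, map_inv, ev2_zero, ev2_one]

theorem w1_val : ev2 sa sb w1 (0, 0) = (1, 0) ∧ ev2 sa sb w1 (0, 1) = (0, 1) := by
  rw [w1_ev]
  decide +kernel

theorem w2_val : ev2 sa sb w2 (0, 1) = (1, 1) := by
  rw [w2_ev]
  decide +kernel

/-- the action of a word -/
theorem act {w s : F} {a b : GL (Fin 3) F} (ha : (a, sa, ta, la) ∈ H w s)
    (hb : (b, sb, tb, lb) ∈ H w s) (u : F2) :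
    (∀ e, (ev2 a b u : Matrix (Fin 3) (Fin 3) F) * Y w s e =
      Y w s (ev2 sa sb u e) * (ev2 a b u : GL (Fin 3) F)) ∧
      (∀ e, (ev2 sa sb u e).2 = ev2 ta tb u e.2) ∧
      ∀ j, ln (ev2 ta tb u j) = ev2 la lb u (ln j) := by
  have h1 : ev2 (a, sa, ta, la) (b, sb, tb, lb) u ∈ H w s := by
    have h2 : (ev2 (a, sa, ta, la) (b, sb, tb, lb)).range ≤ H w s := by
      rw [MonoidHom.range_eq_map, ← FreeGroup.closure_range_of, MonoidHom.map_closure,
        Subgroup.closure_le]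
      rintro _ ⟨_, ⟨i, rfl⟩, rfl⟩
      fin_cases i
      · simpa using ha
      · simpa using hb
    exact h2 ⟨u, rfl⟩
  have p1 := ev2_comp (MonoidHom.fst (GL (Fin 3) F)
    (Equiv.Perm (Fin 3 × Fin 8) × Equiv.Perm (Fin 8) × Equiv.Perm (Fin 4)))
    (a, sa, ta, la) (b, sb, tb, lb) u
  have p2 := ev2_comp ((MonoidHom.fst (Equiv.Perm (Fin 3 × Fin 8))
    (Equiv.Perm (Fin 8) × Equiv.Perm (Fin 4))).comp
    (MonoidHom.snd (GL (Fin 3) F)
      (Equiv.Perm (Fin 3 × Fin 8) × Equiv.Perm (Fin 8) × Equiv.Perm (Fin 4))))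
    (a, sa, ta, la) (b, sb, tb, lb) u
  have p3 := ev2_comp ((MonoidHom.fst (Equiv.Perm (Fin 8)) (Equiv.Perm (Fin 4))).comp
    ((MonoidHom.snd (Equiv.Perm (Fin 3 × Fin 8))
    (Equiv.Perm (Fin 8) × Equiv.Perm (Fin 4))).comp
    (MonoidHom.snd (GL (Fin 3) F)
      (Equiv.Perm (Fin 3 × Fin 8) × Equiv.Perm (Fin 8) × Equiv.Perm (Fin 4)))))
    (a, sa, ta, la) (b, sb, tb, lb) u
  have p4 := ev2_comp ((MonoidHom.snd (Equiv.Perm (Fin 8)) (Equiv.Perm (Fin 4))).comp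
    ((MonoidHom.snd (Equiv.Perm (Fin 3 × Fin 8))
    (Equiv.Perm (Fin 8) × Equiv.Perm (Fin 4))).comp
    (MonoidHom.snd (GL (Fin 3) F)
      (Equiv.Perm (Fin 3 × Fin 8) × Equiv.Perm (Fin 8) × Equiv.Perm (Fin 4)))))
    (a, sa, ta, la) (b, sb, tb, lb) u
  simp only [MonoidHom.coe_fst, MonoidHom.coe_snd, MonoidHom.comp_apply] at p1 p2 p3 p4
  obtain ⟨h3, h4, h5⟩ := h1
  rw [p1, p2] at h3
  rw [p2, p3] at h4
  rw [p3, p4] at h5
  exact ⟨h3, h4, h5⟩

/-- from the third derived subgroup on the vectors are fixed -/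
theorem vecs {w s : F} {a b : GL (Fin 3) F} (ha : (a, sa, ta, la) ∈ H w s)
    (hb : (b, sb, tb, lb) ∈ H w s) {u : F2} (hu : u ∈ derivedSeries F2 3) :
    ev2 ta tb u = 1 := by
  have h1 : ∀ x ∈ (derivedSeries F2 2).map (ev2 ta tb), ∀ j, x j = j ∨ x j = j + 4 := by
    rintro _ ⟨w', hw', rfl⟩ j
    have h2 := (act ha hb w').2.2 j
    rw [lines hw', Equiv.Perm.one_apply] at h2
    exact ln_eq _ _ h2
  have h3 : ev2 ta tb u ∈ (⁅derivedSeries F2 2, derivedSeries F2 2⁆).map (ev2 ta tb) :=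
    Subgroup.mem_map_of_mem _ hu
  rw [Subgroup.map_commutator] at h3
  have h4 : ⁅(derivedSeries F2 2).map (ev2 ta tb), (derivedSeries F2 2).map (ev2 ta tb)⁆ = ⊥ := by
    rw [Subgroup.commutator_eq_bot_iff_le_centralizer]
    intro x hx
    rw [Subgroup.mem_centralizer_iff]
    intro y hy
    exact pm_comm (h1 y hy) (h1 x hx)
  rw [h4, Subgroup.mem_bot] at h3
  exact h3

/-- The core statement. -/
theorem core {w s : F} (h1 : w ≠ 1) (h2 : s ≠ 1) (h3 : w ≠ s) (hs : w * w = s) (hws : w * s = 1)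
    {a b : GL (Fin 3) F}
    (ha : (a, sa, ta, la) ∈ H w s) (hb : (b, sb, tb, lb) ∈ H w s) :
    GG a b 4 ∧ (∀ u ∈ derivedSeries F2 4, ev2 a b u ^ 3 = 1) ∧
    ∀ v : Fin 3 → F, (∀ u ∈ derivedSeries F2 4,
      (ev2 a b u : Matrix (Fin 3) (Fin 3) F) *ᵥ v = v) → v = 0 := by
  have hw0 : w ≠ 0 := left_ne_zero_of_mul_eq_one hws
  have hs0 : s ≠ 0 := right_ne_zero_of_mul_eq_one hws
  have hpw : ∀ k : Fin 3, pw w s k ≠ 0 := by
    intro k
    fin_cases k
    · exact one_ne_zero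
    · exact hw0
    · exact hs0
  have hY0 : ∀ j, Y w s (0, j) = Yv w s j := fun j => one_smul _ _
  have hD3 : ∀ u ∈ derivedSeries F2 3, ev2 a b u ∈ K w s := by
    intro u hu j
    obtain ⟨h4, h5, -⟩ := act ha hb u
    have h6 := h4 (0, j)
    have h7 := h5 (0, j)
    rw [vecs ha hb hu, Equiv.Perm.one_apply] at h7
    rw [hY0, Y, h7] at h6
    exact ⟨_, hpw _, by rw [h6, Matrix.smul_mul]⟩
  have hD4 : ∀ u ∈ derivedSeries F2 4, ev2 a b u ∈ C w s := by
    intro u hu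
    have h4 : (derivedSeries F2 3).map (ev2 a b) ≤ K w s := by
      rintro _ ⟨w', hw', rfl⟩
      exact hD3 w' hw'
    have h5 : ev2 a b u ∈ (⁅derivedSeries F2 3, derivedSeries F2 3⁆).map (ev2 a b) :=
      Subgroup.mem_map_of_mem _ hu
    rw [Subgroup.map_commutator] at h5
    exact K_comm w s (Subgroup.commutator_mono h4 h4 h5)
  have hsc : ∀ u ∈ derivedSeries F2 4, (ev2 a b u : Matrix (Fin 3) (Fin 3) F) =
      (ev2 a b u : Matrix (Fin 3) (Fin 3) F) 0 0 • (1 : Matrix (Fin 3) (Fin 3) F) := by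
    intro u hu
    exact scal h1 h2 h3 _ (hD4 u hu 0) (hD4 u hu 1)
  have hdet : ∀ u ∈ derivedSeries F2 4, (ev2 a b u : Matrix (Fin 3) (Fin 3) F).det = 1 := by
    intro u hu
    have h4 : (Matrix.GeneralLinearGroup.det.comp (ev2 a b)) u ∈ derivedSeries Fˣ 1 :=
      map_derivedSeries_le_derivedSeries _ 1
        (Subgroup.mem_map_of_mem _ (derivedSeries_antitone _ (by omega) hu))
    rw [derived_one_bot (fun a b => mul_comm a b), Subgroup.mem_bot] at h4
    exact congrArg Units.val h4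
  -- the two words
  have hne : ev2 a b ⁅w1, w2⁆ ≠ 1 := by
    rw [map_commutatorElement, Ne, commutatorElement_eq_one_iff_mul_comm]
    intro h4
    obtain ⟨h5, -⟩ := act ha hb w1
    obtain ⟨h6, -⟩ := act ha hb w2
    have g1 := h5 (0, 0)
    have g2 := h5 (0, 1)
    have g3 := h6 (0, 1)
    rw [w1_val.1, hY0] at g1
    rw [w1_val.2, hY0] at g2
    rw [w2_val, hY0] at g3
    have hY1 : ∀ j, Y w s (1, j) = w • Yv w s j := fun j => rfl
    rw [hY1] at g1 g3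
    have hA : (ev2 a b w1 : Matrix (Fin 3) (Fin 3) F).det ≠ 0 :=
      ((Matrix.isUnit_iff_isUnit_det _).1 (ev2 a b w1).isUnit).ne_zero
    have hB : (ev2 a b w2 : Matrix (Fin 3) (Fin 3) F).det ≠ 0 :=
      ((Matrix.isUnit_iff_isUnit_det _).1 (ev2 a b w2).isUnit).ne_zero
    have hAB : (ev2 a b w1 : Matrix (Fin 3) (Fin 3) F) * (ev2 a b w2 : GL (Fin 3) F) =
        (ev2 a b w2 : Matrix (Fin 3) (Fin 3) F) * (ev2 a b w1 : GL (Fin 3) F) := by
      rw [← Units.val_mul, ← Units.val_mul, h4]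
    generalize (ev2 a b w1 : Matrix (Fin 3) (Fin 3) F) = A at *
    generalize (ev2 a b w2 : Matrix (Fin 3) (Fin 3) F) = B at *
    obtain ⟨a01, a02, a10, a12, a20, a21⟩ := diag_of h1 h2 h3 A g2
    have e1 := congrFun (congrFun g1 1) 0
    have e2 := congrFun (congrFun g1 2) 1
    simp [Yv, Matrix.mul_apply, Fin.sum_univ_three] at e1 e2
    have hAZ : A = A 0 0 • Yv w s 1 := by
      ext i j
      fin_cases i <;> fin_cases j <;> simp [Yv, a01, a02, a10, a12, a20, a21]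
      · linear_combination e1
      · rw [← hs]
        linear_combination e2 + w * e1
    have hA0 : A 0 0 ≠ 0 := by
      intro h
      rw [h, zero_smul] at hAZ
      rw [hAZ] at hA
      exact hA (by simp)
    have e3 : (A 0 0 * (1 - w)) • (Yv w s 1 * B) = 0 := by
      have e4 : A * B = A 0 0 • (Yv w s 1 * B) := by
        conv_lhs => rw [hAZ]
        rw [Matrix.smul_mul]
      have e5 : B * A = (A 0 0 * w) • (Yv w s 1 * B) := by
        conv_lhs => rw [hAZ]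
        rw [Matrix.mul_smul, g3, Matrix.smul_mul, smul_smul]
      have e6 : (A 0 0 * (1 - w)) • (Yv w s 1 * B) = A * B - B * A := by
        rw [e4, e5, ← sub_smul]
        congr 1
        ring
      rw [e6, hAB, sub_self]
    have e7 : Yv w s 1 * B = 0 :=
      (smul_eq_zero.1 e3).resolve_left (mul_ne_zero hA0 (sub_ne_zero.2 (Ne.symm h1)))
    have e8 : (Yv w s 1 * B).det = w * s * B.det := by
      rw [Matrix.det_mul]
      congr 1
      rw [Matrix.det_fin_three]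
      simp [Yv]
    rw [e7, hws, one_mul, Matrix.det_zero] at e8
    exact hB e8.symm
  have hmem : ⁅w1, w2⁆ ∈ derivedSeries F2 4 := comm_mem_derived w1_mem w2_mem
  refine ⟨⟨fun u hu => ?_, ⁅w1, w2⁆, hmem, hne⟩, fun u hu => ?_, fun v hv => ?_⟩
  · have h4 : (derivedSeries F2 4).map (ev2 a b) ≤ C w s := by
      rintro _ ⟨w', hw', rfl⟩
      exact hD4 w' hw'
    have h5 : ev2 a b u ∈ (⁅derivedSeries F2 4, derivedSeries F2 4⁆).map (ev2 a b) :=
      Subgroup.mem_map_of_mem _ hu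
    rw [Subgroup.map_commutator] at h5
    have h6 : ⁅C w s, C w s⁆ = ⊥ := by
      rw [Subgroup.commutator_eq_bot_iff_le_centralizer]
      intro x hx
      rw [Subgroup.mem_centralizer_iff]
      intro y hy
      exact C_comm h1 h2 h3 hy hx
    have h7 := Subgroup.commutator_mono h4 h4 h5
    rw [h6, Subgroup.mem_bot] at h7
    exact h7
  · have e1 := hsc u hu
    have e2 := hdet u hu
    rw [e1, Matrix.det_smul, Matrix.det_one, mul_one, Fintype.card_fin] at e2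
    apply Units.ext
    rw [Units.val_pow_eq_pow_val, e1, smul_pow, one_pow, e2, one_smul, Units.val_one]
  · have e1 := hsc _ hmem
    have e2 := hv _ hmem
    rw [e1, Matrix.smul_mulVec, Matrix.one_mulVec] at e2
    have hc : (ev2 a b ⁅w1, w2⁆ : Matrix (Fin 3) (Fin 3) F) 0 0 ≠ 1 := by
      intro h
      apply hne
      apply Units.ext
      rw [e1, h, one_smul, Units.val_one]
    have e3 : ((ev2 a b ⁅w1, w2⁆ : Matrix (Fin 3) (Fin 3) F) 0 0 - 1) • v = 0 := by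
      rw [sub_smul, e2, one_smul, sub_self]
    exact (smul_eq_zero.1 e3).resolve_left (sub_ne_zero.2 hc)

theorem t1 : ∀ j : Fin 8, ln (ta j) = la (ln j) := by decide
theorem t2 : ∀ j : Fin 8, ln (tb j) = lb (ln j) := by decide

theorem pw_add {w s : F} (hww : w * w = s) (hws : w * s = 1) (hss : s * s = w) (k l : Fin 3) :
    pw w s (k + l) = pw w s k * pw w s l := by
  have hsw : s * w = 1 := by rw [mul_comm, hws]
  fin_cases k <;> fin_cases l <;> simp [pw, hww, hws, hss, hsw]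

theorem base_a {w s : F} (hww : w * w = s) (hws : w * s = 1) (hss : s * s = w) (v : Fin 8) :
    !![1, 1, 1; 1, w, s; 1, s, w] * Yv w s v =
      pw w s (ka v) • (Yv w s (ta v) * !![1, 1, 1; 1, w, s; 1, s, w]) := by
  have hsw : s * w = 1 := by rw [mul_comm, hws]
  fin_cases v <;> ext i j <;> fin_cases i <;> fin_cases j <;>
    simp [Yv, pw, ka, ta, Matrix.mul_apply, Fin.sum_univ_three, hww, hws, hss, hsw]

theorem base_b {w s : F} (hww : w * w = s) (hws : w * s = 1) (v : Fin 8) :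
    !![1, 0, 0; 0, 1, 0; 0, 0, w] * Yv w s v =
      pw w s (kb v) • (Yv w s (tb v) * !![1, 0, 0; 0, 1, 0; 0, 0, w]) := by
  have hsw : s * w = 1 := by rw [mul_comm, hws]
  fin_cases v <;> ext i j <;> fin_cases i <;> fin_cases j <;>
    simp [Yv, pw, kb, tb, Matrix.mul_apply, Fin.sum_univ_three, hww, hws, hsw]

theorem mem_a {w s : F} (hww : w * w = s) (hws : w * s = 1) (hss : s * s = w) {a : GL (Fin 3) F}
    (ha : (a : Matrix (Fin 3) (Fin 3) F) = !![1, 1, 1; 1, w, s; 1, s, w]) :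
    (a, sa, ta, la) ∈ H w s := by
  refine ⟨fun e => ?_, fun e => rfl, t1⟩
  show (a : Matrix (Fin 3) (Fin 3) F) * Y w s e = Y w s (sa e) * a
  have h : Y w s (sa e) = (pw w s e.1 * pw w s (ka e.2)) • Yv w s (ta e.2) := by
    rw [← pw_add hww hws hss]
    rfl
  rw [h, ha, Y, Matrix.mul_smul, base_a hww hws hss, Matrix.smul_mul, smul_smul]

theorem mem_b {w s : F} (hww : w * w = s) (hws : w * s = 1) (hss : s * s = w) {b : GL (Fin 3) F}
    (hb : (b : Matrix (Fin 3) (Fin 3) F) = !![1, 0, 0; 0, 1, 0; 0, 0, w]) :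
    (b, sb, tb, lb) ∈ H w s := by
  refine ⟨fun e => ?_, fun e => rfl, t2⟩
  show (b : Matrix (Fin 3) (Fin 3) F) * Y w s e = Y w s (sb e) * b
  have h : Y w s (sb e) = (pw w s e.1 * pw w s (kb e.2)) • Yv w s (tb e.2) := by
    rw [← pw_add hww hws hss]
    rfl
  rw [h, hb, Y, Matrix.mul_smul, base_b hww hws, Matrix.smul_mul, smul_smul]

end HBP

/-- Block HBP. -/
theorem p_HBP : S_HBP := by
  intro F _ ω hω h3
  obtain ⟨s, hs⟩ : ∃ s : F, s = ω * ω := ⟨_, rfl⟩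
  have hsum : s + ω + 1 = 0 := by
    rw [hs]
    linear_combination hω
  have hw3 : ω * s = 1 := by
    rw [hs]
    linear_combination (ω - 1) * hω
  have hss : s * s = ω := by
    rw [hs]
    linear_combination (ω ^ 2 - ω) * hω
  have h1 : ω ≠ 1 := by
    intro h
    rw [h] at hω
    apply h3
    linear_combination hω
  have h2 : s ≠ 1 := by
    intro h
    rw [h, mul_one] at hw3
    exact h1 hw3
  have h4 : ω ≠ s := by
    intro h
    rw [← h] at hw3 hs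
    rw [← hs] at hw3
    exact h1 hw3
  have hda : (!![1, 1, 1; 1, ω, s; 1, s, ω] : Matrix (Fin 3) (Fin 3) F).det ≠ 0 := by
    have e : (!![1, 1, 1; 1, ω, s; 1, s, ω] : Matrix (Fin 3) (Fin 3) F).det = 3 * (s - ω) := by
      rw [Matrix.det_fin_three]
      simp
      rw [hs]
      linear_combination (-ω ^ 2 + ω) * hω
    rw [e]
    exact mul_ne_zero h3 (sub_ne_zero.2 (Ne.symm h4))
  have hdb : (!![1, 0, 0; 0, 1, 0; 0, 0, ω] : Matrix (Fin 3) (Fin 3) F).det ≠ 0 := by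
    have e : (!![1, 0, 0; 0, 1, 0; 0, 0, ω] : Matrix (Fin 3) (Fin 3) F).det = ω := by
      rw [Matrix.det_fin_three]
      simp
    rw [e]
    exact left_ne_zero_of_mul_eq_one hw3
  exact ⟨Matrix.GeneralLinearGroup.mkOfDetNeZero _ hda,
    Matrix.GeneralLinearGroup.mkOfDetNeZero _ hdb,
    HBP.core h1 h2 h4 hs.symm hw3 (HBP.mem_a hs.symm hw3 hss rfl) (HBP.mem_b hs.symm hw3 hss rfl)⟩

end Pool.Agent.Work.MP_403fb3_lin
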