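import Pool.Agent.Work.MP_403fb3_lin.Fin

/-!
# The groups `PSL(2, F)`: statements of the blocks
-/

set_option autoImplicit false

namespace Pool.Agent.Work.MP_403fb3_lin

open Matrix Subgroup

/-- `A` is a Klein four-group which is its own centralizer in `S` -/
def V4case {G : Type} [Group G] (S A : Subgroup G) : Prop :=
  ∃ e f : G, e ≠ 1 ∧ f ≠ 1 ∧ e ≠ f ∧ e * e = 1 ∧ f * f = 1 ∧ e * f = f * e ∧
    (∀ g, g ∈ A ↔ g = 1 ∨ g = e ∨ g = f ∨ g = e * f) ∧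
    ∀ g ∈ S, g * e = e * g → g * f = f * g → g ∈ A

/-- ABS: a soluble group where every abelian normal subgroup is in the case `V4case`, or which is metabelian -/
def S_ABS : Prop := ∀ (G : Type) [Group G] (S : Subgroup G) (d : ℕ), HL S d →
  (∀ A : Subgroup G, A ≤ S → A ≠ ⊥ → (∀ x ∈ A, ∀ y ∈ A, x * y = y * x) →
    (∀ g ∈ S, ∀ x ∈ A, g * x * g⁻¹ ∈ A) → derivedSeries S 2 = ⊥ ∨ V4case S A) →
  ∃ x ∈ S, ∃ y ∈ S, HL (closure ({x, y} : Set G)) d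

/-- GEO: the abelian normal subgroups of a subgroup of `PSL(2, F)` -/
def S_GEO : Prop := ∀ (F : Type) [Field F] (S A : Subgroup (ProjectiveSpecialLinearGroup (Fin 2) F)),
  A ≤ S → A ≠ ⊥ → (∀ x ∈ A, ∀ y ∈ A, x * y = y * x) → (∀ g ∈ S, ∀ x ∈ A, g * x * g⁻¹ ∈ A) →
  derivedSeries S 2 = ⊥ ∨ V4case S A

end Pool.Agent.Work.MP_403fb3_lin
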