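import Pool.Agent.Work.MP_403fb3_lin.Interface5

/-!
# Restriction of scalars: statement of the block
-/

set_option autoImplicit false

namespace Pool.Agent.Work.MP_403fb3_lin

open Matrix Subgroup
open Pool.Agent.Work.MP_403fb3_al_helper9

/-- RS: a good pair in dimension six when there is no cube root of unity -/
def S_RS : Prop := ∀ (F : Type) [Field F], (3 : F) ≠ 0 → (∀ ω : F, ω ^ 2 + ω + 1 ≠ 0) →
  GoodP 3 F (Fin 6) 4

end Pool.Agent.Work.MP_403fb3_lin
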