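import Pool.Agent.Work.MP_403fb3_lin.Interface6

/-!
# Block KAP (helper67): two derivations differ by an equivariant map
-/

set_option autoImplicit false

namespace Pool.Agent.Work.MP_403fb3_lin

open Matrix Subgroup
open Pool.Agent.Work.MP_403fb3_al_helper9

/-- a derivation on a conjugate of an element which acts trivially -/
theorem KAP_conj {F T : Type} [Field F] [AddCommGroup T] [Module F T] (σ : F2 →* Module.End F T)
    (δ : F2 → T) (hδ : IsDer σ δ) (g r : F2) (hr : σ r = 1) : δ (g * r * g⁻¹) = σ g (δ r) := by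
  have h1 : δ 1 = 0 := by
    have h := hδ 1 1
    rw [one_mul, map_one, Module.End.one_apply] at h
    exact left_eq_add.1 h
  have h2 : δ g + σ g (δ g⁻¹) = 0 := by
    rw [← hδ, mul_inv_cancel, h1]
  rw [hδ (g * r) g⁻¹, hδ g r, map_mul, hr, mul_one, add_right_comm, h2, zero_add]

/-- characters are trivial on the derived series -/
theorem KAP_chi {F : Type} [Field F] (χ : F2 →* F) (d : ℕ) (w : F2) (hw : w ∈ derivedSeries F2 (d + 1)) :
    χ w = 1 := by
  have h1 : w ∈ commutator F2 := by
    have h := derivedSeries_antitone F2 (Nat.le_add_left 1 d) hw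
    exact h
  have h2 := Abelianization.commutator_subset_ker χ.toHomUnits h1
  have h3 := congrArg (fun z : Fˣ => (z : F)) (MonoidHom.mem_ker.1 h2)
  simpa using h3

/-- factorisation through a surjective map -/
theorem KAP_fac {F A S T : Type} [Field F] [AddCommGroup A] [Module F A] [AddCommGroup S] [Module F S]
    [AddCommGroup T] [Module F T] (L : A →ₗ[F] S) (M : A →ₗ[F] T) (hL : Function.Surjective L)
    (h : ∀ c, L c = 0 → M c = 0) : ∃ κ : S →ₗ[F] T, ∀ c, κ (L c) = M c := by
  obtain ⟨g, hg⟩ := LinearMap.exists_rightInverse_of_surjective L (LinearMap.range_eq_top.2 hL)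
  refine ⟨M.comp g, fun c => ?_⟩
  have h1 : L (g (L c) - c) = 0 := by
    rw [map_sub]
    have h2 := LinearMap.congr_fun hg (L c)
    rw [LinearMap.comp_apply, LinearMap.id_apply] at h2
    rw [h2, sub_self]
  have h3 := h _ h1
  rw [map_sub, sub_eq_zero] at h3
  exact h3

theorem p_KAP : S_KAP := by
  intro F S _ _ _ _ ρ χ ρ' d hdual hirr htriv hiso δ β hδ hβ hδ0 hβ0
  have hconj : ∀ g w : F2, w ∈ derivedSeries F2 (d + 1) → g * w * g⁻¹ ∈ derivedSeries F2 (d + 1) :=
    fun g w hw => Subgroup.Normal.conj_mem inferInstance w hw g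
  have htriv' : ∀ w ∈ derivedSeries F2 (d + 1), ρ' w = 1 := by
    intro w hw
    refine LinearMap.ext fun f => LinearMap.ext fun v => ?_
    rw [hdual, KAP_chi χ d w hw, htriv w⁻¹ (inv_mem hw), one_mul]
    rfl
  -- the span of the values
  have hspan : Submodule.span F (Set.range fun s : derivedSeries F2 (d + 1) => δ s) = ⊤ := by
    have hinv : ∀ g, ∀ v ∈ Submodule.span F (Set.range fun s : derivedSeries F2 (d + 1) => δ s),
        ρ g v ∈ Submodule.span F (Set.range fun s : derivedSeries F2 (d + 1) => δ s) := by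
      intro g v hv
      have h1 : Submodule.span F (Set.range fun s : derivedSeries F2 (d + 1) => δ s) ≤
          (Submodule.span F (Set.range fun s : derivedSeries F2 (d + 1) => δ s)).comap (ρ g) := by
        rw [Submodule.span_le]
        rintro _ ⟨s, rfl⟩
        change ρ g (δ s) ∈ Submodule.span F (Set.range fun s : derivedSeries F2 (d + 1) => δ s)
        rw [← KAP_conj ρ δ hδ g s (htriv s s.2)]
        exact Submodule.subset_span ⟨⟨_, hconj g s s.2⟩, rfl⟩
      exact h1 hv
    rcases hirr _ hinv with h | h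
    · obtain ⟨w, hw, hne⟩ := hδ0
      exfalso
      apply hne
      have h1 : δ w ∈ Submodule.span F (Set.range fun s : derivedSeries F2 (d + 1) => δ s) :=
        Submodule.subset_span ⟨⟨w, hw⟩, rfl⟩
      rw [h] at h1
      exact (Submodule.mem_bot F).1 h1
    · exact h
  -- the common kernel
  have hker : ∀ v : S, (∀ r ∈ derivedSeries F2 (d + 1), β r v = 0) → v = 0 := by
    let K : Submodule F S :=
      { carrier := {v | ∀ r ∈ derivedSeries F2 (d + 1), β r v = 0}
        add_mem' := by
          intro a b ha hb r hr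
          rw [map_add, ha r hr, hb r hr, add_zero]
        zero_mem' := fun r _ => map_zero _
        smul_mem' := by
          intro c a ha r hr
          rw [map_smul, ha r hr, smul_zero] }
    have hinv : ∀ g, ∀ v ∈ K, ρ g v ∈ K := by
      intro g v hv r hr
      have h1 := KAP_conj ρ' β hβ g⁻¹ r (htriv' r hr)
      have h2 := congrArg (fun f : Module.Dual F S => f v) h1
      beta_reduce at h2
      rw [hv _ (hconj g⁻¹ r hr), hdual, inv_inv] at h2
      have h3 : χ g⁻¹ ≠ 0 := by
        intro h0
        have h4 : χ g⁻¹ * χ g = 1 := by rw [← map_mul, inv_mul_cancel, map_one]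
        rw [h0, zero_mul] at h4
        exact zero_ne_one h4
      exact (mul_eq_zero.1 h2.symm).resolve_left h3
    have hK : K = ⊥ := by
      rcases hirr K hinv with h | h
      · exact h
      · obtain ⟨w, hw, hne⟩ := hβ0
        exfalso
        apply hne
        refine LinearMap.ext fun v => ?_
        have h1 : v ∈ K := by rw [h]; exact Submodule.mem_top
        exact h1 w hw
    intro v hv
    have h1 : v ∈ K := hv
    rw [hK] at h1
    exact (Submodule.mem_bot F).1 h1
  let L := Finsupp.linearCombination F (fun s : derivedSeries F2 (d + 1) => δ s)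
  let LB := Finsupp.linearCombination F (fun s : derivedSeries F2 (d + 1) => β s)
  have hL : Function.Surjective L := by
    rw [← LinearMap.range_eq_top, Finsupp.range_linearCombination]
    exact hspan
  have hLs : ∀ s : derivedSeries F2 (d + 1), L (Finsupp.single s 1) = δ s := fun s => by
    change Finsupp.linearCombination F _ _ = _
    rw [Finsupp.linearCombination_single, one_smul]
  have hLBs : ∀ s : derivedSeries F2 (d + 1), LB (Finsupp.single s 1) = β s := fun s => by
    change Finsupp.linearCombination F _ _ = _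
    rw [Finsupp.linearCombination_single, one_smul]
  -- exchange
  have hex : ∀ δ₁ : F2 → S, IsDer ρ δ₁ → ∀ (c : derivedSeries F2 (d + 1) →₀ F) (r : derivedSeries F2 (d + 1)),
      LB c (δ₁ r) = β r (Finsupp.linearCombination F (fun s : derivedSeries F2 (d + 1) => δ₁ s) c) := by
    intro δ₁ hδ₁ c r
    change (Finsupp.linearCombination F (fun s : derivedSeries F2 (d + 1) => β s) c) (δ₁ r) = _
    rw [Finsupp.linearCombination_apply, Finsupp.linearCombination_apply, Finsupp.sum, Finsupp.sum, map_sum,
      LinearMap.sum_apply]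
    refine Finset.sum_congr rfl fun s _ => ?_
    rw [LinearMap.smul_apply, map_smul, hiso δ₁ β hδ₁ hβ r r.2 s s.2]
  have hLB0 : ∀ c, L c = 0 → LB c = 0 := by
    intro c hc
    refine LinearMap.ext_on hspan ?_
    rintro _ ⟨r, rfl⟩
    have h1 := hex δ hδ c r
    rw [h1]
    change β r (L c) = _
    rw [hc, map_zero]
    rfl
  refine ⟨?_, ?_⟩
  · intro δ₁ hδ₁
    obtain ⟨κ, hκ⟩ := KAP_fac L (Finsupp.linearCombination F (fun s : derivedSeries F2 (d + 1) => δ₁ s)) hL (by
      intro c hc
      refine hker _ fun r hr => ?_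
      rw [← hex δ₁ hδ₁ c ⟨r, hr⟩, hLB0 c hc]
      rfl)
    have hκ1 : ∀ s : derivedSeries F2 (d + 1), κ (δ s) = δ₁ s := fun s => by
      rw [← hLs, hκ, Finsupp.linearCombination_single, one_smul]
    refine ⟨κ, fun g => ?_, fun w hw => (hκ1 ⟨w, hw⟩).symm⟩
    refine LinearMap.ext_on hspan ?_
    rintro _ ⟨s, rfl⟩
    change κ (ρ g (δ s)) = ρ g (κ (δ s))
    have h1 := hκ1 ⟨_, hconj g s s.2⟩
    rw [hκ1, ← KAP_conj ρ δ hδ g s (htriv s s.2), ← KAP_conj ρ δ₁ hδ₁ g s (htriv s s.2)]
    exact h1
  · obtain ⟨b, hb⟩ := KAP_fac L LB hL hLB0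
    have hb1 : ∀ s : derivedSeries F2 (d + 1), b (δ s) = β s := fun s => by
      rw [← hLs, hb, hLBs]
    refine ⟨b, fun w hw => hb1 ⟨w, hw⟩, ?_, ?_⟩
    · have hequi : ∀ g : F2, b.comp (ρ g) = (ρ' g).comp b := by
        intro g
        refine LinearMap.ext_on hspan ?_
        rintro _ ⟨s, rfl⟩
        change b (ρ g (δ s)) = ρ' g (b (δ s))
        have h1 := hb1 ⟨_, hconj g s s.2⟩
        rw [hb1, ← KAP_conj ρ δ hδ g s (htriv s s.2), ← KAP_conj ρ' β hβ g s (htriv' s s.2)]
        exact h1
      have hinv : ∀ g, ∀ v ∈ LinearMap.ker b, ρ g v ∈ LinearMap.ker b := by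
        intro g v hv
        rw [LinearMap.mem_ker] at hv ⊢
        have h1 := LinearMap.congr_fun (hequi g) v
        rw [LinearMap.comp_apply, LinearMap.comp_apply, hv, map_zero] at h1
        exact h1
      rw [← LinearMap.ker_eq_bot]
      rcases hirr (LinearMap.ker b) hinv with h | h
      · exact h
      · obtain ⟨w, hw, hne⟩ := hβ0
        exfalso
        apply hne
        rw [← hb1 ⟨w, hw⟩]
        have h1 : δ w ∈ LinearMap.ker b := by rw [h]; exact Submodule.mem_top
        exact LinearMap.mem_ker.1 h1
    · intro κ hκ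
      have hder : IsDer ρ (fun g => κ (δ g)) := by
        intro g h
        beta_reduce
        rw [hδ g h, map_add]
        congr 1
        exact LinearMap.congr_fun (hκ g) (δ h)
      have h1 : ∀ r s : derivedSeries F2 (d + 1), b (δ r) (κ (δ s)) = b (δ s) (κ (δ r)) := by
        intro r s
        rw [hb1, hb1]
        exact hiso (fun g => κ (δ g)) β hder hβ r r.2 s s.2
      have h2 : ∀ (r : derivedSeries F2 (d + 1)) (v' : S), b (δ r) (κ v') = b v' (κ (δ r)) := by
        intro r v'
        have h3 : (b (δ r)).comp κ = b.flip (κ (δ r)) := by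
          refine LinearMap.ext_on hspan ?_
          rintro _ ⟨s, rfl⟩
          exact h1 r s
        exact LinearMap.congr_fun h3 v'
      intro v v'
      have h3 : b.flip (κ v') = (b v').comp κ := by
        refine LinearMap.ext_on hspan ?_
        rintro _ ⟨s, rfl⟩
        exact h2 s v'
      exact LinearMap.congr_fun h3 v

end Pool.Agent.Work.MP_403fb3_lin
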