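import Pool.Agent.Work.MP_403fb3_lin.Interface6

/-!
# Block MAT: two more steps in the special linear group (typed by helper98)
-/

set_option autoImplicit false

namespace Pool.Agent.Work.MP_403fb3_lin

open Matrix Subgroup
open Pool.Agent.Work.MP_403fb3_al_helper9
open scoped commutatorElement

namespace MAT

variable {F : Type} [Field F] {n : ℕ}

/-- block upper triangular matrices with last diagonal entry `1` -/
def Mx (χ : F) (r : Fin n → F) (z : F) (g : Matrix (Fin n) (Fin n) F) (v : Fin n → F) :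
    Matrix ((Unit ⊕ Fin n) ⊕ Unit) ((Unit ⊕ Fin n) ⊕ Unit) F :=
  fromBlocks (fromBlocks (Matrix.of fun _ _ => χ) (Matrix.of fun _ j => r j) 0 g)
    (Matrix.of fun i _ => Sum.elim (fun _ => z) v i) 0 1

theorem Mx_mul (χ χ' : F) (r r' : Fin n → F) (z z' : F) (g g' : Matrix (Fin n) (Fin n) F)
    (v v' : Fin n → F) :
    Mx χ r z g v * Mx χ' r' z' g' v' =
      Mx (χ * χ') (χ • r' + r ᵥ* g') (χ * z' + r ⬝ᵥ v' + z) (g * g') (g *ᵥ v' + v) := by
  ext i j
  rcases i with (i | i) | i <;> rcases j with (j | j) | j <;>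
    simp [Mx, Matrix.mul_apply, Fintype.sum_sum_type, vecMul, mulVec, dotProduct]

theorem Mx_one : Mx (1 : F) (0 : Fin n → F) 0 1 0 = 1 := by
  ext i j
  rcases i with (i | i) | i <;> rcases j with (j | j) | j <;>
    simp [Mx, Matrix.one_apply]

theorem Mx_det (χ : F) (r : Fin n → F) (z : F) (g : Matrix (Fin n) (Fin n) F) (v : Fin n → F) :
    (Mx χ r z g v).det = χ * g.det := by
  rw [Mx, det_fromBlocks_zero₂₁, det_fromBlocks_zero₂₁, det_unique, det_one, mul_one]
  rfl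

/-- the corner -/
theorem Mx_corner (χ : F) (r : Fin n → F) (z : F) (g : Matrix (Fin n) (Fin n) F) (v : Fin n → F) :
    Mx χ r z g v (Sum.inl (Sum.inl ())) (Sum.inr ()) = z := rfl

variable (x y : GL (Fin n) F) (δ β : F2 → (Fin n → F))

/-- the matrix of a word -/
abbrev gm (w : F2) : Matrix (Fin n) (Fin n) F := (ev2 x y w : Matrix (Fin n) (Fin n) F)

theorem gm_mul (w w' : F2) : gm x y (w * w') = gm x y w * gm x y w' := by
  rw [gm, map_mul, Units.val_mul]

theorem gm_one : gm x y 1 = 1 := by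
  rw [gm, map_one, Units.val_one]

theorem gm_inv (w : F2) : gm x y w⁻¹ * gm x y w = 1 := by
  rw [← gm_mul, inv_mul_cancel, gm_one]

theorem det_ne (w : F2) : (gm x y w).det ≠ 0 := by
  intro h
  have h1 := congrArg Matrix.det (gm_inv x y w)
  rw [det_mul, h, mul_zero, det_one] at h1
  exact zero_ne_one h1

/-- the elements of the special linear group -/
def A (w : F2) (z : F) : Matrix.SpecialLinearGroup ((Unit ⊕ Fin n) ⊕ Unit) F :=
  ⟨Mx ((gm x y w).det)⁻¹ (β w ᵥ* gm x y w) z (gm x y w) (δ w), by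
    rw [Mx_det, inv_mul_cancel₀ (det_ne x y w)]⟩

variable {x y δ β}
variable (hδ : ∀ g h : F2, δ (g * h) = δ g + gm x y g *ᵥ δ h)
variable (hβ : ∀ g h : F2, β (g * h) = β g + ((gm x y g).det)⁻¹ • (β h ᵥ* gm x y g⁻¹))

include hδ hβ in
theorem A_mul (w w' : F2) (z z' : F) : A x y δ β w z * A x y δ β w' z' =
    A x y δ β (w * w') (((gm x y w).det)⁻¹ * z' + (β w ᵥ* gm x y w) ⬝ᵥ δ w' + z) := by
  apply Subtype.ext
  change Mx _ _ _ _ _ * Mx _ _ _ _ _ = Mx _ _ _ _ _
  rw [Mx_mul]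
  have h1 : ((gm x y w).det)⁻¹ * ((gm x y w').det)⁻¹ = ((gm x y (w * w')).det)⁻¹ := by
    rw [gm_mul, det_mul, mul_inv]
  have h2 : ((gm x y w).det)⁻¹ • (β w' ᵥ* gm x y w') + (β w ᵥ* gm x y w) ᵥ* gm x y w' =
      β (w * w') ᵥ* gm x y (w * w') := by
    rw [hβ, gm_mul, add_vecMul, smul_vecMul, vecMul_vecMul, vecMul_vecMul, ← Matrix.mul_assoc,
      gm_inv, Matrix.one_mul, add_comm]
  rw [h1, h2, ← gm_mul, hδ w w', add_comm (δ w)]

include hδ in
theorem δ_one : δ 1 = 0 := by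
  have h := hδ 1 1
  rw [mul_one, gm_one, one_mulVec] at h
  have h2 : δ 1 + 0 = δ 1 + δ 1 := by rw [add_zero]; exact h
  exact (add_left_cancel h2).symm

include hβ in
theorem β_one : β 1 = 0 := by
  have h := hβ 1 1
  rw [mul_one, inv_one, gm_one, det_one, inv_one, one_smul, vecMul_one] at h
  have h2 : β 1 + 0 = β 1 + β 1 := by rw [add_zero]; exact h
  exact (add_left_cancel h2).symm

include hδ hβ in
theorem A_one : A x y δ β 1 0 = 1 := by
  apply Subtype.ext
  change Mx _ _ _ _ _ = 1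
  rw [δ_one hδ, β_one hβ, gm_one, det_one, inv_one, zero_vecMul]
  exact Mx_one

include hδ hβ in
theorem rep (w : F2) : ∃ z, ev2 (A x y δ β (FreeGroup.of 0) 0) (A x y δ β (FreeGroup.of 1) 0) w =
    A x y δ β w z := by
  induction w using FreeGroup.induction_on with
  | C1 => exact ⟨0, by rw [map_one, A_one hδ hβ]⟩
  | of i =>
    fin_cases i
    · exact ⟨0, ev2_zero _ _⟩
    · exact ⟨0, ev2_one _ _⟩
  | inv_of i ih =>
    obtain ⟨z, hz⟩ := ih
    rw [map_inv, hz]
    have hc := det_ne x y (FreeGroup.of i)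
    refine ⟨-((gm x y (FreeGroup.of i)).det *
      (z + (β (FreeGroup.of i) ᵥ* gm x y (FreeGroup.of i)) ⬝ᵥ δ (FreeGroup.of i)⁻¹)), ?_⟩
    apply inv_eq_of_mul_eq_one_right
    rw [A_mul hδ hβ, mul_inv_cancel, ← A_one hδ hβ]
    congr 1
    rw [mul_neg, ← mul_assoc, inv_mul_cancel₀ hc, one_mul]
    ring
  | mul a b iha ihb =>
    obtain ⟨z, hz⟩ := iha
    obtain ⟨z', hz'⟩ := ihb
    exact ⟨_, by rw [map_mul, hz, hz', A_mul hδ hβ]⟩

theorem A_inj {w : F2} {z z' : F} (h : A x y δ β w z = A x y δ β w z') : z = z' := by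
  have h1 := congrArg (fun m : Matrix.SpecialLinearGroup ((Unit ⊕ Fin n) ⊕ Unit) F =>
    m.1 (Sum.inl (Sum.inl ())) (Sum.inr ())) h
  exact h1

end MAT

theorem p_MAT (hNIV : S_NIV) : S_MAT := by
  intro F _ _ n k d hn hk hk0 hd ⟨x, y, hGG, hexp, hfix⟩
  obtain ⟨δ, β, hδ, hβ, r, hr, s, hs, hne⟩ := hNIV F n k d x y hn hk hk0 hd hGG.1 hexp hfix
  have hδ' : ∀ g h : F2, δ (g * h) = δ g + MAT.gm x y g *ᵥ δ h := hδ
  have hβ' : ∀ g h : F2, β (g * h) = β g + ((MAT.gm x y g).det)⁻¹ • (β h ᵥ* MAT.gm x y g⁻¹) := hβ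
  choose Z hZ using MAT.rep hδ' hβ'
  set X := MAT.A x y δ β (FreeGroup.of 0) 0 with hX
  set Y := MAT.A x y δ β (FreeGroup.of 1) 0 with hY
  -- on the derived subgroup number d + 1
  have hg1 : ∀ w ∈ derivedSeries F2 (d + 1), MAT.gm x y w = 1 := by
    intro w hw
    rw [MAT.gm, hGG.1 w hw, Units.val_one]
  have hδ1 : ∀ w ∈ derivedSeries F2 (d + 1), ∀ w' : F2, δ (w * w') = δ w + δ w' := by
    intro w hw w'
    rw [hδ', hg1 w hw, one_mulVec]
  have hβ1 : ∀ w ∈ derivedSeries F2 (d + 1), ∀ w' : F2, β (w * w') = β w + β w' := by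
    intro w hw w'
    rw [hβ', hg1 w hw, hg1 w⁻¹ (inv_mem hw), det_one, inv_one, one_smul, vecMul_one]
  have hZ1 : ∀ w ∈ derivedSeries F2 (d + 1), ∀ w' : F2,
      Z (w * w') = Z w' + β w ⬝ᵥ δ w' + Z w := by
    intro w hw w'
    have h1 := hZ (w * w')
    rw [map_mul, hZ w, hZ w', MAT.A_mul hδ' hβ', hg1 w hw, det_one, inv_one, one_mul,
      vecMul_one] at h1
    exact (MAT.A_inj h1).symm
  have hsub : derivedSeries F2 (d + 2) ≤ derivedSeries F2 (d + 1) := by
    rw [derivedSeries_succ F2 (d + 1)]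
    exact commutator_le_self _
  have hc : ∀ a ∈ derivedSeries F2 (d + 1), ∀ b ∈ derivedSeries F2 (d + 1),
      ⁅a, b⁆ ∈ derivedSeries F2 (d + 2) := by
    intro a ha b hb
    rw [derivedSeries_succ F2 (d + 1)]
    exact commutator_mem_commutator ha hb
  -- δ and β vanish on the derived subgroup number d + 2
  have hcm : ∀ a b : F2, ⁅a, b⁆ * (b * a) = a * b := by
    intro a b
    rw [commutatorElement_def]
    group
  have hv : ∀ w ∈ derivedSeries F2 (d + 2), δ w = 0 ∧ β w = 0 := by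
    let f : derivedSeries F2 (d + 1) →* Multiplicative ((Fin n → F) × (Fin n → F)) :=
      { toFun := fun w => Multiplicative.ofAdd (δ w, β w)
        map_one' := by
          rw [← ofAdd_zero]
          congr 1
          exact Prod.ext (MAT.δ_one hδ') (MAT.β_one hβ')
        map_mul' := by
          intro a b
          rw [← ofAdd_add]
          congr 1
          exact Prod.ext (hδ1 a a.2 b) (hβ1 a a.2 b) }
    have h1 : derivedSeries F2 (d + 2) ≤ (f.ker).map (derivedSeries F2 (d + 1)).subtype := by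
      rw [derivedSeries_succ F2 (d + 1), commutator_le]
      intro a ha b hb
      refine ⟨⁅(⟨a, ha⟩ : derivedSeries F2 (d + 1)), (⟨b, hb⟩ : derivedSeries F2 (d + 1))⁆, ?_, rfl⟩
      change _ ∈ f.ker
      rw [MonoidHom.mem_ker, map_commutatorElement, commutatorElement_eq_one_iff_mul_comm, mul_comm]
    intro w hw
    obtain ⟨u, hu, rfl⟩ := h1 hw
    have h2 : f u = 1 := hu
    have h3 : ((δ u, β u) : (Fin n → F) × (Fin n → F)) = 0 := h2
    exact ⟨congrArg Prod.fst h3, congrArg Prod.snd h3⟩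
  have hE : ∀ w ∈ derivedSeries F2 (d + 2), ev2 X Y w = MAT.A x y δ β 1 (Z w) := by
    intro w hw
    rw [hZ w]
    apply Subtype.ext
    change MAT.Mx _ _ _ _ _ = MAT.Mx _ _ _ _ _
    rw [hg1 w (hsub hw), MAT.gm_one, (hv w hw).1, (hv w hw).2, MAT.δ_one hδ', MAT.β_one hβ']
  refine ⟨X, Y, ⟨?_, ⁅r, s⁆, hc r hr s hs, ?_⟩, ?_⟩
  · have hle : derivedSeries F2 (d + 2 + 1) ≤ (ev2 X Y).ker := by
      rw [derivedSeries_succ, commutator_le]
      intro a ha b hb
      rw [MonoidHom.mem_ker, map_commutatorElement, commutatorElement_eq_one_iff_mul_comm,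
        hE a ha, hE b hb, MAT.A_mul hδ' hβ', MAT.A_mul hδ' hβ', MAT.gm_one, det_one, inv_one,
        one_mul, one_mul, one_mul, MAT.δ_one hδ', dotProduct_zero, add_zero, add_zero, add_comm]
    intro w hw
    exact MonoidHom.mem_ker.1 (hle hw)
  · intro h1
    have hcmem := hc r hr s hs
    rw [hE _ hcmem, ← MAT.A_one hδ' hβ'] at h1
    have h2 := MAT.A_inj h1
    have h3 := hZ1 r hr s
    have h4 := hZ1 s hs r
    have h5 := hZ1 _ (hsub hcmem) (s * r)
    rw [hcm, h2, (hv _ hcmem).2, zero_dotProduct, add_zero, add_zero, h3, h4] at h5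
    apply hne
    have h6 : β r ⬝ᵥ δ s + (Z r + Z s) = β s ⬝ᵥ δ r + (Z r + Z s) := by
      calc β r ⬝ᵥ δ s + (Z r + Z s) = Z s + β r ⬝ᵥ δ s + Z r := by ring
        _ = Z r + β s ⬝ᵥ δ r + Z s := h5
        _ = β s ⬝ᵥ δ r + (Z r + Z s) := by ring
    exact add_right_cancel h6
  · intro w
    rw [hZ w]
    rfl

end Pool.Agent.Work.MP_403fb3_lin
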