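import Pool.Agent.Work.MP_403fb3_lin.Interface6

/-!
# NIR: the form is not isotropic, irreducible case
-/

set_option autoImplicit false

namespace Pool.Agent.Work.MP_403fb3_lin

open Matrix Subgroup
open Pool.Agent.Work.MP_403fb3_al_helper9

namespace NIR

variable {F S : Type} [Field F] [AddCommGroup S] [Module F S]

theorem inj_of_ne {ρ : F2 →* Module.End F S} (hI : Irr ρ) (κ : Module.End F S)
    (hκ : ∀ g, κ * ρ g = ρ g * κ) (v : S) (hv : v ≠ 0) (h0 : κ v = 0) : κ = 0 := by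
  have h1 := hI (LinearMap.ker κ) (by
    intro g w hw
    rw [LinearMap.mem_ker] at hw ⊢
    have := congrArg (fun f : Module.End F S => f w) (hκ g)
    simp only [Module.End.mul_apply] at this
    rw [this, hw, map_zero])
  rcases h1 with h1 | h1
  · exfalso
    have : v ∈ LinearMap.ker κ := h0
    rw [h1, Submodule.mem_bot] at this
    exact hv this
  · exact LinearMap.ker_eq_top.1 h1

theorem surj (hDEX : S_DEX) (hCNT : S_CNT) [Finite S] {ρ : F2 →* Module.End F S} {k d : ℕ}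
    (hk : k.Prime) (hkF : (k : F) ≠ 0) (hok : RepOK ρ k d) (hI : Irr ρ) (δ₀ : F2 → S)
    (w₀ : F2) (hw₀ : w₀ ∈ derivedSeries F2 (d + 1)) (hv₀ : δ₀ w₀ ≠ 0)
    (hA : ∀ δ₁ : F2 → S, IsDer ρ δ₁ → ∃ κ : Module.End F S, (∀ g, κ * ρ g = ρ g * κ) ∧
      ∀ w ∈ derivedSeries F2 (d + 1), δ₁ w = κ (δ₀ w)) (v : S) :
    ∃ κ : Module.End F S, (∀ g, κ * ρ g = ρ g * κ) ∧ κ (δ₀ w₀) = v := by
  obtain ⟨hex, huniq⟩ := hDEX F S ρ
  choose D hD hD0 hD1 using fun p : S × S => hex p.1 p.2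
  have hadd : ∀ p q, D (p + q) = D p + D q := by
    intro p q
    apply huniq _ _ (hD _)
    · intro g h
      rw [Pi.add_apply, Pi.add_apply, Pi.add_apply, hD p, hD q, map_add]
      abel
    · rw [hD0, Pi.add_apply, hD0, hD0]
      rfl
    · rw [hD1, Pi.add_apply, hD1, hD1]
      rfl
  have hsmul : ∀ (c : F) (p : S × S), D (c • p) = c • D p := by
    intro c p
    apply huniq _ _ (hD _)
    · intro g h
      rw [Pi.smul_apply, Pi.smul_apply, Pi.smul_apply, hD p, map_smul, smul_add]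
    · rw [hD0, Pi.smul_apply, hD0]
      rfl
    · rw [hD1, Pi.smul_apply, hD1]
      rfl
  let Φ : S × S →ₗ[F] S :=
    { toFun := fun p => D p w₀
      map_add' := fun p q => by rw [hadd, Pi.add_apply]
      map_smul' := fun c p => by rw [hsmul, Pi.smul_apply, RingHom.id_apply] }
  let Ψ : S →ₗ[F] S × S := LinearMap.prod (1 - ρ (FreeGroup.of 0)) (1 - ρ (FreeGroup.of 1))
  have hker : LinearMap.ker Φ ≤ LinearMap.range Ψ := by
    intro p hp
    rw [LinearMap.mem_ker] at hp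
    obtain ⟨κ, hκ, hκ2⟩ := hA (D p) (hD p)
    have h1 : κ (δ₀ w₀) = 0 := by
      rw [← hκ2 w₀ hw₀]
      exact hp
    have h2 := inj_of_ne hI κ hκ _ hv₀ h1
    obtain ⟨c, hc⟩ := hCNT F S ρ k d hk hkF hok (D p) (hD p) (by
      intro w hw
      rw [hκ2 w hw, h2, LinearMap.zero_apply])
    refine ⟨c, ?_⟩
    apply Prod.ext
    · rw [← hD0 p, hc]
      rfl
    · rw [← hD1 p, hc]
      rfl
  have hfin : Module.Finite F S := Module.Finite.of_finite
  have h1 := LinearMap.finrank_range_add_finrank_ker Φ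
  rw [Module.finrank_prod] at h1
  have h2 : Module.finrank F (LinearMap.ker Φ) ≤ Module.finrank F S :=
    le_trans (Submodule.finrank_mono hker) (LinearMap.finrank_range_le Ψ)
  have h3 : LinearMap.range Φ = ⊤ := by
    apply Submodule.eq_top_of_finrank_eq
    have h4 := Submodule.finrank_le (LinearMap.range Φ)
    omega
  have h5 : v ∈ LinearMap.range Φ := by rw [h3]; trivial
  obtain ⟨p, hp⟩ := h5
  obtain ⟨κ, hκ, hκ2⟩ := hA (D p) (hD p)
  refine ⟨κ, hκ, ?_⟩
  rw [← hκ2 w₀ hw₀]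
  exact hp

end NIR

theorem p_NIR (hDEX : S_DEX) (hCNT : S_CNT) (hEXN : S_EXN) (hDUA : S_DUA) (hKAP : S_KAP) :
    S_NIR := by
  intro F S _ _ _ _ _ ρ χ ρ' k d hk hkF hd hok hdual hI hiso
  obtain ⟨v₁, hv₁⟩ := exists_ne (0 : S)
  have hF : Finite F := Finite.of_injective (fun c : F => c • v₁) (smul_left_injective F hv₁)
  have hDf : Finite (Module.Dual F S) :=
    Finite.of_injective (fun f : Module.Dual F S => (f : S → F)) DFunLike.coe_injective
  have hDn : Nontrivial (Module.Dual F S) := by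
    have hex : ∃ f : Module.Dual F S, f v₁ ≠ 0 := by
      by_contra h
      push Not at h
      exact hv₁ ((Module.forall_dual_apply_eq_zero_iff F v₁).1 h)
    obtain ⟨f, hf⟩ := hex
    refine ⟨⟨f, 0, ?_⟩⟩
    intro h
    apply hf
    rw [h]
    rfl
  have hok' := hDUA F S ρ χ ρ' k d hk hkF hd hok hdual
  obtain ⟨δ₀, hδ₀, w₀, hw₀, hv₀⟩ := hEXN F S ρ k d hk hkF hok
  obtain ⟨β₀, hβ₀, w₁, hw₁, hv₁'⟩ := hEXN F (Module.Dual F S) ρ' k d hk hkF hok'
  obtain ⟨hA, b, -, hbi, hb⟩ := hKAP F S ρ χ ρ' d hdual hI hok.1 hiso δ₀ β₀ hδ₀ hβ₀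
    ⟨w₀, hw₀, hv₀⟩ ⟨w₁, hw₁, hv₁'⟩
  have hsurj := NIR.surj hDEX hCNT hk hkF hok hI δ₀ w₀ hw₀ hv₀ hA
  have hsymm : ∀ v v', b v v' = b v' v := fun v v' => hb 1 (fun g => by rw [one_mul, mul_one]) v v'
  have hmul : ∀ κ κ' : Module.End F S, (∀ g, κ * ρ g = ρ g * κ) → (∀ g, κ' * ρ g = ρ g * κ') →
      ∀ g, (κ * κ') * ρ g = ρ g * (κ * κ') := by
    intro κ κ' h h' g
    rw [mul_assoc, h' g, ← mul_assoc, h g, mul_assoc]
  have hcomm : ∀ κ κ' : Module.End F S, (∀ g, κ * ρ g = ρ g * κ) → (∀ g, κ' * ρ g = ρ g * κ') →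
      κ * κ' = κ' * κ := by
    intro κ κ' h h'
    apply LinearMap.ext
    intro v
    apply hbi
    apply LinearMap.ext
    intro v'
    have h1 : b v ((κ * κ') v') = b v' ((κ * κ') v) := hb (κ * κ') (hmul κ κ' h h') v v'
    have h2 : b v (κ (κ' v')) = b (κ' v') (κ v) := hb κ h v (κ' v')
    have h3 : b (κ v) (κ' v') = b v' (κ' (κ v)) := hb κ' h' (κ v) v'
    rw [hsymm, hsymm _ v']
    change b v' (κ (κ' v)) = b v' (κ' (κ v))
    rw [← h3, hsymm (κ v), ← h2]
    exact h1.symm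
  have hρ : ∀ g h : F2, ρ g * ρ h = ρ h * ρ g := by
    have hK : ∀ g : F2, ∀ h : F2, ρ g * ρ h = ρ h * ρ g := by
      intro g
      obtain ⟨κ, hκ, hκv⟩ := hsurj (ρ g (δ₀ w₀))
      have e : ρ g = κ := by
        apply LinearMap.ext
        intro v
        obtain ⟨κ', hκ', hv⟩ := hsurj v
        rw [← hv]
        have h1 : ρ g (κ' (δ₀ w₀)) = κ' (ρ g (δ₀ w₀)) := by
          have := congrArg (fun f : Module.End F S => f (δ₀ w₀)) (hκ' g)
          simp only [Module.End.mul_apply] at this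
          exact this.symm
        rw [h1, ← hκv]
        have := congrArg (fun f : Module.End F S => f (δ₀ w₀)) (hcomm κ' κ hκ' hκ)
        simpa only [Module.End.mul_apply] using this
      intro h
      rw [e]
      exact hκ h
    exact hK
  have hD1 : derivedSeries F2 1 ≤ ρ.ker := by
    rw [derivedSeries_succ, derivedSeries_zero, Subgroup.commutator_le]
    intro g _ h _
    rw [MonoidHom.mem_ker, commutatorElement_def, map_mul, map_mul, map_mul, hρ g h,
      mul_assoc (ρ h) (ρ g), ← map_mul, mul_inv_cancel, map_one, mul_one, ← map_mul,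
      mul_inv_cancel, map_one]
  have hall : ∀ v : S, v = 0 := by
    intro v
    apply hok.2.2
    intro w hw
    have h1 : w ∈ derivedSeries F2 1 := derivedSeries_antitone F2 hd hw
    have h2 : ρ w = 1 := hD1 h1
    rw [h2]
    rfl
  exact hv₁ (hall v₁)

end Pool.Agent.Work.MP_403fb3_lin
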