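import Pool.Agent.Work.MP_403fb3_lin.Interface6

/-!
# The form is not isotropic, general case (block NIV, helper19)
-/

set_option autoImplicit false

namespace Pool.Agent.Work.MP_403fb3_lin

open Matrix Subgroup
open Pool.Agent.Work.MP_403fb3_al_helper9

namespace NIV

variable {F : Type} [Field F] {n : ℕ}

/-- the representation on column vectors -/
def rhoV (x y : GL (Fin n) F) : F2 →* Module.End F (Fin n → F) where
  toFun w := Matrix.mulVecLin (ev2 x y w : Matrix (Fin n) (Fin n) F)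
  map_one' := by
    rw [map_one, Units.val_one, Matrix.mulVecLin_one]
    rfl
  map_mul' a b := by
    rw [map_mul, Units.val_mul, Matrix.mulVecLin_mul]
    rfl

theorem rhoV_apply (x y : GL (Fin n) F) (w : F2) (v : Fin n → F) :
    rhoV x y w v = (ev2 x y w : Matrix (Fin n) (Fin n) F) *ᵥ v := rfl

theorem rhoV_one (x y : GL (Fin n) F) (w : F2) (h : ev2 x y w = 1) : rhoV x y w = 1 := by
  apply LinearMap.ext
  intro v
  rw [rhoV_apply, h, Units.val_one, one_mulVec]
  rfl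

section Q

variable {V : Type} [AddCommGroup V] [Module F V]

/-- the representation on a quotient -/
def rhoQ (ρ : F2 →* Module.End F V) (V0 : Submodule F V) (hinv : ∀ g, ∀ v ∈ V0, ρ g v ∈ V0) :
    F2 →* Module.End F (V ⧸ V0) where
  toFun g := V0.mapQ V0 (ρ g) (fun v hv => hinv g v hv)
  map_one' := by
    apply Submodule.linearMap_qext
    apply LinearMap.ext
    intro v
    simp
  map_mul' a b := by
    apply Submodule.linearMap_qext
    apply LinearMap.ext
    intro v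
    simp

theorem rhoQ_mk (ρ : F2 →* Module.End F V) (V0 : Submodule F V) (hinv : ∀ g, ∀ v ∈ V0, ρ g v ∈ V0)
    (g : F2) (v : V) : rhoQ ρ V0 hinv g (Submodule.Quotient.mk v) = Submodule.Quotient.mk (ρ g v) := rfl

theorem rhoQ_one (ρ : F2 →* Module.End F V) (V0 : Submodule F V) (hinv : ∀ g, ∀ v ∈ V0, ρ g v ∈ V0)
    (g : F2) (h : ρ g = 1) : rhoQ ρ V0 hinv g = 1 := by
  apply LinearMap.ext
  intro z
  obtain ⟨v, rfl⟩ := Submodule.Quotient.mk_surjective V0 z
  rw [rhoQ_mk, h]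
  rfl

/-- the twisted dual representation -/
def rhoD (ρ : F2 →* Module.End F V) (χ : F2 →* F) : F2 →* Module.End F (Module.Dual F V) where
  toFun g :=
    { toFun := fun f => χ g • (f ∘ₗ ρ g⁻¹)
      map_add' := fun f f' => by
        rw [LinearMap.add_comp, smul_add]
      map_smul' := fun c f => by
        rw [LinearMap.smul_comp, smul_comm, RingHom.id_apply] }
  map_one' := by
    apply LinearMap.ext
    intro f
    apply LinearMap.ext
    intro v
    simp
  map_mul' a b := by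
    apply LinearMap.ext
    intro f
    apply LinearMap.ext
    intro v
    simp
    ring

theorem rhoD_dual (ρ : F2 →* Module.End F V) (χ : F2 →* F) : IsDual ρ χ (rhoD ρ χ) := fun _ _ _ => rfl

/-- a maximal proper invariant subspace -/
theorem exists_max [Finite V] [Nontrivial V] (ρ : F2 →* Module.End F V) :
    ∃ (V0 : Submodule F V) (hinv : ∀ g, ∀ v ∈ V0, ρ g v ∈ V0), V0 ≠ ⊤ ∧ Irr (rhoQ ρ V0 hinv) := by
  have hfin : Module.Finite F V := Module.Finite.of_finite
  obtain ⟨V0, ⟨hinv, hne⟩, hmax⟩ := (wellFounded_gt (α := Submodule F V)).has_min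
    {W : Submodule F V | (∀ g, ∀ v ∈ W, ρ g v ∈ W) ∧ W ≠ ⊤}
    ⟨⊥, fun g v hv => by rw [Submodule.mem_bot] at hv ⊢; rw [hv, map_zero], bot_ne_top⟩
  refine ⟨V0, hinv, hne, ?_⟩
  intro W hW
  by_cases h1 : W.comap V0.mkQ = ⊤
  · right
    rw [← Submodule.map_comap_eq_self (f := V0.mkQ) (q := W)
      (by rw [Submodule.range_mkQ]; exact le_top), h1, Submodule.map_top, Submodule.range_mkQ]
  · left
    have h2 : W.comap V0.mkQ ∈ {W : Submodule F V | (∀ g, ∀ v ∈ W, ρ g v ∈ W) ∧ W ≠ ⊤} := by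
      refine ⟨fun g v hv => ?_, h1⟩
      rw [Submodule.mem_comap] at hv ⊢
      exact hW g _ hv
    have h3 := hmax _ h2
    have h4 : V0 ≤ W.comap V0.mkQ := by
      intro v hv
      rw [Submodule.mem_comap, Submodule.mkQ_apply, (Submodule.Quotient.mk_eq_zero V0).2 hv]
      exact W.zero_mem
    have h5 : W.comap V0.mkQ = V0 := by
      by_contra hcon
      exact h3 (lt_of_le_of_ne h4 (Ne.symm hcon))
    rw [← Submodule.map_comap_eq_self (f := V0.mkQ) (q := W)
      (by rw [Submodule.range_mkQ]; exact le_top), h5, Submodule.mkQ_map_self]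

end Q

/-- no fixed vectors in the quotient -/
theorem no_fixed [Finite F] {k d : ℕ} (hk : k.Prime) (hkF : (k : F) ≠ 0) (x y : GL (Fin n) F)
    (hexp : ∀ w ∈ derivedSeries F2 d, ev2 x y w ^ k = 1)
    (hfix : ∀ v : Fin n → F, (∀ w ∈ derivedSeries F2 d,
      (ev2 x y w : Matrix (Fin n) (Fin n) F) *ᵥ v = v) → v = 0)
    (V0 : Submodule F (Fin n → F)) (hinv : ∀ g, ∀ v ∈ V0, rhoV x y g v ∈ V0)
    (z : (Fin n → F) ⧸ V0) (hz : ∀ w ∈ derivedSeries F2 d, rhoQ (rhoV x y) V0 hinv w z = z) : z = 0 := by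
  classical
  obtain ⟨u, rfl⟩ := Submodule.Quotient.mk_surjective V0 z
  let E : Subgroup (GL (Fin n) F) := (derivedSeries F2 d).map (ev2 x y)
  have : Finite (GL (Fin n) F) := inferInstance
  letI : Fintype E := Fintype.ofFinite _
  have hEk : IsPGroup k E := by
    rintro ⟨g, hg⟩
    obtain ⟨w, hw, rfl⟩ := hg
    refine ⟨1, Subtype.ext ?_⟩
    rw [pow_one]
    exact hexp w hw
  have hcard : ((Fintype.card E : ℕ) : F) ≠ 0 := by
    haveI : Fact k.Prime := ⟨hk⟩
    obtain ⟨j, hj⟩ := IsPGroup.iff_card.1 hEk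
    rw [Nat.card_eq_fintype_card] at hj
    rw [hj]
    push_cast
    exact pow_ne_zero _ hkF
  let P : Fin n → F := ∑ g : E, ((g : GL (Fin n) F) : Matrix (Fin n) (Fin n) F) *ᵥ u
  have hP : P = 0 := by
    apply hfix
    intro w hw
    let g0 : E := ⟨ev2 x y w, w, hw, rfl⟩
    simp only [P]
    rw [← Matrix.mulVecLin_apply, map_sum]
    refine Fintype.sum_equiv (Equiv.mulLeft g0) _ _ fun g => ?_
    rw [Matrix.mulVecLin_apply, mulVec_mulVec]
    simp only [Equiv.coe_mulLeft, Subgroup.coe_mul, Units.val_mul]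
    rfl
  have hmk : (Submodule.Quotient.mk P : (Fin n → F) ⧸ V0) = (Fintype.card E : F) • Submodule.Quotient.mk u := by
    have h1 : (Submodule.Quotient.mk P : (Fin n → F) ⧸ V0) =
        ∑ g : E, Submodule.Quotient.mk (((g : GL (Fin n) F) : Matrix (Fin n) (Fin n) F) *ᵥ u) := by
      simp only [P]
      exact map_sum V0.mkQ _ _
    rw [h1, Finset.sum_congr rfl (g := fun _ => (Submodule.Quotient.mk u : (Fin n → F) ⧸ V0))]
    · rw [Finset.sum_const, Finset.card_univ, Nat.cast_smul_eq_nsmul]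
    · rintro ⟨g, w, hw, rfl⟩ _
      exact hz w hw
  rw [hP, Submodule.Quotient.mk_zero] at hmk
  exact (smul_eq_zero.1 hmk.symm).resolve_left hcard

/-- the determinant character -/
noncomputable def chi (x y : GL (Fin n) F) : F2 →* F :=
  (Units.coeHom F).comp ((invMonoidHom (α := Fˣ)).comp (Matrix.GeneralLinearGroup.det.comp (ev2 x y)))

theorem chi_apply (x y : GL (Fin n) F) (g : F2) :
    chi x y g = ((ev2 x y g : Matrix (Fin n) (Fin n) F).det)⁻¹ := by
  show (((Matrix.GeneralLinearGroup.det (ev2 x y g))⁻¹ : Fˣ) : F) = _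
  rw [Units.val_inv_eq_inv_val]
  rfl

theorem dotL (L : (Fin n → F) →ₗ[F] F) (v : Fin n → F) : (fun i => L (Pi.single i 1)) ⬝ᵥ v = L v := by
  rw [LinearMap.pi_apply_eq_sum_univ L v, dotProduct]
  apply Finset.sum_congr rfl
  intro i _
  rw [smul_eq_mul, mul_comm]
  congr 2
  ext j
  rw [Pi.single_apply]
  by_cases h : i = j
  · rw [if_pos h, if_pos h.symm]
  · rw [if_neg h, if_neg (Ne.symm h)]

end NIV

open NIV in
theorem p_NIV (hDEX : S_DEX) (hNIR : S_NIR) : S_NIV := by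
  intro F _ _ n k d x y hn hk hkF hd h1 h2 h3
  haveI : Nonempty (Fin n) := ⟨⟨0, hn⟩⟩
  obtain ⟨V0, hinv, hne, hirr⟩ := exists_max (rhoV x y)
  haveI : Finite ((Fin n → F) ⧸ V0) := Finite.of_surjective _ (Submodule.Quotient.mk_surjective V0)
  haveI : Nontrivial ((Fin n → F) ⧸ V0) := Submodule.Quotient.nontrivial_iff.2 hne
  have hok : RepOK (rhoQ (rhoV x y) V0 hinv) k d := by
    refine ⟨fun w hw => rhoQ_one _ _ _ _ (rhoV_one x y w (h1 w hw)), fun w hw => ?_, fun z hz => ?_⟩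
    · rw [← map_pow]
      exact rhoQ_one _ _ _ _ (rhoV_one x y _ (by rw [map_pow]; exact h2 w hw))
    · exact no_fixed hk hkF x y h2 h3 V0 hinv z hz
  have hnot := hNIR F ((Fin n → F) ⧸ V0) (rhoQ (rhoV x y) V0 hinv) (chi x y) (rhoD _ (chi x y)) k d hk hkF hd
    hok (rhoD_dual _ _) hirr
  unfold AllIso at hnot
  push Not at hnot
  obtain ⟨δ0, β0, hδ0, hβ0, r, hr, s, hs, hrs⟩ := hnot
  obtain ⟨v1, hv1⟩ := Submodule.Quotient.mk_surjective V0 (δ0 (FreeGroup.of 0))
  obtain ⟨v2, hv2⟩ := Submodule.Quotient.mk_surjective V0 (δ0 (FreeGroup.of 1))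
  obtain ⟨δ, hδ, hd1, hd2⟩ := (hDEX F (Fin n → F) (rhoV x y)).1 v1 v2
  have hmk : (fun g => (Submodule.Quotient.mk (δ g) : (Fin n → F) ⧸ V0)) = δ0 := by
    refine (hDEX F ((Fin n → F) ⧸ V0) (rhoQ (rhoV x y) V0 hinv)).2 _ _ ?_ hδ0 ?_ ?_
    · intro g h
      simp only
      rw [hδ g h, Submodule.Quotient.mk_add, rhoQ_mk]
    · rw [hd1, hv1]
    · rw [hd2, hv2]
  have hdot : ∀ (w : F2) (v : Fin n → F),
      (fun i => β0 w (Submodule.Quotient.mk (Pi.single i 1))) ⬝ᵥ v = β0 w (Submodule.Quotient.mk v) :=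
    fun w v => dotL ((β0 w) ∘ₗ V0.mkQ) v
  refine ⟨δ, fun w i => β0 w (Submodule.Quotient.mk (Pi.single i 1)), fun g h => hδ g h, ?_, r, hr, s, hs, ?_⟩
  · intro g h
    funext i
    simp only
    rw [hβ0 g h, LinearMap.add_apply, Pi.add_apply, Pi.smul_apply, smul_eq_mul, ← chi_apply]
    congr 1
    show chi x y g * β0 h (rhoQ (rhoV x y) V0 hinv g⁻¹ (Submodule.Quotient.mk (Pi.single i 1))) = _
    rw [rhoQ_mk, rhoV_apply, ← hdot h]
    congr 1
    rw [Matrix.vecMul]
    congr 1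
    ext j
    simp
  · rw [hdot, hdot]
    have e1 : (Submodule.Quotient.mk (δ s) : (Fin n → F) ⧸ V0) = δ0 s := congrFun hmk s
    have e2 : (Submodule.Quotient.mk (δ r) : (Fin n → F) ⧸ V0) = δ0 r := congrFun hmk r
    rw [e1, e2]
    exact hrs

end Pool.Agent.Work.MP_403fb3_lin
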