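import Pool.Agent.Work.MP_403fb3_lin.Interface8
import Pool.Agent.Work.MP_403fb3_lin.NIV

/-!
# The form is not isotropic, arbitrary character (block NIX; NIV of helper19 with a character)
-/

set_option autoImplicit false

namespace Pool.Agent.Work.MP_403fb3_lin

open Matrix Subgroup
open Pool.Agent.Work.MP_403fb3_al_helper9

open NIV in
theorem p_NIX (hDEX : S_DEX) (hNIR : S_NIR) : S_NIX := by
  intro F _ _ n k d x y χ hn hk hkF hd h1 h2 h3
  haveI : Nonempty (Fin n) := ⟨⟨0, hn⟩⟩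
  obtain ⟨V0, hinv, hne, hirr⟩ := exists_max (rhoV x y)
  haveI : Finite ((Fin n → F) ⧸ V0) := Finite.of_surjective _ (Submodule.Quotient.mk_surjective V0)
  haveI : Nontrivial ((Fin n → F) ⧸ V0) := Submodule.Quotient.nontrivial_iff.2 hne
  have hok : RepOK (rhoQ (rhoV x y) V0 hinv) k d := by
    refine ⟨fun w hw => rhoQ_one _ _ _ _ (rhoV_one x y w (h1 w hw)), fun w hw => ?_, fun z hz => ?_⟩
    · rw [← map_pow]
      exact rhoQ_one _ _ _ _ (rhoV_one x y _ (by rw [map_pow]; exact h2 w hw))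
    · exact no_fixed hk hkF x y h2 h3 V0 hinv z hz
  have hnot := hNIR F ((Fin n → F) ⧸ V0) (rhoQ (rhoV x y) V0 hinv) χ (rhoD _ χ) k d hk hkF hd
    hok (rhoD_dual _ _) hirr
  unfold AllIso at hnot
  push Not at hnot
  obtain ⟨δ0, β0, hδ0, hβ0, r, hr, s, hs, hrs⟩ := hnot
  obtain ⟨v1, hv1⟩ := Submodule.Quotient.mk_surjective V0 (δ0 (FreeGroup.of 0))
  obtain ⟨v2, hv2⟩ := Submodule.Quotient.mk_surjective V0 (δ0 (FreeGroup.of 1))
  obtain ⟨δ, hδ, hd1, hd2⟩ := (hDEX F (Fin n → F) (rhoV x y)).1 v1 v2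
  have hmk : (fun g => (Submodule.Quotient.mk (δ g) : (Fin n → F) ⧸ V0)) = δ0 := by
    refine (hDEX F ((Fin n → F) ⧸ V0) (rhoQ (rhoV x y) V0 hinv)).2 _ _ ?_ hδ0 ?_ ?_
    · intro g h
      simp only
      rw [hδ g h, Submodule.Quotient.mk_add, rhoQ_mk]
    · rw [hd1, hv1]
    · rw [hd2, hv2]
  have hdot : ∀ (w : F2) (v : Fin n → F),
      (fun i => β0 w (Submodule.Quotient.mk (Pi.single i 1))) ⬝ᵥ v = β0 w (Submodule.Quotient.mk v) :=
    fun w v => dotL ((β0 w) ∘ₗ V0.mkQ) v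
  refine ⟨δ, fun w i => β0 w (Submodule.Quotient.mk (Pi.single i 1)), fun g h => hδ g h, ?_, r, hr, s, hs, ?_⟩
  · intro g h
    funext i
    simp only
    rw [hβ0 g h, LinearMap.add_apply, Pi.add_apply, Pi.smul_apply, smul_eq_mul]
    congr 1
    show χ g * β0 h (rhoQ (rhoV x y) V0 hinv g⁻¹ (Submodule.Quotient.mk (Pi.single i 1))) = _
    rw [rhoQ_mk, rhoV_apply, ← hdot h]
    congr 1
    rw [Matrix.vecMul]
    congr 1
    ext j
    simp
  · rw [hdot, hdot]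
    have e1 : (Submodule.Quotient.mk (δ s) : (Fin n → F) ⧸ V0) = δ0 s := congrFun hmk s
    have e2 : (Submodule.Quotient.mk (δ r) : (Fin n → F) ⧸ V0) = δ0 r := congrFun hmk r
    rw [e1, e2]
    exact hrs

end Pool.Agent.Work.MP_403fb3_lin
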