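import Pool.Agent.Work.MP_403fb3_lin.Interface

/-!
# Block PSP: `g ↦ diag (g, (g⁻¹)ᵀ)` modulo the centre of the symplectic group
-/

set_option autoImplicit false

namespace Pool.Agent.Work.MP_403fb3_lin

open Matrix

namespace PSP

variable {F : Type} [Field F] {n : ℕ}

/-- the block matrix -/
def bm (g : GL (Fin n) F) : Matrix (Fin n ⊕ Fin n) (Fin n ⊕ Fin n) F :=
  fromBlocks (g : Matrix (Fin n) (Fin n) F) 0 0 (((g⁻¹ : GL (Fin n) F) : Matrix (Fin n) (Fin n) F)ᵀ)

theorem bm_one : bm (1 : GL (Fin n) F) = 1 := by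
  unfold bm
  rw [inv_one, Units.val_one, transpose_one, fromBlocks_one]

theorem bm_mul (g h : GL (Fin n) F) : bm (g * h) = bm g * bm h := by
  unfold bm
  rw [fromBlocks_multiply, _root_.mul_inv_rev, Units.val_mul, Units.val_mul, transpose_mul]
  simp

theorem bm_mem (g : GL (Fin n) F) : bm g ∈ symplecticGroup (Fin n) F := by
  unfold bm
  rw [SymplecticGroup.fromBlocks_mem_iff]
  refine ⟨by simp, by simp, ?_⟩
  rw [transpose_zero, Matrix.zero_mul, sub_zero, ← transpose_mul, ← Units.val_mul,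
    inv_mul_cancel, Units.val_one, transpose_one]

/-- the homomorphism to the symplectic group -/
def hm (F : Type) [Field F] (n : ℕ) : GL (Fin n) F →* ↥(symplecticGroup (Fin n) F) where
  toFun g := ⟨bm g, bm_mem g⟩
  map_one' := Subtype.ext bm_one
  map_mul' g h := Subtype.ext (bm_mul g h)

theorem hm_center (g : GL (Fin n) F)
    (h : hm F n g ∈ Subgroup.center ↥(symplecticGroup (Fin n) F)) :
    ∃ c : F, (g : Matrix (Fin n) (Fin n) F) = scalar (Fin n) c := by
  have hg : g ∈ Subgroup.center (GL (Fin n) F) := by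
    rw [Subgroup.mem_center_iff] at h ⊢
    intro k
    have h1 := congrArg Subtype.val (h (hm F n k))
    have h2 : bm k * bm g = bm g * bm k := h1
    rw [← bm_mul, ← bm_mul] at h2
    unfold bm at h2
    exact Units.ext (fromBlocks_inj.1 h2).1
  obtain ⟨c, hc⟩ := GeneralLinearGroup.mem_center_iff_val_mem_range_scalar.1 hg
  exact ⟨c, hc.symm⟩

end PSP

theorem p_PSP : S_PSP := by
  intro F _ n
  refine ⟨(QuotientGroup.mk' (Subgroup.center ↥(symplecticGroup (Fin n) F))).comp (PSP.hm F n), ?_⟩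
  intro g hg
  exact PSP.hm_center g ((QuotientGroup.eq_one_iff _).1 hg)

end Pool.Agent.Work.MP_403fb3_lin
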