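import Pool.Agent.Work.MP_403fb3_lin.Interface3
import Pool.Agent.Work.MP_403fb3_lin.QU

/-!
# The first good pair: the last term of the derived series of the pair of block QU is `{1, -1}`
-/

set_option autoImplicit false

namespace Pool.Agent.Work.MP_403fb3_lin
namespace QG

open Matrix Subgroup QU
open scoped commutatorElement
open Pool.Agent.Work.MP_403fb3_al_helper9

variable {F : Type} [Field F]

theorem D3_mem {u v : F} {a b : GL (Fin 2) F}
    (ha : (a, QU.r1, QU.q1) ∈ QU.H u v) (hb : (b, QU.r2, QU.q2) ∈ QU.H u v) :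
    ∀ w ∈ derivedSeries F2 3, ev2 a b w ∈ QU.C u v := by
  have hD2 : ∀ w ∈ derivedSeries F2 2, ev2 a b w ∈ QU.K u v := by
    intro w hw j
    obtain ⟨h3, h4⟩ := act ha hb w
    have h5 : ev2 QU.q1 QU.q2 w = 1 :=
      perm3_two (map_derivedSeries_le_derivedSeries (ev2 QU.q1 QU.q2) 2 (Subgroup.mem_map_of_mem _ hw))
    have h6 := h4 j
    rw [h5, Equiv.Perm.one_apply] at h6
    rcases ax_eq _ _ h6 with h7 | h7
    · refine ⟨1, one_ne_zero, ?_⟩
      rw [h3 j, h7, one_smul]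
    · refine ⟨-1, neg_ne_zero.2 one_ne_zero, ?_⟩
      rw [h3 j, h7, Y_neg, Matrix.smul_mul]
  intro w hw
  have h3 : derivedSeries F2 3 = ⁅derivedSeries F2 2, derivedSeries F2 2⁆ := rfl
  have h4 : (derivedSeries F2 2).map (ev2 a b) ≤ QU.K u v := by
    rintro _ ⟨w', hw', rfl⟩
    exact hD2 w' hw'
  have h5 : ev2 a b w ∈ (⁅derivedSeries F2 2, derivedSeries F2 2⁆).map (ev2 a b) :=
    Subgroup.mem_map_of_mem _ (h3 ▸ hw)
  rw [Subgroup.map_commutator] at h5
  exact K_comm u v (Subgroup.commutator_mono h4 h4 h5)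

theorem det_one (a b : GL (Fin 2) F) {w : F2} (hw : w ∈ derivedSeries F2 3) :
    (ev2 a b w : Matrix (Fin 2) (Fin 2) F).det = 1 := by
  have h1 : w ∈ commutator F2 := by
    have h := derivedSeries_antitone F2 (show 1 ≤ 3 by norm_num) hw
    rwa [derivedSeries_one] at h
  have h2 := Abelianization.commutator_subset_ker
    ((Matrix.GeneralLinearGroup.det (n := Fin 2) (R := F)).comp (ev2 a b)) h1
  rw [MonoidHom.mem_ker] at h2
  have h3 := congrArg Units.val h2
  simpa using h3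

theorem scalar {u v : F} (h2 : (2 : F) ≠ 0) (huv : u ^ 2 + v ^ 2 = -1) {g : GL (Fin 2) F}
    (hg : g ∈ QU.C u v) : (g : Matrix (Fin 2) (Fin 2) F) =
      (g : Matrix (Fin 2) (Fin 2) F) 0 0 • (1 : Matrix (Fin 2) (Fin 2) F) := by
  obtain ⟨a1, a2, a3⟩ := scal h2 huv _ (hg 0) (hg 1)
  ext i j
  fin_cases i <;> fin_cases j <;> simp [a1, a2, a3]

end QG

open QG in
open Pool.Agent.Work.MP_403fb3_al_helper9 in
/-- Block QG. -/
theorem p_QG : S_QG := by
  intro F _ _ h2
  obtain ⟨u, v, huv⟩ := QU.exists_uv F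
  have hda : (!![1 + u - v, -1 + v + u; 1 + v + u, 1 - u + v] : Matrix (Fin 2) (Fin 2) F).det ≠ 0 := by
    rw [Matrix.det_fin_two_of]
    have h4 : (1 + u - v) * (1 - u + v) - (-1 + v + u) * (1 + v + u) = 2 * 2 := by
      linear_combination (-2 : F) * huv
    rw [h4]
    exact mul_ne_zero h2 h2
  have hdb : (!![1, -1; 1, 1] : Matrix (Fin 2) (Fin 2) F).det ≠ 0 := by
    rw [Matrix.det_fin_two_of]
    have h4 : (1 : F) * 1 - (-1) * 1 = 2 := by ring
    rw [h4]
    exact h2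
  have hma := QU.mem_a huv (a := Matrix.GeneralLinearGroup.mkOfDetNeZero _ hda) rfl
  have hmb := QU.mem_b (u := u) (v := v) (b := Matrix.GeneralLinearGroup.mkOfDetNeZero _ hdb) rfl
  have hG := QU.core h2 huv hma hmb
  refine ⟨Matrix.GeneralLinearGroup.mkOfDetNeZero _ hda,
    Matrix.GeneralLinearGroup.mkOfDetNeZero _ hdb, hG, ?_, ?_⟩
  · intro w hw
    have h3 := scalar h2 huv (D3_mem hma hmb w hw)
    have h4 := det_one (Matrix.GeneralLinearGroup.mkOfDetNeZero _ hda)
      (Matrix.GeneralLinearGroup.mkOfDetNeZero _ hdb) hw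
    apply Units.ext
    rw [Units.val_mul, Units.val_one]
    rw [h3] at h4 ⊢
    rw [Matrix.det_smul, Matrix.det_one, mul_one, Fintype.card_fin] at h4
    rw [Matrix.smul_mul, Matrix.one_mul, smul_smul, ← pow_two, h4, one_smul]
  · intro x hx
    obtain ⟨-, w, hw, hw1⟩ := hG
    have h3 := scalar h2 huv (D3_mem hma hmb w hw)
    have h4 := hx w hw
    rw [h3, Matrix.smul_mulVec, Matrix.one_mulVec] at h4
    by_contra h5
    apply hw1
    apply Units.ext
    rw [Units.val_one, h3]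
    obtain ⟨i, hi⟩ := Function.ne_iff.1 h5
    have h6 := congrFun h4 i
    rw [Pi.smul_apply, smul_eq_mul] at h6
    have h7 : (ev2 (Matrix.GeneralLinearGroup.mkOfDetNeZero _ hda)
      (Matrix.GeneralLinearGroup.mkOfDetNeZero _ hdb) w : Matrix (Fin 2) (Fin 2) F) 0 0 = 1 :=
      mul_right_cancel₀ hi (by rw [h6, one_mul])
    rw [h7, one_smul]

end Pool.Agent.Work.MP_403fb3_lin
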