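import Pool.Agent.Work.MP_403fb3_lin.Interface7

/-!
# Block RS: restriction of scalars (typed by helper53)
-/

set_option autoImplicit false

namespace Pool.Agent.Work.MP_403fb3_lin

open Matrix Subgroup
open Pool.Agent.Work.MP_403fb3_al_helper9

namespace RS

variable {F K : Type} [Field F] [Field K] [Algebra F K] {n m : ℕ}

/-- the matrix over `F` of the multiplication with a matrix over `K` -/
noncomputable def phi (b : Module.Basis (Fin m) F (Fin n → K)) :
    Matrix (Fin n) (Fin n) K →* Matrix (Fin m) (Fin m) F where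
  toFun M := LinearMap.toMatrix b b ((Matrix.toLin' M).restrictScalars F)
  map_one' := by
    rw [Matrix.toLin'_one]
    exact LinearMap.toMatrix_id b
  map_mul' M M' := by
    rw [← LinearMap.toMatrix_mul, Matrix.toLin'_mul]
    rfl

theorem phi_inj (b : Module.Basis (Fin m) F (Fin n → K)) : Function.Injective (phi b) := by
  intro M M' h
  have h1 : (Matrix.toLin' M).restrictScalars F = (Matrix.toLin' M').restrictScalars F :=
    (LinearMap.toMatrix b b).injective h
  have h2 : Matrix.toLin' M = Matrix.toLin' M' := LinearMap.restrictScalars_injective F h1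
  exact Matrix.toLin'.injective h2

theorem phi_vec (b : Module.Basis (Fin m) F (Fin n → K)) (M : Matrix (Fin n) (Fin n) K)
    (v : Fin n → K) : phi b M *ᵥ (b.repr v) = b.repr (M *ᵥ v) :=
  LinearMap.toMatrix_mulVec_repr b b ((Matrix.toLin' M).restrictScalars F) v

theorem good (b : Module.Basis (Fin m) F (Fin n → K)) (k d : ℕ) (h : GoodP k K (Fin n) d) :
    GoodP k F (Fin m) d := by
  obtain ⟨x, y, hxy, h2, hv⟩ := h
  let f : GL (Fin n) K →* GL (Fin m) F := Units.map (phi b)
  have hfi : Function.Injective f := by
    intro g g' hg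
    apply Units.ext
    apply phi_inj b
    exact congrArg Units.val hg
  have hf : ∀ g : GL (Fin n) K, (f g : Matrix (Fin m) (Fin m) F) = phi b g := fun g => rfl
  have hev : ∀ w : F2, ev2 (f x) (f y) w = f (ev2 x y w) := fun w => (ev2_comp f x y w).symm
  refine ⟨f x, f y, hxy.map f hfi, ?_, ?_⟩
  · intro w hw
    rw [hev, ← map_pow, h2 w hw, map_one]
  · intro v hfix
    obtain ⟨u, hu⟩ : ∃ u : Fin n → K, ⇑(b.repr u) = v := by
      refine ⟨b.equivFun.symm v, ?_⟩
      exact b.equivFun.apply_symm_apply v
    have h0 : u = 0 := by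
      apply hv
      intro w hw
      have h3 := hfix w hw
      rw [hev, hf, ← hu, phi_vec] at h3
      exact b.repr.injective (DFunLike.coe_injective h3)
    rw [← hu, h0, map_zero]
    rfl

end RS

theorem p_RS (hHBP : S_HBP) : S_RS := by
  intro F _ h3 hω
  let p : Polynomial F := Polynomial.X ^ 2 + Polynomial.X + 1
  have hdeg : p.natDegree = 2 := by
    change (Polynomial.X ^ 2 + Polynomial.X + 1 : Polynomial F).natDegree = 2
    compute_degree!
  have hirr : Irreducible p := by
    refine Polynomial.irreducible_of_degree_le_three_of_not_isRoot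
      (by rw [hdeg]; decide) ?_
    intro z hz
    apply hω z
    have h1 : Polynomial.eval z p = 0 := hz
    simpa [p] using h1
  have : Fact (Irreducible p) := ⟨hirr⟩
  have hroot : (AdjoinRoot.root p) ^ 2 + AdjoinRoot.root p + 1 = 0 := by
    have h1 := AdjoinRoot.eval₂_root p
    simpa [p] using h1
  have hK3 : (3 : AdjoinRoot p) ≠ 0 := by
    intro h
    apply h3
    apply (algebraMap F (AdjoinRoot p)).injective
    rw [map_zero, map_ofNat]
    exact h
  have hfr : Module.finrank F (AdjoinRoot p) = 2 := by
    rw [(AdjoinRoot.powerBasis hirr.ne_zero).finrank, AdjoinRoot.powerBasis_dim, hdeg]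
  have : Module.Finite F (AdjoinRoot p) := Module.finite_of_finrank_pos (by omega)
  have hfr6 : Module.finrank F (Fin 3 → AdjoinRoot p) = 6 := by
    rw [Module.finrank_pi_fintype, Finset.sum_const, hfr, Finset.card_univ, Fintype.card_fin]
    rfl
  exact RS.good (Module.finBasisOfFinrankEq F (Fin 3 → AdjoinRoot p) hfr6) 3 4
    (hHBP (AdjoinRoot p) (AdjoinRoot.root p) hroot hK3)

end Pool.Agent.Work.MP_403fb3_lin
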