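import Pool.Agent.Work.MP_403fb3_lin.Interface3

/-!
# Block TF (helper45): the labels of the derived series at the base point
-/

set_option autoImplicit false

namespace Pool.Agent.Work.MP_403fb3_lin

open Matrix Subgroup
open Pool.Agent.Work.MP_403fb3_al_helper9

namespace TF

theorem core {F D B : Type} [Group F] [Group B] (Φ : F →* Wr D B) (d0 : D) (m : ℕ)
    (hm : ∀ w ∈ derivedSeries F m, (Φ w).s = 1)
    (h1 : ∀ b : B, ∃ k : F, (Φ k).s d0 = d0 ∧ (Φ k).f d0 = b)
    (h2 : ∀ b : B, ∃ w ∈ derivedSeries F m, (Φ w).f d0 * b⁻¹ ∈ commutator B)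
    (hB : Group.IsSolvable B) (i : ℕ) (b : B) (hb : b ∈ derivedSeries B i) :
    ∃ w ∈ derivedSeries F (m + i), (Φ w).f d0 = b := by
  let e := evAt Φ (derivedSeries F m) hm d0
  have he : ∀ w : derivedSeries F m, e w = (Φ w).f d0 := fun w => rfl
  have hnormal : e.range.Normal := by
    refine ⟨fun n hn b => ?_⟩
    obtain ⟨w, rfl⟩ := hn
    obtain ⟨k, hk1, hk2⟩ := h1 b
    have hk3 : (Φ k).s⁻¹ d0 = d0 := by
      rw [Equiv.Perm.inv_eq_iff_eq]; exact hk1.symm
    refine ⟨⟨k * w * k⁻¹, Subgroup.Normal.conj_mem inferInstance _ w.2 k⟩, ?_⟩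
    rw [he, he]
    simp only [map_mul, map_inv, Wr.mul_f, Wr.inv_s, Wr.inv_f, hk3, hm w w.2, hk2,
      Equiv.Perm.coe_one, id_eq]
  have hsurj : Function.Surjective e := by
    rw [← MonoidHom.range_eq_top]
    apply normal_sup_commutator hB
    intro b
    obtain ⟨w, hw, hc⟩ := h2 b
    exact ⟨(Φ w).f d0, ⟨⟨w, hw⟩, rfl⟩, hc⟩
  have hmap := map_derivedSeries_eq hsurj i
  have hb' : b ∈ (derivedSeries (derivedSeries F m) i).map e := by rw [hmap]; exact hb
  obtain ⟨w, hw, hwb⟩ := hb'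
  exact ⟨w, map_le_derived m i (Subgroup.mem_map_of_mem _ hw), hwb⟩

variable {D : Type} {m : ℕ}

theorem gen (td : TopData D m) {B : Type} [Group B] (b1 b2 : B)
    (hgen : Function.Surjective (ev2 b1 b2)) (hB : Group.IsSolvable B) (i : ℕ) (x : B)
    (hx : x ∈ derivedSeries B i) :
    ∃ w ∈ derivedSeries F2 (m + i), (ev2 (td.T1 b1 b2) (td.T2 b1 b2) w).f td.d0 = x := by
  set Φ : F2 →* Wr D B := ev2 (td.T1 b1 b2) (td.T2 b1 b2) with hΦ
  have hs : ∀ w, (Φ w).s = ev2 td.a1 td.a2 w := by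
    intro w
    have := ev2_comp (Wr.toPerm (D := D) (B := B)) (td.T1 b1 b2) (td.T2 b1 b2) w
    change (Φ w).s = ev2 (td.T1 b1 b2).s (td.T2 b1 b2).s w at this
    rw [this, td.s1, td.s2]
  have hm : ∀ w ∈ derivedSeries F2 m, (Φ w).s = 1 := fun w hw => by rw [hs, td.hm w hw]
  refine core Φ td.d0 m hm ?_ ?_ hB i x hx
  · -- the holonomy group is everything
    intro b
    obtain ⟨w, rfl⟩ := hgen b
    let K : Subgroup F2 :=
      { carrier := {k | (Φ k).s td.d0 = td.d0}
        mul_mem' := by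
          intro a b ha hb
          change (Φ (a * b)).s td.d0 = td.d0
          rw [map_mul, Wr.mul_s, Equiv.Perm.mul_apply, hb, ha]
        one_mem' := by
          change (Φ 1).s td.d0 = td.d0
          rw [map_one]; rfl
        inv_mem' := by
          intro a ha
          change (Φ a⁻¹).s td.d0 = td.d0
          rw [map_inv, Wr.inv_s, Equiv.Perm.inv_eq_iff_eq]
          exact Eq.symm ha }
    let e : K →* B :=
      { toFun := fun k => (Φ k).f td.d0
        map_one' := by simp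
        map_mul' := by
          intro x y
          have hy : (Φ y).s td.d0 = td.d0 := y.2
          simp [hy] }
    have hk : ev2 b1 b2 w ∈ e.range := by
      have h1 : b1 ∈ e.range := ⟨⟨td.k1, (td.hk1 b1 b2).1⟩, (td.hk1 b1 b2).2⟩
      have h2 : b2 ∈ e.range := ⟨⟨td.k2, (td.hk2 b1 b2).1⟩, (td.hk2 b1 b2).2⟩
      have : ev2 b1 b2 = (e.range.subtype).comp (ev2 (⟨b1, h1⟩ : e.range) ⟨b2, h2⟩) := by
        apply FreeGroup.ext_hom
        intro i
        fin_cases i <;> simp [ev2]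
      rw [this]
      exact Subtype.prop _
    obtain ⟨k, hk⟩ := hk
    exact ⟨k, k.2, hk⟩
  · -- surjectivity modulo the commutator subgroup
    intro b
    let q : B →* Abelianization B := Abelianization.of
    have hq : ∀ w : F2, q ((Φ w).f td.d0) = zzHom (q b1) (q b2)
        ((ev2 (td.T1 (B := ZZ) (Multiplicative.ofAdd 1, 1) (1, Multiplicative.ofAdd 1))
          (td.T2 (Multiplicative.ofAdd 1, 1) (1, Multiplicative.ofAdd 1)) w).f td.d0) := by
      intro w
      have h1 := ev2_comp (Wr.map (D := D) q) (td.T1 b1 b2) (td.T2 b1 b2) w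
      have h2 := ev2_comp (Wr.map (D := D) (zzHom (q b1) (q b2)))
        (td.T1 (B := ZZ) (Multiplicative.ofAdd 1, 1) (1, Multiplicative.ofAdd 1))
          (td.T2 (Multiplicative.ofAdd 1, 1) (1, Multiplicative.ofAdd 1)) w
      rw [td.nat1, td.nat2] at h1 h2
      rw [zzHom_one, zzHom_two] at h2
      have h3 := h1.trans h2.symm
      exact congrFun (congrArg Wr.f h3) td.d0
    have hmem : ∀ w : F2, ∃ v ∈ derivedSeries F2 m, q ((Φ v).f td.d0) = q (ev2 b1 b2 w) := by
      have hcl : ∀ w : F2, ∃ v : derivedSeries F2 m,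
          (q.comp (evAt Φ (derivedSeries F2 m) hm td.d0)) v = q (ev2 b1 b2 w) := by
        intro w
        have h1 : q b1 ∈ (q.comp (evAt Φ (derivedSeries F2 m) hm td.d0)).range := by
          obtain ⟨w1, hw1, hz1⟩ := td.hz1
          refine ⟨⟨w1, hw1⟩, ?_⟩
          change q ((Φ w1).f td.d0) = q b1
          rw [hq, hz1, zzHom_one]
        have h2 : q b2 ∈ (q.comp (evAt Φ (derivedSeries F2 m) hm td.d0)).range := by
          obtain ⟨w2, hw2, hz2⟩ := td.hz2
          refine ⟨⟨w2, hw2⟩, ?_⟩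
          change q ((Φ w2).f td.d0) = q b2
          rw [hq, hz2, zzHom_two]
        set R := (q.comp (evAt Φ (derivedSeries F2 m) hm td.d0)).range with hR
        have h3 : q (ev2 b1 b2 w) ∈ R := by
          have : q (ev2 b1 b2 w) = ((R.subtype).comp (ev2 (⟨q b1, h1⟩ : R) ⟨q b2, h2⟩)) w := by
            rw [ev2_comp]
            rw [MonoidHom.comp_apply, ev2_comp]
            rfl
          rw [this]
          exact Subtype.prop _
        obtain ⟨v, hv⟩ := h3
        exact ⟨v, hv⟩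
      intro w
      obtain ⟨v, hv⟩ := hcl w
      exact ⟨v, v.2, hv⟩
    obtain ⟨w, rfl⟩ := hgen b
    obtain ⟨v, hv, hv2⟩ := hmem w
    refine ⟨v, hv, ?_⟩
    rw [← Abelianization.ker_of, MonoidHom.mem_ker, map_mul, map_inv]
    exact mul_inv_eq_one.mpr hv2

end TF

open TF in
theorem p_TF : S_TF := by
  intro D m td G _ b1 b2 j h i u hu
  obtain ⟨hn, -⟩ := h
  set R := (ev2 b1 b2).range with hR
  let c1 : R := ⟨b1, ⟨FreeGroup.of 0, by simp⟩⟩
  let c2 : R := ⟨b2, ⟨FreeGroup.of 1, by simp⟩⟩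
  have hsub : ∀ w, ((ev2 c1 c2 w : R) : G) = ev2 b1 b2 w := fun w =>
    ev2_comp R.subtype c1 c2 w
  have hsurj : Function.Surjective (ev2 c1 c2) := by
    rintro ⟨_, w, rfl⟩
    exact ⟨w, Subtype.ext (hsub w)⟩
  have hsol : derivedSeries R (j + 1) = ⊥ := by
    rw [← map_derivedSeries_eq hsurj (j + 1), eq_bot_iff]
    rintro _ ⟨w, hw, rfl⟩
    rw [Subgroup.mem_bot]
    apply Subtype.ext
    rw [hsub, hn w hw]
    rfl
  have hB : Group.IsSolvable R := (Group.isSolvable_def R).mpr ⟨_, hsol⟩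
  obtain ⟨w, hw, he⟩ := gen td c1 c2 hsurj hB i (ev2 c1 c2 u)
    (map_derivedSeries_le_derivedSeries _ i (Subgroup.mem_map_of_mem _ hu))
  refine ⟨w, hw, ?_⟩
  have h2 := ev2_comp (Wr.map (D := D) R.subtype) (td.T1 c1 c2) (td.T2 c1 c2) w
  rw [td.nat1, td.nat2] at h2
  have h3 := congrFun (congrArg Wr.f h2) td.d0
  rw [Wr.map_f, he] at h3
  rw [← hsub u]
  exact h3.symm

end Pool.Agent.Work.MP_403fb3_lin
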