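import Pool.Agent.Work.MP_403fb3_lin.Interface3

/-!
# Block TR: the two top groups are transitive
-/

set_option autoImplicit false

namespace Pool.Agent.Work.MP_403fb3_lin

open Matrix Subgroup
open Pool.Agent.Work.MP_403fb3_al_helper9

namespace TR

theorem four : ∀ i : Fin 4, (p1 ^ (i : ℕ)) 0 = i := by decide +kernel

theorem nine : ∀ i : Fin 9, i = 0 ∨ ∃ j : Fin 8, (q1 ^ (j : ℕ) * q2) 0 = i := by decide +kernel

end TR

theorem p_TR : S_TR := by
  refine ⟨fun i => ⟨x1 ^ (i : ℕ), ?_⟩, fun i => ?_⟩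
  · change ev2 p1 p2 (x1 ^ (i : ℕ)) 0 = i
    rw [map_pow, ev2_zero]
    exact TR.four i
  · rcases TR.nine i with h | ⟨j, hj⟩
    · refine ⟨1, ?_⟩
      change ev2 q1 q2 1 0 = i
      rw [map_one, h]
      rfl
    · refine ⟨x1 ^ (j : ℕ) * x2, ?_⟩
      change ev2 q1 q2 (x1 ^ (j : ℕ) * x2) 0 = i
      rw [map_mul, map_pow, ev2_zero, ev2_one]
      exact hj

end Pool.Agent.Work.MP_403fb3_lin
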