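import Pool.Agent.Work.MP_403fb3_lin.Interface4

/-!
# Block UN: norms and sums of squares in a finite field with involution
-/

set_option autoImplicit false

namespace Pool.Agent.Work.MP_403fb3_lin

namespace UN

open Polynomial in
/-- a binary quadratic form over a finite field of odd characteristic represents everything -/
theorem quad (K : Type) [Field K] [Finite K] (h2 : (2 : K) ≠ 0) (a c : K) (ha : a ≠ 0) :
    ∃ x y : K, x ^ 2 + a * y ^ 2 = c := by
  classical
  have := Fintype.ofFinite K
  have hch : ringChar K ≠ 2 := by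
    intro h
    apply h2
    have h3 := ringChar.Nat.cast_ringChar (R := K)
    rw [h] at h3
    exact_mod_cast h3
  have hodd := FiniteField.odd_card_of_char_ne_two hch
  obtain ⟨x, y, hxy⟩ := FiniteField.exists_root_sum_quadratic (f := (X ^ 2 - C c : K[X]))
    (g := (C a * X ^ 2 : K[X])) (degree_X_pow_sub_C (by norm_num) c)
    (by rw [degree_C_mul_X_pow 2 ha]; rfl) hodd
  refine ⟨x, y, ?_⟩
  simp only [eval_sub, eval_pow, eval_X, eval_C, eval_mul] at hxy
  linear_combination hxy

/-- the fixed subfield of the involution -/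
def F0 (F : Type) [Field F] [StarRing F] : Subfield F where
  carrier := {x | star x = x}
  mul_mem' := by
    intro a b ha hb
    show star (a * b) = a * b
    rw [star_mul, show star a = a from ha, show star b = b from hb, mul_comm]
  one_mem' := star_one F
  add_mem' := by
    intro a b ha hb
    show star (a + b) = a + b
    rw [star_add, show star a = a from ha, show star b = b from hb]
  zero_mem' := star_zero F
  neg_mem' := by
    intro a ha
    show star (-a) = -a
    rw [star_neg, show star a = a from ha]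
  inv_mem' := by
    intro a ha
    show star (a⁻¹) = a⁻¹
    rw [star_inv₀, show star a = a from ha]

end UN

/-- `UN` -/
theorem p_UN : S_UN := by
  intro F _ _ _ h2 ⟨t, ht⟩
  set s : F := t - star t with hs
  have hs0 : s ≠ 0 := sub_ne_zero.mpr (Ne.symm ht)
  have hss : star s = -s := by
    rw [hs, star_sub, star_star]
    ring
  have hs2 : star (s ^ 2) = s ^ 2 := by
    rw [star_pow, hss]
    ring
  let K := UN.F0 F
  have hc2 : ((2 : K) : F) = 2 := rfl
  have hK2 : (2 : K) ≠ 0 := by
    intro h
    apply h2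
    have h3 := congrArg (Subtype.val : K → F) h
    exact h3
  let S : K := ⟨s ^ 2, hs2⟩
  have hcS : ((S : K) : F) = s ^ 2 := rfl
  have hS : S ≠ 0 := by
    intro h
    have := congrArg (Subtype.val : K → F) h
    exact pow_ne_zero 2 hs0 this
  have hmem : ∀ x : K, star (x : F) = x := fun x => x.2
  constructor
  · obtain ⟨x, y, hxy⟩ := UN.quad K hK2 (-S) (2⁻¹) (neg_ne_zero.mpr hS)
    have h := congrArg (Subtype.val : K → F) hxy
    have h' : (x : F) ^ 2 + -(s ^ 2) * (y : F) ^ 2 = 2⁻¹ := by
      simpa [hc2, hcS] using h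
    refine ⟨x + s * y, ?_⟩
    rw [star_add, star_mul, hmem x, hmem y, hss]
    have h3 : (x + s * y : F) * (x + (y : F) * -s) * 2 =
      ((x : F) ^ 2 + -(s ^ 2) * (y : F) ^ 2) * 2 := by ring
    rw [h3, h', inv_mul_cancel₀ h2]
  · obtain ⟨x, y, hxy⟩ := UN.quad K hK2 1 (-S⁻¹) one_ne_zero
    have h := congrArg (Subtype.val : K → F) hxy
    have h' : (x : F) ^ 2 + (y : F) ^ 2 = -(s ^ 2)⁻¹ := by
      simpa using h
    refine ⟨s * x, s * y, ?_, ?_, ?_⟩
    · rw [star_mul, hmem x, hss]
      ring
    · rw [star_mul, hmem y, hss]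
      ring
    · have h3 : (s * (x : F)) ^ 2 + (s * (y : F)) ^ 2 = s ^ 2 * ((x : F) ^ 2 + (y : F) ^ 2) := by
        ring
      rw [h3, h', mul_neg, mul_inv_cancel₀ (pow_ne_zero 2 hs0)]

end Pool.Agent.Work.MP_403fb3_lin
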