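import Pool.Agent.Work.MP_403fb3_lin.Interface4
import Pool.Agent.Work.MP_403fb3_lin.QU

/-!
# Two generators of derived length 4 in the unitary group of dimension 2 (block UQ)
-/

set_option autoImplicit false

namespace Pool.Agent.Work.MP_403fb3_lin

open Matrix Subgroup
open Pool.Agent.Work.MP_403fb3_al_helper9

namespace UQ

variable {F : Type} [Field F]

theorem H_smul {u v : F} {a a' : GL (Fin 2) F} {σ : Equiv.Perm (Fin 6)} {τ : Equiv.Perm (Fin 3)}
    (h : (a, σ, τ) ∈ QU.H u v) (c : F)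
    (ha : (a' : Matrix (Fin 2) (Fin 2) F) = c • (a : Matrix (Fin 2) (Fin 2) F)) :
    (a', σ, τ) ∈ QU.H u v := by
  obtain ⟨h1, h2⟩ := h
  refine ⟨fun j => ?_, h2⟩
  have h3 : (a : Matrix (Fin 2) (Fin 2) F) * QU.Y u v j = QU.Y u v (σ j) * a := h1 j
  change (a' : Matrix (Fin 2) (Fin 2) F) * QU.Y u v j = QU.Y u v (σ j) * a'
  rw [ha, Matrix.smul_mul, Matrix.mul_smul, h3]

theorem A_unitary [StarRing F] {u v : F} (h2 : (2 : F) ≠ 0) (hu : star u = -u) (hv : star v = -v)
    (huv : u ^ 2 + v ^ 2 = -1) :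
    ((1 / 2 : F) • !![1 + u - v, -1 + v + u; 1 + v + u, 1 - u + v]) ∈ unitaryGroup (Fin 2) F := by
  rw [mem_unitaryGroup_iff]
  have hs : star (1 / 2 : F) = 1 / 2 := by
    have h3 : star (2 : F) = 2 := star_ofNat 2
    rw [one_div, star_inv₀, h3]
  have h4 : (1 / 2 : F) * 2 = 1 := by
    rw [one_div, inv_mul_cancel₀ h2]
  generalize (1 / 2 : F) = c at *
  have h5 : c * c * 4 = 1 := by linear_combination (c * 2 + 1) * h4
  ext i j
  fin_cases i <;> fin_cases j
  · simp [Matrix.mul_apply, Fin.sum_univ_two, Matrix.star_apply, hs, hu, hv]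
    linear_combination h5 - 2 * c * c * huv
  · simp [Matrix.mul_apply, Fin.sum_univ_two, Matrix.star_apply, hs, hu, hv]
    ring
  · simp [Matrix.mul_apply, Fin.sum_univ_two, Matrix.star_apply, hs, hu, hv]
    ring
  · simp [Matrix.mul_apply, Fin.sum_univ_two, Matrix.star_apply, hs, hu, hv]
    linear_combination h5 - 2 * c * c * huv

theorem B_unitary [StarRing F] {l : F} (hl : l * star l * 2 = 1) :
    (l • !![(1 : F), -1; 1, 1]) ∈ unitaryGroup (Fin 2) F := by
  rw [mem_unitaryGroup_iff]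
  ext i j
  fin_cases i <;> fin_cases j
  · simp [Matrix.mul_apply, Fin.sum_univ_two, Matrix.star_apply]
    linear_combination hl
  · simp [Matrix.mul_apply, Fin.sum_univ_two, Matrix.star_apply]
  · simp [Matrix.mul_apply, Fin.sum_univ_two, Matrix.star_apply]
  · simp [Matrix.mul_apply, Fin.sum_univ_two, Matrix.star_apply]
    linear_combination hl

end UQ

theorem p_UQ : S_UQ := by
  intro F _ _ h2 hl huv
  obtain ⟨l, hl⟩ := hl
  obtain ⟨u, v, hu, hv, huv⟩ := huv
  have hda : (!![1 + u - v, -1 + v + u; 1 + v + u, 1 - u + v] : Matrix (Fin 2) (Fin 2) F).det ≠ 0 := by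
    rw [Matrix.det_fin_two_of]
    have h4 : (1 + u - v) * (1 - u + v) - (-1 + v + u) * (1 + v + u) = 2 * 2 := by
      linear_combination (-2 : F) * huv
    rw [h4]
    exact mul_ne_zero h2 h2
  have hdb : (!![1, -1; 1, 1] : Matrix (Fin 2) (Fin 2) F).det ≠ 0 := by
    rw [Matrix.det_fin_two_of]
    have h4 : (1 : F) * 1 - (-1) * 1 = 2 := by ring
    rw [h4]
    exact h2
  let A : ↥(unitaryGroup (Fin 2) F) := ⟨_, UQ.A_unitary h2 hu hv huv⟩
  let B : ↥(unitaryGroup (Fin 2) F) := ⟨_, UQ.B_unitary hl⟩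
  let φ : ↥(unitaryGroup (Fin 2) F) →* GL (Fin 2) F := Unitary.toUnits
  have hφ : Function.Injective φ := Unitary.toUnits_injective
  have hA : (φ A, QU.r1, QU.q1) ∈ QU.H u v :=
    UQ.H_smul (a := Matrix.GeneralLinearGroup.mkOfDetNeZero _ hda) (QU.mem_a huv rfl) (1 / 2) rfl
  have hB : (φ B, QU.r2, QU.q2) ∈ QU.H u v :=
    UQ.H_smul (a := Matrix.GeneralLinearGroup.mkOfDetNeZero _ hdb) (QU.mem_b rfl) l rfl
  obtain ⟨hn, w, hw, hne⟩ := QU.core h2 huv hA hB
  refine ⟨A, B, fun w hw => ?_, w, hw, fun h => hne ?_⟩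
  · apply hφ
    rw [ev2_comp, hn w hw, map_one]
  · rw [← ev2_comp, h, map_one]

end Pool.Agent.Work.MP_403fb3_lin
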