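import Pool.Agent.Work.MP_403fb3_lin.Interface8
import Pool.Agent.Work.MP_403fb3_lin.UQ
import Pool.Agent.Work.MP_403fb3_lin.QG
import Pool.Agent.Work.MP_403fb3_lin.UN

/-!
# Block UB2 (helper45): the base pair of unitary matrices in dimension two
-/

set_option autoImplicit false

namespace Pool.Agent.Work.MP_403fb3_lin

open Matrix Subgroup
open Pool.Agent.Work.MP_403fb3_al_helper9

theorem p_UB2 : S_UB2 := by
  intro F _ _ _ h2 ht
  obtain ⟨⟨l, hl⟩, u, v, hu, hv, huv⟩ := p_UN F h2 ht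
  have hda : (!![1 + u - v, -1 + v + u; 1 + v + u, 1 - u + v] : Matrix (Fin 2) (Fin 2) F).det ≠ 0 := by
    rw [Matrix.det_fin_two_of]
    have h4 : (1 + u - v) * (1 - u + v) - (-1 + v + u) * (1 + v + u) = 2 * 2 := by
      linear_combination (-2 : F) * huv
    rw [h4]
    exact mul_ne_zero h2 h2
  have hdb : (!![1, -1; 1, 1] : Matrix (Fin 2) (Fin 2) F).det ≠ 0 := by
    rw [Matrix.det_fin_two_of]
    have h4 : (1 : F) * 1 - (-1) * 1 = 2 := by ring
    rw [h4]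
    exact h2
  let A : ↥(unitaryGroup (Fin 2) F) := ⟨_, UQ.A_unitary h2 hu hv huv⟩
  let B : ↥(unitaryGroup (Fin 2) F) := ⟨_, UQ.B_unitary hl⟩
  let φ : ↥(unitaryGroup (Fin 2) F) →* GL (Fin 2) F := Unitary.toUnits
  have hA : (φ A, QU.r1, QU.q1) ∈ QU.H u v :=
    UQ.H_smul (a := Matrix.GeneralLinearGroup.mkOfDetNeZero _ hda) (QU.mem_a huv rfl) (1 / 2) rfl
  have hB : (φ B, QU.r2, QU.q2) ∈ QU.H u v :=
    UQ.H_smul (a := Matrix.GeneralLinearGroup.mkOfDetNeZero _ hdb) (QU.mem_b rfl) l rfl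
  have hUA : IsU (φ A) := mem_unitaryGroup_iff.1 (UQ.A_unitary h2 hu hv huv)
  have hUB : IsU (φ B) := mem_unitaryGroup_iff.1 (UQ.B_unitary hl)
  obtain ⟨x, hx⟩ : ∃ x : GL (Fin 2) F, x = φ A := ⟨_, rfl⟩
  obtain ⟨y, hy⟩ : ∃ y : GL (Fin 2) F, y = φ B := ⟨_, rfl⟩
  rw [← hx] at hA hUA
  rw [← hy] at hB hUB
  have hG := QU.core h2 huv hA hB
  refine ⟨x, y, hUA, hUB, hG, ?_, ?_⟩
  · intro w hw
    have h3 := QG.scalar h2 huv (QG.D3_mem hA hB w hw)
    have h4 := QG.det_one x y hw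
    apply Units.ext
    rw [pow_two, Units.val_mul, Units.val_one]
    rw [h3] at h4 ⊢
    rw [Matrix.det_smul, Matrix.det_one, mul_one, Fintype.card_fin] at h4
    rw [Matrix.smul_mul, Matrix.one_mul, smul_smul, ← pow_two, h4, one_smul]
  · intro z hz
    obtain ⟨-, w, hw, hw1⟩ := hG
    have h3 := QG.scalar h2 huv (QG.D3_mem hA hB w hw)
    have h4 := hz w hw
    rw [h3, Matrix.smul_mulVec, Matrix.one_mulVec] at h4
    by_contra h5
    apply hw1
    apply Units.ext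
    rw [Units.val_one, h3]
    obtain ⟨i, hi⟩ := Function.ne_iff.1 h5
    have h6 := congrFun h4 i
    rw [Pi.smul_apply, smul_eq_mul] at h6
    have h7 : (ev2 x y w : Matrix (Fin 2) (Fin 2) F) 0 0 = 1 :=
      mul_right_cancel₀ hi (by rw [h6, one_mul])
    rw [h7, one_smul]

end Pool.Agent.Work.MP_403fb3_lin
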