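import Pool.Agent.Work.MP_403fb3_lin.UB8c
import Pool.Agent.Work.MP_403fb3_lin.UN
import Pool.Agent.Work.MP_403fb3_lin.B8U
import Pool.Agent.Work.MP_403fb3_lin.B8W

/-!
# Block UB8 without hypotheses
-/

set_option autoImplicit false

namespace Pool.Agent.Work.MP_403fb3_lin

theorem p_UB8 : S_UB8 := p_UB8' p_UN p_B8U p_B8W

end Pool.Agent.Work.MP_403fb3_lin
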