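import Pool.Agent.Work.MP_403fb3_lin.Interface8

/-!
# Block UMT: two more steps in the special unitary group
-/

set_option autoImplicit false

namespace Pool.Agent.Work.MP_403fb3_lin

open Matrix Subgroup
open Pool.Agent.Work.MP_403fb3_al_helper9
open scoped commutatorElement

namespace UMT

variable {F : Type} [Field F] [StarRing F] {n : ℕ}

theorem vmv0 {a b : Type} (w : a → F) : vecMulVec w (0 : b → F) = 0 := by
  ext i j
  rw [vecMulVec_apply, Pi.zero_apply, mul_zero, Matrix.zero_apply]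

/-- isotropic vector -/
def ee (l : F) : Fin 2 → F := ![1, l]

/-- isotropic vector -/
def ff (l : F) : Fin 2 → F := ![2⁻¹, -(2⁻¹ * l)]

theorem star_half : star (2⁻¹ : F) = 2⁻¹ := by
  rw [star_inv₀, star_ofNat]

theorem es_e {l : F} (hl : l * star l = -1) : star (ee l) ⬝ᵥ ee l = 0 := by
  simp only [dotProduct, Fin.sum_univ_two, Pi.star_apply, ee, Matrix.cons_val_zero,
    Matrix.cons_val_one, star_one, mul_one]
  linear_combination hl

theorem es_f {l : F} (h2 : (2 : F) ≠ 0) (hl : l * star l = -1) : star (ee l) ⬝ᵥ ff l = 1 := by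
  simp only [dotProduct, Fin.sum_univ_two, Pi.star_apply, ee, ff, Matrix.cons_val_zero,
    Matrix.cons_val_one, star_one, one_mul]
  have h3 : (2⁻¹ : F) * 2 = 1 := inv_mul_cancel₀ h2
  linear_combination -(2⁻¹ : F) * hl + h3

theorem fs_e {l : F} (h2 : (2 : F) ≠ 0) (hl : l * star l = -1) : star (ff l) ⬝ᵥ ee l = 1 := by
  simp only [dotProduct, Fin.sum_univ_two, Pi.star_apply, ee, ff, Matrix.cons_val_zero,
    Matrix.cons_val_one, star_neg, star_mul, star_half, mul_one]
  have h3 : (2⁻¹ : F) * 2 = 1 := inv_mul_cancel₀ h2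
  linear_combination -(2⁻¹ : F) * hl + h3

theorem fs_f {l : F} (hl : l * star l = -1) : star (ff l) ⬝ᵥ ff l = 0 := by
  simp only [dotProduct, Fin.sum_univ_two, Pi.star_apply, ff, Matrix.cons_val_zero,
    Matrix.cons_val_one, star_neg, star_mul, star_half]
  linear_combination (2⁻¹ : F) ^ 2 * hl

theorem PQ {l : F} (h2 : (2 : F) ≠ 0) (hl : l * star l = -1) :
    vecMulVec (ee l) (star (ff l)) + vecMulVec (ff l) (star (ee l)) = 1 := by
  have h3 : (2⁻¹ : F) * 2 = 1 := inv_mul_cancel₀ h2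
  ext i j
  fin_cases i <;> fin_cases j <;>
    simp only [Matrix.add_apply, vecMulVec_apply, Pi.star_apply, ee, ff, Fin.zero_eta, Fin.mk_one,
      Matrix.cons_val_zero, Matrix.cons_val_one, star_neg, star_mul, star_half, star_one,
      Matrix.one_apply, mul_one, one_mul]
  · simp only [if_true]
    linear_combination h3
  · simp only [Fin.isValue, zero_ne_one, if_false]
    ring
  · simp only [Fin.isValue, one_ne_zero, if_false]
    ring
  · simp only [if_true]
    linear_combination -2 * (2⁻¹ : F) * hl + h3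

/-- the matrices -/
def M (l χ κ : F) (g : Matrix (Fin n) (Fin n) F) (v r : Fin n → F) (z : F) :
    Matrix (Fin n ⊕ Fin 2) (Fin n ⊕ Fin 2) F :=
  fromBlocks g (vecMulVec v (star (ee l))) (vecMulVec (ee l) r)
    (χ • vecMulVec (ee l) (star (ff l)) + κ • vecMulVec (ff l) (star (ee l)) +
      z • vecMulVec (ee l) (star (ee l)))

theorem M_mul {l : F} (h2 : (2 : F) ≠ 0) (hl : l * star l = -1) (χ κ χ' κ' : F)
    (g g' : Matrix (Fin n) (Fin n) F) (v r v' r' : Fin n → F) (z z' : F) :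
    M l χ κ g v r z * M l χ' κ' g' v' r' z' =
      M l (χ * χ') (κ * κ') (g * g') (g *ᵥ v' + κ' • v) (r ᵥ* g' + χ • r')
        (r ⬝ᵥ v' + χ * z' + κ' * z) := by
  have e1 := es_e hl
  have e2 := es_f h2 hl
  have e3 := fs_e h2 hl
  have e4 := fs_f hl
  unfold M
  rw [fromBlocks_multiply]
  congr 1
  · rw [vecMulVec_mul_vecMulVec, e1, zero_smul, vmv0, add_zero]
  · rw [mul_vecMulVec, Matrix.mul_add, Matrix.mul_add, Matrix.mul_smul, Matrix.mul_smul,
      Matrix.mul_smul, vecMulVec_mul_vecMulVec, vecMulVec_mul_vecMulVec, vecMulVec_mul_vecMulVec,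
      e1, e2, zero_smul, zero_smul, one_smul, vmv0, smul_zero, smul_zero,
      zero_add, add_zero, add_vecMulVec, smul_vecMulVec]
  · rw [vecMulVec_mul, Matrix.add_mul, Matrix.add_mul, Matrix.smul_mul, Matrix.smul_mul,
      Matrix.smul_mul, vecMulVec_mul_vecMulVec, vecMulVec_mul_vecMulVec, vecMulVec_mul_vecMulVec,
      e1, e3, zero_smul, one_smul, vmv0, vmv0, smul_zero, smul_zero,
      add_zero, add_zero, vecMulVec_add, vecMulVec_smul]
  · simp only [Matrix.add_mul, Matrix.mul_add, Matrix.smul_mul, Matrix.mul_smul,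
      vecMulVec_mul_vecMulVec, e1, e2, e3, e4, zero_smul, one_smul, vmv0, smul_zero,
      zero_add, add_zero, vecMulVec_smul, smul_smul, add_smul, smul_add]
    simp only [mul_comm χ' χ, mul_comm κ' κ, mul_comm z' χ, mul_comm κ' z]
    abel

theorem M_one {l : F} (h2 : (2 : F) ≠ 0) (hl : l * star l = -1) :
    M l 1 1 (1 : Matrix (Fin n) (Fin n) F) 0 0 0 = 1 := by
  unfold M
  rw [zero_vecMulVec, vmv0, one_smul, one_smul, zero_smul, add_zero, PQ h2 hl,
    fromBlocks_one]

theorem M_star (l χ κ : F) (g : Matrix (Fin n) (Fin n) F) (v r : Fin n → F) (z : F) :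
    star (M l χ κ g v r z) = M l (star κ) (star χ) (star g) (star r) (star v) (star z) := by
  unfold M
  rw [star_eq_conjTranspose, fromBlocks_conjTranspose]
  simp only [conjTranspose_add, conjTranspose_smul, conjTranspose_vecMulVec, star_star,
    star_eq_conjTranspose]
  congr 1
  abel

theorem det2 {l : F} (h2 : (2 : F) ≠ 0) (hl : l * star l = -1) (χ κ z : F) :
    (χ • vecMulVec (ee l) (star (ff l)) + κ • vecMulVec (ff l) (star (ee l)) +
      z • vecMulVec (ee l) (star (ee l))).det = χ * κ := by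
  have h3 : (2⁻¹ : F) * 2 = 1 := inv_mul_cancel₀ h2
  obtain ⟨m, hm⟩ : ∃ m : F, m = star l := ⟨_, rfl⟩
  rw [← hm] at hl
  rw [det_fin_two]
  simp only [Matrix.add_apply, Matrix.smul_apply, vecMulVec_apply, Pi.star_apply, ee, ff,
    Matrix.cons_val_zero, Matrix.cons_val_one, star_neg, star_mul, star_half, star_one,
    mul_one, one_mul, smul_eq_mul, ← hm]
  generalize (2⁻¹ : F) = t at h3 ⊢
  have h4 : 2 * t = 1 := by rw [mul_comm]; exact h3
  have h5 : 4 * t ^ 2 = 1 := by
    have : (2 * t) ^ 2 = 1 := by rw [h4, one_pow]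
    linear_combination this
  linear_combination (-(4 * t ^ 2) * χ * κ) * hl + (χ * κ) * h5

theorem M_det {l : F} (h2 : (2 : F) ≠ 0) (hl : l * star l = -1) (χ κ : F)
    (g : Matrix (Fin n) (Fin n) F) (hg : g.det ≠ 0) (v r : Fin n → F) (z : F) :
    (M l χ κ g v r z).det = g.det * (χ * κ) := by
  letI : Invertible g := g.invertibleOfIsUnitDet (isUnit_iff_ne_zero.2 hg)
  unfold M
  rw [det_fromBlocks₁₁, vecMulVec_mul, vecMulVec_mul_vecMulVec, vecMulVec_smul, add_sub_assoc,
    ← sub_smul, det2 h2 hl]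

theorem M_inj {l χ κ : F} {g : Matrix (Fin n) (Fin n) F} {v r : Fin n → F} {z z' : F}
    (h : M l χ κ g v r z = M l χ κ g v r z') : z = z' := by
  have h1 := congrArg (fun m : Matrix (Fin n ⊕ Fin 2) (Fin n ⊕ Fin 2) F =>
    m (Sum.inr 0) (Sum.inr 0)) h
  simp only [M, fromBlocks_apply₂₂, Matrix.add_apply, Matrix.smul_apply, vecMulVec_apply,
    Pi.star_apply, ee, Matrix.cons_val_zero, star_one, mul_one, smul_eq_mul] at h1
  exact add_left_cancel h1

variable (l : F) (x y : GL (Fin n) F) (χ : F2 →* F) (δ : F2 → (Fin n → F))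

/-- the matrix of a word -/
abbrev gm (w : F2) : Matrix (Fin n) (Fin n) F := (ev2 x y w : Matrix (Fin n) (Fin n) F)

theorem gm_mul (w w' : F2) : gm x y (w * w') = gm x y w * gm x y w' := by
  rw [gm, map_mul, Units.val_mul]

theorem gm_one : gm x y 1 = 1 := by
  rw [gm, map_one, Units.val_one]

/-- the matrices of the words in the unitary group -/
def Mw (w : F2) (z : F) : Matrix (Fin n ⊕ Fin 2) (Fin n ⊕ Fin 2) F :=
  M l (χ w) (star (χ w))⁻¹ (gm x y w) ((star (χ w))⁻¹ • δ w) (-(star (δ w) ᵥ* gm x y w)) z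

variable {l x y χ δ}

section

variable (h2 : (2 : F) ≠ 0) (hl : l * star l = -1)
  (hδ : ∀ g h : F2, δ (g * h) = δ g + (star (χ g) • gm x y g) *ᵥ δ h)
  (hu : ∀ g : F2, star (gm x y g) * gm x y g = 1) (hχ : ∀ g : F2, χ g ≠ 0)

include hδ hχ in
theorem δ_one : δ 1 = 0 := by
  have h := hδ 1 1
  rw [mul_one, gm_one, map_one, star_one, one_smul, one_mulVec] at h
  have h2 : δ 1 + 0 = δ 1 + δ 1 := by rw [add_zero]; exact h
  exact (add_left_cancel h2).symm

include h2 hl hδ hu hχ in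
theorem Mw_mul (w w' : F2) (z z' : F) : Mw l x y χ δ w z * Mw l x y χ δ w' z' =
    Mw l x y χ δ (w * w') (-(star (δ w) ᵥ* gm x y w) ⬝ᵥ ((star (χ w'))⁻¹ • δ w') + χ w * z' +
      (star (χ w'))⁻¹ * z) := by
  have hs : star (χ w) ≠ 0 := star_ne_zero.2 (hχ w)
  unfold Mw
  rw [M_mul h2 hl]
  congr 1
  · rw [map_mul]
  · rw [map_mul, star_mul', mul_inv]
  · rw [gm_mul]
  · rw [hδ w w', map_mul, star_mul', mul_inv, smul_add, smul_mulVec, mulVec_smul,
      smul_smul, smul_smul]
    have e1 : (star (χ w))⁻¹ * (star (χ w'))⁻¹ * star (χ w) = (star (χ w'))⁻¹ := by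
      field_simp
    rw [e1, mul_comm (star (χ w))⁻¹, add_comm]
  · rw [hδ w w', gm_mul, star_add, star_mulVec, conjTranspose_smul, star_star, neg_vecMul,
      add_vecMul, vecMul_smul, smul_vecMul, neg_add, smul_neg]
    congr 1
    · rw [vecMul_vecMul]
    · rw [vecMul_vecMul, ← Matrix.mul_assoc, ← star_eq_conjTranspose, hu w, Matrix.one_mul]

include h2 hl hδ hχ in
theorem Mw_one : Mw l x y χ δ 1 0 = 1 := by
  unfold Mw
  rw [δ_one hδ hχ, gm_one, map_one, star_one, inv_one, smul_zero, star_zero, zero_vecMul, neg_zero]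
  exact M_one h2 hl

include h2 hl hδ hu hχ in
theorem rep (X Y : ↥(specialUnitaryGroup (Fin n ⊕ Fin 2) F))
    (hX : ∃ z, X.1 = Mw l x y χ δ (FreeGroup.of 0) z)
    (hY : ∃ z, Y.1 = Mw l x y χ δ (FreeGroup.of 1) z) (w : F2) :
    ∃ z, (ev2 X Y w).1 = Mw l x y χ δ w z := by
  induction w using FreeGroup.induction_on with
  | C1 => exact ⟨0, by rw [map_one, Mw_one h2 hl hδ hχ]; rfl⟩
  | of i =>
    fin_cases i
    · obtain ⟨z, hz⟩ := hX
      exact ⟨z, (congrArg Subtype.val (ev2_zero X Y)).trans hz⟩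
    · obtain ⟨z, hz⟩ := hY
      exact ⟨z, (congrArg Subtype.val (ev2_one X Y)).trans hz⟩
  | inv_of i ih =>
    obtain ⟨z, hz⟩ := ih
    obtain ⟨w, hw⟩ : ∃ w, w = FreeGroup.of i := ⟨_, rfl⟩
    rw [← hw] at hz ⊢
    refine ⟨-((χ w)⁻¹ * (-(star (δ w) ᵥ* gm x y w) ⬝ᵥ ((star (χ w⁻¹))⁻¹ • δ w⁻¹) +
      (star (χ w⁻¹))⁻¹ * z)), ?_⟩
    have h3 : Mw l x y χ δ w z * Mw l x y χ δ w⁻¹
        (-((χ w)⁻¹ * (-(star (δ w) ᵥ* gm x y w) ⬝ᵥ ((star (χ w⁻¹))⁻¹ • δ w⁻¹) +
          (star (χ w⁻¹))⁻¹ * z))) = 1 := by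
      rw [Mw_mul h2 hl hδ hu hχ, mul_inv_cancel, ← Mw_one h2 hl hδ hχ]
      congr 1
      rw [mul_neg, ← mul_assoc, mul_inv_cancel₀ (hχ w), one_mul]
      ring
    rw [← hz] at h3
    have h4 : (ev2 X Y w⁻¹).1 * (ev2 X Y w).1 = 1 := by
      have h5 := congrArg Subtype.val (map_mul (ev2 X Y) w⁻¹ w)
      rw [inv_mul_cancel, map_one] at h5
      exact h5.symm
    have h6 := congrArg (fun m => (ev2 X Y w⁻¹).1 * m) h3
    simp only [mul_one] at h6
    rw [← mul_assoc, h4, one_mul] at h6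
    exact h6.symm
  | mul a b iha ihb =>
    obtain ⟨z, hz⟩ := iha
    obtain ⟨z', hz'⟩ := ihb
    refine ⟨-(star (δ a) ᵥ* gm x y a) ⬝ᵥ ((star (χ b))⁻¹ • δ b) + χ a * z' +
      (star (χ b))⁻¹ * z, ?_⟩
    rw [map_mul]
    show (ev2 X Y a).1 * (ev2 X Y b).1 = _
    rw [hz, hz', Mw_mul h2 hl hδ hu hχ]

include h2 hl hχ hu in
theorem mem_SU (hdet : ∀ w, star (χ w) = χ w * (gm x y w).det) (w : F2) :
    ∃ X : ↥(specialUnitaryGroup (Fin n ⊕ Fin 2) F), ∃ z, X.1 = Mw l x y χ δ w z := by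
  have hs : star (χ w) ≠ 0 := star_ne_zero.2 (hχ w)
  have hgs : gm x y w * star (gm x y w) = 1 := mul_eq_one_comm.1 (hu w)
  have hdg : (gm x y w).det ≠ 0 := by
    intro h
    rw [hdet, h, mul_zero] at hs
    exact hs rfl
  refine ⟨⟨Mw l x y χ δ w (-((star (χ w))⁻¹ * (star (δ w) ⬝ᵥ δ w) * 2⁻¹)), ?_⟩, _, rfl⟩
  rw [mem_specialUnitaryGroup_iff, mem_unitaryGroup_iff]
  constructor
  · unfold Mw
    rw [M_star, M_mul h2 hl, ← M_one h2 hl]
    have hκ : star ((star (χ w))⁻¹) = (χ w)⁻¹ := by rw [star_inv₀, star_star]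
    have hsr : star (-(star (δ w) ᵥ* gm x y w)) = -(star (gm x y w) *ᵥ δ w) := by
      rw [star_neg, star_vecMul, star_star, star_eq_conjTranspose]
    have hq : star (star (δ w) ⬝ᵥ δ w) = star (δ w) ⬝ᵥ δ w := (star_dotProduct (δ w) (δ w)).symm
    congr 1
    · rw [hκ, mul_inv_cancel₀ (hχ w)]
    · rw [inv_mul_cancel₀ hs]
    · rw [hsr, mulVec_neg, mulVec_mulVec, hgs, one_mulVec, smul_smul, mul_inv_cancel₀ hs, one_smul,
        neg_add_cancel]
    · rw [neg_vecMul, vecMul_vecMul, hgs, vecMul_one, star_smul, hκ, smul_smul,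
        mul_inv_cancel₀ (hχ w), one_smul, neg_add_cancel]
    · rw [hsr, neg_dotProduct_neg, ← dotProduct_mulVec, mulVec_mulVec, hgs, one_mulVec, star_neg,
        star_mul', star_mul', hκ, hq, star_half]
      have e1 : (χ w) * -((χ w)⁻¹ * (star (δ w) ⬝ᵥ δ w) * 2⁻¹) = -((star (δ w) ⬝ᵥ δ w) * 2⁻¹) := by
        have := hχ w
        field_simp
      have e2 : star (χ w) * -((star (χ w))⁻¹ * (star (δ w) ⬝ᵥ δ w) * 2⁻¹) =
          -((star (δ w) ⬝ᵥ δ w) * 2⁻¹) := by
        field_simp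
      rw [e1, e2]
      have h3 : (2⁻¹ : F) * 2 = 1 := inv_mul_cancel₀ h2
      linear_combination -(star (δ w) ⬝ᵥ δ w) * h3
  · unfold Mw
    rw [M_det h2 hl _ _ _ hdg]
    have e1 : (gm x y w).det * (χ w * (star (χ w))⁻¹) = (χ w * (gm x y w).det) * (star (χ w))⁻¹ := by
      ring
    rw [e1, ← hdet, mul_inv_cancel₀ hs]

end

theorem unit_all {x y : GL (Fin n) F} (hx : IsU x) (hy : IsU y) (w : F2) :
    gm x y w * star (gm x y w) = 1 := by
  have ex : gm x y (FreeGroup.of 0) = (x : Matrix (Fin n) (Fin n) F) :=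
    congrArg Units.val (ev2_zero x y)
  have ey : gm x y (FreeGroup.of 1) = (y : Matrix (Fin n) (Fin n) F) :=
    congrArg Units.val (ev2_one x y)
  induction w using FreeGroup.induction_on with
  | C1 => rw [gm_one, star_one, mul_one]
  | of i =>
    fin_cases i
    · unfold IsU at hx
      rw [← ex] at hx
      exact hx
    · unfold IsU at hy
      rw [← ey] at hy
      exact hy
  | inv_of i ih =>
    obtain ⟨w, hw⟩ : ∃ w, w = FreeGroup.of i := ⟨_, rfl⟩
    rw [← hw] at ih ⊢
    have h1 : gm x y w⁻¹ * gm x y w = 1 := by rw [← gm_mul, inv_mul_cancel, gm_one]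
    have h3 : gm x y w⁻¹ = star (gm x y w) := by
      calc gm x y w⁻¹ = gm x y w⁻¹ * (gm x y w * star (gm x y w)) := by rw [ih, mul_one]
        _ = star (gm x y w) := by rw [← mul_assoc, h1, one_mul]
    rw [h3, star_star]
    exact mul_eq_one_comm.1 ih
  | mul a b iha ihb =>
    rw [gm_mul, star_mul, mul_assoc, ← mul_assoc (gm x y b), ihb, one_mul, iha]

end UMT

open UMT in
theorem p_UMT (hUIS : S_UIS) (hH90 : S_H90) : S_UMT := by
  intro F _ _ _ n k d h2 ht hn hk hkF hd ⟨x, y, hxU, hyU, hGG, hexp, hfix⟩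
  obtain ⟨hN1, l, hl⟩ := hH90 F h2 ht
  have hdU : ∀ g : GL (Fin n) F, IsU g → (g : Matrix (Fin n) (Fin n) F).det *
      star ((g : Matrix (Fin n) (Fin n) F).det) = 1 := by
    intro g hg
    have h := congrArg Matrix.det hg
    rwa [det_mul, star_eq_conjTranspose, det_conjTranspose, det_one] at h
  obtain ⟨ax, hax0, hax⟩ := hN1 _ (hdU x hxU)
  obtain ⟨ay, hay0, hay⟩ := hN1 _ (hdU y hyU)
  obtain ⟨χu, hχ0, hχ1⟩ : ∃ χu : F2 →* Fˣ, χu (FreeGroup.of 0) = Units.mk0 ax hax0 ∧
      χu (FreeGroup.of 1) = Units.mk0 ay hay0 :=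
    ⟨ev2 (Units.mk0 ax hax0) (Units.mk0 ay hay0), ev2_zero _ _, ev2_one _ _⟩
  obtain ⟨χ, hχv⟩ : ∃ χ : F2 →* F, ∀ w, χ w = (χu w : F) :=
    ⟨(Units.coeHom F).comp χu, fun w => rfl⟩
  have hχ : ∀ g, χ g ≠ 0 := fun g => by
    rw [hχv]
    exact (χu g).ne_zero
  have hdet : ∀ w, star (χ w) = χ w * (gm x y w).det := by
    have h : (Units.map ((starRingEnd F : F →+* F) : F →* F)).comp χu =
        χu * (GeneralLinearGroup.det.comp (ev2 x y)) := by
      apply FreeGroup.ext_hom
      intro i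
      apply Units.ext
      fin_cases i
      · show star ((χu (FreeGroup.of 0) : Fˣ) : F) = (χu (FreeGroup.of 0) : F) *
          (gm x y (FreeGroup.of 0)).det
        have ex : gm x y (FreeGroup.of 0) = (x : Matrix (Fin n) (Fin n) F) :=
          congrArg Units.val (ev2_zero x y)
        rw [ex, hχ0]
        exact hax
      · show star ((χu (FreeGroup.of 1) : Fˣ) : F) = (χu (FreeGroup.of 1) : F) *
          (gm x y (FreeGroup.of 1)).det
        have ey : gm x y (FreeGroup.of 1) = (y : Matrix (Fin n) (Fin n) F) :=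
          congrArg Units.val (ev2_one x y)
        rw [ey, hχ1]
        exact hay
    intro w
    have h3 := congrArg Units.val (DFunLike.congr_fun h w)
    rw [hχv]
    exact h3
  have hu' := unit_all hxU hyU
  have hu : ∀ w, star (gm x y w) * gm x y w = 1 := fun w => mul_eq_one_comm.1 (hu' w)
  -- the scaled representation
  have hR : ∃ R : F2 →* GL (Fin n) F, ∀ w, (R w : Matrix (Fin n) (Fin n) F) =
      star (χ w) • gm x y w := by
    have hsc : ∀ (u : Fˣ) (g : GL (Fin n) F),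
        ((Units.map ((Matrix.scalar (Fin n) : F →+* Matrix (Fin n) (Fin n) F) :
          F →* Matrix (Fin n) (Fin n) F) u * g : GL (Fin n) F) : Matrix (Fin n) (Fin n) F) =
        (u : F) • (g : Matrix (Fin n) (Fin n) F) := by
      intro u g
      rw [Units.val_mul]
      show Matrix.scalar (Fin n) (u : F) * (g : Matrix (Fin n) (Fin n) F) = _
      rw [Matrix.scalar_apply, ← smul_eq_diagonal_mul]
    refine ⟨MonoidHom.mk' (fun w => Units.map ((Matrix.scalar (Fin n) :
      F →+* Matrix (Fin n) (Fin n) F) : F →* Matrix (Fin n) (Fin n) F)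
        (Units.map ((starRingEnd F : F →+* F) : F →* F) (χu w)) * ev2 x y w) ?_, ?_⟩
    · intro a b
      apply Units.ext
      rw [hsc, Units.val_mul, hsc, hsc, smul_mul_smul_comm, ← Units.val_mul, ← Units.val_mul,
        ← map_mul, ← map_mul, ← map_mul]
    · intro w
      rw [hχv]
      exact hsc _ _
  obtain ⟨R, hR⟩ := hR
  have hRe : ev2 (R (FreeGroup.of 0)) (R (FreeGroup.of 1)) = R := by
    apply FreeGroup.ext_hom
    intro i
    fin_cases i
    · exact ev2_zero _ _
    · exact ev2_one _ _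
  have hχd : ∀ w ∈ derivedSeries F2 d, χ w = 1 := by
    intro w hw
    have hle : derivedSeries F2 d ≤ χu.ker := by
      refine (derivedSeries_antitone F2 hd).trans ?_
      rw [derivedSeries_one]
      exact Abelianization.commutator_subset_ker χu
    have h3 : χu w = 1 := MonoidHom.mem_ker.1 (hle hw)
    rw [hχv, h3, Units.val_one]
  have hsub1 : derivedSeries F2 (d + 1) ≤ derivedSeries F2 d := by
    rw [derivedSeries_succ F2 d]
    exact commutator_le_self _
  have hRd : ∀ w ∈ derivedSeries F2 d, R w = ev2 x y w := by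
    intro w hw
    apply Units.ext
    rw [hR, hχd w hw, star_one, one_smul]
  obtain ⟨N, hN⟩ : ∃ N : F2 →* F, ∀ g, N g = χ g * star (χ g) :=
    ⟨χ * (((starRingEnd F : F →+* F) : F →* F).comp χ), fun g => rfl⟩
  obtain ⟨δ, hδ, r, hr, s, hs, hne⟩ := hUIS F n k d (R (FreeGroup.of 0)) (R (FreeGroup.of 1)) N ht
    hn hk hkF hd (by
      intro w hw
      rw [hRe, hRd w (hsub1 hw)]
      exact hGG.1 w hw) (by
      intro w hw
      rw [hRe, hRd w hw]
      exact hexp w hw) (by
      intro v hv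
      apply hfix
      intro w hw
      have h3 := hv w hw
      rw [hRe, hRd w hw] at h3
      exact h3) (by
      intro g
      rw [hRe, hR, star_smul, star_star, smul_mul_smul_comm, hu' g, hN, mul_comm]) (by
      intro g
      rw [hN, star_mul', star_star, mul_comm])
  have hδ' : ∀ g h : F2, δ (g * h) = δ g + (star (χ g) • gm x y g) *ᵥ δ h := by
    intro g h
    rw [hδ g h, hRe, hR]
  obtain ⟨X, hX⟩ := mem_SU (δ := δ) h2 hl hu hχ hdet (FreeGroup.of 0)
  obtain ⟨Y, hY⟩ := mem_SU (δ := δ) h2 hl hu hχ hdet (FreeGroup.of 1)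
  choose Z hZ using rep h2 hl hδ' hu hχ X Y hX hY
  -- on the derived subgroup number d + 1
  have hg1 : ∀ w ∈ derivedSeries F2 (d + 1), gm x y w = 1 := by
    intro w hw
    rw [gm, hGG.1 w hw, Units.val_one]
  have hχ1' : ∀ w ∈ derivedSeries F2 (d + 1), χ w = 1 := fun w hw => hχd w (hsub1 hw)
  have hδ1 : ∀ w ∈ derivedSeries F2 (d + 1), ∀ w' : F2, δ (w * w') = δ w + δ w' := by
    intro w hw w'
    rw [hδ', hg1 w hw, hχ1' w hw, star_one, one_smul, one_mulVec]
  have hZ1 : ∀ w ∈ derivedSeries F2 (d + 1), ∀ w' ∈ derivedSeries F2 (d + 1),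
      Z (w * w') = -(star (δ w) ⬝ᵥ δ w') + Z w' + Z w := by
    intro w hw w' hw'
    have h1 := hZ (w * w')
    have h3 : (ev2 X Y (w * w')).1 = (ev2 X Y w).1 * (ev2 X Y w').1 :=
      congrArg Subtype.val (map_mul (ev2 X Y) w w')
    rw [h3, hZ w, hZ w', Mw_mul h2 hl hδ' hu hχ, hg1 w hw, hχ1' w hw, hχ1' w' hw', star_one,
      inv_one, one_mul, one_mul, one_smul, vecMul_one, neg_dotProduct] at h1
    exact (M_inj h1).symm
  have hsub : derivedSeries F2 (d + 2) ≤ derivedSeries F2 (d + 1) := by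
    rw [derivedSeries_succ F2 (d + 1)]
    exact commutator_le_self _
  have hc : ∀ a ∈ derivedSeries F2 (d + 1), ∀ b ∈ derivedSeries F2 (d + 1),
      ⁅a, b⁆ ∈ derivedSeries F2 (d + 2) := by
    intro a ha b hb
    rw [derivedSeries_succ F2 (d + 1)]
    exact commutator_mem_commutator ha hb
  have hcm : ∀ a b : F2, ⁅a, b⁆ * (b * a) = a * b := by
    intro a b
    rw [commutatorElement_def]
    group
  have hv : ∀ w ∈ derivedSeries F2 (d + 2), δ w = 0 := by
    let f : derivedSeries F2 (d + 1) →* Multiplicative (Fin n → F) :=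
      { toFun := fun w => Multiplicative.ofAdd (δ w)
        map_one' := by
          rw [← ofAdd_zero]
          congr 1
          exact δ_one hδ' hχ
        map_mul' := by
          intro a b
          rw [← ofAdd_add]
          congr 1
          exact hδ1 a a.2 b }
    have h1 : derivedSeries F2 (d + 2) ≤ (f.ker).map (derivedSeries F2 (d + 1)).subtype := by
      rw [derivedSeries_succ F2 (d + 1), commutator_le]
      intro a ha b hb
      refine ⟨⁅(⟨a, ha⟩ : derivedSeries F2 (d + 1)), (⟨b, hb⟩ : derivedSeries F2 (d + 1))⁆, ?_, rfl⟩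
      change _ ∈ f.ker
      rw [MonoidHom.mem_ker, map_commutatorElement, commutatorElement_eq_one_iff_mul_comm, mul_comm]
    intro w hw
    obtain ⟨u, hu, rfl⟩ := h1 hw
    have h3 : f u = 1 := hu
    exact h3
  have hE : ∀ w ∈ derivedSeries F2 (d + 2), (ev2 X Y w).1 =
      M l 1 1 (1 : Matrix (Fin n) (Fin n) F) 0 0 (Z w) := by
    intro w hw
    rw [hZ w]
    unfold Mw
    rw [hg1 w (hsub hw), hχ1' w (hsub hw), hv w hw, star_one, inv_one, smul_zero, star_zero,
      zero_vecMul, neg_zero]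
  refine ⟨X, Y, ?_, ⁅r, s⁆, hc r hr s hs, ?_⟩
  · have hle : derivedSeries F2 (d + 2 + 1) ≤ (ev2 X Y).ker := by
      rw [derivedSeries_succ, commutator_le]
      intro a ha b hb
      rw [MonoidHom.mem_ker, map_commutatorElement, commutatorElement_eq_one_iff_mul_comm]
      apply Subtype.ext
      show (ev2 X Y a).1 * (ev2 X Y b).1 = (ev2 X Y b).1 * (ev2 X Y a).1
      rw [hE a ha, hE b hb, M_mul h2 hl, M_mul h2 hl]
      congr 1
      rw [dotProduct_zero, one_mul, one_mul, zero_add, zero_add, add_comm]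
    intro w hw
    exact MonoidHom.mem_ker.1 (hle hw)
  · intro c hcs
    have hcmem := hc r hr s hs
    rw [hE _ hcmem] at hcs
    have hl0 : star l ≠ 0 := by
      intro h
      rw [h, mul_zero] at hl
      have : (1 : F) = 0 := by linear_combination hl
      exact one_ne_zero this
    have h1 := congrArg (fun m : Matrix (Fin n ⊕ Fin 2) (Fin n ⊕ Fin 2) F =>
      m (Sum.inr 0) (Sum.inr 1)) hcs
    have hz : Z ⁅r, s⁆ = 0 := by
      have h3 : Z ⁅r, s⁆ * star l = 0 := by
        simp only [M, fromBlocks_apply₂₂, Matrix.add_apply, Matrix.smul_apply, vecMulVec_apply,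
          Pi.star_apply, ee, ff, Matrix.cons_val_zero, Matrix.cons_val_one, star_one, mul_one,
          one_mul, smul_eq_mul, star_neg, star_mul, star_half, Matrix.scalar_apply,
          Matrix.diagonal_apply, Sum.inr.injEq, Fin.isValue, zero_ne_one, if_false] at h1
        linear_combination h1
      exact (mul_eq_zero.1 h3).resolve_right hl0
    have h3 := hZ1 r hr s hs
    have h4 := hZ1 s hs r hr
    have h5 := hZ1 _ (hsub hcmem) (s * r) (mul_mem hs hr)
    rw [hcm, hz, hv _ hcmem, star_zero, zero_dotProduct, neg_zero, zero_add, add_zero, h3, h4] at h5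
    apply hne
    linear_combination -h5

end Pool.Agent.Work.MP_403fb3_lin
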