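import Pool.Agent.Work.MP_403fb3_lin.Interface4

/-!
# Block UE (helper45): `g ↦ diag (g, (det g)⁻¹, 1)` modulo the centre, unitary groups
-/

set_option autoImplicit false

namespace Pool.Agent.Work.MP_403fb3_lin

open Matrix

namespace UE

section gen

variable {F : Type} [Field F] [StarRing F] {ι : Type} [Fintype ι] [DecidableEq ι]

/-- signs -/
def dd (F : Type) [Field F] (j0 : ι) (a : ι) : F := if a = j0 then -1 else 1

/-- a signed transposition -/
def sw (F : Type) [Field F] (i j0 : ι) : Matrix ι ι F :=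
  (Equiv.swap i j0).permMatrix F * diagonal (dd F j0)

theorem sw_apply (i j0 a b : ι) :
    sw F i j0 a b = if Equiv.swap i j0 a = b then dd F j0 b else 0 := by
  unfold sw
  rw [mul_diagonal]
  simp only [Equiv.Perm.permMatrix, PEquiv.toMatrix_apply, Equiv.toPEquiv_apply,
    Option.mem_def, Option.some.injEq]
  split_ifs
  · rw [one_mul]
  · rw [zero_mul]

theorem pm_mem (σ : Equiv.Perm ι) : σ.permMatrix F ∈ unitaryGroup ι F := by
  rw [mem_unitaryGroup_iff, star_eq_conjTranspose, conjTranspose_permMatrix, ← permMatrix_mul,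
    inv_mul_cancel, permMatrix_one]

theorem dg_mem (j0 : ι) : diagonal (dd F j0) ∈ unitaryGroup ι F := by
  rw [mem_unitaryGroup_iff, star_eq_conjTranspose, diagonal_conjTranspose, diagonal_mul_diagonal,
    ← diagonal_one]
  congr 1
  funext a
  show dd F j0 a * star (dd F j0 a) = 1
  unfold dd
  split_ifs
  · rw [star_neg, star_one]
    ring
  · rw [star_one, one_mul]

theorem sw_mem {i j0 : ι} (h : i ≠ j0) : sw F i j0 ∈ specialUnitaryGroup ι F := by
  rw [mem_specialUnitaryGroup_iff]
  refine ⟨mul_mem (pm_mem _) (dg_mem _), ?_⟩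
  unfold sw
  rw [det_mul, det_permutation, Equiv.Perm.sign_swap h, det_diagonal]
  have h1 : ∏ a, dd F j0 a = -1 := by
    unfold dd
    rw [Finset.prod_ite_eq' Finset.univ j0 (fun _ => (-1 : F)), if_pos (Finset.mem_univ _)]
  rw [h1]
  simp

theorem key (M : Matrix ι ι F) {i j0 : ι} (hij : i ≠ j0) (h : M * sw F i j0 = sw F i j0 * M)
    (a : ι) : M a j0 = dd F j0 (Equiv.swap i j0 a) * M (Equiv.swap i j0 a) i := by
  have h1 := congrFun (congrFun h a) i
  rw [mul_apply, mul_apply] at h1
  rw [Finset.sum_eq_single j0, Finset.sum_eq_single (Equiv.swap i j0 a)] at h1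
  · rw [sw_apply, sw_apply, if_pos (Equiv.swap_apply_right i j0), if_pos rfl] at h1
    have h2 : dd F j0 i = 1 := if_neg hij
    rw [h2, mul_one] at h1
    exact h1
  · intro b _ hb
    rw [sw_apply, if_neg (fun e => hb e.symm), zero_mul]
  · intro hh
    exact absurd (Finset.mem_univ _) hh
  · intro b _ hb
    rw [sw_apply, if_neg, mul_zero]
    intro e
    apply hb
    have := congrArg (Equiv.swap i j0) e
    rw [Equiv.swap_apply_self, Equiv.swap_apply_left] at this
    exact this
  · intro hh
    exact absurd (Finset.mem_univ _) hh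

theorem all_one (M : Matrix ι ι F) (j0 : ι) (h0 : M j0 j0 = 1) (h1 : ∀ a, a ≠ j0 → M a j0 = 0)
    (h : ∀ i, i ≠ j0 → M * sw F i j0 = sw F i j0 * M) {i a : ι} (hi : i ≠ j0) (ha : a ≠ j0) :
    M a i = if a = i then 1 else 0 := by
  by_cases hai : a = i
  · rw [if_pos hai, hai]
    have h2 := key M hi (h i hi) j0
    rw [Equiv.swap_apply_right, h0] at h2
    have h3 : dd F j0 i = 1 := if_neg hi
    rw [h3, one_mul] at h2
    exact h2.symm
  · rw [if_neg hai]
    have h2 := key M hi (h i hi) a
    rw [Equiv.swap_apply_of_ne_of_ne hai ha, h1 a ha] at h2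
    have h3 : dd F j0 a = 1 := if_neg ha
    rw [h3, one_mul] at h2
    exact h2.symm

end gen

variable {F : Type} [Field F] [StarRing F] {n : ℕ}

/-- the block matrix -/
def bm (A : Matrix (Fin n) (Fin n) F) : Matrix (Fin n ⊕ Fin 2) (Fin n ⊕ Fin 2) F :=
  fromBlocks A 0 0 (diagonal ![star A.det, 1])

theorem bm_one : bm (1 : Matrix (Fin n) (Fin n) F) = 1 := by
  unfold bm
  rw [← fromBlocks_one]
  have h : (diagonal ![star ((1 : Matrix (Fin n) (Fin n) F).det), (1 : F)]) = 1 := by
    rw [← diagonal_one]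
    congr 1
    funext i
    fin_cases i <;> simp
  rw [h]

theorem bm_mul (A B : Matrix (Fin n) (Fin n) F) : bm (A * B) = bm A * bm B := by
  unfold bm
  rw [fromBlocks_multiply, diagonal_mul_diagonal]
  have h1 : (diagonal ![star (A * B).det, (1 : F)]) =
      diagonal (fun i => ![star A.det, (1 : F)] i * ![star B.det, (1 : F)] i) := by
    congr 1
    funext i
    fin_cases i
    · show star (A * B).det = star A.det * star B.det
      rw [det_mul, star_mul, mul_comm]
    · show (1 : F) = 1 * 1
      rw [one_mul]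
  rw [h1]
  simp

theorem star_bm (A : Matrix (Fin n) (Fin n) F) : star (bm A) = bm (star A) := by
  unfold bm
  rw [star_eq_conjTranspose, fromBlocks_conjTranspose, diagonal_conjTranspose, star_eq_conjTranspose]
  have h1 : star ![star A.det, (1 : F)] = ![star (Aᴴ).det, (1 : F)] := by
    funext i
    fin_cases i
    · show star (star A.det) = star (Aᴴ).det
      rw [det_conjTranspose]
    · show star (1 : F) = 1
      rw [star_one]
  rw [h1]
  simp

theorem bm_mem {A : Matrix (Fin n) (Fin n) F} (hA : A ∈ unitaryGroup (Fin n) F) :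
    bm A ∈ specialUnitaryGroup (Fin n ⊕ Fin 2) F := by
  rw [mem_specialUnitaryGroup_iff]
  constructor
  · rw [mem_unitaryGroup_iff, star_bm, ← bm_mul, mem_unitaryGroup_iff.mp hA, bm_one]
  · unfold bm
    rw [det_fromBlocks_zero₂₁, det_diagonal, Fin.prod_univ_two]
    show A.det * (star A.det * 1) = 1
    rw [mul_one]
    exact (det_of_mem_unitary hA).2

theorem re_mem {A : Matrix (Fin n ⊕ Fin 2) (Fin n ⊕ Fin 2) F}
    (hA : A ∈ specialUnitaryGroup (Fin n ⊕ Fin 2) F) :
    reindexAlgEquiv F F (finSumFinEquiv (m := n) (n := 2)) A ∈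
      specialUnitaryGroup (Fin (n + 2)) F := by
  rw [mem_specialUnitaryGroup_iff] at hA ⊢
  obtain ⟨h1, h2⟩ := hA
  constructor
  · rw [mem_unitaryGroup_iff] at h1 ⊢
    have h3 : star (reindexAlgEquiv F F (finSumFinEquiv (m := n) (n := 2)) A) =
        reindexAlgEquiv F F (finSumFinEquiv (m := n) (n := 2)) (star A) := rfl
    rw [h3, ← map_mul, h1, map_one]
  · rw [det_reindexAlgEquiv]
    exact h2

/-- the homomorphism to the special unitary group -/
def hm (F : Type) [Field F] [StarRing F] (n : ℕ) :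
    ↥(unitaryGroup (Fin n) F) →* ↥(specialUnitaryGroup (Fin (n + 2)) F) where
  toFun g := ⟨reindexAlgEquiv F F finSumFinEquiv (bm g.1), re_mem (bm_mem g.2)⟩
  map_one' := by
    apply Subtype.ext
    show reindexAlgEquiv F F finSumFinEquiv (bm 1) = 1
    rw [bm_one, map_one]
  map_mul' g h := by
    apply Subtype.ext
    show reindexAlgEquiv F F finSumFinEquiv (bm (g.1 * h.1)) =
      reindexAlgEquiv F F finSumFinEquiv (bm g.1) * reindexAlgEquiv F F finSumFinEquiv (bm h.1)
    rw [bm_mul, map_mul]

theorem hm_center (g : ↥(unitaryGroup (Fin n) F))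
    (h : hm F n g ∈ Subgroup.center ↥(specialUnitaryGroup (Fin (n + 2)) F)) : g = 1 := by
  rw [Subgroup.mem_center_iff] at h
  have hc : ∀ i : Fin n ⊕ Fin 2, i ≠ Sum.inr 1 →
      bm g.1 * sw F i (Sum.inr 1) = sw F i (Sum.inr 1) * bm g.1 := by
    intro i hi
    have h1 := h ⟨_, re_mem (sw_mem (F := F) hi)⟩
    have h2 := congrArg Subtype.val h1
    have h3 : reindexAlgEquiv F F (finSumFinEquiv (m := n) (n := 2)) (sw F i (Sum.inr 1)) *
        reindexAlgEquiv F F finSumFinEquiv (bm g.1) =
        reindexAlgEquiv F F finSumFinEquiv (bm g.1) *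
          reindexAlgEquiv F F (finSumFinEquiv (m := n) (n := 2)) (sw F i (Sum.inr 1)) := h2
    rw [← map_mul, ← map_mul] at h3
    exact ((reindexAlgEquiv F F (finSumFinEquiv (m := n) (n := 2))).injective h3).symm
  apply Subtype.ext
  ext a b
  have h4 := all_one (bm g.1) (Sum.inr 1) (by simp [bm]) (by
    intro a ha
    rcases a with a | a
    · simp [bm]
    · have : a = 0 := by
        fin_cases a
        · rfl
        · exact absurd rfl ha
      subst this
      simp [bm]) hc (i := Sum.inl b) (a := Sum.inl a) (by simp) (by simp)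
  have h5 : bm g.1 (Sum.inl a) (Sum.inl b) = g.1 a b := rfl
  rw [h5] at h4
  rw [h4]
  show _ = (1 : Matrix (Fin n) (Fin n) F) a b
  rw [Matrix.one_apply]
  simp

end UE

theorem p_UE : S_UE := by
  intro F _ _ n
  refine ⟨(QuotientGroup.mk' (Subgroup.center ↥(specialUnitaryGroup (Fin (n + 2)) F))).comp
    (UE.hm F n), ?_⟩
  rw [injective_iff_map_eq_one]
  intro g hg
  exact UE.hm_center g ((QuotientGroup.eq_one_iff _).1 hg)

end Pool.Agent.Work.MP_403fb3_lin
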