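import Pool.Agent.Work.MP_403fb3_lin.Interface8
import Pool.Agent.Work.MP_403fb3_lin.UE

/-!
# Block UPC
-/

set_option autoImplicit false

namespace Pool.Agent.Work.MP_403fb3_lin

open Matrix

theorem upc_scalar {F : Type} [Field F] [StarRing F] {n : ℕ} (h2 : (2 : F) ≠ 0) (hn : 3 ≤ n)
    (M : Matrix (Fin n) (Fin n) F)
    (h : ∀ i j : Fin n, i ≠ j → M * UE.sw F i j = UE.sw F i j * M) :
    ∃ c : F, M = scalar (Fin n) c := by
  have hd : ∀ i j : Fin n, i ≠ j → M j j = M i i := by
    intro i j hij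
    have h1 := UE.key M hij (h i j hij) j
    rw [Equiv.swap_apply_right] at h1
    have h3 : UE.dd F j i = 1 := if_neg hij
    rw [h3, one_mul] at h1
    exact h1
  have ho : ∀ i j : Fin n, i ≠ j → M i j = - M j i := by
    intro i j hij
    have h1 := UE.key M hij (h i j hij) i
    rw [Equiv.swap_apply_left] at h1
    have h3 : UE.dd F j j = -1 := if_pos rfl
    rw [h3, neg_one_mul] at h1
    exact h1
  have hc : ∀ a i j : Fin n, i ≠ j → a ≠ i → a ≠ j → M a j = M a i := by
    intro a i j hij hai haj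
    have h1 := UE.key M hij (h i j hij) a
    rw [Equiv.swap_apply_of_ne_of_ne hai haj] at h1
    have h3 : UE.dd F j a = 1 := if_neg haj
    rw [h3, one_mul] at h1
    exact h1
  have hz : ∀ i j : Fin n, i ≠ j → M i j = 0 := by
    intro i j hij
    obtain ⟨k, hk⟩ : ∃ k : Fin n, k ≠ i ∧ k ≠ j := by
      by_contra hcon
      push Not at hcon
      have h1 : (Finset.univ : Finset (Fin n)) ⊆ {i, j} := by
        intro k _
        by_cases hki : k = i
        · simp [hki]
        · simp [hcon k hki]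
      have h4 := Finset.card_le_card h1
      rw [Finset.card_univ, Fintype.card_fin] at h4
      have h5 : ({i, j} : Finset (Fin n)).card ≤ 2 := Finset.card_le_two
      omega
    obtain ⟨hki, hkj⟩ := hk
    -- m_i = M i j = M i k, m_j = M j i = M j k, m_k = M k i = M k j
    have e1 : M i j = M i k := hc i k j hkj hki.symm hij
    have e2 : M j i = M j k := hc j k i hki hkj.symm hij.symm
    have e3 : M k i = M k j := (hc k i j hij hki hkj).symm
    have f1 := ho i j hij
    have f2 := ho j k hkj.symm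
    have f3 := ho i k hki.symm
    have h6 : 2 * M i j = 0 := by
      have g1 : M i j = M k j := by rw [f1, e2, f2, neg_neg]
      have g2 : M i j = - M k j := by rw [e1, f3, e3]
      linear_combination g1 + g2
    exact (mul_eq_zero.1 h6).resolve_left h2
  refine ⟨M ⟨0, by omega⟩ ⟨0, by omega⟩, ?_⟩
  ext i j
  rw [scalar_apply, diagonal_apply]
  by_cases hij : i = j
  · subst hij
    rw [if_pos rfl]
    by_cases h0 : (⟨0, by omega⟩ : Fin n) = i
    · rw [h0]
    · exact hd _ _ h0
  · rw [if_neg hij]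
    exact hz i j hij

theorem p_UPC_h54 : S_UPC := by
  intro F _ _ N n h2 hN hNn
  classical
  obtain ⟨k, rfl⟩ : ∃ k, n = N + k := ⟨n - N, by omega⟩
  let e : (Fin N ⊕ Fin 2) ⊕ Fin k ≃ Fin (N + k + 2) := Fintype.equivFinOfCardEq (by simp; ring)
  let m0 : Matrix (Fin N ⊕ Fin 2) (Fin N ⊕ Fin 2) F → Matrix (Fin (N + k + 2)) (Fin (N + k + 2)) F :=
    fun g => (fromBlocks g 0 0 (1 : Matrix (Fin k) (Fin k) F)).submatrix e.symm e.symm
  have hm : ∀ g h, m0 (g * h) = m0 g * m0 h := fun g h => by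
    change (fromBlocks (g * h) 0 0 (1 : Matrix (Fin k) (Fin k) F)).submatrix e.symm e.symm = _
    change _ = (fromBlocks g 0 0 (1 : Matrix (Fin k) (Fin k) F)).submatrix e.symm e.symm *
      (fromBlocks h 0 0 (1 : Matrix (Fin k) (Fin k) F)).submatrix e.symm e.symm
    rw [submatrix_mul_equiv, fromBlocks_multiply]
    simp
  have h1 : m0 1 = 1 := by
    change (fromBlocks 1 0 0 (1 : Matrix (Fin k) (Fin k) F)).submatrix e.symm e.symm = 1
    rw [fromBlocks_one, submatrix_one_equiv]
  have hs : ∀ g, star (m0 g) = m0 (star g) := fun g => by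
    change star ((fromBlocks g 0 0 (1 : Matrix (Fin k) (Fin k) F)).submatrix e.symm e.symm) =
      (fromBlocks (star g) 0 0 (1 : Matrix (Fin k) (Fin k) F)).submatrix e.symm e.symm
    rw [star_eq_conjTranspose, conjTranspose_submatrix, fromBlocks_conjTranspose, star_eq_conjTranspose]
    simp
  have hdet : ∀ g, (m0 g).det = g.det := fun g => by
    change ((fromBlocks g 0 0 (1 : Matrix (Fin k) (Fin k) F)).submatrix e.symm e.symm).det = _
    rw [det_submatrix_equiv_self, det_fromBlocks_zero₂₁, det_one, mul_one]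
  have hmem : ∀ g : ↥(specialUnitaryGroup (Fin N ⊕ Fin 2) F),
      m0 g ∈ specialUnitaryGroup (Fin (N + k + 2)) F := fun g => by
    have hg := mem_specialUnitaryGroup_iff.1 g.2
    rw [mem_specialUnitaryGroup_iff, mem_unitaryGroup_iff, hs, ← hm, hdet]
    rw [mem_unitaryGroup_iff] at hg
    exact ⟨by rw [hg.1, h1], hg.2⟩
  let f0 : ↥(specialUnitaryGroup (Fin N ⊕ Fin 2) F) →* ↥(specialUnitaryGroup (Fin (N + k + 2)) F) :=
    { toFun := fun g => ⟨m0 g, hmem g⟩
      map_one' := Subtype.ext h1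
      map_mul' := fun g h => Subtype.ext (hm g h) }
  refine ⟨(QuotientGroup.mk' _).comp f0, fun g hg => ?_⟩
  have hc : f0 g ∈ Subgroup.center ↥(specialUnitaryGroup (Fin (N + k + 2)) F) :=
    (QuotientGroup.eq_one_iff _).1 hg
  rw [Subgroup.mem_center_iff] at hc
  obtain ⟨c, hc⟩ := upc_scalar h2 (by omega) (m0 g) fun i j hij =>
    (congrArg Subtype.val (hc ⟨UE.sw F i j, UE.sw_mem hij⟩)).symm
  refine ⟨c, ?_⟩
  ext i j
  have h5 := congrFun (congrFun hc (e (Sum.inl i))) (e (Sum.inl j))
  change (fromBlocks (g : Matrix (Fin N ⊕ Fin 2) (Fin N ⊕ Fin 2) F) 0 0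
        (1 : Matrix (Fin k) (Fin k) F)) (e.symm (e (Sum.inl i))) (e.symm (e (Sum.inl j))) = _ at h5
  rw [Equiv.symm_apply_apply, Equiv.symm_apply_apply, fromBlocks_apply₁₁] at h5
  rw [h5, scalar_apply, scalar_apply, diagonal_apply, diagonal_apply]
  simp only [EmbeddingLike.apply_eq_iff_eq, Sum.inl.injEq]

end Pool.Agent.Work.MP_403fb3_lin
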