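import Pool.Agent.Work.MP_403fb3_lin.Interface5

/-!
# Block WGP: good pairs in wreath products, exponent `k` (typed by helper81, copy of WG)
-/

set_option autoImplicit false

namespace Pool.Agent.Work.MP_403fb3_lin

open Matrix Subgroup
open Pool.Agent.Work.MP_403fb3_al_helper9

namespace WGP

variable {F : Type} [Field F] {r m : ℕ}

theorem s_eq {D : Type} {s : ℕ} (td : TopData D s) {B : Type} [Group B] (b1 b2 : B) (w : F2) :
    (ev2 (td.T1 b1 b2) (td.T2 b1 b2) w).s = ev2 td.a1 td.a2 w := by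
  have h := ev2_comp (Wr.toPerm (D := D) (B := B)) (td.T1 b1 b2) (td.T2 b1 b2) w
  change (ev2 (td.T1 b1 b2) (td.T2 b1 b2) w).s = ev2 (td.T1 b1 b2).s (td.T2 b1 b2).s w at h
  rw [h, td.s1, td.s2]

theorem inj (hm : 0 < m) (f : Wr (Fin r) (GL (Fin m) F) →* GL (Fin r × Fin m) F)
    (hf : ∀ (w : Wr (Fin r) (GL (Fin m) F)) (p q : Fin r × Fin m),
      (f w : Matrix (Fin r × Fin m) (Fin r × Fin m) F) p q =
        if p.1 = w.s q.1 then (w.f q.1 : Matrix (Fin m) (Fin m) F) p.2 q.2 else 0) :
    Function.Injective f := by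
  rw [injective_iff_map_eq_one]
  intro w hw
  have h1 : ∀ (j : Fin r) (a b : Fin m), (w.f j : Matrix (Fin m) (Fin m) F) a b =
      (1 : Matrix (Fin r × Fin m) (Fin r × Fin m) F) (w.s j, a) (j, b) := by
    intro j a b
    have h2 := hf w (w.s j, a) (j, b)
    rw [hw, if_pos rfl, Units.val_one] at h2
    exact h2.symm
  have hs : ∀ j : Fin r, w.s j = j := by
    intro j
    by_contra hne
    have h0 : (w.f j : Matrix (Fin m) (Fin m) F) = 0 := by
      ext a b
      rw [h1 j a b, Matrix.one_apply_ne]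
      · rfl
      · intro h
        exact hne (congrArg Prod.fst h)
    have h3 : (w.f j : Matrix (Fin m) (Fin m) F) * ((w.f j)⁻¹ : GL (Fin m) F) = 1 :=
      Units.mul_inv _
    rw [h0, Matrix.zero_mul] at h3
    have h4 := congrFun (congrFun h3 ⟨0, hm⟩) ⟨0, hm⟩
    rw [Matrix.zero_apply, Matrix.one_apply_eq] at h4
    exact zero_ne_one h4
  refine Wr.ext ?_ ?_
  · funext j
    show w.f j = 1
    apply Units.ext
    ext a b
    rw [h1 j a b, hs j, Units.val_one, Matrix.one_apply, Matrix.one_apply]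
    by_cases hab : a = b
    · subst hab
      rw [if_pos rfl, if_pos rfl]
    · rw [if_neg hab, if_neg]
      intro h
      exact hab (congrArg Prod.snd h)
  · ext1 j
    exact hs j

theorem pow_s {D B : Type} [Group B] (w : Wr D B) (hw : w.s = 1) (j : ℕ) : (w ^ j).s = 1 := by
  induction j with
  | zero => rw [pow_zero]; rfl
  | succ j ih => rw [pow_succ, Wr.mul_s, ih, hw, one_mul]

theorem pow_f {D B : Type} [Group B] (w : Wr D B) (hw : w.s = 1) (j : ℕ) (p : D) :
    (w ^ j).f p = w.f p ^ j := by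
  induction j with
  | zero => rw [pow_zero, pow_zero]; rfl
  | succ j ih => rw [pow_succ, pow_succ, Wr.mul_f, hw, Equiv.Perm.one_apply, ih]

end WGP

theorem p_WGP (hWRX : S_WRX) (hTF : S_TF) (hTL : S_TL) : S_WGP := by
  intro F _ k₀ r s m d td ht hm hG
  obtain ⟨x, y, hgg, hsq, hfix⟩ := hG
  obtain ⟨f, hf⟩ := hWRX F (Fin r) m
  have hinj : Function.Injective f := WGP.inj hm f hf
  have hev : ∀ w : F2, ev2 (f (td.T1 x y)) (f (td.T2 x y)) w =
      f (ev2 (td.T1 x y) (td.T2 x y) w) := fun w => (ev2_comp f _ _ w).symm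
  refine ⟨f (td.T1 x y), f (td.T2 x y), (td.gg x y hgg).map f hinj, ?_, ?_⟩
  · intro w hw
    obtain ⟨h1, h2⟩ := hTL (Fin r) s td (GL (Fin m) F) x y d w hw
    rw [hev, ← map_pow]
    have h3 : ev2 (td.T1 x y) (td.T2 x y) w ^ k₀ = 1 := by
      refine Wr.ext ?_ ?_
      · funext p
        rw [WGP.pow_f _ h1]
        obtain ⟨u, hu, he⟩ := h2 p
        rw [he, hsq u hu]
        rfl
      · rw [WGP.pow_s _ h1]
        rfl
    rw [h3, map_one]
  · have hbase : ∀ v : Fin r × Fin m → F, (∀ w ∈ derivedSeries F2 (s + d),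
        (f (ev2 (td.T1 x y) (td.T2 x y) w) : Matrix (Fin r × Fin m) (Fin r × Fin m) F) *ᵥ v = v) →
        (fun a => v (td.d0, a)) = 0 := by
      intro v hv
      refine hfix _ fun u hu => ?_
      obtain ⟨w, hw, he⟩ := hTF (Fin r) s td (GL (Fin m) F) x y d hgg d u hu
      obtain ⟨h1, -⟩ := hTL (Fin r) s td (GL (Fin m) F) x y d w hw
      funext a
      have h2 := congrFun (hv w hw) (td.d0, a)
      show _ = v (td.d0, a)
      rw [← h2, ← he]
      show _ = ∑ q : Fin r × Fin m,
        (f (ev2 (td.T1 x y) (td.T2 x y) w) : Matrix (Fin r × Fin m) (Fin r × Fin m) F)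
          (td.d0, a) q * v q
      rw [Fintype.sum_prod_type, Finset.sum_eq_single td.d0]
      · show ∑ b : Fin m, _ = _
        refine Finset.sum_congr rfl fun b _ => ?_
        rw [hf, h1, Equiv.Perm.one_apply, if_pos rfl]
      · intro j _ hj
        refine Finset.sum_eq_zero fun b _ => ?_
        rw [hf, h1, Equiv.Perm.one_apply, if_neg (Ne.symm hj), zero_mul]
      · intro h
        exact absurd (Finset.mem_univ _) h
    intro v hv
    have hv' : ∀ w ∈ derivedSeries F2 (s + d),
        (f (ev2 (td.T1 x y) (td.T2 x y) w) : Matrix (Fin r × Fin m) (Fin r × Fin m) F) *ᵥ v = v := by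
      intro w hw
      have h := hv w hw
      rw [hev] at h
      exact h
    funext q
    obtain ⟨i, a⟩ := q
    obtain ⟨k, hk⟩ := ht i
    have hks : (ev2 (td.T1 x y) (td.T2 x y) k).s td.d0 = i := by rw [WGP.s_eq, hk]
    set g : GL (Fin r × Fin m) F := f (ev2 (td.T1 x y) (td.T2 x y) k) with hg
    set v' : Fin r × Fin m → F :=
      ((g⁻¹ : GL (Fin r × Fin m) F) : Matrix (Fin r × Fin m) (Fin r × Fin m) F) *ᵥ v with hv'def
    have h1 : (fun a => v' (td.d0, a)) = 0 := by
      refine hbase v' fun w hw => ?_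
      have h2 : k * w * k⁻¹ ∈ derivedSeries F2 (s + d) :=
        (derivedSeries_normal F2 (s + d)).conj_mem w hw k
      have h3 := hv' _ h2
      rw [map_mul, map_mul, map_inv, map_mul, map_mul, map_inv, ← hg] at h3
      have h4 : f (ev2 (td.T1 x y) (td.T2 x y) w) * g⁻¹ =
          g⁻¹ * (g * f (ev2 (td.T1 x y) (td.T2 x y) w) * g⁻¹) := by group
      rw [hv'def, Matrix.mulVec_mulVec, ← Units.val_mul, h4, Units.val_mul,
        ← Matrix.mulVec_mulVec, h3]
    have h5 : v = (g : Matrix (Fin r × Fin m) (Fin r × Fin m) F) *ᵥ v' := by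
      rw [hv'def, Matrix.mulVec_mulVec, ← Units.val_mul, mul_inv_cancel, Units.val_one,
        Matrix.one_mulVec]
    rw [h5]
    show ∑ q : Fin r × Fin m,
      (g : Matrix (Fin r × Fin m) (Fin r × Fin m) F) (i, a) q * v' q = 0
    refine Finset.sum_eq_zero fun q _ => ?_
    rw [hg, hf]
    split_ifs with h6
    · have h7 : q.1 = td.d0 := by
        apply (ev2 (td.T1 x y) (td.T2 x y) k).s.injective
        rw [hks]
        exact h6.symm
      have h8 : v' q = 0 := by
        have h9 := congrFun h1 q.2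
        have h10 : q = (td.d0, q.2) := Prod.ext h7 rfl
        rw [h10]
        exact h9
      rw [h8, mul_zero]
    · rw [zero_mul]

end Pool.Agent.Work.MP_403fb3_lin
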