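import Pool.Agent.Work.MP_403fb3_lin.Interface8
import Pool.Agent.Work.MP_403fb3_lin.WGP

/-!
# Block UWP: good unitary pairs in wreath products (helper12, after WGP of helper81)
-/

set_option autoImplicit false

namespace Pool.Agent.Work.MP_403fb3_lin

open Matrix Subgroup
open Pool.Agent.Work.MP_403fb3_al_helper9

namespace UWP

theorem isU_comm {F : Type} [Field F] [StarRing F] {ι : Type} [Fintype ι] [DecidableEq ι]
    (g : GL ι F) : IsU g ↔ star (g : Matrix ι ι F) * (g : Matrix ι ι F) = 1 :=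
  mul_eq_one_comm

/-- the subgroup of the unitary matrices -/
def U (F : Type) [Field F] [StarRing F] (m : ℕ) : Subgroup (GL (Fin m) F) where
  carrier := {g | IsU g}
  mul_mem' := by
    intro g h hg hh
    have hg' : (g : Matrix (Fin m) (Fin m) F) * star (g : Matrix (Fin m) (Fin m) F) = 1 := hg
    have hh' : (h : Matrix (Fin m) (Fin m) F) * star (h : Matrix (Fin m) (Fin m) F) = 1 := hh
    show (g * h : Matrix (Fin m) (Fin m) F) * star (g * h : Matrix (Fin m) (Fin m) F) = 1
    rw [star_mul, mul_assoc, ← mul_assoc (h : Matrix (Fin m) (Fin m) F), hh', one_mul, hg']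
  one_mem' := by
    show (1 : Matrix (Fin m) (Fin m) F) * star (1 : Matrix (Fin m) (Fin m) F) = 1
    rw [star_one, one_mul]
  inv_mem' := by
    intro g hg
    have hg' : (g : Matrix (Fin m) (Fin m) F) * star (g : Matrix (Fin m) (Fin m) F) = 1 := hg
    have hg2 : star (g : Matrix (Fin m) (Fin m) F) * (g : Matrix (Fin m) (Fin m) F) = 1 :=
      (isU_comm g).1 hg
    have hi : ((g⁻¹ : GL (Fin m) F) : Matrix (Fin m) (Fin m) F) =
        star (g : Matrix (Fin m) (Fin m) F) := by
      have h1 : ((g⁻¹ : GL (Fin m) F) : Matrix (Fin m) (Fin m) F) *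
          (g : Matrix (Fin m) (Fin m) F) = 1 := Units.inv_mul g
      calc ((g⁻¹ : GL (Fin m) F) : Matrix (Fin m) (Fin m) F)
          = ((g⁻¹ : GL (Fin m) F) : Matrix (Fin m) (Fin m) F) *
              ((g : Matrix (Fin m) (Fin m) F) * star (g : Matrix (Fin m) (Fin m) F)) := by
            rw [hg', mul_one]
        _ = star (g : Matrix (Fin m) (Fin m) F) := by rw [← mul_assoc, h1, one_mul]
    show ((g⁻¹ : GL (Fin m) F) : Matrix (Fin m) (Fin m) F) *
      star ((g⁻¹ : GL (Fin m) F) : Matrix (Fin m) (Fin m) F) = 1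
    rw [hi, star_star, hg2]

theorem isU_f {F : Type} [Field F] [StarRing F] {r m : ℕ}
    (f : Wr (Fin r) (GL (Fin m) F) →* GL (Fin r × Fin m) F)
    (hf : ∀ (w : Wr (Fin r) (GL (Fin m) F)) (p q : Fin r × Fin m),
      (f w : Matrix (Fin r × Fin m) (Fin r × Fin m) F) p q =
        if p.1 = w.s q.1 then (w.f q.1 : Matrix (Fin m) (Fin m) F) p.2 q.2 else 0)
    (w : Wr (Fin r) (GL (Fin m) F)) (hw : ∀ j, IsU (w.f j)) : IsU (f w) := by
  rw [isU_comm]
  ext p q
  rw [Matrix.mul_apply, Fintype.sum_prod_type, Finset.sum_eq_single (w.s p.1)]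
  · have h0 : ∀ c : Fin m, star (f w : Matrix (Fin r × Fin m) (Fin r × Fin m) F) p (w.s p.1, c) =
        star ((w.f p.1 : Matrix (Fin m) (Fin m) F) c p.2) := by
      intro c
      rw [Matrix.star_apply, hf, if_pos rfl]
    by_cases hpq : p.1 = q.1
    · have h1 : ∀ c : Fin m, star (f w : Matrix (Fin r × Fin m) (Fin r × Fin m) F) p (w.s p.1, c) *
          (f w : Matrix (Fin r × Fin m) (Fin r × Fin m) F) (w.s p.1, c) q =
          star (w.f q.1 : Matrix (Fin m) (Fin m) F) p.2 c *
            (w.f q.1 : Matrix (Fin m) (Fin m) F) c q.2 := by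
        intro c
        rw [h0, hf, if_pos (by rw [hpq]), hpq, Matrix.star_apply]
      rw [Finset.sum_congr rfl fun c _ => h1 c, ← Matrix.mul_apply, (isU_comm _).1 (hw q.1),
        Matrix.one_apply, Matrix.one_apply]
      by_cases h2 : p.2 = q.2
      · rw [if_pos h2, if_pos (Prod.ext hpq h2)]
      · rw [if_neg h2, if_neg fun h => h2 (congrArg Prod.snd h)]
    · rw [Matrix.one_apply, if_neg fun h => hpq (congrArg Prod.fst h)]
      refine Finset.sum_eq_zero fun c _ => ?_
      rw [hf w (w.s p.1, c) q, if_neg fun h => hpq (w.s.injective h), mul_zero]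
  · intro i _ hi
    refine Finset.sum_eq_zero fun c _ => ?_
    rw [Matrix.star_apply, hf w (i, c) p, if_neg hi, star_zero, zero_mul]
  · intro h
    exact absurd (Finset.mem_univ _) h

theorem isU_T1 {F : Type} [Field F] [StarRing F] {r m s : ℕ} (td : TopData (Fin r) s)
    (x y : GL (Fin m) F) (hx : IsU x) (hy : IsU y) (j : Fin r) : IsU ((td.T1 x y).f j) := by
  have h := td.nat1 (U F m).subtype ⟨x, hx⟩ ⟨y, hy⟩
  have h2 : (td.T1 x y).f j = ((U F m).subtype ((td.T1 (B := U F m) ⟨x, hx⟩ ⟨y, hy⟩).f j)) := by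
    have h3 := congrArg (fun w => Wr.f w j) h
    exact h3.symm
  rw [h2]
  exact ((td.T1 (B := U F m) ⟨x, hx⟩ ⟨y, hy⟩).f j).2

theorem isU_T2 {F : Type} [Field F] [StarRing F] {r m s : ℕ} (td : TopData (Fin r) s)
    (x y : GL (Fin m) F) (hx : IsU x) (hy : IsU y) (j : Fin r) : IsU ((td.T2 x y).f j) := by
  have h := td.nat2 (U F m).subtype ⟨x, hx⟩ ⟨y, hy⟩
  have h2 : (td.T2 x y).f j = ((U F m).subtype ((td.T2 (B := U F m) ⟨x, hx⟩ ⟨y, hy⟩).f j)) := by
    have h3 := congrArg (fun w => Wr.f w j) h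
    exact h3.symm
  rw [h2]
  exact ((td.T2 (B := U F m) ⟨x, hx⟩ ⟨y, hy⟩).f j).2

end UWP

theorem p_UWP (hWRX : S_WRX) (hTF : S_TF) (hTL : S_TL) : S_UWP := by
  intro F _ _ k₀ r s m d td ht hm hG
  obtain ⟨x, y, hux, huy, hgg, hsq, hfix⟩ := hG
  obtain ⟨f, hf⟩ := hWRX F (Fin r) m
  have hinj : Function.Injective f := WGP.inj hm f hf
  have hev : ∀ w : F2, ev2 (f (td.T1 x y)) (f (td.T2 x y)) w =
      f (ev2 (td.T1 x y) (td.T2 x y) w) := fun w => (ev2_comp f _ _ w).symm
  refine ⟨f (td.T1 x y), f (td.T2 x y), UWP.isU_f f hf _ (UWP.isU_T1 td x y hux huy),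
    UWP.isU_f f hf _ (UWP.isU_T2 td x y hux huy), (td.gg x y hgg).map f hinj, ?_, ?_⟩
  · intro w hw
    obtain ⟨h1, h2⟩ := hTL (Fin r) s td (GL (Fin m) F) x y d w hw
    rw [hev, ← map_pow]
    have h3 : ev2 (td.T1 x y) (td.T2 x y) w ^ k₀ = 1 := by
      refine Wr.ext ?_ ?_
      · funext p
        rw [WGP.pow_f _ h1]
        obtain ⟨u, hu, he⟩ := h2 p
        rw [he, hsq u hu]
        rfl
      · rw [WGP.pow_s _ h1]
        rfl
    rw [h3, map_one]
  · have hbase : ∀ v : Fin r × Fin m → F, (∀ w ∈ derivedSeries F2 (s + d),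
        (f (ev2 (td.T1 x y) (td.T2 x y) w) : Matrix (Fin r × Fin m) (Fin r × Fin m) F) *ᵥ v = v) →
        (fun a => v (td.d0, a)) = 0 := by
      intro v hv
      refine hfix _ fun u hu => ?_
      obtain ⟨w, hw, he⟩ := hTF (Fin r) s td (GL (Fin m) F) x y d hgg d u hu
      obtain ⟨h1, -⟩ := hTL (Fin r) s td (GL (Fin m) F) x y d w hw
      funext a
      have h2 := congrFun (hv w hw) (td.d0, a)
      show _ = v (td.d0, a)
      rw [← h2, ← he]
      show _ = ∑ q : Fin r × Fin m,
        (f (ev2 (td.T1 x y) (td.T2 x y) w) : Matrix (Fin r × Fin m) (Fin r × Fin m) F)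
          (td.d0, a) q * v q
      rw [Fintype.sum_prod_type, Finset.sum_eq_single td.d0]
      · show ∑ b : Fin m, _ = _
        refine Finset.sum_congr rfl fun b _ => ?_
        rw [hf, h1, Equiv.Perm.one_apply, if_pos rfl]
      · intro j _ hj
        refine Finset.sum_eq_zero fun b _ => ?_
        rw [hf, h1, Equiv.Perm.one_apply, if_neg (Ne.symm hj), zero_mul]
      · intro h
        exact absurd (Finset.mem_univ _) h
    intro v hv
    have hv' : ∀ w ∈ derivedSeries F2 (s + d),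
        (f (ev2 (td.T1 x y) (td.T2 x y) w) : Matrix (Fin r × Fin m) (Fin r × Fin m) F) *ᵥ v = v := by
      intro w hw
      have h := hv w hw
      rw [hev] at h
      exact h
    funext q
    obtain ⟨i, a⟩ := q
    obtain ⟨k, hk⟩ := ht i
    have hks : (ev2 (td.T1 x y) (td.T2 x y) k).s td.d0 = i := by rw [WGP.s_eq, hk]
    set g : GL (Fin r × Fin m) F := f (ev2 (td.T1 x y) (td.T2 x y) k) with hg
    set v' : Fin r × Fin m → F :=
      ((g⁻¹ : GL (Fin r × Fin m) F) : Matrix (Fin r × Fin m) (Fin r × Fin m) F) *ᵥ v with hv'def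
    have h1 : (fun a => v' (td.d0, a)) = 0 := by
      refine hbase v' fun w hw => ?_
      have h2 : k * w * k⁻¹ ∈ derivedSeries F2 (s + d) :=
        (derivedSeries_normal F2 (s + d)).conj_mem w hw k
      have h3 := hv' _ h2
      rw [map_mul, map_mul, map_inv, map_mul, map_mul, map_inv, ← hg] at h3
      have h4 : f (ev2 (td.T1 x y) (td.T2 x y) w) * g⁻¹ =
          g⁻¹ * (g * f (ev2 (td.T1 x y) (td.T2 x y) w) * g⁻¹) := by group
      rw [hv'def, Matrix.mulVec_mulVec, ← Units.val_mul, h4, Units.val_mul,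
        ← Matrix.mulVec_mulVec, h3]
    have h5 : v = (g : Matrix (Fin r × Fin m) (Fin r × Fin m) F) *ᵥ v' := by
      rw [hv'def, Matrix.mulVec_mulVec, ← Units.val_mul, mul_inv_cancel, Units.val_one,
        Matrix.one_mulVec]
    rw [h5]
    show ∑ q : Fin r × Fin m,
      (g : Matrix (Fin r × Fin m) (Fin r × Fin m) F) (i, a) q * v' q = 0
    refine Finset.sum_eq_zero fun q _ => ?_
    rw [hg, hf]
    split_ifs with h6
    · have h7 : q.1 = td.d0 := by
        apply (ev2 (td.T1 x y) (td.T2 x y) k).s.injective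
        rw [hks]
        exact h6.symm
      have h8 : v' q = 0 := by
        have h9 := congrFun h1 q.2
        have h10 : q = (td.d0, q.2) := Prod.ext h7 rfl
        rw [h10]
        exact h9
      rw [h8, mul_zero]
    · rw [zero_mul]

end Pool.Agent.Work.MP_403fb3_lin
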