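import Pool.Agent.Work.MP_403fb3_lin.Interface3

/-!
# Block WRX: block monomial matrices with the formula for the entries (typed by helper98)
-/

set_option autoImplicit false

namespace Pool.Agent.Work.MP_403fb3_lin

open Matrix
open Pool.Agent.Work.MP_403fb3_al_helper9

namespace WRX

variable {F : Type} [Field F] {D : Type} [Fintype D] [DecidableEq D] {m : ℕ}

/-- the block monomial matrix of an element of the wreath product -/
def mat (w : Wr D (GL (Fin m) F)) : Matrix (D × Fin m) (D × Fin m) F :=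
  fun p q => if p.1 = w.s q.1 then (w.f q.1 : Matrix (Fin m) (Fin m) F) p.2 q.2 else 0

theorem mat_one : mat (1 : Wr D (GL (Fin m) F)) = 1 := by
  ext ⟨p1, p2⟩ ⟨q1, q2⟩
  simp only [mat, Wr.one_s, Wr.one_f, Equiv.Perm.coe_one, id_eq, Units.val_one, Matrix.one_apply,
    Prod.mk.injEq]
  by_cases h : p1 = q1 <;> simp [h]

theorem mat_mul (x y : Wr D (GL (Fin m) F)) : mat (x * y) = mat x * mat y := by
  ext ⟨p1, p2⟩ ⟨q1, q2⟩
  rw [Matrix.mul_apply, Fintype.sum_prod_type, Finset.sum_eq_single (y.s q1)]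
  · simp only [mat, Wr.mul_s, Wr.mul_f, Equiv.Perm.mul_apply, if_true, Units.val_mul,
      Matrix.mul_apply]
    by_cases h : p1 = x.s (y.s q1) <;> simp [h]
  · intro r1 _ hr
    apply Finset.sum_eq_zero
    intro r2 _
    simp [mat, hr]
  · intro h
    exact absurd (Finset.mem_univ _) h

/-- the homomorphism into matrices -/
def hom : Wr D (GL (Fin m) F) →* Matrix (D × Fin m) (D × Fin m) F where
  toFun := mat
  map_one' := mat_one
  map_mul' := mat_mul

end WRX

theorem p_WRX : S_WRX := by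
  intro F _ D _ _ m
  refine ⟨(WRX.hom (F := F) (D := D) (m := m)).toHomUnits, ?_⟩
  intro w p q
  rw [MonoidHom.coe_toHomUnits]
  rfl

/-- WR follows -/
theorem WRX.wr : S_WR := by
  intro F _ D _ _ m hm
  obtain ⟨f, hf⟩ := p_WRX F D m
  refine ⟨f, ?_⟩
  intro x y hxy
  have h0 : ∀ p q : D × Fin m, (if p.1 = x.s q.1 then (x.f q.1 : Matrix (Fin m) (Fin m) F) p.2 q.2 else 0) =
      if p.1 = y.s q.1 then (y.f q.1 : Matrix (Fin m) (Fin m) F) p.2 q.2 else 0 := by
    intro p q
    rw [← hf, ← hf, hxy]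
  have hs : ∀ d : D, x.s d = y.s d := by
    intro d
    by_contra hne
    have h1 : ∀ i j : Fin m, (x.f d : Matrix (Fin m) (Fin m) F) i j = 0 := by
      intro i j
      have h2 := h0 (x.s d, i) (d, j)
      simpa [hne] using h2
    have h2 : (x.f d : Matrix (Fin m) (Fin m) F) = 0 := by
      ext i j
      exact h1 i j
    have h3 : (x.f d : Matrix (Fin m) (Fin m) F) * ((x.f d)⁻¹ : GL (Fin m) F) = 1 := by
      rw [← Units.val_mul, mul_inv_cancel, Units.val_one]
    rw [h2, Matrix.zero_mul] at h3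
    have h4 := congrFun (congrFun h3 ⟨0, hm⟩) ⟨0, hm⟩
    simp at h4
  apply Wr.ext
  · funext d
    apply Units.ext
    ext i j
    have h2 := h0 (x.s d, i) (d, j)
    simpa [hs d] using h2
  · ext d
    exact hs d

end Pool.Agent.Work.MP_403fb3_lin
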