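import Pool.Agent.Work.MP_403fb3_lin.PM

/-!
# Even permutations in the commutator subgroup of the orthogonal group (block OM)
-/

set_option autoImplicit false

namespace Pool.Agent.Work.MP_403fb3_lin

open Matrix

namespace OM

variable (F : Type) [Field F] (n : ℕ)

theorem hom_mem (σ : Equiv.Perm (Fin n)) : PM.hom F n σ ∈ orthogonalGroup (Fin n) F := by
  rw [mem_orthogonalGroup_iff']
  ext i j
  rw [mul_apply, one_apply]
  simp only [transpose_apply, PM.hom_apply]
  rw [Finset.sum_eq_single (σ i)]
  · simp
  · intro b _ hb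
    simp [hb]
  · intro h
    exact absurd (Finset.mem_univ _) h

/-- the permutation matrices in the orthogonal group -/
def homO : Equiv.Perm (Fin n) →* ↥(orthogonalGroup (Fin n) F) :=
  (PM.hom F n).codRestrict (orthogonalGroup (Fin n) F) (hom_mem F n)

theorem homO_inj : Function.Injective (homO F n) := by
  intro σ τ h
  have h' : PM.hom F n σ = PM.hom F n τ := congrArg Subtype.val h
  ext j
  have h1 := congrFun (congrFun h' (σ j)) j
  rw [PM.hom_apply, PM.hom_apply, if_pos rfl] at h1
  by_contra hne
  rw [if_neg (fun e => hne (by rw [e]))] at h1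
  exact one_ne_zero h1

theorem homO_mem (hn : 5 ≤ n) (σ : alternatingGroup (Fin n)) :
    homO F n (σ : Equiv.Perm (Fin n)) ∈ commutator ↥(orthogonalGroup (Fin n) F) := by
  have h1 : (σ : Equiv.Perm (Fin n)) ∈ commutator (Equiv.Perm (Fin n)) := by
    rw [alternatingGroup.commutator_perm_eq (by simpa using hn)]
    exact σ.2
  have h2 : (commutator (Equiv.Perm (Fin n))).map (homO F n) ≤
      commutator ↥(orthogonalGroup (Fin n) F) := by
    rw [commutator_def, Subgroup.map_commutator, commutator_def]
    exact Subgroup.commutator_mono le_top le_top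
  exact h2 (Subgroup.mem_map_of_mem _ h1)

/-- the even permutations in the commutator subgroup -/
def homC (hn : 5 ≤ n) : alternatingGroup (Fin n) →* ↥(commutator ↥(orthogonalGroup (Fin n) F)) :=
  ((homO F n).comp (alternatingGroup (Fin n)).subtype).codRestrict _ (homO_mem F n hn)

theorem homC_inj (hn : 5 ≤ n) : Function.Injective (homC F n hn) := by
  intro σ τ h
  have h' : homO F n (σ : Equiv.Perm (Fin n)) = homO F n (τ : Equiv.Perm (Fin n)) :=
    congrArg Subtype.val h
  exact Subtype.ext (homO_inj F n h')

end OM

theorem p_OM : S_OM := by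
  intro F _ n hn
  refine ⟨(QuotientGroup.mk' _).comp (OM.homC F n hn), ?_⟩
  rw [injective_iff_map_eq_one]
  intro σ h
  have h1 : OM.homC F n hn σ ∈ Subgroup.center ↥(commutator ↥(orthogonalGroup (Fin n) F)) :=
    (QuotientGroup.eq_one_iff _).1 h
  have h2 : σ ∈ Subgroup.center (alternatingGroup (Fin n)) := by
    rw [Subgroup.mem_center_iff]
    intro τ
    refine OM.homC_inj F n hn ?_
    rw [map_mul, map_mul]
    exact Subgroup.mem_center_iff.1 h1 _
  rw [alternatingGroup.center_eq_bot (by simpa using (by omega : 4 ≤ n)),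
    Subgroup.mem_bot] at h2
  exact h2

end Pool.Agent.Work.MP_403fb3_lin

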