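import Pool.Agent.Work.MP_403fb3_lin.Interface

/-!
# Permutation matrices (block PM)
-/

set_option autoImplicit false

namespace Pool.Agent.Work.MP_403fb3_lin

open Matrix

namespace PM

variable {F : Type} [Field F] {n : ℕ}

/-- the permutation matrices as a homomorphism of monoids -/
def hom (F : Type) [Field F] (n : ℕ) : Equiv.Perm (Fin n) →* Matrix (Fin n) (Fin n) F where
  toFun σ := Matrix.of fun i j => if i = σ j then 1 else 0
  map_one' := by
    ext i j
    simp [Matrix.one_apply]
  map_mul' σ τ := by
    ext i j
    simp only [Matrix.mul_apply, Matrix.of_apply, Equiv.Perm.mul_apply]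
    rw [Finset.sum_eq_single (τ j)]
    · simp
    · intro b _ hb
      simp [hb]
    · intro h
      exact absurd (Finset.mem_univ _) h

theorem hom_apply (σ : Equiv.Perm (Fin n)) (i j : Fin n) :
    hom F n σ i j = if i = σ j then 1 else 0 := rfl

theorem det_hom (σ : Equiv.Perm (Fin n)) :
    (hom F n σ).det = ((Equiv.Perm.sign σ : ℤˣ) : ℤ) := by
  have h : hom F n σ = (σ⁻¹).permMatrix F := by
    ext i j
    rw [hom_apply]
    simp only [Equiv.Perm.permMatrix, PEquiv.toMatrix_apply, Equiv.toPEquiv_apply,
      Option.mem_def, Option.some.injEq]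
    congr 1
    rw [eq_iff_iff]
    constructor
    · rintro rfl
      simp
    · rintro rfl
      simp
  rw [h, Matrix.det_permutation, Equiv.Perm.sign_inv]

end PM

theorem p_PM : S_PM := by
  intro F _ n
  refine ⟨(PM.hom F n).toHomUnits, ?_, ?_⟩
  · intro σ
    exact PM.det_hom σ
  · intro σ c h
    have h' : PM.hom F n σ = scalar (Fin n) c := h
    ext j
    have h1 := congrFun (congrFun h' (σ j)) j
    rw [PM.hom_apply, if_pos rfl] at h1
    by_contra hne
    have h2 : σ j ≠ j := fun e => hne (by rw [e]; rfl)
    rw [scalar_apply, diagonal_apply_ne _ h2] at h1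
    exact one_ne_zero h1

end Pool.Agent.Work.MP_403fb3_lin
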