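import Pool.Agent.Work.MP_403fb3_lin.Interface

/-!
# Even permutations in the projective special unitary groups (block SU)
-/

set_option autoImplicit false

namespace Pool.Agent.Work.MP_403fb3_lin

open Matrix

namespace SU

variable {F : Type} [Field F] {n : ℕ}

/-- permutation matrices -/
def pm (F : Type) [Field F] (n : ℕ) : Equiv.Perm (Fin n) →* Matrix (Fin n) (Fin n) F where
  toFun σ := Matrix.of fun i j => if i = σ j then 1 else 0
  map_one' := by
    ext i j
    rw [Matrix.of_apply, Matrix.one_apply]
    by_cases h : i = j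
    · rw [if_pos h, if_pos (by rw [h]; rfl)]
    · rw [if_neg h, if_neg (fun e => h (by rw [e]; rfl))]
  map_mul' σ τ := by
    ext i j
    simp only [Matrix.mul_apply, Matrix.of_apply, Equiv.Perm.mul_apply]
    rw [Finset.sum_eq_single (τ j)]
    · rw [if_pos rfl, mul_one]
      rfl
    · intro b _ hb
      rw [if_neg hb, mul_zero]
    · intro h
      exact absurd (Finset.mem_univ _) h

theorem pm_apply (σ : Equiv.Perm (Fin n)) (i j : Fin n) :
    pm F n σ i j = if i = σ j then 1 else 0 := rfl

theorem det_pm (σ : Equiv.Perm (Fin n)) :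
    (pm F n σ).det = ((Equiv.Perm.sign σ : ℤˣ) : ℤ) := by
  have h : pm F n σ = (σ⁻¹).permMatrix F := by
    ext i j
    rw [pm_apply]
    simp only [Equiv.Perm.permMatrix, PEquiv.toMatrix_apply, Equiv.toPEquiv_apply,
      Option.mem_def, Option.some.injEq]
    congr 1
    rw [eq_iff_iff]
    constructor
    · rintro rfl
      simp
    · rintro rfl
      simp
  rw [h, Matrix.det_permutation, Equiv.Perm.sign_inv]

theorem pm_inj : Function.Injective (pm F n) := by
  intro σ τ h
  ext j
  have h1 := congrFun (congrFun h (σ j)) j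
  rw [pm_apply, pm_apply, if_pos rfl] at h1
  by_contra hne
  have h2 : σ j ≠ τ j := fun e => hne (by rw [e])
  rw [if_neg h2] at h1
  exact one_ne_zero h1

theorem star_pm [StarRing F] (σ : Equiv.Perm (Fin n)) : star (pm F n σ) = pm F n σ⁻¹ := by
  ext i j
  rw [Matrix.star_apply, pm_apply, pm_apply]
  have h : (j = σ i) ↔ (i = σ⁻¹ j) := by
    constructor
    · rintro rfl
      simp
    · rintro rfl
      simp
  by_cases h1 : j = σ i
  · rw [if_pos h1, if_pos (h.1 h1), star_one]
  · rw [if_neg h1, if_neg (fun e => h1 (h.2 e)), star_zero]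

/-- even permutations -/
def alt (F : Type) [Field F] [StarRing F] (n : ℕ) :
    alternatingGroup (Fin n) →* specialUnitaryGroup (Fin n) F where
  toFun σ := ⟨pm F n σ.1, by
    rw [mem_specialUnitaryGroup_iff]
    refine ⟨?_, ?_⟩
    · rw [mem_unitaryGroup_iff, star_pm, ← map_mul, mul_inv_cancel, map_one]
    · rw [det_pm, Equiv.Perm.mem_alternatingGroup.1 σ.2]
      simp⟩
  map_one' := Subtype.ext (map_one _)
  map_mul' σ τ := Subtype.ext (map_mul (pm F n) σ.1 τ.1)

theorem alt_inj [StarRing F] : Function.Injective (alt F n) := by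
  intro σ τ h
  exact Subtype.ext (pm_inj (congrArg Subtype.val h))

end SU

theorem p_SU : S_SU := by
  intro F _ _ n hn
  refine ⟨(QuotientGroup.mk' _).comp (SU.alt F n), ?_⟩
  rw [injective_iff_map_eq_one]
  intro σ h
  rw [MonoidHom.comp_apply, QuotientGroup.mk'_apply, QuotientGroup.eq_one_iff, Subgroup.mem_center_iff] at h
  have h1 : σ ∈ Subgroup.center (alternatingGroup (Fin n)) := by
    rw [Subgroup.mem_center_iff]
    intro τ
    apply SU.alt_inj (F := F)
    rw [map_mul, map_mul]
    exact h _
  rw [alternatingGroup.center_eq_bot (by rw [Nat.card_eq_fintype_card, Fintype.card_fin]; exact hn),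
    Subgroup.mem_bot] at h1
  exact h1

end Pool.Agent.Work.MP_403fb3_lin
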