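import Pool.Agent.Work.MP_403fb3_al_helper9.Final
import Pool.Agent.Work.MP_403fb3_al.TwoGen

/-!
# Two-generator soluble subgroups of linear groups: statements of the blocks
-/

set_option autoImplicit false

namespace Pool.Agent.Work.MP_403fb3_lin

open Matrix
open Pool.Agent.Work.MP_403fb3_al_helper9

/-- WR: the wreath product with a linear group acts on the direct sum of the blocks -/
def S_WR : Prop := ∀ (F : Type) [Field F] (D : Type) [Fintype D] [DecidableEq D] (m : ℕ), 0 < m →
  ∃ f : Wr D (GL (Fin m) F) →* GL (D × Fin m) F, Function.Injective f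

/-- PAD: renaming of the index set and a larger dimension -/
def S_PAD : Prop := ∀ (F : Type) [Field F] (ι : Type) [Fintype ι] [DecidableEq ι] (n : ℕ),
  Fintype.card ι ≤ n → ∃ f : GL ι F →* GL (Fin n) F, Function.Injective f

/-- PSL: `g ↦ diag (g, (det g)⁻¹, 1)` modulo scalars -/
def S_PSL : Prop := ∀ (F : Type) [Field F] (n : ℕ),
  ∃ f : GL (Fin n) F →* ProjectiveSpecialLinearGroup (Fin (n + 2)) F, Function.Injective f

/-- PSP: `g ↦ diag (g, (g⁻¹)ᵀ)` modulo the centre of the symplectic group -/
def S_PSP : Prop := ∀ (F : Type) [Field F] (n : ℕ),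
  ∃ f : GL (Fin n) F →* ↥(symplecticGroup (Fin n) F) ⧸ Subgroup.center ↥(symplecticGroup (Fin n) F),
    ∀ g : GL (Fin n) F, f g = 1 → ∃ c : F, (g : Matrix (Fin n) (Fin n) F) = scalar (Fin n) c

/-- PM: permutation matrices -/
def S_PM : Prop := ∀ (F : Type) [Field F] (n : ℕ),
  ∃ f : Equiv.Perm (Fin n) →* GL (Fin n) F,
    (∀ σ, (f σ : Matrix (Fin n) (Fin n) F).det = ((Equiv.Perm.sign σ : ℤˣ) : ℤ)) ∧
    ∀ (σ : Equiv.Perm (Fin n)) (c : F), (f σ : Matrix (Fin n) (Fin n) F) = scalar (Fin n) c → σ = 1

/-- QU: a soluble group of derived length 4 with two generators in dimension 2, odd characteristic -/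
def S_QU : Prop := ∀ (F : Type) [Field F] [Finite F], (2 : F) ≠ 0 → ∃ a b : GL (Fin 2) F, GG a b 3

/-- SU: even permutations in the projective special unitary groups -/
def S_SU : Prop := ∀ (F : Type) [Field F] [StarRing F] (n : ℕ), 4 ≤ n →
  ∃ f : alternatingGroup (Fin n) →* ↥(specialUnitaryGroup (Fin n) F) ⧸
    Subgroup.center ↥(specialUnitaryGroup (Fin n) F), Function.Injective f

/-- OM: even permutations in the commutator subgroup of the orthogonal group, modulo its centre -/
def S_OM : Prop := ∀ (F : Type) [Field F] (n : ℕ), 5 ≤ n →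
  ∃ f : alternatingGroup (Fin n) →* ↥(commutator ↥(orthogonalGroup (Fin n) F)) ⧸
    Subgroup.center ↥(commutator ↥(orthogonalGroup (Fin n) F)), Function.Injective f

end Pool.Agent.Work.MP_403fb3_lin
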