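import Pool.Agent.Work.MP_403fb3_lin.Interface3

/-!
# One more step by translations (block AF)
-/

set_option autoImplicit false

namespace Pool.Agent.Work.MP_403fb3_lin

open Matrix Subgroup
open Pool.Agent.Work.MP_403fb3_al_helper9
open scoped commutatorElement

namespace AF

variable {F : Type} [Field F] {n : ℕ}

/-- the matrix of the affine map `v ↦ g v + v0` -/
def Mx (g : Matrix (Fin n) (Fin n) F) (v : Fin n → F) : Matrix (Fin n ⊕ Unit) (Fin n ⊕ Unit) F :=
  fromBlocks g (Matrix.of fun i _ => v i) 0 1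

theorem Mx_mul (g h : Matrix (Fin n) (Fin n) F) (v w : Fin n → F) :
    Mx g v * Mx h w = Mx (g * h) (g *ᵥ w + v) := by
  rw [Mx, Mx, Mx, fromBlocks_multiply]
  congr 1
  · simp
  · ext i j
    simp [Matrix.mul_apply, mulVec, dotProduct]
  · simp
  · simp

theorem Mx_one : Mx (1 : Matrix (Fin n) (Fin n) F) 0 = 1 := by
  rw [Mx, ← fromBlocks_one]
  congr 1

/-- the same in the general linear group -/
def Ux (g : GL (Fin n) F) (v : Fin n → F) : GL (Fin n ⊕ Unit) F where
  val := Mx g v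
  inv := Mx (g⁻¹ : GL (Fin n) F) (-((g⁻¹ : GL (Fin n) F) : Matrix (Fin n) (Fin n) F) *ᵥ v)
  val_inv := by
    rw [Mx_mul, ← Units.val_mul, mul_inv_cancel, Units.val_one, neg_mulVec, mulVec_neg, mulVec_mulVec,
      ← Units.val_mul, mul_inv_cancel, Units.val_one, one_mulVec, neg_add_cancel, Mx_one]
  inv_val := by
    rw [Mx_mul, ← Units.val_mul, inv_mul_cancel, Units.val_one, neg_mulVec, add_neg_cancel, Mx_one]

theorem Ux_mul (g h : GL (Fin n) F) (v w : Fin n → F) :
    Ux g v * Ux h w = Ux (g * h) ((g : Matrix (Fin n) (Fin n) F) *ᵥ w + v) :=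
  Units.ext (Mx_mul _ _ _ _)

theorem Ux_one : Ux (1 : GL (Fin n) F) 0 = 1 := Units.ext Mx_one

theorem Ux_inv (g : GL (Fin n) F) (v : Fin n → F) : (Ux g v)⁻¹ =
    Ux g⁻¹ (-((g⁻¹ : GL (Fin n) F) : Matrix (Fin n) (Fin n) F) *ᵥ v) := by
  refine inv_eq_of_mul_eq_one_right ?_
  rw [Ux_mul, mul_inv_cancel, neg_mulVec, mulVec_neg, mulVec_mulVec,
      ← Units.val_mul, mul_inv_cancel, Units.val_one, one_mulVec, neg_add_cancel, Ux_one]

theorem Ux_inj {g h : GL (Fin n) F} {v w : Fin n → F} (e : Ux g v = Ux h w) : v = w := by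
  funext i
  have h1 := congrArg (fun m : GL (Fin n ⊕ Unit) F =>
    (m : Matrix (Fin n ⊕ Unit) (Fin n ⊕ Unit) F) (Sum.inl i) (Sum.inr ())) e
  exact h1

theorem rep (x y : GL (Fin n) F) (v1 v2 : Fin n → F) (w : F2) :
    ∃ v, ev2 (Ux x v1) (Ux y v2) w = Ux (ev2 x y w) v := by
  induction w using FreeGroup.induction_on with
  | C1 => exact ⟨0, by rw [map_one, map_one, Ux_one]⟩
  | of i =>
    fin_cases i
    · exact ⟨v1, by
        change ev2 (Ux x v1) (Ux y v2) (FreeGroup.of 0) = Ux (ev2 x y (FreeGroup.of 0)) v1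
        rw [ev2_zero, ev2_zero]⟩
    · exact ⟨v2, by
        change ev2 (Ux x v1) (Ux y v2) (FreeGroup.of 1) = Ux (ev2 x y (FreeGroup.of 1)) v2
        rw [ev2_one, ev2_one]⟩
  | inv_of i ih =>
    obtain ⟨v, hv⟩ := ih
    exact ⟨_, by rw [map_inv, map_inv, hv, Ux_inv]⟩
  | mul a b iha ihb =>
    obtain ⟨v, hv⟩ := iha
    obtain ⟨w, hw⟩ := ihb
    exact ⟨_, by rw [map_mul, map_mul, hv, hw, Ux_mul]⟩

/-- the translations are coboundaries if the commutators of `derivedSeries F2 d` act trivially -/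
theorem cob [Finite F] {d : ℕ} (h2 : (2 : F) ≠ 0) {x y : GL (Fin n) F}
    (hsq : ∀ w ∈ derivedSeries F2 d, ev2 x y w * ev2 x y w = 1)
    (hfix : ∀ v : Fin n → F, (∀ w ∈ derivedSeries F2 d,
      (ev2 x y w : Matrix (Fin n) (Fin n) F) *ᵥ v = v) → v = 0) (v1 v2 : Fin n → F)
    (hall : ∀ w ∈ derivedSeries F2 (d + 1), ev2 (Ux x v1) (Ux y v2) w = 1) :
    ∃ c : Fin n → F, c - (x : Matrix (Fin n) (Fin n) F) *ᵥ c = v1 ∧
      c - (y : Matrix (Fin n) (Fin n) F) *ᵥ c = v2 := by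
  classical
  choose dl hdl using rep x y v1 v2
  let e : F2 → Matrix (Fin n) (Fin n) F := fun w => (ev2 x y w : Matrix (Fin n) (Fin n) F)
  have he : ∀ a b, e (a * b) = e a * e b := by
    intro a b
    simp only [e, map_mul, Units.val_mul]
  have hmul : ∀ a b, dl (a * b) = e a *ᵥ dl b + dl a := by
    intro a b
    refine Ux_inj (g := ev2 x y (a * b)) (h := ev2 x y a * ev2 x y b) ?_
    rw [← hdl, map_mul, hdl a, hdl b, Ux_mul]
  have hcomm : ∀ a ∈ derivedSeries F2 d, ∀ b ∈ derivedSeries F2 d,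
      e a *ᵥ dl b + dl a = e b *ᵥ dl a + dl b := by
    intro a ha b hb
    rw [← hmul, ← hmul]
    have h1 : ⁅a, b⁆ ∈ derivedSeries F2 (d + 1) := by
      rw [derivedSeries_succ]
      exact commutator_mem_commutator ha hb
    have h3 := hall _ h1
    rw [map_commutatorElement, commutatorElement_eq_one_iff_mul_comm, ← map_mul, ← map_mul,
      hdl, hdl] at h3
    exact Ux_inj h3
  -- the finite group
  let E : Subgroup (GL (Fin n) F) := (derivedSeries F2 d).map (ev2 x y)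
  have : Finite (GL (Fin n) F) := inferInstance
  letI : Fintype E := Fintype.ofFinite _
  have hE2 : IsPGroup 2 E := by
    rintro ⟨g, hg⟩
    obtain ⟨w, hw, rfl⟩ := hg
    refine ⟨1, Subtype.ext ?_⟩
    have := hsq w hw
    simp only [pow_one, Subgroup.coe_one, pow_two]
    exact this
  have hcard : ((Fintype.card E : ℕ) : F) ≠ 0 := by
    obtain ⟨k, hk⟩ := IsPGroup.iff_card.1 hE2
    rw [Nat.card_eq_fintype_card] at hk
    rw [hk]
    push_cast
    exact pow_ne_zero _ h2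
  have hch : ∀ g : E, ∃ w ∈ derivedSeries F2 d, ev2 x y w = g := by
    rintro ⟨g, w, hw, rfl⟩
    exact ⟨w, hw, rfl⟩
  choose ww hww hwe using hch
  let S : Matrix (Fin n) (Fin n) F := ∑ g : E, ((g : GL (Fin n) F) : Matrix (Fin n) (Fin n) F)
  let C : Fin n → F := ∑ g : E, dl (ww g)
  have hS : ∀ w ∈ derivedSeries F2 d, e w * S = S := by
    intro w hw
    simp only [S]
    rw [Finset.mul_sum]
    let g0 : E := ⟨ev2 x y w, w, hw, rfl⟩
    refine Fintype.sum_equiv (Equiv.mulLeft g0) _ _ fun g => ?_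
    simp only [Equiv.coe_mulLeft, Subgroup.coe_mul, Units.val_mul]
    rfl
  have hSz : ∀ v : Fin n → F, S *ᵥ v = 0 := by
    intro v
    refine hfix _ fun w hw => ?_
    have := hS w hw
    change e w *ᵥ (S *ᵥ v) = _
    rw [mulVec_mulVec, this]
  have hC : ∀ w ∈ derivedSeries F2 d, ((Fintype.card E : ℕ) : F) • dl w = C - e w *ᵥ C := by
    intro w hw
    have h1 : ∑ g : E, (e w *ᵥ dl (ww g) + dl w) =
        ∑ g : E, (((g : GL (Fin n) F) : Matrix (Fin n) (Fin n) F) *ᵥ dl w + dl (ww g)) := by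
      refine Finset.sum_congr rfl fun g _ => ?_
      rw [hcomm w hw (ww g) (hww g)]
      simp only [e, hwe]
    rw [Finset.sum_add_distrib, Finset.sum_add_distrib, ← mulVec_sum, ← sum_mulVec] at h1
    have h3 : (∑ g : E, ((g : GL (Fin n) F) : Matrix (Fin n) (Fin n) F)) *ᵥ dl w = 0 := hSz (dl w)
    rw [h3, zero_add, Finset.sum_const, Finset.card_univ, ← Nat.cast_smul_eq_nsmul F] at h1
    exact eq_sub_of_add_eq' h1
  let c : Fin n → F := ((Fintype.card E : ℕ) : F)⁻¹ • C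
  have hc : ∀ w ∈ derivedSeries F2 d, dl w = c - e w *ᵥ c := by
    intro w hw
    have h1 := hC w hw
    have h3 : dl w = ((Fintype.card E : ℕ) : F)⁻¹ • (C - e w *ᵥ C) := by
      rw [← h1, smul_smul, inv_mul_cancel₀ hcard, one_smul]
    rw [h3, smul_sub, ← mulVec_smul]
  have hg : ∀ g : F2, dl g = c - e g *ᵥ c := by
    intro g
    have hu : dl g + e g *ᵥ c - c = 0 := by
      refine hfix _ fun w' hw' => ?_
      change e w' *ᵥ _ = _
      have hw : g⁻¹ * w' * g ∈ derivedSeries F2 d := by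
        have := (derivedSeries_normal F2 d).conj_mem w' hw' g⁻¹
        simpa using this
      have e1 : dl (w' * g) = dl (g * (g⁻¹ * w' * g)) := by
        congr 1
        group
      rw [hmul, hmul, hc _ hw, hc _ hw', mulVec_sub, mulVec_mulVec, ← he,
        show g * (g⁻¹ * w' * g) = w' * g by group, he] at e1
      rw [mulVec_sub, mulVec_add, mulVec_mulVec]
      have e2 := sub_eq_zero.2 e1
      rw [← sub_eq_zero, ← e2]
      abel
    exact eq_sub_of_add_eq (sub_eq_zero.1 hu)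
  refine ⟨c, ?_, ?_⟩
  · have h1 := hg (FreeGroup.of 0)
    have h3 : dl (FreeGroup.of 0) = v1 := by
      have := hdl (FreeGroup.of 0)
      rw [ev2_zero] at this
      exact (Ux_inj this).symm
    rw [← h3, h1]
    simp only [e, ev2_zero]
  · have h1 := hg (FreeGroup.of 1)
    have h3 : dl (FreeGroup.of 1) = v2 := by
      have := hdl (FreeGroup.of 1)
      rw [ev2_one] at this
      exact (Ux_inj this).symm
    rw [← h3, h1]
    simp only [e, ev2_one]

end AF

theorem p_AF : S_AF := by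
  intro F _ _ n d h2 hn ⟨x, y, hGG, hsq, hfix⟩
  have hex : ∃ v1 v2 : Fin n → F, ∃ w ∈ derivedSeries F2 (d + 1),
      ev2 (AF.Ux x v1) (AF.Ux y v2) w ≠ 1 := by
    by_contra hcon
    push Not at hcon
    have hsurj : Function.Surjective (fun c : Fin n → F =>
        (c - (x : Matrix (Fin n) (Fin n) F) *ᵥ c, c - (y : Matrix (Fin n) (Fin n) F) *ᵥ c)) := by
      rintro ⟨v1, v2⟩
      obtain ⟨c, hc1, hc2⟩ := AF.cob h2 hsq hfix v1 v2 (hcon v1 v2)
      exact ⟨c, Prod.ext hc1 hc2⟩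
    have h1 := Nat.card_le_card_of_surjective _ hsurj
    rw [Nat.card_prod] at h1
    have : Nonempty (Fin n) := ⟨⟨0, hn⟩⟩
    have h3 : 1 < Nat.card (Fin n → F) := Finite.one_lt_card
    nlinarith
  obtain ⟨v1, v2, w0, hw0, hne⟩ := hex
  refine ⟨AF.Ux x v1, AF.Ux y v2, ⟨?_, w0, hw0, hne⟩, ?_⟩
  · have hle : derivedSeries F2 (d + 1 + 1) ≤ (ev2 (AF.Ux x v1) (AF.Ux y v2)).ker := by
      rw [derivedSeries_succ, commutator_le]
      intro a ha b hb
      rw [MonoidHom.mem_ker, map_commutatorElement, commutatorElement_eq_one_iff_mul_comm]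
      obtain ⟨v, hv⟩ := AF.rep x y v1 v2 a
      obtain ⟨v', hv'⟩ := AF.rep x y v1 v2 b
      rw [hv, hv', hGG.1 a ha, hGG.1 b hb, AF.Ux_mul, AF.Ux_mul, Units.val_one, one_mulVec,
        one_mulVec, add_comm]
    intro w hw
    exact MonoidHom.mem_ker.1 (hle hw)
  · intro w
    obtain ⟨v, hv⟩ := AF.rep x y v1 v2 w
    rw [hv]
    rfl

end Pool.Agent.Work.MP_403fb3_lin

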