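import Pool.Agent.Work.MP_403fb3_lin.B8Def

/-!
# The words for the base group in dimension eight: statement
-/

set_option autoImplicit false

namespace Pool.Agent.Work.MP_403fb3_lin

open Matrix Subgroup
open Pool.Agent.Work.MP_403fb3_al_helper9

/-- `g` acts by conjugation as `Y P` -/
def B8.ActsAs {R : Type} [Ring R] (Y : ℕ → R) (g : Rˣ) (P : ℕ) : Prop :=
  ∀ p < 128, (B8.pm P p = B8.pm p P → (g : R) * Y p = Y p * g) ∧
    (B8.pm P p ≠ B8.pm p P → (g : R) * Y p = Y (p ^^^ 1) * g)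

/-- B8W: two words; `Y 52` and `Y 74` anticommute (`pm 52 74 = pm 74 52 ^^^ 1`) -/
def S_B8W : Prop := ∀ (R : Type) [Ring R] (Y : ℕ → R) (x y : Rˣ),
  B8.Rel Y x B8.Tx B8.Ux → B8.Rel Y y B8.Ty B8.Uy →
  ∃ w ∈ derivedSeries F2 6, ∃ w' ∈ derivedSeries F2 6,
    B8.ActsAs Y (ev2 x y w) 52 ∧ B8.ActsAs Y (ev2 x y w') 74

end Pool.Agent.Work.MP_403fb3_lin
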