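import Pool.Agent.Work.MP_403fb3_lin.Interface

/-!
# Two-generator soluble subgroups of linear groups: assembly
-/

set_option autoImplicit false

namespace Pool.Agent.Work.MP_403fb3_lin

open Matrix Subgroup
open Pool.Agent.Work.MP_403fb3_al_helper9

/-- derived length exactly `d` -/
def HL {G : Type} [Group G] (K : Subgroup G) (d : ℕ) : Prop :=
  derivedSeries K d = ⊥ ∧ ∀ m < d, derivedSeries K m ≠ ⊥

/-- the conclusion of the question -/
def InVar (G : Type) [Group G] (d : ℕ) : Prop :=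
  ∃ (H : Type) (_ : Group H),
    (∀ (k : ℕ) (w : FreeGroup (Fin k)),
        (∀ f : Fin k → G, FreeGroup.lift f w = 1) →
          ∀ f : Fin k → H, FreeGroup.lift f w = 1) ∧
    (∃ a b : H, Subgroup.closure ({a, b} : Set H) = ⊤) ∧
    derivedSeries H d = ⊥ ∧ ∀ m < d, derivedSeries H m ≠ ⊥

/-- `GG` from the subgroup generated -/
theorem GG_of_closure {G : Type} [Group G] {a b : G} {d : ℕ}
    (h : HL (closure ({a, b} : Set G)) (d + 1)) : GG a b d := by
  obtain ⟨h1, h2⟩ := h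
  set R := Subgroup.closure ({a, b} : Set G) with hR
  let a' : R := ⟨a, subset_closure (by simp)⟩
  let b' : R := ⟨b, subset_closure (by simp)⟩
  have hsub : ∀ w, ((ev2 a' b' w : R) : G) = ev2 a b w := fun w => ev2_comp R.subtype a' b' w
  have hsurj : Function.Surjective (ev2 a' b') := by
    have hle : R ≤ (ev2 a b).range := by
      rw [hR, closure_le]
      rintro x (rfl | rfl)
      · exact ⟨FreeGroup.of 0, by simp⟩
      · exact ⟨FreeGroup.of 1, by simp⟩
    rintro ⟨x, hx⟩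
    obtain ⟨w, rfl⟩ := hle hx
    exact ⟨w, Subtype.ext (hsub w)⟩
  constructor
  · intro w hw
    have h3 : ev2 a' b' w ∈ derivedSeries R (d + 1) :=
      map_derivedSeries_le_derivedSeries _ _ (Subgroup.mem_map_of_mem _ hw)
    rw [h1, Subgroup.mem_bot] at h3
    rw [← hsub, h3]
    rfl
  · by_contra hcon
    push Not at hcon
    apply h2 d (by omega)
    rw [← map_derivedSeries_eq hsurj, eq_bot_iff]
    rintro _ ⟨w, hw, rfl⟩
    rw [Subgroup.mem_bot]
    apply Subtype.ext
    exact (hsub w).trans (hcon w hw)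

/-- a pair in a subgroup isomorphic to a given group -/
def Has (G : Type) [Group G] (d : ℕ) : Prop := ∃ a b : G, GG a b d

theorem Has.map {G G' : Type} [Group G] [Group G'] {d : ℕ} (h : Has G d) (f : G →* G')
    (hf : Function.Injective f) : Has G' d := by
  obtain ⟨a, b, h⟩ := h
  exact ⟨f a, f b, h.map f hf⟩

theorem Has.closure {G : Type} [Group G] {d : ℕ} (h : Has G d) :
    ∃ x y : G, HL (Subgroup.closure ({x, y} : Set G)) (d + 1) := by
  obtain ⟨a, b, h⟩ := h
  exact ⟨a, b, h.closure⟩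

theorem has_of_closure {G : Type} [Group G] {d : ℕ}
    (h : ∃ x y : G, HL (Subgroup.closure ({x, y} : Set G)) (d + 1)) : Has G d := by
  obtain ⟨a, b, h⟩ := h
  exact ⟨a, b, GG_of_closure h⟩

theorem inVar_exact {G : Type} [Group G] {d : ℕ}
    (h : ∃ x y : G, HL (Subgroup.closure ({x, y} : Set G)) d) : InVar G d := by
  obtain ⟨x, y, h⟩ := h
  exact variety_of_pair x y h

theorem inVar_zero (G : Type) [Group G] : InVar G 0 :=
  inVar_exact ⟨1, 1, closure_one_one G, fun m hm => absurd hm (Nat.not_lt_zero m)⟩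

theorem Has.inVar {G : Type} [Group G] [Finite G] {D d : ℕ} (h : Has G D) (hd : d ≤ D + 1) :
    InVar G d := by
  obtain ⟨x, y, h1, h2⟩ := h.closure
  refine (Pool.Agent.Work.MP_403fb3_al.iff_subgroup G d).2 ⟨x, y, ?_, fun m hm => h2 m (by omega)⟩
  exact (Group.isSolvable_def _).mpr ⟨_, h1⟩

/-! ### amplification -/

theorem has_pos {F : Type} [Field F] {m d : ℕ} (h : Has (GL (Fin m) F) d) : 0 < m := by
  rcases Nat.eq_zero_or_pos m with rfl | h0
  · obtain ⟨a, b, _, w, _, hw⟩ := h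
    exact absurd (Subsingleton.elim _ _) hw
  · exact h0

theorem Has.mono (hPAD : S_PAD) {F : Type} [Field F] {m n d : ℕ} (h : Has (GL (Fin m) F) d)
    (hmn : m ≤ n) : Has (GL (Fin n) F) d := by
  obtain ⟨f, hf⟩ := hPAD F (Fin m) n (by simpa using hmn)
  exact h.map f hf

theorem Has.wr (hWR : S_WR) (hPAD : S_PAD) {F : Type} [Field F] {m d r s : ℕ}
    (td : TopData (Fin r) s) (h : Has (GL (Fin m) F) d) : Has (GL (Fin (r * m)) F) (s + d) := by
  obtain ⟨f, hf⟩ := hWR F (Fin r) m (has_pos h)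
  obtain ⟨f', hf'⟩ := hPAD F (Fin r × Fin m) (r * m) (by simp)
  obtain ⟨a, b, h⟩ := h
  exact ⟨_, _, ((td.gg a b h).map f hf).map f' hf'⟩

theorem Has.amp (hWR : S_WR) (hPAD : S_PAD) {F : Type} [Field F] {m d : ℕ}
    (h : Has (GL (Fin m) F) d) (a b : ℕ) : Has (GL (Fin (m * 4 ^ a * 9 ^ b)) F) (d + 3 * a + 5 * b) := by
  induction b with
  | zero =>
    induction a with
    | zero =>
      have e1 : m * 4 ^ 0 * 9 ^ 0 = m := by ring
      rw [e1]
      exact h
    | succ a ih =>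
      have h1 := Has.wr hWR hPAD topS4 ih
      have e1 : 4 * (m * 4 ^ a * 9 ^ 0) = m * 4 ^ (a + 1) * 9 ^ 0 := by ring
      have e2 : 3 + (d + 3 * a + 5 * 0) = d + 3 * (a + 1) + 5 * 0 := by ring
      rwa [e1, e2] at h1
  | succ b ih =>
    have h1 := Has.wr hWR hPAD topE ih
    have e1 : 9 * (m * 4 ^ a * 9 ^ b) = m * 4 ^ a * 9 ^ (b + 1) := by ring
    have e2 : 5 + (d + 3 * a + 5 * b) = d + 3 * a + 5 * (b + 1) := by ring
    rwa [e1, e2] at h1

/-- projective symplectic groups -/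
abbrev PSp (n : ℕ) (F : Type) [Field F] : Type :=
  ↥(symplecticGroup (Fin n) F) ⧸ Subgroup.center ↥(symplecticGroup (Fin n) F)

/-- `g ↦ diag (g, 1)` -/
theorem pad1 (F : Type) [Field F] (n : ℕ) : ∃ f : GL (Fin n) F →* GL (Fin (n + 1)) F,
    Function.Injective f ∧
      ∀ g (c : F), (f g : Matrix (Fin (n + 1)) (Fin (n + 1)) F) = scalar (Fin (n + 1)) c → g = 1 := by
  classical
  let e : Fin n ⊕ Fin 1 ≃ Fin (n + 1) := finSumFinEquiv
  let f0 : GL (Fin n) F →* Matrix (Fin (n + 1)) (Fin (n + 1)) F :=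
    { toFun := fun g => Matrix.reindex e e (fromBlocks (g : Matrix (Fin n) (Fin n) F) 0 0 1)
      map_one' := by
        simp only [Units.val_one, fromBlocks_one, Matrix.reindex_apply, submatrix_one_equiv]
      map_mul' := fun g h => by
        change (fromBlocks ((g * h : GL (Fin n) F) : Matrix (Fin n) (Fin n) F) 0 0 1).submatrix e.symm e.symm =
          (fromBlocks (g : Matrix (Fin n) (Fin n) F) 0 0 1).submatrix e.symm e.symm *
            (fromBlocks (h : Matrix (Fin n) (Fin n) F) 0 0 1).submatrix e.symm e.symm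
        rw [submatrix_mul_equiv, fromBlocks_multiply]
        simp }
  have key : ∀ g (c : F), f0 g = scalar (Fin (n + 1)) c → g = 1 := by
    intro g c h
    have h1 : fromBlocks (g : Matrix (Fin n) (Fin n) F) 0 0 (1 : Matrix (Fin 1) (Fin 1) F) =
        scalar (Fin n ⊕ Fin 1) c := by
      have h2 := congrArg (Matrix.reindex e.symm e.symm) h
      change (Matrix.reindex e.symm e.symm) (Matrix.reindex e e _) = _ at h2
      ext i j
      have h3 := congrFun (congrFun h2 i) j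
      simp only [Matrix.reindex_apply, submatrix_apply, Equiv.symm_symm, Equiv.symm_apply_apply] at h3
      rw [h3]
      simp only [scalar_apply, diagonal_apply, EmbeddingLike.apply_eq_iff_eq]
    have hc : c = 1 := by
      have h3 := congrFun (congrFun h1 (Sum.inr 0)) (Sum.inr 0)
      simp only [fromBlocks_apply₂₂, one_apply_eq, scalar_apply, diagonal_apply_eq] at h3
      exact h3.symm
    subst hc
    ext i j
    have h3 := congrFun (congrFun h1 (Sum.inl i)) (Sum.inl j)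
    simp only [fromBlocks_apply₁₁, scalar_apply, diagonal_apply, Sum.inl.injEq] at h3
    rw [h3, Units.val_one, one_apply]
  refine ⟨f0.toHomUnits, (injective_iff_map_eq_one _).2 fun g hg => ?_, fun g c h => key g c h⟩
  apply key g 1
  have h4 := congrArg Units.val hg
  change f0 g = 1 at h4
  rw [h4, map_one]

/-- `GL` in the projective symplectic groups -/
theorem gl_psp (hPSP : S_PSP) (hPAD : S_PAD) (F : Type) [Field F] {N n : ℕ} (h : N + 1 ≤ n) :
    ∃ f : GL (Fin N) F →* PSp n F, Function.Injective f := by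
  obtain ⟨n, rfl⟩ : ∃ n', n = n' + 1 := ⟨n - 1, by omega⟩
  obtain ⟨f, hf⟩ := hPSP F (n + 1)
  obtain ⟨f', hf', hs⟩ := pad1 F n
  obtain ⟨f'', hf''⟩ := hPAD F (Fin N) n (by simpa using h)
  refine ⟨f.comp (f'.comp f''), (injective_iff_map_eq_one _).2 fun g hg => ?_⟩
  obtain ⟨c, hc⟩ := hf _ hg
  exact (injective_iff_map_eq_one f'').1 hf'' g (hs _ c hc)

/-- `GL` in the projective special linear groups -/
theorem gl_psl (hPSL : S_PSL) (hPAD : S_PAD) (F : Type) [Field F] {N n : ℕ} (h : N + 2 ≤ n) :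
    ∃ f : GL (Fin N) F →* ProjectiveSpecialLinearGroup (Fin n) F, Function.Injective f := by
  obtain ⟨n, rfl⟩ : ∃ n', n = n' + 2 := ⟨n - 2, by omega⟩
  obtain ⟨f, hf⟩ := hPSL F n
  obtain ⟨f'', hf''⟩ := hPAD F (Fin N) n (by simpa using h)
  exact ⟨f.comp f'', hf.comp hf''⟩

/-- permutations in the projective symplectic groups -/
theorem sym_psp (hPSP : S_PSP) (hPM : S_PM) (F : Type) [Field F] (n : ℕ) :
    ∃ f : Equiv.Perm (Fin n) →* PSp n F, Function.Injective f := by
  obtain ⟨f, hf⟩ := hPSP F n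
  obtain ⟨f', _, hs⟩ := hPM F n
  refine ⟨f.comp f', (injective_iff_map_eq_one _).2 fun g hg => ?_⟩
  obtain ⟨c, hc⟩ := hf _ hg
  exact hs g c hc

/-- even permutations in the projective special linear groups -/
theorem alt_psl (hPM : S_PM) (F : Type) [Field F] (n : ℕ) :
    ∃ f : alternatingGroup (Fin n) →* ProjectiveSpecialLinearGroup (Fin n) F, Function.Injective f := by
  obtain ⟨f', hd, hs⟩ := hPM F n
  let f0 : alternatingGroup (Fin n) →* Matrix.SpecialLinearGroup (Fin n) F :=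
    { toFun := fun σ => ⟨(f' σ : Matrix (Fin n) (Fin n) F), by
        rw [hd, Equiv.Perm.mem_alternatingGroup.1 σ.2]
        simp⟩
      map_one' := by
        apply Subtype.ext
        change ((f' 1 : GL (Fin n) F) : Matrix (Fin n) (Fin n) F) = 1
        rw [map_one]
        rfl
      map_mul' := fun σ τ => by
        apply Subtype.ext
        change ((f' (σ * τ) : GL (Fin n) F) : Matrix (Fin n) (Fin n) F) = _
        rw [map_mul]
        rfl }
  refine ⟨(QuotientGroup.mk' _).comp f0, (injective_iff_map_eq_one _).2 fun σ hσ => ?_⟩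
  have h1 : f0 σ ∈ Subgroup.center (Matrix.SpecialLinearGroup (Fin n) F) := (QuotientGroup.eq_one_iff _).1 hσ
  rw [Matrix.SpecialLinearGroup.mem_center_iff] at h1
  obtain ⟨r, _, hr⟩ := h1
  exact Subtype.ext (hs σ r hr.symm)

/-! ### the statements -/

theorem amp_gl (hWR : S_WR) (hPAD : S_PAD) {F : Type} [Field F] {m e : ℕ} (a b : ℕ) {N : ℕ}
    (he : 1 ≤ e) (h : ∃ x y : GL (Fin m) F, HL (closure ({x, y} : Set (GL (Fin m) F))) e)
    (hN : m * 4 ^ a * 9 ^ b ≤ N) : ∃ d, d + 1 = e + 3 * a + 5 * b ∧ Has (GL (Fin N) F) d := by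
  obtain ⟨e, rfl⟩ : ∃ e', e = e' + 1 := ⟨e - 1, by omega⟩
  exact ⟨e + 3 * a + 5 * b, by ring, ((has_of_closure h).amp hWR hPAD a b).mono hPAD hN⟩

/-- (1) -/
theorem part1 (hWR : S_WR) (hPAD : S_PAD) (hPSL : S_PSL) (hPSP : S_PSP) {F : Type} [Field F]
    {m e : ℕ} (a b : ℕ) {N : ℕ} (he : 1 ≤ e)
    (h : ∃ x y : GL (Fin m) F, HL (closure ({x, y} : Set (GL (Fin m) F))) e)
    (hN : m * 4 ^ a * 9 ^ b ≤ N) :
    (∃ x y : GL (Fin N) F, HL (closure ({x, y} : Set (GL (Fin N) F))) (e + 3 * a + 5 * b)) ∧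
    (∃ x y : ProjectiveSpecialLinearGroup (Fin (N + 2)) F,
      HL (closure ({x, y} : Set (ProjectiveSpecialLinearGroup (Fin (N + 2)) F))) (e + 3 * a + 5 * b)) ∧
    (∃ x y : PSp (N + 1) F, HL (closure ({x, y} : Set (PSp (N + 1) F))) (e + 3 * a + 5 * b)) := by
  obtain ⟨d, hd, h1⟩ := amp_gl hWR hPAD a b he h hN
  rw [← hd]
  obtain ⟨f, hf⟩ := gl_psl hPSL hPAD F (le_refl (N + 2))
  obtain ⟨f', hf'⟩ := gl_psp hPSP hPAD F (le_refl (N + 1))
  exact ⟨h1.closure, (h1.map f hf).closure, (h1.map f' hf').closure⟩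

/-- (2) -/
theorem part2 (hWR : S_WR) (hPAD : S_PAD) (hPSL : S_PSL) (hPSP : S_PSP) (hQU : S_QU) {F : Type}
    [Field F] [Finite F] (h2 : (2 : F) ≠ 0) (a b n d : ℕ) (hd : d ≤ 4 + 3 * a + 5 * b) :
    (2 * 4 ^ a * 9 ^ b + 2 ≤ n → InVar (ProjectiveSpecialLinearGroup (Fin n) F) d) ∧
    (2 * 4 ^ a * 9 ^ b + 1 ≤ n → InVar (PSp n F) d) := by
  have h1 : Has (GL (Fin 2) F) 3 := hQU F h2
  have h3 : Has (GL (Fin (2 * 4 ^ a * 9 ^ b)) F) (3 + 3 * a + 5 * b) := h1.amp hWR hPAD a b
  have : Finite (ProjectiveSpecialLinearGroup (Fin n) F) := by infer_instance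
  constructor
  · intro hn
    obtain ⟨f, hf⟩ := gl_psl hPSL hPAD F hn
    exact (h3.map f hf).inVar (by omega)
  · intro hn
    obtain ⟨f, hf⟩ := gl_psp hPSP hPAD F hn
    have : Finite (PSp n F) := by infer_instance
    exact (h3.map f hf).inVar (by omega)

end Pool.Agent.Work.MP_403fb3_lin
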