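import Pool.Agent.Work.MP_403fb3_lin.Fin

/-!
# Unitary groups: statements of the blocks
-/

set_option autoImplicit false

namespace Pool.Agent.Work.MP_403fb3_lin

open Matrix Subgroup
open Pool.Agent.Work.MP_403fb3_al_helper9

/-- projective special unitary groups -/
abbrev PSU (n : ℕ) (F : Type) [Field F] [StarRing F] : Type :=
  ↥(specialUnitaryGroup (Fin n) F) ⧸ Subgroup.center ↥(specialUnitaryGroup (Fin n) F)

/-- UW: block monomial unitary matrices -/
def S_UW : Prop := ∀ (F : Type) [Field F] [StarRing F] (D : Type) [Fintype D] [DecidableEq D] (m : ℕ),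
  0 < m → ∃ f : Wr D ↥(unitaryGroup (Fin m) F) →* ↥(unitaryGroup (D × Fin m) F), Function.Injective f

/-- UP: renaming of the index set and a larger dimension -/
def S_UP : Prop := ∀ (F : Type) [Field F] [StarRing F] (ι : Type) [Fintype ι] [DecidableEq ι] (n : ℕ),
  Fintype.card ι ≤ n → ∃ f : ↥(unitaryGroup ι F) →* ↥(unitaryGroup (Fin n) F), Function.Injective f

/-- UE: `g ↦ diag (g, (det g)⁻¹, 1)` modulo the centre -/
def S_UE : Prop := ∀ (F : Type) [Field F] [StarRing F] (n : ℕ),
  ∃ f : ↥(unitaryGroup (Fin n) F) →* PSU (n + 2) F, Function.Injective f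

/-- UN: norms and sums of squares in a finite field with involution -/
def S_UN : Prop := ∀ (F : Type) [Field F] [Finite F] [StarRing F], (2 : F) ≠ 0 → (∃ t : F, star t ≠ t) →
  (∃ l : F, l * star l * 2 = 1) ∧ ∃ u v : F, star u = -u ∧ star v = -v ∧ u ^ 2 + v ^ 2 = -1

/-- UQ: a soluble group of derived length 4 with two generators in the unitary group of dimension 2 -/
def S_UQ : Prop := ∀ (F : Type) [Field F] [StarRing F], (2 : F) ≠ 0 → (∃ l : F, l * star l * 2 = 1) →
  (∃ u v : F, star u = -u ∧ star v = -v ∧ u ^ 2 + v ^ 2 = -1) →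
  ∃ a b : ↥(unitaryGroup (Fin 2) F), GG a b 3

end Pool.Agent.Work.MP_403fb3_lin
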