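import Pool.Agent.Work.MP_403fb3_lin.Interface3
import Pool.Agent.Work.MP_403fb3_lin.Interface4

/-!
# The affine step and the unitary groups: assembly
-/

set_option autoImplicit false

namespace Pool.Agent.Work.MP_403fb3_lin

open Matrix Subgroup
open Pool.Agent.Work.MP_403fb3_al_helper9

theorem wr_of_wrx (hWRX : S_WRX) : S_WR := by
  intro F _ D _ _ m hm
  obtain ⟨f, hf⟩ := hWRX F D m
  refine ⟨f, (injective_iff_map_eq_one f).2 fun w hw => ?_⟩
  have h1 : ∀ p q : D × Fin m, (if p.1 = w.s q.1 then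
      (w.f q.1 : Matrix (Fin m) (Fin m) F) p.2 q.2 else 0) = (1 : Matrix (D × Fin m) (D × Fin m) F) p q := by
    intro p q
    rw [← hf, hw]
    rfl
  have hs : ∀ j : D, w.s j = j := by
    intro j
    by_contra hne
    have h2 := h1 (j, ⟨0, hm⟩) (j, ⟨0, hm⟩)
    rw [one_apply_eq, if_neg (fun h => hne h.symm)] at h2
    exact zero_ne_one h2
  apply Wr.ext
  · funext j
    apply Units.ext
    ext a b
    have h2 := h1 (j, a) (j, b)
    simp only [hs, if_true] at h2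
    rw [h2, one_apply]
    simp only [Prod.mk.injEq, true_and]
    rw [Wr.one_f, Units.val_one, one_apply]
  · exact Equiv.ext hs

/-- a larger dimension, with the corner fixed -/
theorem padc (F : Type) [Field F] {N n : ℕ} (h : N ≤ n) :
    ∃ f : GL (Fin N ⊕ Unit) F →* GL (Fin n ⊕ Unit) F, Function.Injective f ∧
      ∀ g, (f g : Matrix (Fin n ⊕ Unit) (Fin n ⊕ Unit) F) (Sum.inr ()) (Sum.inr ()) =
        (g : Matrix (Fin N ⊕ Unit) (Fin N ⊕ Unit) F) (Sum.inr ()) (Sum.inr ()) := by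
  classical
  obtain ⟨k, rfl⟩ : ∃ k, n = N + k := ⟨n - N, by omega⟩
  let e : (Fin N ⊕ Unit) ⊕ Fin k ≃ Fin (N + k) ⊕ Unit :=
    { toFun := Sum.elim (Sum.elim (fun i => Sum.inl (Fin.castAdd k i)) (fun _ => Sum.inr ()))
        (fun i => Sum.inl (Fin.natAdd N i))
      invFun := Sum.elim (fun i => Fin.addCases (fun a => Sum.inl (Sum.inl a)) (fun b => Sum.inr b) i)
        (fun _ => Sum.inl (Sum.inr ()))
      left_inv := by
        rintro ((i | i) | i) <;> simp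
      right_inv := by
        rintro (i | i)
        · refine Fin.addCases (fun a => ?_) (fun b => ?_) i <;> simp
        · simp }
  have he : e.symm (Sum.inr ()) = Sum.inl (Sum.inr ()) := rfl
  let f0 : GL (Fin N ⊕ Unit) F →* Matrix (Fin (N + k) ⊕ Unit) (Fin (N + k) ⊕ Unit) F :=
    { toFun := fun g => (fromBlocks (g : Matrix (Fin N ⊕ Unit) (Fin N ⊕ Unit) F) 0 0
        (1 : Matrix (Fin k) (Fin k) F)).submatrix e.symm e.symm
      map_one' := by
        simp only [Units.val_one, fromBlocks_one, submatrix_one_equiv]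
      map_mul' := fun g h => by
        rw [submatrix_mul_equiv, fromBlocks_multiply]
        simp }
  refine ⟨f0.toHomUnits, (injective_iff_map_eq_one _).2 fun g hg => ?_, fun g => ?_⟩
  · have h4 := congrArg Units.val hg
    change f0 g = 1 at h4
    ext i j
    have h5 := congrFun (congrFun h4 (e (Sum.inl i))) (e (Sum.inl j))
    change (fromBlocks (g : Matrix (Fin N ⊕ Unit) (Fin N ⊕ Unit) F) 0 0
        (1 : Matrix (Fin k) (Fin k) F)) (e.symm (e (Sum.inl i))) (e.symm (e (Sum.inl j))) = _ at h5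
    rw [Equiv.symm_apply_apply, Equiv.symm_apply_apply, fromBlocks_apply₁₁, one_apply] at h5
    rw [h5, Units.val_one, one_apply]
    simp only [EmbeddingLike.apply_eq_iff_eq, Sum.inl.injEq]
  · change (fromBlocks (g : Matrix (Fin N ⊕ Unit) (Fin N ⊕ Unit) F) 0 0
        (1 : Matrix (Fin k) (Fin k) F)) (e.symm (Sum.inr ())) (e.symm (Sum.inr ())) = _
    rw [he, fromBlocks_apply₁₁]

theorem Good.amp (hWG : S_WG) (hRG : S_RG) (hTR : S_TR) {F : Type} [Field F] {m d : ℕ} (hm : 0 < m)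
    (h : Good F (Fin m) d) (a b : ℕ) : Good F (Fin (m * 4 ^ a * 9 ^ b)) (d + 3 * a + 5 * b) := by
  induction b with
  | zero =>
    induction a with
    | zero =>
      have e1 : m * 4 ^ 0 * 9 ^ 0 = m := by ring
      rw [e1]
      exact h
    | succ a ih =>
      have h1 := hRG F _ (4 * (m * 4 ^ a * 9 ^ 0)) _ (by simp)
        (hWG F 4 3 _ _ topS4 hTR.1 (by positivity) ih)
      have e1 : 4 * (m * 4 ^ a * 9 ^ 0) = m * 4 ^ (a + 1) * 9 ^ 0 := by ring
      have e2 : 3 + (d + 3 * a + 5 * 0) = d + 3 * (a + 1) + 5 * 0 := by ring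
      rwa [e1, e2] at h1
  | succ b ih =>
    have h1 := hRG F _ (9 * (m * 4 ^ a * 9 ^ b)) _ (by simp)
      (hWG F 9 5 _ _ topE hTR.2 (by positivity) ih)
    have e1 : 9 * (m * 4 ^ a * 9 ^ b) = m * 4 ^ a * 9 ^ (b + 1) := by ring
    have e2 : 5 + (d + 3 * a + 5 * b) = d + 3 * a + 5 * (b + 1) := by ring
    rwa [e1, e2] at h1

/-- a pair is carried over by a homomorphism which is injective on the affine matrices -/
theorem has_of_corner {F : Type} [Field F] {N n d : ℕ} (hN : N ≤ n) {G : Type} [Group G]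
    (h : ∃ x y : GL (Fin N ⊕ Unit) F, GG x y d ∧
      ∀ w : F2, (ev2 x y w : Matrix (Fin N ⊕ Unit) (Fin N ⊕ Unit) F) (Sum.inr ()) (Sum.inr ()) = 1)
    (hf : ∃ f : GL (Fin n ⊕ Unit) F →* G, ∀ g : GL (Fin n ⊕ Unit) F, f g = 1 →
      (g : Matrix (Fin n ⊕ Unit) (Fin n ⊕ Unit) F) (Sum.inr ()) (Sum.inr ()) = 1 → g = 1) :
    Has G d := by
  obtain ⟨x, y, h1, h2⟩ := h
  obtain ⟨f, hf⟩ := hf
  obtain ⟨p, hp, hc⟩ := padc F hN
  obtain ⟨h3, w, hw, h4⟩ := h1
  refine ⟨f (p x), f (p y), fun w hw => ?_, w, hw, fun h5 => h4 ?_⟩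
  · rw [← ev2_comp, ← ev2_comp, h3 w hw, map_one, map_one]
  · rw [← ev2_comp, ← ev2_comp] at h5
    have h6 := hf _ h5 (by rw [hc, h2])
    exact (injective_iff_map_eq_one p).1 hp _ h6

/-- (2) with one more step -/
theorem part2x (hWG : S_WG) (hRG : S_RG) (hTR : S_TR) (hQG : S_QG) (hAF : S_AF) (hPA : S_PA)
    (hPB : S_PB) {F : Type} [Field F] [Finite F] (h2 : (2 : F) ≠ 0) (a b n d : ℕ)
    (hd : d ≤ 5 + 3 * a + 5 * b) :
    (2 * 4 ^ a * 9 ^ b + 2 ≤ n → InVar (ProjectiveSpecialLinearGroup (Fin n) F) d) ∧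
    (2 * 4 ^ a * 9 ^ b + 1 ≤ n → InVar (PSp n F) d) := by
  have h1 : Good F (Fin 2) 3 := hQG F h2
  have h3 : Good F (Fin (2 * 4 ^ a * 9 ^ b)) (3 + 3 * a + 5 * b) := h1.amp hWG hRG hTR (by omega) a b
  have h4 := hAF F _ _ h2 (by positivity) h3
  constructor
  · intro hn
    obtain ⟨n, rfl⟩ : ∃ n', n = n' + 2 := ⟨n - 2, by omega⟩
    have : Finite (ProjectiveSpecialLinearGroup (Fin (n + 2)) F) := by infer_instance
    exact (has_of_corner (by omega) h4 (hPA F n)).inVar (by omega)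
  · intro hn
    obtain ⟨n, rfl⟩ : ∃ n', n = n' + 1 := ⟨n - 1, by omega⟩
    have : Finite (PSp (n + 1) F) := by infer_instance
    exact (has_of_corner (by omega) h4 (hPB F n)).inVar (by omega)

/-! ### unitary groups -/

theorem Has.uwr (hUW : S_UW) (hUP : S_UP) {F : Type} [Field F] [StarRing F] {m d r s : ℕ}
    (td : TopData (Fin r) s) (hm : 0 < m) (h : Has ↥(unitaryGroup (Fin m) F) d) :
    Has ↥(unitaryGroup (Fin (r * m)) F) (s + d) := by
  obtain ⟨f, hf⟩ := hUW F (Fin r) m hm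
  obtain ⟨f', hf'⟩ := hUP F (Fin r × Fin m) (r * m) (by simp)
  obtain ⟨a, b, h⟩ := h
  exact ⟨_, _, ((td.gg a b h).map f hf).map f' hf'⟩

theorem Has.uamp (hUW : S_UW) (hUP : S_UP) {F : Type} [Field F] [StarRing F] {m d : ℕ} (hm : 0 < m)
    (h : Has ↥(unitaryGroup (Fin m) F) d) (a b : ℕ) :
    Has ↥(unitaryGroup (Fin (m * 4 ^ a * 9 ^ b)) F) (d + 3 * a + 5 * b) := by
  induction b with
  | zero =>
    induction a with
    | zero =>
      have e1 : m * 4 ^ 0 * 9 ^ 0 = m := by ring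
      rw [e1]
      exact h
    | succ a ih =>
      have h1 := Has.uwr hUW hUP topS4 (by positivity) ih
      have e1 : 4 * (m * 4 ^ a * 9 ^ 0) = m * 4 ^ (a + 1) * 9 ^ 0 := by ring
      have e2 : 3 + (d + 3 * a + 5 * 0) = d + 3 * (a + 1) + 5 * 0 := by ring
      rwa [e1, e2] at h1
  | succ b ih =>
    have h1 := Has.uwr hUW hUP topE (by positivity) ih
    have e1 : 9 * (m * 4 ^ a * 9 ^ b) = m * 4 ^ a * 9 ^ (b + 1) := by ring
    have e2 : 5 + (d + 3 * a + 5 * b) = d + 3 * a + 5 * (b + 1) := by ring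
    rwa [e1, e2] at h1

/-- the unitary groups -/
theorem partU (hUW : S_UW) (hUP : S_UP) (hUE : S_UE) (hUN : S_UN) (hUQ : S_UQ) {F : Type} [Field F]
    [Finite F] [StarRing F] (h2 : (2 : F) ≠ 0) (ht : ∃ t : F, star t ≠ t) (a b n d : ℕ)
    (hd : d ≤ 4 + 3 * a + 5 * b) (hn : 2 * 4 ^ a * 9 ^ b + 2 ≤ n) : InVar (PSU n F) d := by
  obtain ⟨hl, huv⟩ := hUN F h2 ht
  have h1 : Has ↥(unitaryGroup (Fin 2) F) 3 := hUQ F h2 hl huv
  have h3 : Has ↥(unitaryGroup (Fin (2 * 4 ^ a * 9 ^ b)) F) (3 + 3 * a + 5 * b) :=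
    h1.uamp hUW hUP (by omega) a b
  obtain ⟨n, rfl⟩ : ∃ n', n = n' + 2 := ⟨n - 2, by omega⟩
  obtain ⟨f, hf⟩ := hUP F (Fin (2 * 4 ^ a * 9 ^ b)) n (by simpa using hn)
  obtain ⟨f', hf'⟩ := hUE F n
  have : Finite (PSU (n + 2) F) := by infer_instance
  exact ((h3.map f hf).map f' hf').inVar (by omega)

end Pool.Agent.Work.MP_403fb3_lin
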