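import Pool.Agent.Work.MP_403fb3_lin.Interface5

/-!
# Two more steps of the derived series from a Heisenberg radical: statements of the blocks
-/

set_option autoImplicit false

namespace Pool.Agent.Work.MP_403fb3_lin

open Matrix Subgroup
open Pool.Agent.Work.MP_403fb3_al_helper9

/-- derivations -/
def IsDer {F S : Type} [Field F] [AddCommGroup S] [Module F S] (ρ : F2 →* Module.End F S)
    (δ : F2 → S) : Prop := ∀ g h : F2, δ (g * h) = δ g + ρ g (δ h)

/-- the hypotheses on a representation: trivial on the derived subgroup number `d + 1`; on number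
`d` of exponent `k` and without fixed vectors -/
def RepOK {F S : Type} [Field F] [AddCommGroup S] [Module F S] (ρ : F2 →* Module.End F S)
    (k d : ℕ) : Prop :=
  (∀ w ∈ derivedSeries F2 (d + 1), ρ w = 1) ∧ (∀ w ∈ derivedSeries F2 d, ρ w ^ k = 1) ∧
    ∀ v : S, (∀ w ∈ derivedSeries F2 d, ρ w v = v) → v = 0

/-- DEX: derivations exist and are determined by the values at the generators -/
def S_DEX : Prop := ∀ (F S : Type) [Field F] [AddCommGroup S] [Module F S] (ρ : F2 →* Module.End F S),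
  (∀ v1 v2 : S, ∃ δ : F2 → S, IsDer ρ δ ∧ δ (FreeGroup.of 0) = v1 ∧ δ (FreeGroup.of 1) = v2) ∧
  ∀ δ δ' : F2 → S, IsDer ρ δ → IsDer ρ δ' → δ (FreeGroup.of 0) = δ' (FreeGroup.of 0) →
    δ (FreeGroup.of 1) = δ' (FreeGroup.of 1) → δ = δ'

/-- CNT: a derivation which vanishes on the derived subgroup number `d + 1` is inner -/
def S_CNT : Prop := ∀ (F S : Type) [Field F] [AddCommGroup S] [Module F S] [Finite S]
  (ρ : F2 →* Module.End F S) (k d : ℕ), k.Prime → (k : F) ≠ 0 → RepOK ρ k d →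
  ∀ δ : F2 → S, IsDer ρ δ → (∀ w ∈ derivedSeries F2 (d + 1), δ w = 0) → ∃ c : S, ∀ g, δ g = c - ρ g c

/-- EXN: there is a derivation which does not vanish there -/
def S_EXN : Prop := ∀ (F S : Type) [Field F] [AddCommGroup S] [Module F S] [Finite S] [Nontrivial S]
  (ρ : F2 →* Module.End F S) (k d : ℕ), k.Prime → (k : F) ≠ 0 → RepOK ρ k d →
  ∃ δ : F2 → S, IsDer ρ δ ∧ ∃ w ∈ derivedSeries F2 (d + 1), δ w ≠ 0

/-- the dual representation, twisted by a character -/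
def IsDual {F S : Type} [Field F] [AddCommGroup S] [Module F S] (ρ : F2 →* Module.End F S)
    (χ : F2 →* F) (ρ' : F2 →* Module.End F (Module.Dual F S)) : Prop :=
  ∀ (g : F2) (f : Module.Dual F S) (v : S), ρ' g f v = χ g * f (ρ g⁻¹ v)

/-- DUA: the dual representation satisfies the same hypotheses -/
def S_DUA : Prop := ∀ (F S : Type) [Field F] [AddCommGroup S] [Module F S] [Finite S]
  (ρ : F2 →* Module.End F S) (χ : F2 →* F) (ρ' : F2 →* Module.End F (Module.Dual F S)) (k d : ℕ),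
  k.Prime → (k : F) ≠ 0 → 1 ≤ d → RepOK ρ k d → IsDual ρ χ ρ' → RepOK ρ' k d

/-- no invariant subspaces -/
def Irr {F S : Type} [Field F] [AddCommGroup S] [Module F S] (ρ : F2 →* Module.End F S) : Prop :=
  ∀ W : Submodule F S, (∀ g, ∀ v ∈ W, ρ g v ∈ W) → W = ⊥ ∨ W = ⊤

/-- the form is isotropic for all derivations -/
def AllIso {F S : Type} [Field F] [AddCommGroup S] [Module F S] (ρ : F2 →* Module.End F S)
    (ρ' : F2 →* Module.End F (Module.Dual F S)) (d : ℕ) : Prop :=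
  ∀ (δ : F2 → S) (β : F2 → Module.Dual F S), IsDer ρ δ → IsDer ρ' β →
    ∀ r ∈ derivedSeries F2 (d + 1), ∀ s ∈ derivedSeries F2 (d + 1), β r (δ s) = β s (δ r)

/-- KAP: two derivations differ by an equivariant map -/
def S_KAP : Prop := ∀ (F S : Type) [Field F] [AddCommGroup S] [Module F S] [Finite S]
  (ρ : F2 →* Module.End F S) (χ : F2 →* F) (ρ' : F2 →* Module.End F (Module.Dual F S)) (d : ℕ),
  IsDual ρ χ ρ' → Irr ρ → (∀ w ∈ derivedSeries F2 (d + 1), ρ w = 1) → AllIso ρ ρ' d →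
  ∀ (δ : F2 → S) (β : F2 → Module.Dual F S), IsDer ρ δ → IsDer ρ' β →
    (∃ w ∈ derivedSeries F2 (d + 1), δ w ≠ 0) → (∃ w ∈ derivedSeries F2 (d + 1), β w ≠ 0) →
    (∀ δ₁ : F2 → S, IsDer ρ δ₁ → ∃ κ : Module.End F S, (∀ g, κ * ρ g = ρ g * κ) ∧
      ∀ w ∈ derivedSeries F2 (d + 1), δ₁ w = κ (δ w)) ∧
    ∃ b : S →ₗ[F] Module.Dual F S, (∀ w ∈ derivedSeries F2 (d + 1), b (δ w) = β w) ∧
      Function.Injective b ∧
      ∀ κ : Module.End F S, (∀ g, κ * ρ g = ρ g * κ) → ∀ v v' : S, b v (κ v') = b v' (κ v)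

/-- NIR: the form is not isotropic, irreducible case -/
def S_NIR : Prop := ∀ (F S : Type) [Field F] [AddCommGroup S] [Module F S] [Finite S] [Nontrivial S]
  (ρ : F2 →* Module.End F S) (χ : F2 →* F) (ρ' : F2 →* Module.End F (Module.Dual F S)) (k d : ℕ),
  k.Prime → (k : F) ≠ 0 → 1 ≤ d → RepOK ρ k d → IsDual ρ χ ρ' → Irr ρ → ¬ AllIso ρ ρ' d

/-- NIV: the form is not isotropic, general case, in coordinates -/
def S_NIV : Prop := ∀ (F : Type) [Field F] [Finite F] (n k d : ℕ) (x y : GL (Fin n) F), 0 < n →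
  k.Prime → (k : F) ≠ 0 → 1 ≤ d →
  (∀ w ∈ derivedSeries F2 (d + 1), ev2 x y w = 1) → (∀ w ∈ derivedSeries F2 d, ev2 x y w ^ k = 1) →
  (∀ v : Fin n → F, (∀ w ∈ derivedSeries F2 d, (ev2 x y w : Matrix (Fin n) (Fin n) F) *ᵥ v = v) → v = 0) →
  ∃ δ β : F2 → (Fin n → F),
    (∀ g h : F2, δ (g * h) = δ g + (ev2 x y g : Matrix (Fin n) (Fin n) F) *ᵥ δ h) ∧
    (∀ g h : F2, β (g * h) = β g + ((ev2 x y g : Matrix (Fin n) (Fin n) F).det)⁻¹ •
      (β h ᵥ* ((ev2 x y g⁻¹ : GL (Fin n) F) : Matrix (Fin n) (Fin n) F))) ∧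
    ∃ r ∈ derivedSeries F2 (d + 1), ∃ s ∈ derivedSeries F2 (d + 1), β r ⬝ᵥ δ s ≠ β s ⬝ᵥ δ r

/-- MAT: two more steps in the special linear group -/
def S_MAT : Prop := ∀ (F : Type) [Field F] [Finite F] (n k d : ℕ), 0 < n → k.Prime → (k : F) ≠ 0 →
  1 ≤ d → GoodP k F (Fin n) d →
  ∃ x y : Matrix.SpecialLinearGroup ((Unit ⊕ Fin n) ⊕ Unit) F, GG x y (d + 2) ∧
    ∀ w : F2, (ev2 x y w).1 (Sum.inr ()) (Sum.inr ()) = 1

/-- PAC: these matrices in the projective special linear groups and projective symplectic groups -/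
def S_PAC : Prop := ∀ (F : Type) [Field F] (N n : ℕ), N ≤ n →
  (∃ f : Matrix.SpecialLinearGroup ((Unit ⊕ Fin N) ⊕ Unit) F →* ProjectiveSpecialLinearGroup (Fin (n + 2)) F,
    ∀ g, f g = 1 → g.1 (Sum.inr ()) (Sum.inr ()) = 1 → g = 1) ∧
  ∃ f : Matrix.SpecialLinearGroup ((Unit ⊕ Fin N) ⊕ Unit) F →* PSp (n + 2) F,
    ∀ g, f g = 1 → g.1 (Sum.inr ()) (Sum.inr ()) = 1 → g = 1

end Pool.Agent.Work.MP_403fb3_lin
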