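import Pool.Agent.Work.MP_403fb3_lin.Fin2
import Pool.Agent.Work.MP_403fb3_lin.Interface6

/-!
# Prime exponents and the Heisenberg radical: assembly
-/

set_option autoImplicit false

namespace Pool.Agent.Work.MP_403fb3_lin

open Matrix Subgroup
open Pool.Agent.Work.MP_403fb3_al_helper9

theorem Good.toP {F : Type} [Field F] {ι : Type} [Fintype ι] [DecidableEq ι] {d : ℕ}
    (h : Good F ι d) : GoodP 2 F ι d := by
  obtain ⟨x, y, h1, h2, h3⟩ := h
  exact ⟨x, y, h1, fun w hw => by rw [pow_two]; exact h2 w hw, h3⟩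

theorem GoodP.amp (hWGP : S_WGP) (hRGP : S_RGP) (hTR : S_TR) {F : Type} [Field F] {k m d : ℕ}
    (hm : 0 < m) (h : GoodP k F (Fin m) d) (a b : ℕ) :
    GoodP k F (Fin (m * 4 ^ a * 9 ^ b)) (d + 3 * a + 5 * b) := by
  induction b with
  | zero =>
    induction a with
    | zero =>
      have e1 : m * 4 ^ 0 * 9 ^ 0 = m := by ring
      rw [e1]
      exact h
    | succ a ih =>
      have h1 := hRGP F _ k (4 * (m * 4 ^ a * 9 ^ 0)) _ (by simp)
        (hWGP F k 4 3 _ _ topS4 hTR.1 (by positivity) ih)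
      have e1 : 4 * (m * 4 ^ a * 9 ^ 0) = m * 4 ^ (a + 1) * 9 ^ 0 := by ring
      have e2 : 3 + (d + 3 * a + 5 * 0) = d + 3 * (a + 1) + 5 * 0 := by ring
      rwa [e1, e2] at h1
  | succ b ih =>
    have h1 := hRGP F _ k (9 * (m * 4 ^ a * 9 ^ b)) _ (by simp)
      (hWGP F k 9 5 _ _ topE hTR.2 (by positivity) ih)
    have e1 : 9 * (m * 4 ^ a * 9 ^ b) = m * 4 ^ a * 9 ^ (b + 1) := by ring
    have e2 : 5 + (d + 3 * a + 5 * b) = d + 3 * a + 5 * (b + 1) := by ring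
    rwa [e1, e2] at h1

/-- a pair is carried over by a homomorphism which is injective on the matrices with corner one -/
theorem has_of_corner2 {F : Type} [Field F] {N d : ℕ} {G : Type} [Group G]
    (h : ∃ x y : Matrix.SpecialLinearGroup ((Unit ⊕ Fin N) ⊕ Unit) F, GG x y d ∧
      ∀ w : F2, (ev2 x y w).1 (Sum.inr ()) (Sum.inr ()) = 1)
    (hf : ∃ f : Matrix.SpecialLinearGroup ((Unit ⊕ Fin N) ⊕ Unit) F →* G,
      ∀ g, f g = 1 → g.1 (Sum.inr ()) (Sum.inr ()) = 1 → g = 1) :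
    Has G d := by
  obtain ⟨x, y, h1, h2⟩ := h
  obtain ⟨f, hf⟩ := hf
  obtain ⟨h3, w, hw, h4⟩ := h1
  refine ⟨f x, f y, fun w hw => ?_, w, hw, fun h5 => h4 ?_⟩
  · rw [← ev2_comp, h3 w hw, map_one]
  · rw [← ev2_comp] at h5
    exact hf _ h5 (h2 w)

/-- one more step, from a base pair -/
theorem partA (hWGP : S_WGP) (hRGP : S_RGP) (hTR : S_TR) (hAFP : S_AFP) (hPA : S_PA) (hPB : S_PB)
    {F : Type} [Field F] [Finite F] {k m e : ℕ} (hk : k.Prime) (hkF : (k : F) ≠ 0) (hm : 0 < m)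
    (h : GoodP k F (Fin m) e) (a b n d : ℕ) (hd : d ≤ e + 2 + 3 * a + 5 * b) :
    (m * 4 ^ a * 9 ^ b + 2 ≤ n → InVar (ProjectiveSpecialLinearGroup (Fin n) F) d) ∧
    (m * 4 ^ a * 9 ^ b + 1 ≤ n → InVar (PSp n F) d) := by
  have h3 := h.amp hWGP hRGP hTR hm a b
  have h4 := hAFP F k _ _ hk hkF (by positivity) h3
  constructor
  · intro hn
    obtain ⟨n, rfl⟩ : ∃ n', n = n' + 2 := ⟨n - 2, by omega⟩
    have : Finite (ProjectiveSpecialLinearGroup (Fin (n + 2)) F) := by infer_instance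
    exact (has_of_corner (by omega) h4 (hPA F n)).inVar (by omega)
  · intro hn
    obtain ⟨n, rfl⟩ : ∃ n', n = n' + 1 := ⟨n - 1, by omega⟩
    have : Finite (PSp (n + 1) F) := by infer_instance
    exact (has_of_corner (by omega) h4 (hPB F n)).inVar (by omega)

/-- two more steps, from a base pair -/
theorem partB (hWGP : S_WGP) (hRGP : S_RGP) (hTR : S_TR) (hMAT : S_MAT) (hPAC : S_PAC)
    {F : Type} [Field F] [Finite F] {k m e : ℕ} (hk : k.Prime) (hkF : (k : F) ≠ 0) (hm : 0 < m)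
    (he : 1 ≤ e) (h : GoodP k F (Fin m) e) (a b n d : ℕ) (hd : d ≤ e + 3 + 3 * a + 5 * b)
    (hn : m * 4 ^ a * 9 ^ b + 2 ≤ n) :
    InVar (ProjectiveSpecialLinearGroup (Fin n) F) d ∧ InVar (PSp n F) d := by
  have h3 := h.amp hWGP hRGP hTR hm a b
  have h4 := hMAT F _ k _ (by positivity) hk hkF (by omega) h3
  obtain ⟨n, rfl⟩ : ∃ n', n = n' + 2 := ⟨n - 2, by omega⟩
  have : Finite (ProjectiveSpecialLinearGroup (Fin (n + 2)) F) := by infer_instance
  have : Finite (PSp (n + 2) F) := by infer_instance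
  exact ⟨(has_of_corner2 h4 (hPAC F _ n (by omega)).1).inVar (by omega),
    (has_of_corner2 h4 (hPAC F _ n (by omega)).2).inVar (by omega)⟩

end Pool.Agent.Work.MP_403fb3_lin
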