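import Pool.Agent.Work.MP_403fb3_lin.Interface4
import Pool.Agent.Work.MP_403fb3_lin.Interface6
import Pool.Agent.Work.MP_403fb3_lin.B8Def

/-!
# The Heisenberg radical in unitary groups: statements of the blocks
-/

set_option autoImplicit false

namespace Pool.Agent.Work.MP_403fb3_lin

open Matrix Subgroup
open Pool.Agent.Work.MP_403fb3_al_helper9

/-- unitary matrices -/
def IsU {F : Type} [Field F] [StarRing F] {ι : Type} [Fintype ι] [DecidableEq ι] (g : GL ι F) : Prop :=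
  (g : Matrix ι ι F) * star (g : Matrix ι ι F) = 1

/-- a good pair of unitary matrices -/
def GoodU (k : ℕ) (F : Type) [Field F] [StarRing F] (ι : Type) [Fintype ι] [DecidableEq ι] (d : ℕ) :
    Prop :=
  ∃ x y : GL ι F, IsU x ∧ IsU y ∧ GG x y d ∧ (∀ w ∈ derivedSeries F2 d, ev2 x y w ^ k = 1) ∧
    ∀ v : ι → F, (∀ w ∈ derivedSeries F2 d, (ev2 x y w : Matrix ι ι F) *ᵥ v = v) → v = 0

/-- UWP: good unitary pairs in wreath products -/
def S_UWP : Prop := ∀ (F : Type) [Field F] [StarRing F] (k r s m d : ℕ) (td : TopData (Fin r) s),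
  (∀ i : Fin r, ∃ g : F2, ev2 td.a1 td.a2 g td.d0 = i) → 0 < m → GoodU k F (Fin m) d →
    GoodU k F (Fin r × Fin m) (s + d)

/-- URP: renaming of the index set -/
def S_URP : Prop := ∀ (F : Type) [Field F] [StarRing F] (ι : Type) [Fintype ι] [DecidableEq ι]
  (k n d : ℕ), Fintype.card ι = n → GoodU k F ι d → GoodU k F (Fin n) d

/-- UB2: base pair in dimension two -/
def S_UB2 : Prop := ∀ (F : Type) [Field F] [Finite F] [StarRing F], (2 : F) ≠ 0 →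
  (∃ t : F, star t ≠ t) → GoodU 2 F (Fin 2) 3

/-- UB8: base pair in dimension eight -/
def S_UB8 : Prop := ∀ (F : Type) [Field F] [Finite F] [StarRing F], (2 : F) ≠ 0 →
  (∃ t : F, star t ≠ t) → GoodU 2 F (Fin 8) 7

/-- NIX: `S_NIV` with an arbitrary character -/
def S_NIX : Prop := ∀ (F : Type) [Field F] [Finite F] (n k d : ℕ) (x y : GL (Fin n) F) (χ : F2 →* F),
  0 < n → k.Prime → (k : F) ≠ 0 → 1 ≤ d →
  (∀ w ∈ derivedSeries F2 (d + 1), ev2 x y w = 1) → (∀ w ∈ derivedSeries F2 d, ev2 x y w ^ k = 1) →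
  (∀ v : Fin n → F, (∀ w ∈ derivedSeries F2 d, (ev2 x y w : Matrix (Fin n) (Fin n) F) *ᵥ v = v) → v = 0) →
  ∃ δ β : F2 → (Fin n → F),
    (∀ g h : F2, δ (g * h) = δ g + (ev2 x y g : Matrix (Fin n) (Fin n) F) *ᵥ δ h) ∧
    (∀ g h : F2, β (g * h) = β g + χ g •
      (β h ᵥ* ((ev2 x y g⁻¹ : GL (Fin n) F) : Matrix (Fin n) (Fin n) F))) ∧
    ∃ r ∈ derivedSeries F2 (d + 1), ∃ s ∈ derivedSeries F2 (d + 1), β r ⬝ᵥ δ s ≠ β s ⬝ᵥ δ r

/-- UIS: a derivation with non-isotropic values for the hermitian form -/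
def S_UIS : Prop := ∀ (F : Type) [Field F] [Finite F] [StarRing F] (n k d : ℕ) (x y : GL (Fin n) F)
  (N : F2 →* F), (∃ t : F, star t ≠ t) → 0 < n → k.Prime → (k : F) ≠ 0 → 1 ≤ d →
  (∀ w ∈ derivedSeries F2 (d + 1), ev2 x y w = 1) → (∀ w ∈ derivedSeries F2 d, ev2 x y w ^ k = 1) →
  (∀ v : Fin n → F, (∀ w ∈ derivedSeries F2 d, (ev2 x y w : Matrix (Fin n) (Fin n) F) *ᵥ v = v) → v = 0) →
  (∀ g : F2, (ev2 x y g : Matrix (Fin n) (Fin n) F) * star (ev2 x y g : Matrix (Fin n) (Fin n) F) =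
    N g • (1 : Matrix (Fin n) (Fin n) F)) → (∀ g : F2, star (N g) = N g) →
  ∃ δ : F2 → (Fin n → F),
    (∀ g h : F2, δ (g * h) = δ g + (ev2 x y g : Matrix (Fin n) (Fin n) F) *ᵥ δ h) ∧
    ∃ r ∈ derivedSeries F2 (d + 1), ∃ s ∈ derivedSeries F2 (d + 1),
      star (δ r) ⬝ᵥ δ s ≠ star (δ s) ⬝ᵥ δ r

/-- H90: elements of norm one, and the norm `-1` -/
def S_H90 : Prop := ∀ (F : Type) [Field F] [Finite F] [StarRing F], (2 : F) ≠ 0 →
  (∃ t : F, star t ≠ t) →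
  (∀ e : F, e * star e = 1 → ∃ α : F, α ≠ 0 ∧ star α = α * e) ∧ ∃ l : F, l * star l = -1

/-- UMT: two more steps in the special unitary group -/
def S_UMT : Prop := ∀ (F : Type) [Field F] [Finite F] [StarRing F] (n k d : ℕ), (2 : F) ≠ 0 →
  (∃ t : F, star t ≠ t) → 0 < n → k.Prime → (k : F) ≠ 0 → 1 ≤ d → GoodU k F (Fin n) d →
  ∃ X Y : ↥(specialUnitaryGroup (Fin n ⊕ Fin 2) F),
    (∀ w ∈ derivedSeries F2 (d + 3), ev2 X Y w = 1) ∧
    ∃ w ∈ derivedSeries F2 (d + 2), ∀ c : F,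
      (ev2 X Y w : Matrix (Fin n ⊕ Fin 2) (Fin n ⊕ Fin 2) F) ≠ scalar (Fin n ⊕ Fin 2) c

/-- UPC: the projective special unitary groups -/
def S_UPC : Prop := ∀ (F : Type) [Field F] [StarRing F] (N n : ℕ), (2 : F) ≠ 0 → 0 < N → N ≤ n →
  ∃ f : ↥(specialUnitaryGroup (Fin N ⊕ Fin 2) F) →* PSU (n + 2) F,
    ∀ g, f g = 1 → ∃ c : F, (g : Matrix (Fin N ⊕ Fin 2) (Fin N ⊕ Fin 2) F) = scalar (Fin N ⊕ Fin 2) c

end Pool.Agent.Work.MP_403fb3_lin
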