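import Pool.Agent.Work.MP_403fb3_lin.Fin3
import Pool.Agent.Work.MP_403fb3_lin.Interface8

/-!
# The Heisenberg radical in unitary groups: assembly
-/

set_option autoImplicit false

namespace Pool.Agent.Work.MP_403fb3_lin

open Matrix Subgroup
open Pool.Agent.Work.MP_403fb3_al_helper9

theorem GoodU.amp (hUWP : S_UWP) (hURP : S_URP) (hTR : S_TR) {F : Type} [Field F] [StarRing F]
    {k m d : ℕ} (hm : 0 < m) (h : GoodU k F (Fin m) d) (a b : ℕ) :
    GoodU k F (Fin (m * 4 ^ a * 9 ^ b)) (d + 3 * a + 5 * b) := by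
  induction b with
  | zero =>
    induction a with
    | zero =>
      have e1 : m * 4 ^ 0 * 9 ^ 0 = m := by ring
      rw [e1]
      exact h
    | succ a ih =>
      have h1 := hURP F _ k (4 * (m * 4 ^ a * 9 ^ 0)) _ (by simp)
        (hUWP F k 4 3 _ _ topS4 hTR.1 (by positivity) ih)
      have e1 : 4 * (m * 4 ^ a * 9 ^ 0) = m * 4 ^ (a + 1) * 9 ^ 0 := by ring
      have e2 : 3 + (d + 3 * a + 5 * 0) = d + 3 * (a + 1) + 5 * 0 := by ring
      rwa [e1, e2] at h1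
  | succ b ih =>
    have h1 := hURP F _ k (9 * (m * 4 ^ a * 9 ^ b)) _ (by simp)
      (hUWP F k 9 5 _ _ topE hTR.2 (by positivity) ih)
    have e1 : 9 * (m * 4 ^ a * 9 ^ b) = m * 4 ^ a * 9 ^ (b + 1) := by ring
    have e2 : 5 + (d + 3 * a + 5 * b) = d + 3 * a + 5 * (b + 1) := by ring
    rwa [e1, e2] at h1

/-- two more steps in the unitary groups, from a base pair -/
theorem partV (hUWP : S_UWP) (hURP : S_URP) (hTR : S_TR) (hUMT : S_UMT) (hUPC : S_UPC)
    {F : Type} [Field F] [Finite F] [StarRing F] {k m e : ℕ} (h2 : (2 : F) ≠ 0)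
    (ht : ∃ t : F, star t ≠ t) (hk : k.Prime) (hkF : (k : F) ≠ 0) (hm : 0 < m)
    (he : 1 ≤ e) (h : GoodU k F (Fin m) e) (a b n d : ℕ) (hd : d ≤ e + 3 + 3 * a + 5 * b)
    (hn : m * 4 ^ a * 9 ^ b + 2 ≤ n) : InVar (PSU n F) d := by
  have h3 := h.amp hUWP hURP hTR hm a b
  obtain ⟨X, Y, h4, w, hw, h5⟩ := hUMT F _ k _ h2 ht (by positivity) hk hkF (by omega) h3
  obtain ⟨n, rfl⟩ : ∃ n', n = n' + 2 := ⟨n - 2, by omega⟩
  have : Finite (PSU (n + 2) F) := by infer_instance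
  obtain ⟨f, hf⟩ := hUPC F (m * 4 ^ a * 9 ^ b) n h2 (by positivity) (by omega)
  have h6 : Has (PSU (n + 2) F) (e + 3 * a + 5 * b + 2) := by
    refine ⟨f X, f Y, fun v hv => ?_, w, hw, fun h7 => ?_⟩
    · rw [← ev2_comp, h4 v hv, map_one]
    · rw [← ev2_comp] at h7
      obtain ⟨c, hc⟩ := hf _ h7
      exact h5 c hc
  exact h6.inVar (by omega)

end Pool.Agent.Work.MP_403fb3_lin
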