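import Pool.Agent.Work.MP_403fb3_lin.Interface8
import Pool.Agent.Work.MP_403fb3_lin.UN

/-!
# Block H90 (helper67): elements of norm one, and the norm `-1`
-/

set_option autoImplicit false

namespace Pool.Agent.Work.MP_403fb3_lin

theorem p_H90 : S_H90 := by
  intro F _ _ _ h2 ⟨t, ht⟩
  constructor
  · intro e he
    have key : ∀ u : F, star (u + star e * star u) = (u + star e * star u) * e := by
      intro u
      rw [star_add, star_mul, star_star, star_star]
      linear_combination (-star u) * he
    by_cases h1 : 1 + star e * star (1 : F) = 0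
    · refine ⟨t + star e * star t, ?_, key t⟩
      rw [star_one, mul_one] at h1
      have h3 : star e = -1 := by linear_combination h1
      rw [h3]
      intro h4
      apply ht
      linear_combination -h4
    · exact ⟨1 + star e * star 1, h1, key 1⟩
  · set s : F := t - star t with hs
    have hs0 : s ≠ 0 := sub_ne_zero.mpr (Ne.symm ht)
    have hss : star s = -s := by
      rw [hs, star_sub, star_star]
      ring
    have hs2 : star (s ^ 2) = s ^ 2 := by
      rw [star_pow, hss]
      ring
    let K := UN.F0 F
    have hc2 : ((2 : K) : F) = 2 := rfl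
    have hK2 : (2 : K) ≠ 0 := by
      intro h
      apply h2
      have h3 := congrArg (Subtype.val : K → F) h
      exact h3
    let S : K := ⟨s ^ 2, hs2⟩
    have hcS : ((S : K) : F) = s ^ 2 := rfl
    have hS : S ≠ 0 := by
      intro h
      have := congrArg (Subtype.val : K → F) h
      exact pow_ne_zero 2 hs0 this
    have hmem : ∀ x : K, star (x : F) = x := fun x => x.2
    obtain ⟨x, y, hxy⟩ := UN.quad K hK2 (-S) (-1) (neg_ne_zero.mpr hS)
    have h := congrArg (Subtype.val : K → F) hxy
    have h' : (x : F) ^ 2 + -(s ^ 2) * (y : F) ^ 2 = -1 := by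
      simpa [hcS] using h
    refine ⟨x + s * y, ?_⟩
    rw [star_add, star_mul, hmem x, hmem y, hss]
    linear_combination h'

end Pool.Agent.Work.MP_403fb3_lin
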