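import Pool.Agent.Work.MP_403fb3_lin.Fin

/-!
# One more step of the derived series from the translations: statements of the blocks
-/

set_option autoImplicit false

namespace Pool.Agent.Work.MP_403fb3_lin

open Matrix Subgroup
open Pool.Agent.Work.MP_403fb3_al_helper9

/-- a pair of derived length `d + 1` whose last term has exponent two and fixes no vector -/
def Good (F : Type) [Field F] (ι : Type) [Fintype ι] [DecidableEq ι] (d : ℕ) : Prop :=
  ∃ x y : GL ι F, GG x y d ∧ (∀ w ∈ derivedSeries F2 d, ev2 x y w * ev2 x y w = 1) ∧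
    ∀ v : ι → F, (∀ w ∈ derivedSeries F2 d, (ev2 x y w : Matrix ι ι F) *ᵥ v = v) → v = 0

/-- TF: the labels of the derived series at the base point are everything -/
def S_TF : Prop := ∀ (D : Type) (m : ℕ) (td : TopData D m) (G : Type) [Group G] (b1 b2 : G) (j : ℕ),
  GG b1 b2 j → ∀ i : ℕ, ∀ u ∈ derivedSeries F2 i, ∃ w ∈ derivedSeries F2 (m + i),
    (ev2 (td.T1 b1 b2) (td.T2 b1 b2) w).f td.d0 = ev2 b1 b2 u

/-- TL: the labels of the derived series -/
def S_TL : Prop := ∀ (D : Type) (m : ℕ) (td : TopData D m) (G : Type) [Group G] (b1 b2 : G) (i : ℕ),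
  ∀ w ∈ derivedSeries F2 (m + i), (ev2 (td.T1 b1 b2) (td.T2 b1 b2) w).s = 1 ∧
    ∀ p : D, ∃ u ∈ derivedSeries F2 i, (ev2 (td.T1 b1 b2) (td.T2 b1 b2) w).f p = ev2 b1 b2 u

/-- WRX: block monomial matrices, with the formula for the entries -/
def S_WRX : Prop := ∀ (F : Type) [Field F] (D : Type) [Fintype D] [DecidableEq D] (m : ℕ),
  ∃ f : Wr D (GL (Fin m) F) →* GL (D × Fin m) F, ∀ (w : Wr D (GL (Fin m) F)) (p q : D × Fin m),
    (f w : Matrix (D × Fin m) (D × Fin m) F) p q =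
      if p.1 = w.s q.1 then (w.f q.1 : Matrix (Fin m) (Fin m) F) p.2 q.2 else 0

/-- WG: good pairs in wreath products -/
def S_WG : Prop := ∀ (F : Type) [Field F] (r s m d : ℕ) (td : TopData (Fin r) s),
  (∀ i : Fin r, ∃ k : F2, ev2 td.a1 td.a2 k td.d0 = i) → 0 < m → Good F (Fin m) d →
    Good F (Fin r × Fin m) (s + d)

/-- RG: renaming of the index set -/
def S_RG : Prop := ∀ (F : Type) [Field F] (ι : Type) [Fintype ι] [DecidableEq ι] (n d : ℕ),
  Fintype.card ι = n → Good F ι d → Good F (Fin n) d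

/-- QG: the first good pair -/
def S_QG : Prop := ∀ (F : Type) [Field F] [Finite F], (2 : F) ≠ 0 → Good F (Fin 2) 3

/-- TR: the two top groups are transitive -/
def S_TR : Prop := (∀ i : Fin 4, ∃ k : F2, ev2 topS4.a1 topS4.a2 k topS4.d0 = i) ∧
  ∀ i : Fin 9, ∃ k : F2, ev2 topE.a1 topE.a2 k topE.d0 = i

/-- AF: one more step by translations -/
def S_AF : Prop := ∀ (F : Type) [Field F] [Finite F] (n d : ℕ), (2 : F) ≠ 0 → 0 < n →
  Good F (Fin n) d → ∃ x y : GL (Fin n ⊕ Unit) F, GG x y (d + 1) ∧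
    ∀ w : F2, (ev2 x y w : Matrix (Fin n ⊕ Unit) (Fin n ⊕ Unit) F) (Sum.inr ()) (Sum.inr ()) = 1

/-- PA: affine groups in the projective special linear groups -/
def S_PA : Prop := ∀ (F : Type) [Field F] (n : ℕ),
  ∃ f : GL (Fin n ⊕ Unit) F →* ProjectiveSpecialLinearGroup (Fin (n + 2)) F,
    ∀ g : GL (Fin n ⊕ Unit) F, f g = 1 →
      (g : Matrix (Fin n ⊕ Unit) (Fin n ⊕ Unit) F) (Sum.inr ()) (Sum.inr ()) = 1 → g = 1

/-- PB: affine groups in the projective symplectic groups -/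
def S_PB : Prop := ∀ (F : Type) [Field F] (n : ℕ),
  ∃ f : GL (Fin n ⊕ Unit) F →* PSp (n + 1) F,
    ∀ g : GL (Fin n ⊕ Unit) F, f g = 1 →
      (g : Matrix (Fin n ⊕ Unit) (Fin n ⊕ Unit) F) (Sum.inr ()) (Sum.inr ()) = 1 → g = 1

end Pool.Agent.Work.MP_403fb3_lin
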