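import Pool.Agent.Work.MP_403fb3_lin.Interface3

/-!
# The base group in dimension three and prime exponents: statements of the blocks
-/

set_option autoImplicit false

namespace Pool.Agent.Work.MP_403fb3_lin

open Matrix Subgroup
open Pool.Agent.Work.MP_403fb3_al_helper9

/-- a pair of derived length `d + 1` whose last term has exponent `k` and fixes no vector -/
def GoodP (k : ℕ) (F : Type) [Field F] (ι : Type) [Fintype ι] [DecidableEq ι] (d : ℕ) : Prop :=
  ∃ x y : GL ι F, GG x y d ∧ (∀ w ∈ derivedSeries F2 d, ev2 x y w ^ k = 1) ∧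
    ∀ v : ι → F, (∀ w ∈ derivedSeries F2 d, (ev2 x y w : Matrix ι ι F) *ᵥ v = v) → v = 0

/-- WGP: good pairs in wreath products -/
def S_WGP : Prop := ∀ (F : Type) [Field F] (k r s m d : ℕ) (td : TopData (Fin r) s),
  (∀ i : Fin r, ∃ g : F2, ev2 td.a1 td.a2 g td.d0 = i) → 0 < m → GoodP k F (Fin m) d →
    GoodP k F (Fin r × Fin m) (s + d)

/-- RGP: renaming of the index set -/
def S_RGP : Prop := ∀ (F : Type) [Field F] (ι : Type) [Fintype ι] [DecidableEq ι] (k n d : ℕ),
  Fintype.card ι = n → GoodP k F ι d → GoodP k F (Fin n) d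

/-- AFP: one more step by translations -/
def S_AFP : Prop := ∀ (F : Type) [Field F] [Finite F] (k n d : ℕ), k.Prime → (k : F) ≠ 0 → 0 < n →
  GoodP k F (Fin n) d → ∃ x y : GL (Fin n ⊕ Unit) F, GG x y (d + 1) ∧
    ∀ w : F2, (ev2 x y w : Matrix (Fin n ⊕ Unit) (Fin n ⊕ Unit) F) (Sum.inr ()) (Sum.inr ()) = 1

/-- HBP: the normalizer of the Heisenberg group in dimension three -/
def S_HBP : Prop := ∀ (F : Type) [Field F] (ω : F), ω ^ 2 + ω + 1 = 0 → (3 : F) ≠ 0 →
  GoodP 3 F (Fin 3) 4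

end Pool.Agent.Work.MP_403fb3_lin
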