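import Pool.Agent.Work.MP_403fb3_lin.Interface6

set_option autoImplicit false

/-!
# The form is not isotropic, irreducible case (block NIR)
-/

namespace Pool.Agent.Work.MP_403fb3_lin

open Matrix Subgroup
open Pool.Agent.Work.MP_403fb3_al_helper9

namespace NIRh61

variable {F S : Type} [Field F] [AddCommGroup S] [Module F S]

theorem der_add {ρ : F2 →* Module.End F S} {δ δ' : F2 → S} (h : IsDer ρ δ) (h' : IsDer ρ δ') :
    IsDer ρ (δ + δ') := by
  intro g k
  simp only [Pi.add_apply, h g k, h' g k, map_add]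
  abel

theorem der_smul {ρ : F2 →* Module.End F S} {δ : F2 → S} (c : F) (h : IsDer ρ δ) :
    IsDer ρ (c • δ) := by
  intro g k
  simp only [Pi.smul_apply, h g k, map_smul, smul_add]

end NIRh61

open NIRh61 in
theorem p_NIR (hDEX : S_DEX) (hCNT : S_CNT) (hEXN : S_EXN) (hDUA : S_DUA) (hKAP : S_KAP) :
    S_NIR := by
  intro F S _ _ _ _ _ ρ χ ρ' k d hk hkF hd hOK hdual hirr hall
  classical
  have hOK' : RepOK ρ' k d := hDUA F S ρ χ ρ' k d hk hkF hd hOK hdual
  obtain ⟨u0, hu0⟩ := exists_ne (0 : S)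
  have hFfin : Finite F := by
    refine Finite.of_injective (fun c : F => c • u0) ?_
    intro a b hab
    have h1 : (a - b) • u0 = 0 := by
      rw [sub_smul, sub_eq_zero]; exact hab
    rcases smul_eq_zero.1 h1 with h2 | h2
    · exact sub_eq_zero.1 h2
    · exact absurd h2 hu0
  have hfd : Module.Finite F S := Module.Finite.of_finite
  have hdfin : Finite (Module.Dual F S) := by
    refine Finite.of_injective (fun f : Module.Dual F S => (f : S → F)) ?_
    exact DFunLike.coe_injective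
  have hdnt : Nontrivial (Module.Dual F S) := by
    by_contra hcon
    rw [not_nontrivial_iff_subsingleton] at hcon
    apply hu0
    rw [← Module.forall_dual_apply_eq_zero_iff F u0]
    intro f
    rw [Subsingleton.elim f 0]
    rfl
  obtain ⟨δ, hδ, w0, hw0, hne0⟩ := hEXN F S ρ k d hk hkF hOK
  obtain ⟨β, hβ, w1, hw1, hne1⟩ := hEXN F (Module.Dual F S) ρ' k d hk hkF hOK'
  obtain ⟨hA, b, hb1, hbinj, hb2⟩ := hKAP F S ρ χ ρ' d hdual hirr hOK.1 hall δ β hδ hβ
    ⟨w0, hw0, hne0⟩ ⟨w1, hw1, hne1⟩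
  -- a nonzero equivariant map is injective
  have hinj : ∀ κ : Module.End F S, (∀ g, κ * ρ g = ρ g * κ) → ∀ v, v ≠ 0 → κ v = 0 →
      κ = 0 := by
    intro κ hκ v hv h0
    have h1 := hirr (LinearMap.ker κ) (by
      intro g x hx
      rw [LinearMap.mem_ker] at hx ⊢
      have h2 := congrArg (fun T : Module.End F S => T x) (hκ g)
      simp only [Module.End.mul_apply] at h2
      rw [h2, hx, map_zero])
    rcases h1 with h1 | h1
    · exfalso
      apply hv
      have h2 : v ∈ LinearMap.ker κ := LinearMap.mem_ker.2 h0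
      rw [h1] at h2
      exact (Submodule.mem_bot F).1 h2
    · exact LinearMap.ker_eq_top.1 h1
  -- the derivations with given values
  have hex : ∀ p : S × S, ∃ δ : F2 → S, IsDer ρ δ ∧ δ (FreeGroup.of 0) = p.1 ∧
      δ (FreeGroup.of 1) = p.2 := fun p => (hDEX F S ρ).1 p.1 p.2
  choose D hD1 hD2 hD3 using hex
  have huniq := (hDEX F S ρ).2
  let L : S × S →ₗ[F] S :=
    { toFun := fun p => D p w0
      map_add' := by
        intro p q
        have h1 : D (p + q) = D p + D q := by
          refine huniq _ _ (hD1 _) (der_add (hD1 p) (hD1 q)) ?_ ?_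
          · rw [Pi.add_apply, hD2, hD2, hD2]; rfl
          · rw [Pi.add_apply, hD3, hD3, hD3]; rfl
        rw [h1]; rfl
      map_smul' := by
        intro c p
        have h1 : D (c • p) = c • D p := by
          refine huniq _ _ (hD1 _) (der_smul c (hD1 p)) ?_ ?_
          · rw [Pi.smul_apply, hD2, hD2]; rfl
          · rw [Pi.smul_apply, hD3, hD3]; rfl
        rw [h1]; rfl }
  let I : S →ₗ[F] S × S :=
    LinearMap.prod (LinearMap.id - ρ (FreeGroup.of 0)) (LinearMap.id - ρ (FreeGroup.of 1))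
  have hker : LinearMap.ker L ≤ LinearMap.range I := by
    intro p hp
    rw [LinearMap.mem_ker] at hp
    have hp' : D p w0 = 0 := hp
    obtain ⟨κ, hκ, hκ2⟩ := hA (D p) (hD1 p)
    have h1 : κ = 0 := hinj κ hκ (δ w0) hne0 (by rw [← hκ2 w0 hw0, hp'])
    obtain ⟨c, hc⟩ := hCNT F S ρ k d hk hkF hOK (D p) (hD1 p) (by
      intro w hw
      rw [hκ2 w hw, h1]; rfl)
    refine ⟨c, ?_⟩
    refine Prod.ext ?_ ?_
    · have h2 := hc (FreeGroup.of 0)
      rw [hD2] at h2
      exact h2.symm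
    · have h2 := hc (FreeGroup.of 1)
      rw [hD3] at h2
      exact h2.symm
  have hsurj : LinearMap.range L = ⊤ := by
    apply Submodule.eq_top_of_finrank_eq
    have h1 := LinearMap.finrank_range_add_finrank_ker L
    have h2 : Module.finrank F (LinearMap.ker L) ≤ Module.finrank F (LinearMap.range I) :=
      Submodule.finrank_mono hker
    have h3 : Module.finrank F (LinearMap.range I) ≤ Module.finrank F S :=
      LinearMap.finrank_range_le I
    have h4 : Module.finrank F (LinearMap.range L) ≤ Module.finrank F S :=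
      Submodule.finrank_le _
    rw [Module.finrank_prod] at h1
    omega
  have hstep2 : ∀ v : S, ∃ κ : Module.End F S, (∀ g, κ * ρ g = ρ g * κ) ∧ v = κ (δ w0) := by
    intro v
    have h1 : v ∈ LinearMap.range L := by rw [hsurj]; trivial
    obtain ⟨p, hp⟩ := h1
    obtain ⟨κ, hκ, hκ2⟩ := hA (D p) (hD1 p)
    refine ⟨κ, hκ, ?_⟩
    rw [← hκ2 w0 hw0]
    exact hp.symm
  -- commutativity
  have hsym : ∀ x y, b x y = b y x := by
    intro x y
    exact hb2 1 (fun g => by rw [one_mul, mul_one]) x y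
  have hadj : ∀ κ : Module.End F S, (∀ g, κ * ρ g = ρ g * κ) → ∀ x y,
      b x (κ y) = b (κ x) y := by
    intro κ hκ x y
    rw [hb2 κ hκ x y, hsym]
  have hcomm : ∀ κ κ' : Module.End F S, (∀ g, κ * ρ g = ρ g * κ) →
      (∀ g, κ' * ρ g = ρ g * κ') → ∀ x, κ (κ' x) = κ' (κ x) := by
    intro κ κ' hκ hκ' x
    apply hbinj
    ext y
    rw [← hadj κ hκ (κ' x) y, ← hadj κ' hκ' x (κ y)]
    have hmul : ∀ g, (κ' * κ) * ρ g = ρ g * (κ' * κ) := by
      intro g
      rw [mul_assoc, hκ g, ← mul_assoc, hκ' g, mul_assoc]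
    exact hadj (κ' * κ) hmul x y
  have hrho : ∀ g, ∃ κ : Module.End F S, (∀ h, κ * ρ h = ρ h * κ) ∧ ρ g = κ := by
    intro g
    obtain ⟨κ, hκ, hκ2⟩ := hstep2 (ρ g (δ w0))
    refine ⟨κ, hκ, ?_⟩
    ext v
    obtain ⟨κ1, hκ1, rfl⟩ := hstep2 v
    have h1 := congrArg (fun T : Module.End F S => T (δ w0)) (hκ1 g)
    simp only [Module.End.mul_apply] at h1
    rw [← h1, hκ2]
    exact hcomm κ1 κ hκ1 hκ (δ w0)
  have hker2 : derivedSeries F2 1 ≤ MonoidHom.ker ρ := by
    rw [derivedSeries_succ, Subgroup.commutator_le]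
    intro g _ h _
    rw [MonoidHom.mem_ker, commutatorElement_def]
    obtain ⟨κ, hκ, hκ2⟩ := hrho g
    have h1 : ρ g * ρ h = ρ h * ρ g := by
      rw [hκ2]; exact hκ h
    rw [map_mul, map_mul, map_mul, h1, mul_assoc (ρ h) (ρ g), ← map_mul ρ g g⁻¹,
      mul_inv_cancel, map_one, mul_one, ← map_mul, mul_inv_cancel, map_one]
  apply hu0
  refine hOK.2.2 u0 ?_
  intro w hw
  have h1 : w ∈ derivedSeries F2 1 := derivedSeries_antitone F2 hd hw
  have h2 := MonoidHom.mem_ker.1 (hker2 h1)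
  rw [h2]
  rfl

end Pool.Agent.Work.MP_403fb3_lin
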