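import Pool.Agent.Work.MP_403fb3_lin.Interface3

/-!
# Block PA: `g ↦ diag (g, (det g)⁻¹)` modulo scalars
-/

set_option autoImplicit false

namespace Pool.Agent.Work.MP_403fb3_lin

open Matrix

namespace PA

variable {F : Type} [Field F] {n : ℕ}

theorem det_ne (g : GL (Fin n ⊕ Unit) F) :
    (g : Matrix (Fin n ⊕ Unit) (Fin n ⊕ Unit) F).det ≠ 0 :=
  ((isUnit_iff_isUnit_det _).1 g.isUnit).ne_zero

/-- the block matrix -/
def bm (g : GL (Fin n ⊕ Unit) F) :
    Matrix ((Fin n ⊕ Unit) ⊕ Unit) ((Fin n ⊕ Unit) ⊕ Unit) F :=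
  fromBlocks (g : Matrix (Fin n ⊕ Unit) (Fin n ⊕ Unit) F) 0 0
    (diagonal fun _ => ((g : Matrix (Fin n ⊕ Unit) (Fin n ⊕ Unit) F).det)⁻¹)

theorem bm_one : bm (1 : GL (Fin n ⊕ Unit) F) = 1 := by
  unfold bm
  rw [← fromBlocks_one]
  congr 1
  rw [Units.val_one, det_one, inv_one]
  exact diagonal_one

theorem bm_mul (g h : GL (Fin n ⊕ Unit) F) : bm (g * h) = bm g * bm h := by
  unfold bm
  rw [fromBlocks_multiply, diagonal_mul_diagonal, Units.val_mul, det_mul, mul_inv]
  simp

theorem det_bm (g : GL (Fin n ⊕ Unit) F) : (bm g).det = 1 := by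
  unfold bm
  rw [det_fromBlocks_zero₂₁, det_diagonal, Finset.prod_const, Finset.card_univ, Fintype.card_unit,
    pow_one]
  exact mul_inv_cancel₀ (det_ne g)

/-- the numbering of the basis -/
noncomputable def en (n : ℕ) : (Fin n ⊕ Unit) ⊕ Unit ≃ Fin (n + 2) :=
  Fintype.equivFinOfCardEq (by simp)

/-- the homomorphism to the special linear group -/
noncomputable def hm (F : Type) [Field F] (n : ℕ) :
    GL (Fin n ⊕ Unit) F →* SpecialLinearGroup (Fin (n + 2)) F where
  toFun g := ⟨reindexAlgEquiv F F (en n) (bm g), by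
    rw [det_reindexAlgEquiv]
    exact det_bm g⟩
  map_one' := by
    apply Subtype.ext
    show reindexAlgEquiv F F (en n) (bm 1) = 1
    rw [bm_one, map_one]
  map_mul' g h := by
    apply Subtype.ext
    show reindexAlgEquiv F F (en n) (bm (g * h)) =
      reindexAlgEquiv F F (en n) (bm g) * reindexAlgEquiv F F (en n) (bm h)
    rw [bm_mul, map_mul]

theorem hm_center (g : GL (Fin n ⊕ Unit) F)
    (h : hm F n g ∈ Subgroup.center (SpecialLinearGroup (Fin (n + 2)) F))
    (hc : (g : Matrix (Fin n ⊕ Unit) (Fin n ⊕ Unit) F) (Sum.inr ()) (Sum.inr ()) = 1) : g = 1 := by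
  rw [Matrix.SpecialLinearGroup.mem_center_iff] at h
  obtain ⟨r, -, hr⟩ := h
  have hr' : scalar (Fin (n + 2)) r = reindexAlgEquiv F F (en n) (bm g) := hr
  have h1 : scalar ((Fin n ⊕ Unit) ⊕ Unit) r = bm g := by
    apply (reindexAlgEquiv F F (en n)).injective
    rw [← hr']
    ext i j
    simp [scalar_apply, diagonal_apply]
  have h2 : r = 1 := by
    have := congrFun (congrFun h1 (Sum.inl (Sum.inr ()))) (Sum.inl (Sum.inr ()))
    rw [bm, fromBlocks_apply₁₁, hc] at this
    simpa [scalar_apply] using this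
  rw [h2, map_one] at h1
  apply Units.ext
  ext i j
  have := congrFun (congrFun h1 (Sum.inl i)) (Sum.inl j)
  rw [bm, fromBlocks_apply₁₁] at this
  rw [← this]
  simp [Matrix.one_apply]

end PA

theorem p_PA : S_PA := by
  intro F _ n
  refine ⟨(QuotientGroup.mk' (Subgroup.center (SpecialLinearGroup (Fin (n + 2)) F))).comp
    (PA.hm F n), ?_⟩
  intro g hg hc
  exact PA.hm_center g ((QuotientGroup.eq_one_iff _).1 hg) hc

end Pool.Agent.Work.MP_403fb3_lin
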