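import Pool.Agent.Work.MP_403fb3_lin.Interface6

/-!
# Block PAC: matrices with an entry `1` in the projective groups (typed by helper53)
-/

set_option autoImplicit false

namespace Pool.Agent.Work.MP_403fb3_lin

open Matrix

namespace PAC

variable {F : Type} [Field F] {N n : ℕ}

/-- the index set -/
abbrev I (N : ℕ) : Type := (Unit ⊕ Fin N) ⊕ Unit

/-- the block matrix -/
def bm (n : ℕ) (g : SpecialLinearGroup (I N) F) :
    Matrix (I N ⊕ Fin (n - N)) (I N ⊕ Fin (n - N)) F := fromBlocks g.1 0 0 1

theorem bm_one : bm n (1 : SpecialLinearGroup (I N) F) = 1 := fromBlocks_one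

theorem bm_mul (g h : SpecialLinearGroup (I N) F) : bm n (g * h) = bm n g * bm n h := by
  unfold bm
  rw [fromBlocks_multiply]
  simp

theorem det_bm (g : SpecialLinearGroup (I N) F) : (bm n g).det = 1 := by
  unfold bm
  rw [det_fromBlocks_zero₂₁, det_one, mul_one]
  exact g.2

/-- the numbering of the basis -/
noncomputable def en (h : N ≤ n) : I N ⊕ Fin (n - N) ≃ Fin (n + 2) :=
  Fintype.equivFinOfCardEq (by
    rw [Fintype.card_sum, Fintype.card_sum, Fintype.card_sum, Fintype.card_fin, Fintype.card_fin,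
      Fintype.card_unit]
    omega)

/-- the homomorphism to the special linear group -/
noncomputable def hm (F : Type) [Field F] (h : N ≤ n) :
    SpecialLinearGroup (I N) F →* SpecialLinearGroup (Fin (n + 2)) F where
  toFun g := ⟨reindexAlgEquiv F F (en h) (bm n g), by
    rw [det_reindexAlgEquiv]
    exact det_bm g⟩
  map_one' := by
    apply Subtype.ext
    show reindexAlgEquiv F F (en h) (bm n 1) = 1
    rw [bm_one, map_one]
  map_mul' g g' := by
    apply Subtype.ext
    show reindexAlgEquiv F F (en h) (bm n (g * g')) =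
      reindexAlgEquiv F F (en h) (bm n g) * reindexAlgEquiv F F (en h) (bm n g')
    rw [bm_mul, map_mul]

theorem hm_scalar (h : N ≤ n) (g : SpecialLinearGroup (I N) F) (r : F)
    (hr : scalar (Fin (n + 2)) r = (hm F h g).1)
    (hc : g.1 (Sum.inr ()) (Sum.inr ()) = 1) : g = 1 := by
  have hr' : scalar (Fin (n + 2)) r = reindexAlgEquiv F F (en h) (bm n g) := hr
  have h1 : scalar (I N ⊕ Fin (n - N)) r = bm n g := by
    apply (reindexAlgEquiv F F (en h)).injective
    rw [← hr']
    ext i j
    simp [scalar_apply, diagonal_apply]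
  have h2 : r = 1 := by
    have := congrFun (congrFun h1 (Sum.inl (Sum.inr ()))) (Sum.inl (Sum.inr ()))
    rw [bm, fromBlocks_apply₁₁, hc] at this
    simpa [scalar_apply] using this
  rw [h2, map_one] at h1
  apply Subtype.ext
  ext i j
  have := congrFun (congrFun h1 (Sum.inl i)) (Sum.inl j)
  rw [bm, fromBlocks_apply₁₁] at this
  rw [← this]
  simp [Matrix.one_apply]

end PAC

theorem p_PAC (hPSP : S_PSP) : S_PAC := by
  intro F _ N n h
  constructor
  · refine ⟨(QuotientGroup.mk' (Subgroup.center (SpecialLinearGroup (Fin (n + 2)) F))).comp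
      (PAC.hm F h), ?_⟩
    intro g hg hc
    have h1 : PAC.hm F h g ∈ Subgroup.center (SpecialLinearGroup (Fin (n + 2)) F) :=
      (QuotientGroup.eq_one_iff _).1 hg
    rw [Matrix.SpecialLinearGroup.mem_center_iff] at h1
    obtain ⟨r, -, hr⟩ := h1
    exact PAC.hm_scalar h g r hr hc
  · obtain ⟨f, hf⟩ := hPSP F (n + 2)
    refine ⟨(f.comp Matrix.SpecialLinearGroup.toGL).comp (PAC.hm F h), ?_⟩
    intro g hg hc
    obtain ⟨r, hr⟩ := hf _ hg
    exact PAC.hm_scalar h g r hr.symm hc

end Pool.Agent.Work.MP_403fb3_lin
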