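import Pool.Agent.Work.MP_403fb3_lin.Interface

/-!
# Renaming of the index set and a larger dimension
-/

set_option autoImplicit false

namespace Pool.Agent.Work.MP_403fb3_lin

open Matrix

namespace PAD

/-- `g ↦ diag (g, 1)` as matrices -/
def blk (F : Type) [Field F] (ι κ : Type) [Fintype ι] [DecidableEq ι] [Fintype κ] [DecidableEq κ] :
    Matrix ι ι F →* Matrix (ι ⊕ κ) (ι ⊕ κ) F where
  toFun g := fromBlocks g 0 0 1
  map_one' := fromBlocks_one
  map_mul' a b := by
    rw [fromBlocks_multiply]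
    simp

theorem blk_inj (F : Type) [Field F] (ι κ : Type) [Fintype ι] [DecidableEq ι] [Fintype κ] [DecidableEq κ] :
    Function.Injective (blk F ι κ) := by
  intro a b h
  exact (fromBlocks_inj.1 h).1

theorem units_inj {M N : Type} [Monoid M] [Monoid N] (f : M →* N) (hf : Function.Injective f) :
    Function.Injective (Units.map f) := by
  intro a b h
  apply Units.ext
  apply hf
  exact congrArg Units.val h

end PAD

open PAD

theorem p_PAD : S_PAD := by
  intro F _ ι _ _ n hn
  obtain ⟨k, rfl⟩ := Nat.exists_eq_add_of_le hn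
  let e1 : ι ≃ Fin (Fintype.card ι) := Fintype.equivFin ι
  let e2 : Fin (Fintype.card ι) ⊕ Fin k ≃ Fin (Fintype.card ι + k) := finSumFinEquiv
  let r1 : Matrix ι ι F →* Matrix (Fin (Fintype.card ι)) (Fin (Fintype.card ι)) F :=
    ((Matrix.reindexAlgEquiv F F e1).toMulEquiv : Matrix ι ι F →* _)
  let r2 : Matrix (Fin (Fintype.card ι) ⊕ Fin k) (Fin (Fintype.card ι) ⊕ Fin k) F →*
      Matrix (Fin (Fintype.card ι + k)) (Fin (Fintype.card ι + k)) F :=
    ((Matrix.reindexAlgEquiv F F e2).toMulEquiv : Matrix (Fin (Fintype.card ι) ⊕ Fin k) _ F →* _)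
  refine ⟨Units.map ((r2.comp (blk F _ (Fin k))).comp r1), units_inj _ ?_⟩
  intro a b h
  have h1 := (Matrix.reindexAlgEquiv F F e2).injective h
  exact (Matrix.reindexAlgEquiv F F e1).injective (blk_inj F _ _ h1)

end Pool.Agent.Work.MP_403fb3_lin
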