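import Pool.Agent.Work.MP_403fb3_lin.Interface3

/-!
# Block PB: affine groups in the projective symplectic groups
-/

set_option autoImplicit false

namespace Pool.Agent.Work.MP_403fb3_lin

open Matrix Subgroup

/-- `PB` -/
theorem p_PB (hPSP : S_PSP) : S_PB := by
  classical
  intro F _ n
  let e : Fin n ⊕ Unit ≃ Fin (n + 1) := Fintype.equivOfCardEq (by simp)
  obtain ⟨f, hf⟩ := hPSP F (n + 1)
  let f0 : GL (Fin n ⊕ Unit) F →* GL (Fin (n + 1)) F :=
    Units.map ((Matrix.reindexAlgEquiv F F e : Matrix (Fin n ⊕ Unit) (Fin n ⊕ Unit) F →ₐ[F]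
      Matrix (Fin (n + 1)) (Fin (n + 1)) F) : Matrix (Fin n ⊕ Unit) (Fin n ⊕ Unit) F →*
      Matrix (Fin (n + 1)) (Fin (n + 1)) F)
  have hf0 : ∀ g : GL (Fin n ⊕ Unit) F, (f0 g : Matrix (Fin (n + 1)) (Fin (n + 1)) F) =
      Matrix.reindex e e (g : Matrix (Fin n ⊕ Unit) (Fin n ⊕ Unit) F) := fun g => rfl
  refine ⟨f.comp f0, fun g hg hc => ?_⟩
  obtain ⟨c, hcc⟩ := hf _ hg
  rw [hf0] at hcc
  have hent : ∀ i j : Fin n ⊕ Unit, (g : Matrix (Fin n ⊕ Unit) (Fin n ⊕ Unit) F) i j =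
      if i = j then c else 0 := by
    intro i j
    have h1 := congrFun (congrFun hcc (e i)) (e j)
    rw [Matrix.reindex_apply, Matrix.submatrix_apply, Equiv.symm_apply_apply,
      Equiv.symm_apply_apply, Matrix.scalar_apply, Matrix.diagonal_apply] at h1
    rw [h1]
    simp only [e.injective.eq_iff]
  have hc1 : c = 1 := by
    rw [hent] at hc
    simpa using hc
  refine Units.ext (Matrix.ext fun i j => ?_)
  rw [hent i j, hc1, Units.val_one, Matrix.one_apply]

end Pool.Agent.Work.MP_403fb3_lin
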