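import Pool.Agent.Work.MP_403fb3_lin.Interface

/-!
# Block PSL: `g ↦ diag (g, (det g)⁻¹, 1)` modulo scalars
-/

set_option autoImplicit false

namespace Pool.Agent.Work.MP_403fb3_lin

open Matrix

namespace PSL

variable {F : Type} [Field F] {n : ℕ}

theorem det_ne (g : GL (Fin n) F) : (g : Matrix (Fin n) (Fin n) F).det ≠ 0 :=
  ((isUnit_iff_isUnit_det _).1 g.isUnit).ne_zero

/-- the block matrix -/
def bm (g : GL (Fin n) F) : Matrix (Fin n ⊕ Fin 2) (Fin n ⊕ Fin 2) F :=
  fromBlocks (g : Matrix (Fin n) (Fin n) F) 0 0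
    (diagonal ![((g : Matrix (Fin n) (Fin n) F).det)⁻¹, 1])

theorem bm_one : bm (1 : GL (Fin n) F) = 1 := by
  unfold bm
  rw [← fromBlocks_one]
  have h : (diagonal ![(((1 : GL (Fin n) F) : Matrix (Fin n) (Fin n) F).det)⁻¹, (1 : F)]) = 1 := by
    rw [← diagonal_one]
    congr 1
    funext i
    fin_cases i <;> simp
  rw [h]
  simp

theorem bm_mul (g h : GL (Fin n) F) : bm (g * h) = bm g * bm h := by
  unfold bm
  rw [fromBlocks_multiply, diagonal_mul_diagonal]
  have h1 : (diagonal ![(((g * h : GL (Fin n) F) : Matrix (Fin n) (Fin n) F).det)⁻¹, (1 : F)]) =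
      diagonal (fun i => ![((g : Matrix (Fin n) (Fin n) F).det)⁻¹, (1 : F)] i *
        ![((h : Matrix (Fin n) (Fin n) F).det)⁻¹, (1 : F)] i) := by
    congr 1
    funext i
    fin_cases i
    · show (((g * h : GL (Fin n) F) : Matrix (Fin n) (Fin n) F).det)⁻¹ =
        ((g : Matrix (Fin n) (Fin n) F).det)⁻¹ * ((h : Matrix (Fin n) (Fin n) F).det)⁻¹
      rw [Units.val_mul, det_mul, mul_inv]
    · show (1 : F) = 1 * 1
      rw [one_mul]
  rw [h1]
  simp

theorem det_bm (g : GL (Fin n) F) : (bm g).det = 1 := by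
  unfold bm
  rw [det_fromBlocks_zero₂₁, det_diagonal, Fin.prod_univ_two]
  show (g : Matrix (Fin n) (Fin n) F).det * (((g : Matrix (Fin n) (Fin n) F).det)⁻¹ * 1) = 1
  rw [mul_one, mul_inv_cancel₀ (det_ne g)]

/-- the homomorphism to the special linear group -/
def hm (F : Type) [Field F] (n : ℕ) : GL (Fin n) F →* SpecialLinearGroup (Fin (n + 2)) F where
  toFun g := ⟨reindexAlgEquiv F F finSumFinEquiv (bm g), by
    rw [det_reindexAlgEquiv]
    exact det_bm g⟩
  map_one' := by
    apply Subtype.ext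
    show reindexAlgEquiv F F finSumFinEquiv (bm 1) = 1
    rw [bm_one, map_one]
  map_mul' g h := by
    apply Subtype.ext
    show reindexAlgEquiv F F finSumFinEquiv (bm (g * h)) =
      reindexAlgEquiv F F finSumFinEquiv (bm g) * reindexAlgEquiv F F finSumFinEquiv (bm h)
    rw [bm_mul, map_mul]

theorem hm_center (g : GL (Fin n) F)
    (h : hm F n g ∈ Subgroup.center (SpecialLinearGroup (Fin (n + 2)) F)) : g = 1 := by
  rw [Matrix.SpecialLinearGroup.mem_center_iff] at h
  obtain ⟨r, -, hr⟩ := h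
  have hr' : scalar (Fin (n + 2)) r = reindexAlgEquiv F F finSumFinEquiv (bm g) := hr
  have h1 : scalar (Fin n ⊕ Fin 2) r = bm g := by
    apply (reindexAlgEquiv F F (finSumFinEquiv (m := n) (n := 2))).injective
    rw [← hr']
    ext i j
    simp [scalar_apply, diagonal_apply]
  have h2 : r = 1 := by
    have := congrFun (congrFun h1 (Sum.inr 1)) (Sum.inr 1)
    simpa [bm, scalar_apply] using this
  rw [h2, map_one] at h1
  apply Units.ext
  ext i j
  have := congrFun (congrFun h1 (Sum.inl i)) (Sum.inl j)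
  rw [bm, fromBlocks_apply₁₁] at this
  rw [← this]
  simp [Matrix.one_apply]

end PSL

theorem p_PSL : S_PSL := by
  intro F _ n
  refine ⟨(QuotientGroup.mk' (Subgroup.center (SpecialLinearGroup (Fin (n + 2)) F))).comp
    (PSL.hm F n), ?_⟩
  rw [injective_iff_map_eq_one]
  intro g hg
  exact PSL.hm_center g ((QuotientGroup.eq_one_iff _).1 hg)

end Pool.Agent.Work.MP_403fb3_lin
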