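import Pool.Agent.Work.MP_403fb3_lin.Interface3

/-!
# RG: renaming of the index set
-/

set_option autoImplicit false

namespace Pool.Agent.Work.MP_403fb3_lin

open Matrix Subgroup
open Pool.Agent.Work.MP_403fb3_al_helper9

theorem p_RG : S_RG := by
  intro F _ ι _ _ n d hn hG
  obtain ⟨x, y, hxy, h2, hv⟩ := hG
  let e : ι ≃ Fin n := Fintype.equivFinOfCardEq hn
  let R : Matrix ι ι F ≃ₐ[F] Matrix (Fin n) (Fin n) F := Matrix.reindexAlgEquiv F F e
  let f : GL ι F ≃* GL (Fin n) F := Units.mapEquiv (R : Matrix ι ι F ≃* Matrix (Fin n) (Fin n) F)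
  have hf : ∀ g : GL ι F, (f g : Matrix (Fin n) (Fin n) F) = (g : Matrix ι ι F).submatrix e.symm e.symm := by
    intro g
    rfl
  have hev : ∀ w : F2, ev2 (f x) (f y) w = f (ev2 x y w) := fun w =>
    (ev2_comp (f : GL ι F →* GL (Fin n) F) x y w).symm
  refine ⟨f x, f y, hxy.map (f : GL ι F →* GL (Fin n) F) f.injective, ?_, ?_⟩
  · intro w hw
    rw [hev, ← map_mul, h2 w hw, map_one]
  · intro v hfix
    have h0 : v ∘ e = 0 := by
      apply hv
      intro w hw
      have h3 := hfix w hw
      rw [hev, hf, Matrix.submatrix_mulVec_equiv] at h3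
      funext i
      have h4 := congrFun h3 (e i)
      simpa using h4
    funext i
    have := congrFun h0 (e.symm i)
    simpa using this

end Pool.Agent.Work.MP_403fb3_lin
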