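import Pool.Agent.Work.MP_403fb3_lin.Fin

/-!
# Two-generator soluble groups in the varieties generated by the classical groups: the last theorem
-/

set_option autoImplicit false

namespace Pool.Agent.Work.MP_403fb3_lin

open Matrix Subgroup
open Pool.Agent.Work.MP_403fb3_al_helper9

/-- least degree of a soluble permutation group of derived length `d` -/
def symDeg : ℕ → ℕ
  | 0 => 0
  | 1 => 2
  | 2 => 3
  | 3 => 4
  | 4 => 8
  | 5 => 9
  | 6 => 16
  | 7 => 27
  | 8 => 36
  | 9 => 64
  | (d + 10) => 9 * symDeg (d + 5)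

/-- least degree of a soluble group of even permutations of derived length `d` -/
def altDeg : ℕ → ℕ
  | 0 => 0
  | 1 => 3
  | 2 => 4
  | 3 => 6
  | 4 => 8
  | 5 => 11
  | (d + 6) => symDeg (d + 6)

theorem symDeg_eq (d : ℕ) : symDeg (d + 1) = fj (d + 1) := by
  induction d using Nat.strong_induction_on with
  | _ d ih =>
    rcases d with _ | _ | _ | _ | _ | _ | _ | _ | _ | d
    all_goals try rfl
    change 9 * symDeg (d + 5) = 9 * fj (d + 5)
    rw [ih (d + 4) (by omega)]

theorem altDeg_eq (d : ℕ) : altDeg (d + 1) = am d := by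
  rcases d with _ | _ | _ | _ | _ | d
  all_goals try rfl
  change symDeg (d + 6) = fj (d + 6)
  exact symDeg_eq (d + 5)

theorem alt_inVar {G : Type} [Group G] {n d : ℕ} (h : altDeg d ≤ n)
    (hf : ∃ f : alternatingGroup (Fin n) →* G, Function.Injective f) : InVar G d := by
  rcases d with _ | d
  · exact inVar_zero G
  · rw [altDeg_eq] at h
    obtain ⟨f, hf⟩ := hf
    exact inVar_exact ((Has.map (alt_exists h) f hf).closure)

theorem sym_inVar {G : Type} [Group G] {n d : ℕ} (h : symDeg d ≤ n)
    (hf : ∃ f : Equiv.Perm (Fin n) →* G, Function.Injective f) : InVar G d := by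
  rcases d with _ | d
  · exact inVar_zero G
  · rw [symDeg_eq] at h
    obtain ⟨f, hf⟩ := hf
    exact inVar_exact ((Has.map (sym_exists h) f hf).closure)

end Pool.Agent.Work.MP_403fb3_lin
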