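import Pool.Agent.Work.MP_403fb3_lin.Interface3

/-!
# Block TL (helper67): the labels of the derived series
-/

set_option autoImplicit false

namespace Pool.Agent.Work.MP_403fb3_lin

open Matrix Subgroup
open Pool.Agent.Work.MP_403fb3_al_helper9

theorem p_TL : S_TL := by
  intro D m td G _ b1 b2 i w hw
  have hmw : w ∈ derivedSeries F2 m := derivedSeries_antitone F2 (Nat.le_add_right m i) hw
  have hs : ∀ {B : Type} [Group B] (c1 c2 : B) (v : F2), (ev2 (td.T1 c1 c2) (td.T2 c1 c2) v).s = ev2 td.a1 td.a2 v := by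
    intro B _ c1 c2 v
    have := ev2_comp (Wr.toPerm (D := D) (B := B)) (td.T1 c1 c2) (td.T2 c1 c2) v
    change (ev2 (td.T1 c1 c2) (td.T2 c1 c2) v).s = ev2 (td.T1 c1 c2).s (td.T2 c1 c2).s v at this
    rw [this, td.s1, td.s2]
  refine ⟨by rw [hs, td.hm w hmw], fun p => ?_⟩
  let x1 : F2 := FreeGroup.of 0
  let x2 : F2 := FreeGroup.of 1
  let Φ : F2 →* Wr D F2 := ev2 (td.T1 x1 x2) (td.T2 x1 x2)
  have hm : ∀ v ∈ derivedSeries F2 m, (Φ v).s = 1 := fun v hv => by rw [hs, td.hm v hv]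
  obtain ⟨x, hx, rfl⟩ := derived_le_map' (derivedSeries F2 m) le_rfl i hw
  refine ⟨(Φ x).f p, ?_, ?_⟩
  · exact map_derivedSeries_le_derivedSeries (evAt Φ (derivedSeries F2 m) hm p) i (Subgroup.mem_map_of_mem _ hx)
  · have h1 := ev2_comp (Wr.map (D := D) (ev2 b1 b2)) (td.T1 x1 x2) (td.T2 x1 x2) (x : F2)
    rw [td.nat1, td.nat2, ev2_zero, ev2_one] at h1
    exact (congrFun (congrArg Wr.f h1) p).symm

end Pool.Agent.Work.MP_403fb3_lin
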