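import Pool.Agent.Work.MP_403fb3_lin.Interface8
import Pool.Agent.Work.MP_403fb3_lin.B8X
import Pool.Agent.Work.MP_403fb3_lin.B8M
import Pool.Agent.Work.MP_403fb3_lin.B8F

/-!
# Block UB8: the unitary base pair in dimension eight
-/

set_option autoImplicit false

namespace Pool.Agent.Work.MP_403fb3_lin

open Matrix Subgroup Kronecker
open scoped commutatorElement
open Pool.Agent.Work.MP_403fb3_al_helper9

namespace UB8

open B8 B8F in
theorem core (hU : S_B8U) (hW : S_B8W) {F : Type} [Field F] (h2 : (2 : F) ≠ 0)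
    (Y : ℕ → Matrix (Fin 8) (Fin 8) F) (hY : B8.Rules Y)
    (hC : ∀ M : Matrix (Fin 8) (Fin 8) F, (∀ p < 128, M * Y p = Y p * M) →
      ∃ c : F, M = scalar (Fin 8) c)
    (h2R : IsUnit (2 : Matrix (Fin 8) (Fin 8) F)) (x y : GL (Fin 8) F)
    (hx : B8.Rel Y x B8.Tx B8.Ux) (hy : B8.Rel Y y B8.Ty B8.Uy) :
    GG x y 7 ∧ (∀ w ∈ derivedSeries F2 7, ev2 x y w ^ 2 = 1) ∧
    ∀ v : Fin 8 → F, (∀ w ∈ derivedSeries F2 7,
      (ev2 x y w : Matrix (Fin 8) (Fin 8) F) *ᵥ v = v) → v = 0 := by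
  have hpm : ∀ p < 128, Y (p ^^^ 1) = -Y p := by
    intro p hp
    have e : B8.pm 1 p = p ^^^ 1 := by
      have h3 : ∀ p < 128, B8.pm 1 p = p ^^^ 1 := by decide +kernel
      exact h3 p hp
    have h3 := hY.1 1 (by norm_num) p hp
    rw [hY.2.2, e] at h3
    rw [← h3, neg_one_mul]
  have hD6 : ∀ w ∈ derivedSeries F2 6, ev2 x y w ∈ Kg Y := by
    intro w hw p hp
    rcases hU _ Y x y hY hx hy w hw p hp with h | h
    · exact Or.inl h
    · right
      rw [h, hpm p hp, neg_mul]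
  have hD7 : ∀ w ∈ derivedSeries F2 7, ev2 x y w ∈ Zg (Matrix (Fin 8) (Fin 8) F) := by
    intro w hw
    have h5 : ev2 x y w ∈ (⁅derivedSeries F2 6, derivedSeries F2 6⁆).map (ev2 x y) :=
      Subgroup.mem_map_of_mem _ hw
    rw [Subgroup.map_commutator] at h5
    have h4 : (derivedSeries F2 6).map (ev2 x y) ≤ Kg Y := by
      rintro _ ⟨w', hw', rfl⟩
      exact hD6 w' hw'
    exact (Subgroup.commutator_le.2 fun g hg h hh => key Y hC hg hh)
      (Subgroup.commutator_mono h4 h4 h5)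
  have hD8 : ∀ w ∈ derivedSeries F2 8, ev2 x y w = 1 := by
    intro w hw
    have h5 : ev2 x y w ∈ (⁅derivedSeries F2 7, derivedSeries F2 7⁆).map (ev2 x y) :=
      Subgroup.mem_map_of_mem _ hw
    rw [Subgroup.map_commutator] at h5
    have h4 : (derivedSeries F2 7).map (ev2 x y) ≤ Zg (Matrix (Fin 8) (Fin 8) F) := by
      rintro _ ⟨w', hw', rfl⟩
      exact hD7 w' hw'
    have h6 : ⁅Zg (Matrix (Fin 8) (Fin 8) F), Zg (Matrix (Fin 8) (Fin 8) F)⁆ ≤ ⊥ :=
      Subgroup.commutator_le.2 fun g hg h hh => by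
        rw [Subgroup.mem_bot, commutatorElement_eq_one_iff_mul_comm]
        exact Zg_comm hg hh
    exact Subgroup.mem_bot.1 (h6 (Subgroup.commutator_mono h4 h4 h5))
  obtain ⟨w, hw, w', hw', hA, hB⟩ := hW _ Y x y hx hy
  have hmem : ⁅w, w'⁆ ∈ derivedSeries F2 7 := Subgroup.commutator_mem_commutator hw hw'
  have hYY : Y 52 * Y 52 = 1 ∨ Y 52 * Y 52 = -1 := by
    have h3 := hY.1 52 (by norm_num) 52 (by norm_num)
    have h4 : B8.pm 52 52 = 0 ∨ B8.pm 52 52 = 1 := by decide +kernel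
    rcases h4 with h4 | h4
    · left
      rw [h3, h4, hY.2.1]
    · right
      rw [h3, h4, hY.2.2]
  have hne : ev2 x y ⁅w, w'⁆ ≠ 1 := by
    rw [map_commutatorElement, Ne, commutatorElement_eq_one_iff_mul_comm]
    intro h4
    -- `ev w * Y 52` is scalar
    obtain ⟨a, ha⟩ := hC ((ev2 x y w : Matrix (Fin 8) (Fin 8) F) * Y 52) (by
      intro p hp
      have hc := hA p hp
      have e1 := hY.1 52 (by norm_num) p hp
      have e2 := hY.1 p hp 52 (by norm_num)
      by_cases h5 : B8.pm 52 p = B8.pm p 52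
      · have e3 := hc.1 h5
        have e4 : Y 52 * Y p = Y p * Y 52 := by rw [e1, e2, h5]
        rw [mul_assoc, e4, ← mul_assoc, e3, mul_assoc]
      · have e3 := hc.2 h5
        have h6 : B8.pm 52 p = B8.pm p 52 ^^^ 1 ∧ B8.pm p 52 < 128 := by
          have h7 : ∀ p < 128, B8.pm 52 p ≠ B8.pm p 52 →
            B8.pm 52 p = B8.pm p 52 ^^^ 1 ∧ B8.pm p 52 < 128 := by decide +kernel
          exact h7 p hp h5
        have e4 : Y 52 * Y p = -(Y p * Y 52) := by rw [e1, e2, h6.1, hpm _ h6.2]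
        rw [hpm p hp, neg_mul] at e3
        rw [mul_assoc, e4, mul_neg, ← mul_assoc, e3, neg_mul, neg_neg, mul_assoc])
    have h5 : (ev2 x y w' : Matrix (Fin 8) (Fin 8) F) * Y 52 = -(Y 52 * ev2 x y w') := by
      have e3 := (hB 52 (by norm_num)).2 (by decide +kernel)
      rw [e3, hpm 52 (by norm_num), neg_mul]
    have h6 : (ev2 x y w' : Matrix (Fin 8) (Fin 8) F) * ((ev2 x y w : Matrix (Fin 8) (Fin 8) F) * Y 52) =
        ((ev2 x y w : Matrix (Fin 8) (Fin 8) F) * Y 52) * ev2 x y w' := by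
      rw [ha]
      exact (scalar_commute a (fun r => mul_comm a r) _).symm
    have h7 := congrArg Units.val h4
    rw [Units.val_mul, Units.val_mul] at h7
    have h8 : (ev2 x y w : Matrix (Fin 8) (Fin 8) F) * (Y 52 * ev2 x y w') =
        -((ev2 x y w : Matrix (Fin 8) (Fin 8) F) * (Y 52 * ev2 x y w')) := by
      calc (ev2 x y w : Matrix (Fin 8) (Fin 8) F) * (Y 52 * ev2 x y w')
          = ((ev2 x y w : Matrix (Fin 8) (Fin 8) F) * Y 52) * ev2 x y w' := by rw [mul_assoc]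
        _ = (ev2 x y w' : Matrix (Fin 8) (Fin 8) F) * ((ev2 x y w : Matrix (Fin 8) (Fin 8) F) * Y 52) :=
          h6.symm
        _ = ((ev2 x y w' : Matrix (Fin 8) (Fin 8) F) * (ev2 x y w : Matrix (Fin 8) (Fin 8) F)) * Y 52 := by
          rw [mul_assoc]
        _ = ((ev2 x y w : Matrix (Fin 8) (Fin 8) F) * (ev2 x y w' : Matrix (Fin 8) (Fin 8) F)) * Y 52 := by
          rw [h7]
        _ = (ev2 x y w : Matrix (Fin 8) (Fin 8) F) * ((ev2 x y w' : Matrix (Fin 8) (Fin 8) F) * Y 52) := by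
          rw [mul_assoc]
        _ = _ := by rw [h5, mul_neg]
    have h9 : (ev2 x y w : Matrix (Fin 8) (Fin 8) F) * (Y 52 * ev2 x y w') = 0 := by
      have h10 : (2 : Matrix (Fin 8) (Fin 8) F) * ((ev2 x y w : Matrix (Fin 8) (Fin 8) F) *
          (Y 52 * ev2 x y w')) = 0 := by
        rw [two_mul]
        nth_rewrite 1 [h8]
        rw [neg_add_cancel]
      exact (h2R.mul_right_eq_zero).1 h10
    have h11 : Y 52 * (ev2 x y w' : Matrix (Fin 8) (Fin 8) F) = 0 :=
      ((ev2 x y w).isUnit.mul_right_eq_zero).1 h9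
    have h12 : Y 52 = 0 := ((ev2 x y w').isUnit.mul_left_eq_zero).1 h11
    rcases hYY with h13 | h13
    · rw [h12, mul_zero] at h13
      exact zero_ne_one h13
    · rw [h12, mul_zero] at h13
      have h14 : (1 : Matrix (Fin 8) (Fin 8) F) = 0 := by
        rw [← neg_neg (1 : Matrix (Fin 8) (Fin 8) F), ← h13, neg_zero]
      exact one_ne_zero h14
  refine ⟨⟨hD8, ⁅w, w'⁆, hmem, hne⟩, ?_, ?_⟩
  · intro u hu
    rcases hD7 u hu with h | h
    · rw [h, one_pow]
    · rw [h, neg_sq, one_pow]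
  · intro v hv
    have h3 := hv _ hmem
    rcases hD7 _ hmem with h | h
    · exact absurd h hne
    · rw [h, Units.val_neg, Units.val_one, neg_mulVec, one_mulVec] at h3
      funext i
      have h4 := congrFun h3 i
      have h5 : (2 : F) * v i = 0 := by
        rw [Pi.neg_apply] at h4
        linear_combination -h4
      exact (mul_eq_zero.1 h5).resolve_left h2


variable {F : Type} [Field F] [StarRing F]

/-- unitary -/
def St {n : Type} [Fintype n] [DecidableEq n] (M : Matrix n n F) : Prop := M * star M = 1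

theorem St.kron {n m : Type} [Fintype n] [DecidableEq n] [Fintype m] [DecidableEq m]
    {M : Matrix n n F} {N : Matrix m m F} (hM : St M) (hN : St N) : St (M ⊗ₖ N) := by
  unfold St at *
  rw [Matrix.star_eq_conjTranspose, Matrix.conjTranspose_kronecker, ← Matrix.mul_kronecker_mul,
    ← Matrix.star_eq_conjTranspose, ← Matrix.star_eq_conjTranspose, hM, hN,
    Matrix.one_kronecker_one]

theorem St.mul {n : Type} [Fintype n] [DecidableEq n] {M N : Matrix n n F} (hM : St M)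
    (hN : St N) : St (M * N) := by
  unfold St at *
  rw [star_mul, mul_assoc, ← mul_assoc N, hN, one_mul, hM]

theorem St.A {u v : F} (hu : star u = -u) (hv : star v = -v) (huv : u ^ 2 + v ^ 2 = -1)
    (a b : Bool) : St (B8Mh.A u v a b) := by
  unfold St
  cases a <;> cases b <;> ext i j <;> fin_cases i <;> fin_cases j <;>
    simp [B8Mh.A, Matrix.mul_apply, Fin.sum_univ_two, Matrix.one_apply, Matrix.star_apply, hu, hv] <;>
    first
      | ring1
      | linear_combination huv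
      | linear_combination (-1 : F) * huv

theorem St.B (a b : Bool) : St (B8Mh.B a b : Matrix (Fin 2) (Fin 2) F) := by
  unfold St
  cases a <;> cases b <;> ext i j <;> fin_cases i <;> fin_cases j <;>
    simp [B8Mh.B, Matrix.mul_apply, Fin.sum_univ_two, Matrix.one_apply, Matrix.star_apply]

theorem St.sg {n : Type} [Fintype n] [DecidableEq n] {M : Matrix n n F} (hM : St M) (b : Bool) :
    St ((B8Mh.sg b : F) • M) := by
  cases b
  · simpa [B8Mh.sg] using hM
  · unfold St at *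
    simpa [B8Mh.sg] using hM

theorem St.Y1 {u v : F} (hu : star u = -u) (hv : star v = -v) (huv : u ^ 2 + v ^ 2 = -1) (p : ℕ) :
    St (B8Mh.Y1 u v p) := by
  unfold B8Mh.Y1
  exact ((St.A hu hv huv _ _).kron ((St.B _ _).kron (St.B _ _))).sg _

theorem St.reindex {n m : Type} [Fintype n] [DecidableEq n] [Fintype m] [DecidableEq m]
    (e : n ≃ m) {M : Matrix n n F} (hM : St M) : St (Matrix.reindexAlgEquiv F F e M) := by
  unfold St at *
  have h : star (Matrix.reindexAlgEquiv F F e M) = Matrix.reindexAlgEquiv F F e (star M) := rfl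
  rw [h, ← map_mul, hM, map_one]

/-- a unitary matrix with the same action as `1 + Y v` -/
theorem refl {n : Type} [Fintype n] [DecidableEq n] {Y : ℕ → Matrix n n F} {l : F}
    (hl : l * star l * 2 = 1) (hY : B8.Rules Y) (hS : ∀ p, St (Y p)) (v : ℕ)
    (hv : v < 128) (hvv : B8.pm v v = 1) (T : ℕ)
    (h1 : ∀ p < 128, (B8.lk T p = p ∧ B8.pm v p = B8.pm p v) ∨
      (B8.lk T p = B8.pm v p ∧ B8.pm (B8.pm v p) v = p ∧ B8.pm v p < 128)) :
    ∃ g : GL n F, St (g : Matrix n n F) ∧ B8X.RelF Y (g : Matrix n n F) (B8.lk T) := by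
  obtain ⟨hm, h0, h11⟩ := hY
  have hsq : Y v * Y v = -1 := by rw [hm v hv v hv, hvv, h11]
  have hst : star (Y v) = -Y v := by
    have h2 : Y v * (Y v * star (Y v)) = Y v := by rw [hS v, mul_one]
    rw [← mul_assoc, hsq, neg_one_mul] at h2
    exact neg_eq_iff_eq_neg.mp h2
  have hss : (1 + Y v) * (1 - Y v) = 2 := by
    have : (1 + Y v) * (1 - Y v) = 1 - Y v * Y v := by noncomm_ring
    rw [this, hsq]
    norm_num
  have hU : St (l • (1 + Y v)) := by
    unfold St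
    rw [star_smul, star_add, star_one, hst, ← sub_eq_add_neg, Matrix.smul_mul, Matrix.mul_smul,
      hss, smul_smul]
    have h3 : (2 : Matrix n n F) = (2 : F) • (1 : Matrix n n F) := by
      rw [ofNat_smul_eq_nsmul, two_nsmul, one_add_one_eq_two]
    rw [h3, smul_smul, hl, one_smul]
  refine ⟨⟨l • (1 + Y v), star (l • (1 + Y v)), hU, mul_eq_one_comm.mp hU⟩, hU, ?_⟩
  intro p hp
  change (l • (1 + Y v)) * Y p = Y (B8.lk T p) * (l • (1 + Y v))
  rw [Matrix.smul_mul, Matrix.mul_smul, add_mul, one_mul, hm v hv p hp, mul_add, mul_one]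
  rcases h1 p hp with ⟨h3, h4⟩ | ⟨h3, h4, h5⟩
  · rw [h3, hm p hp v hv, h4]
  · rw [h3, hm _ h5 v hv, h4, add_comm]

theorem e0 {n : Type} [Fintype n] [DecidableEq n] {Y : ℕ → Matrix n n F} (hY : B8.Rules Y)
    (hS : ∀ p, St (Y p)) :
    ∃ g : GL n F, St (g : Matrix n n F) ∧ B8X.RelF Y (g : Matrix n n F) (B8.lk B8.Te0) := by
  refine ⟨⟨Y 2, star (Y 2), hS 2, mul_eq_one_comm.mp (hS 2)⟩, hS 2, ?_⟩
  obtain ⟨hm, h0, h11⟩ := hY
  intro p hp
  change Y 2 * Y p = Y (B8.lk B8.Te0 p) * Y 2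
  have h : ∀ p < 128, B8.pm 2 p = B8.pm (B8.lk B8.Te0 p) 2 := by decide +kernel
  rw [hm 2 (by norm_num) p hp, hm _ (B8.lk_lt _ _) 2 (by norm_num), h p hp]

theorem xy {n : Type} [Fintype n] [DecidableEq n] {Y : ℕ → Matrix n n F} {l : F}
    (hl : l * star l * 2 = 1) (hY : B8.Rules Y) (hS : ∀ p, St (Y p)) :
    ∃ x y : GL n F, IsU x ∧ IsU y ∧ B8.Rel Y x B8.Tx B8.Ux ∧ B8.Rel Y y B8.Ty B8.Uy := by
  obtain ⟨g, sg, hg⟩ := e0 hY hS
  obtain ⟨g0, s0, h0⟩ := refl hl hY hS 20 (by norm_num) (by decide +kernel) B8.Tr0 B8X.c0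
  obtain ⟨g1, s1, h1⟩ := refl hl hY hS 74 (by norm_num) (by decide +kernel) B8.Tr1 B8X.c1
  obtain ⟨g2, s2, h2'⟩ := refl hl hY hS 122 (by norm_num) (by decide +kernel) B8.Tr2 B8X.c2
  obtain ⟨g3, s3, h3⟩ := refl hl hY hS 96 (by norm_num) (by decide +kernel) B8.Tr3 B8X.c3
  obtain ⟨g4, s4, h4⟩ := refl hl hY hS 56 (by norm_num) (by decide +kernel) B8.Tr4 B8X.c4
  obtain ⟨g5, s5, h5⟩ := refl hl hY hS 44 (by norm_num) (by decide +kernel) B8.Tr5 B8X.c5
  obtain ⟨g6, s6, h6⟩ := refl hl hY hS 126 (by norm_num) (by decide +kernel) B8.Tr6 B8X.c6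
  have k3 := B8X.relF_mul h3 h4 (fun p _ => B8.lk_lt _ _)
  have k2 := B8X.relF_mul h2' k3 (fun p _ => B8.lk_lt _ _)
  have k1 := B8X.relF_mul h1 k2 (fun p _ => B8.lk_lt _ _)
  have k0 := B8X.relF_mul h0 k1 (fun p _ => B8.lk_lt _ _)
  have kx := B8X.relF_mul hg k0 (fun p _ => B8.lk_lt _ _)
  have ky := B8X.relF_mul h5 h6 (fun p _ => B8.lk_lt _ _)
  refine ⟨g * (g0 * (g1 * (g2 * (g3 * g4)))), g5 * g6, ?_, ?_, ⟨fun p hp => ?_, B8X.ux⟩,
    ⟨fun p hp => ?_, B8X.uy⟩⟩
  · unfold IsU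
    simp only [Units.val_mul]
    exact sg.mul (s0.mul (s1.mul (s2.mul (s3.mul s4))))
  · unfold IsU
    simp only [Units.val_mul]
    exact s5.mul s6
  · have := kx p hp
    beta_reduce at this
    rw [B8X.tx p hp] at this
    simpa only [Units.val_mul] using this
  · have := ky p hp
    beta_reduce at this
    rw [B8X.ty p hp] at this
    simpa only [Units.val_mul] using this

end UB8

theorem p_UB8' (hUN : S_UN) (hU : S_B8U) (hW : S_B8W) : S_UB8 := by
  intro F _ _ _ h2 ht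
  obtain ⟨⟨l, hl⟩, u, v, hu, hv, huv⟩ := hUN F h2 ht
  let e : Fin 2 × (Fin 2 × Fin 2) ≃ Fin 8 := Fintype.equivFinOfCardEq (by simp)
  let φ := Matrix.reindexAlgEquiv F F e
  let Y : ℕ → Matrix (Fin 8) (Fin 8) F := fun p => φ (B8Mh.Y1 u v p)
  have hY : B8.Rules Y := by
    refine ⟨fun p _ q _ => ?_, ?_, ?_⟩
    · show φ (B8Mh.Y1 u v p) * φ (B8Mh.Y1 u v q) = φ (B8Mh.Y1 u v (B8.pm p q))
      rw [← map_mul, B8Mh.Y1_mul huv]
    · show φ (B8Mh.Y1 u v 0) = 1
      rw [B8Mh.Y1_zero, map_one]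
    · show φ (B8Mh.Y1 u v 1) = -1
      rw [B8Mh.Y1_one, map_neg, map_one]
  have hC : ∀ M : Matrix (Fin 8) (Fin 8) F, (∀ p < 128, M * Y p = Y p * M) →
      ∃ c : F, M = scalar (Fin 8) c := by
    intro M hM
    obtain ⟨c, hc⟩ := B8Mh.scal1 h2 huv (φ.symm M) (by
      intro p hp
      apply φ.injective
      rw [map_mul, map_mul, AlgEquiv.apply_symm_apply]
      exact hM p hp)
    refine ⟨c, ?_⟩
    have h3 : M = φ (scalar _ c) := by rw [← hc, AlgEquiv.apply_symm_apply]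
    rw [h3]
    have h4 : (scalar (Fin 2 × (Fin 2 × Fin 2)) c : Matrix _ _ F) = algebraMap F _ c := by
      rw [Matrix.algebraMap_eq_diagonal]
      rfl
    rw [h4, AlgEquiv.commutes, Matrix.algebraMap_eq_diagonal]
    rfl
  have hS : ∀ p, UB8.St (Y p) := fun p => (UB8.St.Y1 hu hv huv p).reindex e
  have h2R : IsUnit (2 : Matrix (Fin 8) (Fin 8) F) := by
    have h := (IsUnit.mk0 (2 : F) h2).map (scalar (Fin 8))
    rwa [map_ofNat] at h
  obtain ⟨x, y, ux, uy, hx, hy⟩ := UB8.xy hl hY hS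
  exact ⟨x, y, ux, uy, UB8.core hU hW h2 Y hY hC h2R x y hx hy⟩

end Pool.Agent.Work.MP_403fb3_lin
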