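import Pool.Agent.Work.MP_403fb3_lin.Interface4
import Pool.Agent.Work.MP_403fb3_lin.PAD

/-!
# Unitary groups: renaming of the index set and a larger dimension (typed by helper53)
-/

set_option autoImplicit false

namespace Pool.Agent.Work.MP_403fb3_lin

open Matrix

namespace UP

theorem lift {F : Type} [Field F] [StarRing F] {ι κ : Type} [Fintype ι] [DecidableEq ι] [Fintype κ]
    [DecidableEq κ] (g : Matrix ι ι F →* Matrix κ κ F) (hs : ∀ A, g (star A) = star (g A))
    (hg : Function.Injective g) :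
    ∃ f : ↥(unitaryGroup ι F) →* ↥(unitaryGroup κ F), Function.Injective f := by
  have hmem : ∀ u : ↥(unitaryGroup ι F),
      (g.comp (unitaryGroup ι F).subtype) u ∈ unitaryGroup κ F := by
    intro u
    change g (u : Matrix ι ι F) ∈ unitaryGroup κ F
    rw [mem_unitaryGroup_iff, ← hs, ← map_mul, mem_unitaryGroup_iff.1 u.2, map_one]
  refine ⟨(g.comp (unitaryGroup ι F).subtype).codRestrict (unitaryGroup κ F) hmem, ?_⟩
  intro a b h
  apply Subtype.ext
  apply hg
  exact congrArg Subtype.val h

theorem reindex_star {F : Type} [Field F] [StarRing F] {ι κ : Type} [Fintype ι] [DecidableEq ι]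
    [Fintype κ] [DecidableEq κ] (e : ι ≃ κ) (A : Matrix ι ι F) :
    Matrix.reindexAlgEquiv F F e (star A) = star (Matrix.reindexAlgEquiv F F e A) := by
  rw [star_eq_conjTranspose, star_eq_conjTranspose]
  exact (conjTranspose_submatrix A e.symm e.symm).symm

theorem blk_star {F : Type} [Field F] [StarRing F] {ι κ : Type} [Fintype ι] [DecidableEq ι]
    [Fintype κ] [DecidableEq κ] (A : Matrix ι ι F) :
    PAD.blk F ι κ (star A) = star (PAD.blk F ι κ A) := by
  change fromBlocks (star A) 0 0 1 = star (fromBlocks A 0 0 1)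
  rw [star_eq_conjTranspose, star_eq_conjTranspose, fromBlocks_conjTranspose, conjTranspose_zero,
    conjTranspose_zero, conjTranspose_one]

end UP

open UP in
theorem p_UP : S_UP := by
  intro F _ _ ι _ _ n hn
  obtain ⟨k, rfl⟩ := Nat.exists_eq_add_of_le hn
  let e1 : ι ≃ Fin (Fintype.card ι) := Fintype.equivFin ι
  let e2 : Fin (Fintype.card ι) ⊕ Fin k ≃ Fin (Fintype.card ι + k) := finSumFinEquiv
  let r1 : Matrix ι ι F →* Matrix (Fin (Fintype.card ι)) (Fin (Fintype.card ι)) F :=
    ((Matrix.reindexAlgEquiv F F e1).toMulEquiv : Matrix ι ι F →* _)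
  let r2 : Matrix (Fin (Fintype.card ι) ⊕ Fin k) (Fin (Fintype.card ι) ⊕ Fin k) F →*
      Matrix (Fin (Fintype.card ι + k)) (Fin (Fintype.card ι + k)) F :=
    ((Matrix.reindexAlgEquiv F F e2).toMulEquiv : Matrix (Fin (Fintype.card ι) ⊕ Fin k) _ F →* _)
  refine lift ((r2.comp (PAD.blk F _ (Fin k))).comp r1) ?_ ?_
  · intro A
    change Matrix.reindexAlgEquiv F F e2 (PAD.blk F _ (Fin k)
      (Matrix.reindexAlgEquiv F F e1 (star A))) = star (Matrix.reindexAlgEquiv F F e2
        (PAD.blk F _ (Fin k) (Matrix.reindexAlgEquiv F F e1 A)))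
    rw [reindex_star, blk_star, reindex_star]
  · intro a b h
    have h1 := (Matrix.reindexAlgEquiv F F e2).injective h
    exact (Matrix.reindexAlgEquiv F F e1).injective (PAD.blk_inj F _ _ h1)

end Pool.Agent.Work.MP_403fb3_lin
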