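import Pool.Agent.Work.MP_403fb3_lin.Interface4

/-!
# Block UW: block monomial unitary matrices
-/

set_option autoImplicit false

namespace Pool.Agent.Work.MP_403fb3_lin

open Matrix
open Pool.Agent.Work.MP_403fb3_al_helper9

namespace UW

variable {F : Type} [Field F] [StarRing F] {D : Type} [Fintype D] [DecidableEq D] {m : ℕ}

/-- the block monomial matrix -/
def bmm (w : Wr D ↥(unitaryGroup (Fin m) F)) : Matrix (D × Fin m) (D × Fin m) F := fun p q =>
  if p.1 = w.s q.1 then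
    ((w.f q.1 : ↥(unitaryGroup (Fin m) F)) : Matrix (Fin m) (Fin m) F) p.2 q.2 else 0

theorem bmm_apply (w : Wr D ↥(unitaryGroup (Fin m) F)) (i j : D) (x y : Fin m) :
    bmm w (i, x) (j, y) =
      if i = w.s j then
        ((w.f j : ↥(unitaryGroup (Fin m) F)) : Matrix (Fin m) (Fin m) F) x y else 0 := rfl

theorem bmm_one : bmm (1 : Wr D ↥(unitaryGroup (Fin m) F)) = 1 := by
  ext ⟨i, x⟩ ⟨j, y⟩
  rw [bmm_apply, Matrix.one_apply, Wr.one_s, Wr.one_f, OneMemClass.coe_one, Matrix.one_apply,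
    Equiv.Perm.one_apply]
  by_cases h1 : i = j <;> by_cases h2 : x = y <;> simp [h1, h2]

theorem bmm_mul (u v : Wr D ↥(unitaryGroup (Fin m) F)) : bmm (u * v) = bmm u * bmm v := by
  ext ⟨i, x⟩ ⟨j, y⟩
  rw [Matrix.mul_apply, Fintype.sum_prod_type]
  rw [Finset.sum_eq_single (v.s j) (fun l _ hl => Finset.sum_eq_zero fun z _ => by
    rw [bmm_apply v, if_neg hl, mul_zero]) (fun h => absurd (Finset.mem_univ _) h)]
  simp only [bmm_apply, if_true]
  rw [Wr.mul_s, Wr.mul_f, Equiv.Perm.mul_apply]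
  by_cases h : i = u.s (v.s j)
  · simp only [h, if_true]
    rw [MulMemClass.coe_mul, Matrix.mul_apply]
  · simp [h]

theorem star_bmm (w : Wr D ↥(unitaryGroup (Fin m) F)) : star (bmm w) = bmm (w⁻¹) := by
  ext ⟨i, x⟩ ⟨j, y⟩
  have h0 : star (bmm w) (i, x) (j, y) = star (bmm w (j, y) (i, x)) := rfl
  rw [h0, bmm_apply, bmm_apply, Wr.inv_s, Wr.inv_f]
  by_cases h : j = w.s i
  · have h1 : w.s⁻¹ j = i := by rw [h]; exact w.s.symm_apply_apply i
    rw [if_pos h, h1, if_pos rfl]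
    rfl
  · have h1 : i ≠ w.s⁻¹ j := by
      intro h2
      apply h
      rw [h2]
      exact (w.s.apply_symm_apply j).symm
    rw [if_neg h, if_neg h1, star_zero]

theorem bmm_mem (w : Wr D ↥(unitaryGroup (Fin m) F)) : bmm w ∈ unitaryGroup (D × Fin m) F := by
  rw [mem_unitaryGroup_iff, star_bmm, ← bmm_mul, mul_inv_cancel, bmm_one]

/-- the homomorphism -/
def mh (F : Type) [Field F] [StarRing F] (D : Type) [Fintype D] [DecidableEq D] (m : ℕ) :
    Wr D ↥(unitaryGroup (Fin m) F) →* ↥(unitaryGroup (D × Fin m) F) where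
  toFun w := ⟨bmm w, bmm_mem w⟩
  map_one' := Subtype.ext bmm_one
  map_mul' u v := Subtype.ext (bmm_mul u v)

theorem ne_zero (hm : 0 < m) (g : ↥(unitaryGroup (Fin m) F)) :
    (g : Matrix (Fin m) (Fin m) F) ≠ 0 := by
  intro h
  have h1 := mem_unitaryGroup_iff.1 g.2
  rw [h, Matrix.zero_mul] at h1
  have h2 := congrFun (congrFun h1 ⟨0, hm⟩) ⟨0, hm⟩
  simp at h2

theorem inj (hm : 0 < m) (w : Wr D ↥(unitaryGroup (Fin m) F)) (hw : bmm w = 1) : w = 1 := by
  have hs : ∀ j, w.s j = j := by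
    intro j
    by_contra hne
    apply ne_zero hm (w.f j)
    ext x y
    have h := congrFun (congrFun hw (w.s j, x)) (j, y)
    rw [bmm_apply, if_pos rfl, Matrix.one_apply, if_neg] at h
    · rw [h]; rfl
    · intro h2
      exact hne (Prod.mk.inj h2).1
  apply Wr.ext
  · funext j
    apply Subtype.ext
    ext x y
    have h := congrFun (congrFun hw (j, x)) (j, y)
    rw [bmm_apply, if_pos (hs j).symm] at h
    rw [h, Wr.one_f, OneMemClass.coe_one, Matrix.one_apply, Matrix.one_apply]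
    simp
  · exact Equiv.ext hs

end UW

theorem p_UW : S_UW := by
  intro F _ _ D _ _ m hm
  refine ⟨UW.mh F D m, ?_⟩
  rw [injective_iff_map_eq_one]
  intro w hw
  exact UW.inj hm w (congrArg Subtype.val hw)

end Pool.Agent.Work.MP_403fb3_lin
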