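import Pool.Agent.Work.MP_403fb3_lin.Interface

/-!
# Block WR: the wreath product with a linear group on the direct sum of the blocks
-/

set_option autoImplicit false

namespace Pool.Agent.Work.MP_403fb3_lin

open Matrix
open Pool.Agent.Work.MP_403fb3_al_helper9

namespace WR

variable {F : Type} [Field F] {D : Type} [Fintype D] [DecidableEq D] {m : ℕ}

/-- the block monomial matrix -/
def bmm (w : Wr D (GL (Fin m) F)) : Matrix (D × Fin m) (D × Fin m) F := fun p q =>
  if p.1 = w.s q.1 then ((w.f q.1 : GL (Fin m) F) : Matrix (Fin m) (Fin m) F) p.2 q.2 else 0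

theorem bmm_apply (w : Wr D (GL (Fin m) F)) (i j : D) (x y : Fin m) :
    bmm w (i, x) (j, y) =
      if i = w.s j then ((w.f j : GL (Fin m) F) : Matrix (Fin m) (Fin m) F) x y else 0 := rfl

theorem bmm_one : bmm (1 : Wr D (GL (Fin m) F)) = 1 := by
  ext ⟨i, x⟩ ⟨j, y⟩
  rw [bmm_apply, Matrix.one_apply]
  simp only [Wr.one_s, Equiv.Perm.one_apply, Wr.one_f, Units.val_one, Matrix.one_apply,
    Prod.mk.injEq]
  by_cases h1 : i = j <;> by_cases h2 : x = y <;> simp [h1, h2]

theorem bmm_mul (u v : Wr D (GL (Fin m) F)) : bmm (u * v) = bmm u * bmm v := by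
  ext ⟨i, x⟩ ⟨j, y⟩
  rw [Matrix.mul_apply, Fintype.sum_prod_type]
  rw [Finset.sum_eq_single (v.s j) (fun l _ hl => Finset.sum_eq_zero fun z _ => by
    rw [bmm_apply v, if_neg hl, mul_zero]) (fun h => absurd (Finset.mem_univ _) h)]
  simp only [bmm_apply, if_true]
  rw [Wr.mul_s, Wr.mul_f, Equiv.Perm.mul_apply]
  by_cases h : i = u.s (v.s j)
  · simp only [h, if_true]
    rw [Units.val_mul, Matrix.mul_apply]
  · simp [h]

/-- the homomorphism to the matrices -/
def mh (F : Type) [Field F] (D : Type) [Fintype D] [DecidableEq D] (m : ℕ) :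
    Wr D (GL (Fin m) F) →* Matrix (D × Fin m) (D × Fin m) F where
  toFun := bmm
  map_one' := bmm_one
  map_mul' := bmm_mul

theorem inj (hm : 0 < m) (w : Wr D (GL (Fin m) F)) (hw : bmm w = 1) : w = 1 := by
  haveI : Nonempty (Fin m) := ⟨⟨0, hm⟩⟩
  have hs : ∀ j, w.s j = j := by
    intro j
    by_contra hne
    apply Units.ne_zero (w.f j)
    ext x y
    have h := congrFun (congrFun hw (w.s j, x)) (j, y)
    rw [bmm_apply, if_pos rfl, Matrix.one_apply, if_neg] at h
    · rw [h]; rfl
    · intro h2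
      exact hne (Prod.mk.inj h2).1
  apply Wr.ext
  · funext j
    apply Units.ext
    ext x y
    have h := congrFun (congrFun hw (j, x)) (j, y)
    rw [bmm_apply, if_pos (hs j).symm] at h
    rw [h, Wr.one_f, Units.val_one, Matrix.one_apply, Matrix.one_apply]
    simp
  · exact Equiv.ext hs

end WR

theorem p_WR : S_WR := by
  intro F _ D _ _ m hm
  refine ⟨(WR.mh F D m).toHomUnits, ?_⟩
  rw [injective_iff_map_eq_one]
  intro w hw
  refine WR.inj hm w ?_
  have := congrArg Units.val hw
  exact this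

end Pool.Agent.Work.MP_403fb3_lin
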